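import Mathlib

/-! # MP_4139f5_gt, merged module K1: Defs, Angle, Disc, Inv, Punct, Sep, LocalSep, Mult, Odd -/


/-! ### file Defs -/
section
/-!
# Tight surfaces with boundary (MP_4139f5_gt): definitions

Everything is elementary: embedded discs and half-discs, circle-valued functions and their
angle along paths.
-/

set_option autoImplicit false
open Set Topology Metric

namespace Pool.Agent.Kuiper

/-- The closed upper half-disc. -/
def HD : Set ℂ := {z | ‖z‖ ≤ 1 ∧ 0 ≤ z.im}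

/-- The upper half-disc without its semicircle (but with the open flat side). -/
def HDo : Set ℂ := {z | ‖z‖ < 1 ∧ 0 ≤ z.im}

/-- `δ` is a continuous map, injective on `K`, mapping `O` onto an open set. -/
structure IsEmb {M : Type*} [TopologicalSpace M] (K O : Set ℂ) (δ : ℂ → M) : Prop where
  cont : Continuous δ
  inj : InjOn δ K
  isOpen : IsOpen (δ '' O)

/-- An embedded closed disc whose interior is open in `M`. -/
def IsDisc {M : Type*} [TopologicalSpace M] (δ : ℂ → M) : Prop :=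
  IsEmb (closedBall (0 : ℂ) 1) (ball (0 : ℂ) 1) δ

/-- An embedded closed half-disc; the half-disc minus the semicircle is open in `M`. -/
def IsHalfDisc {M : Type*} [TopologicalSpace M] (δ : ℂ → M) : Prop :=
  IsEmb HD HDo δ

/-- Interior points of the surface. -/
def inn (M : Type*) [TopologicalSpace M] : Set M :=
  {z | ∃ δ : ℂ → M, IsDisc δ ∧ z ∈ δ '' ball (0 : ℂ) 1}

/-- Boundary points of the surface. -/
def bdy (M : Type*) [TopologicalSpace M] : Set M := (inn M)ᶜ

/-- `M` is locally a disc or a half-disc. -/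
class Surf (M : Type*) [TopologicalSpace M] : Prop where
  exists_emb : ∀ z : M, ∀ U ∈ 𝓝 z,
    (∃ δ : ℂ → M, IsDisc δ ∧ δ 0 = z ∧ δ '' closedBall (0 : ℂ) 1 ⊆ U) ∨
    (∃ δ : ℂ → M, IsHalfDisc δ ∧ δ 0 = z ∧ δ '' HD ⊆ U)

/-- The total angle of a circle valued function along `[0,1]`. -/
noncomputable def ang (u : ℝ → Circle) : ℝ :=
  open Classical in
  if h : ∃ θ : ℝ → ℝ, ContinuousOn θ (Icc 0 1) ∧ ∀ t ∈ Icc (0 : ℝ) 1, u t = Circle.exp (θ t)
  then h.choose 1 - h.choose 0 else 0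

/-- Direction of a nonzero complex number. -/
noncomputable def dir (w : ℂ) : Circle := Circle.exp (Complex.arg w)

/-- The unit circle, parametrised by `[0,1]`. -/
noncomputable def circ (t : ℝ) : ℂ := (Circle.exp (2 * Real.pi * t) : Circle)

section Tight

variable {M : Type*} [TopologicalSpace M]
variable {E : Type*} [NormedAddCommGroup E] [InnerProductSpace ℝ E]

/-- All that is used about a tight immersion. -/
structure Tight (f : M → E) : Prop where
  cont : Continuous f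
  locInj : ∀ x, ∃ U ∈ 𝓝 x, InjOn f U
  joined : ∀ (l : E →L[ℝ] ℝ) (c : ℝ) (a b : M), c < l (f a) → c < l (f b) →
    JoinedIn {m | c < l (f m)} a b
  span : affineSpan ℝ (range f) = ⊤
  exposed : ∀ q ∈ (convexHull ℝ (range f)).exposedPoints ℝ, ∃ p ∈ bdy M, f ⁻¹' {q} = {p}

/-- An exposed edge of the convex hull of `f`, with chosen preimages of the ends on the
boundary. -/
structure Edge (f : M → E) where
  p : M
  q : M
  L : E →L[ℝ] ℝ
  top : ℝ
  hp : p ∈ bdy M
  hq : q ∈ bdy M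
  ne : f p ≠ f q
  le_top : ∀ m, L (f m) ≤ top
  eq_seg : {y ∈ convexHull ℝ (range f) | L y = top} = segment ℝ (f p) (f q)

namespace Edge
variable {f : M → E}

/-- The segment. -/
def seg (e : Edge f) : Set E := segment ℝ (f e.p) (f e.q)

/-- The preimage of the cap of thickness `s` around the edge. -/
def cap (e : Edge f) (s : ℝ) : Set M := {m | e.top - s ≤ e.L (f m)}

/-- The edge is bad if its preimage is not contained in the boundary. -/
def Bad (e : Edge f) : Prop := ∃ m, e.L (f m) = e.top ∧ m ∉ bdy M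

end Edge

/-- The two ends of all edges of a family. -/
def verts {f : M → E} {ι : Type*} (e : ι → Edge f) : Set E := ⋃ i, {f (e i).p, f (e i).q}

/-- `r` and `r'` are separated by arbitrarily thin caps around the edges of the family `e`. -/
def Separated {f : M → E} {ι : Type*} (e : ι → Edge f) (r r' : M) : Prop :=
  ∀ s > 0, ∀ S : Set M, IsPreconnected S → r ∈ S → r' ∈ S →
    (∀ i, Disjoint S ((e i).cap s)) → False

end Tight

end Pool.Agent.Kuiper
end


/-! ### file Angle -/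
section
/-! # Angles of circle valued functions, logarithms on star-shaped sets -/

set_option autoImplicit false
open Set Topology Metric

namespace Pool.Agent.Kuiper

theorem exists_log_star {V : Type*} [AddCommGroup V] [Module ℝ V] [TopologicalSpace V]
    [IsTopologicalAddGroup V] [ContinuousSMul ℝ V] {D : Set V} {c : V}
    (hD : StarConvex ℝ c D) (hc : c ∈ D) {F : V → Circle} (hF : ContinuousOn F D) :
    ∃ L : V → ℝ, ContinuousOn L D ∧ ∀ z ∈ D, F z = Circle.exp (L z) := by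
  classical
  obtain ⟨e₀, he₀⟩ := Circle.exp_surjective (F c)
  have hmem : ∀ (t : unitInterval) (a : D), c + (t : ℝ) • ((a : V) - c) ∈ D := by
    intro t a
    have := hD a.2 (sub_nonneg.mpr t.2.2) t.2.1 (by ring)
    convert this using 1
    rw [smul_sub, sub_smul, one_smul]
    abel
  let H : C(unitInterval × D, Circle) :=
    { toFun := fun p => F (c + (p.1 : ℝ) • ((p.2 : V) - c))
      continuous_toFun := by
        have h1 : Continuous (fun p : unitInterval × D => c + (p.1 : ℝ) • ((p.2 : V) - c)) := by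
          fun_prop
        exact hF.comp_continuous h1 (fun p => hmem p.1 p.2) }
  let f₀ : C(D, ℝ) := ContinuousMap.const _ e₀
  have H_0 : ∀ a, H (0, a) = Circle.exp (f₀ a) := by
    intro a
    simp [H, f₀, he₀]
  let T := Circle.isCoveringMap_exp.liftHomotopy H f₀ H_0
  have hT : ∀ p, Circle.exp (T p) = H p :=
    fun p => congrFun (Circle.isCoveringMap_exp.liftHomotopy_lifts H f₀ H_0) p
  refine ⟨fun v => if h : v ∈ D then T (1, ⟨v, h⟩) else 0, ?_, ?_⟩
  · rw [continuousOn_iff_continuous_domRestrict]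
    have : D.domRestrict (fun v => if h : v ∈ D then T (1, ⟨v, h⟩) else 0) =
        fun a : D => T (1, a) := by
      funext a
      simp [Set.domRestrict]
    rw [this]
    fun_prop
  · intro z hz
    simp only [hz, dif_pos]
    rw [hT]
    simp [H]

theorem log_unique {X : Type*} [TopologicalSpace X] {S : Set X} (hS : IsPreconnected S)
    {L L' : X → ℝ} (hL : ContinuousOn L S) (hL' : ContinuousOn L' S)
    (h : ∀ z ∈ S, Circle.exp (L z) = Circle.exp (L' z)) {a b : X} (ha : a ∈ S) (hb : b ∈ S) :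
    L a - L' a = L b - L' b := by
  -- the difference divided by `2π` is an integer valued continuous function
  have hpi := Real.pi_pos
  have hcont : ContinuousOn (fun z => (L z - L' z) / (2 * Real.pi)) S :=
    (hL.sub hL').div_const _
  have hint : ∀ z ∈ S, ∃ m : ℤ, (L z - L' z) / (2 * Real.pi) = m := by
    intro z hz
    obtain ⟨m, hm⟩ := Circle.exp_eq_exp.1 (h z hz)
    refine ⟨m, ?_⟩
    rw [hm]
    field_simp
    ring
  have hpre : IsPreconnected ((fun z => (L z - L' z) / (2 * Real.pi)) '' S) := hS.image _ hcont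
  have key : (fun z => (L z - L' z) / (2 * Real.pi)) a =
      (fun z => (L z - L' z) / (2 * Real.pi)) b := by
    by_contra hne
    have hsub := hpre.ordConnected
    obtain ⟨m, hm⟩ := hint a ha
    obtain ⟨n, hn⟩ := hint b hb
    rcases lt_or_gt_of_ne hne with hlt | hlt
    · have h1 : (m : ℝ) + 1 / 2 ∈ ((fun z => (L z - L' z) / (2 * Real.pi)) '' S) := by
        apply hsub.out (mem_image_of_mem _ ha) (mem_image_of_mem _ hb)
        simp only at hlt ⊢
        rw [hm, hn] at hlt ⊢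
        have : m < n := by exact_mod_cast hlt
        have : (m : ℝ) + 1 ≤ n := by exact_mod_cast this
        constructor <;> linarith
      obtain ⟨z, hz, hz'⟩ := h1
      obtain ⟨k, hk⟩ := hint z hz
      simp only at hz'
      rw [hk] at hz'
      have : (2 * k : ℝ) = 2 * m + 1 := by linarith
      have : (2 * k : ℤ) = 2 * m + 1 := by exact_mod_cast this
      omega
    · have h1 : (n : ℝ) + 1 / 2 ∈ ((fun z => (L z - L' z) / (2 * Real.pi)) '' S) := by
        apply hsub.out (mem_image_of_mem _ hb) (mem_image_of_mem _ ha)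
        simp only at hlt ⊢
        rw [hm, hn] at hlt ⊢
        have : n < m := by exact_mod_cast hlt
        have : (n : ℝ) + 1 ≤ m := by exact_mod_cast this
        constructor <;> linarith
      obtain ⟨z, hz, hz'⟩ := h1
      obtain ⟨k, hk⟩ := hint z hz
      simp only at hz'
      rw [hk] at hz'
      have : (2 * k : ℝ) = 2 * n + 1 := by linarith
      have : (2 * k : ℤ) = 2 * n + 1 := by exact_mod_cast this
      omega
  simp only at key
  have h2 : (2 * Real.pi) ≠ 0 := by positivity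
  exact (div_left_inj' h2).1 key

theorem exists_lift {u : ℝ → Circle} (hu : ContinuousOn u (Icc 0 1)) :
    ∃ θ : ℝ → ℝ, ContinuousOn θ (Icc 0 1) ∧ ∀ t ∈ Icc (0 : ℝ) 1, u t = Circle.exp (θ t) :=
  exists_log_star (c := (0 : ℝ)) ((convex_Icc 0 1).starConvex (by simp)) (by simp) hu

theorem ang_eq {u : ℝ → Circle} {θ : ℝ → ℝ} (hθ : ContinuousOn θ (Icc 0 1))
    (h : ∀ t ∈ Icc (0 : ℝ) 1, u t = Circle.exp (θ t)) : ang u = θ 1 - θ 0 := by
  have hex : ∃ θ : ℝ → ℝ, ContinuousOn θ (Icc 0 1) ∧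
      ∀ t ∈ Icc (0 : ℝ) 1, u t = Circle.exp (θ t) := ⟨θ, hθ, h⟩
  unfold ang
  rw [dif_pos hex]
  have h1 := hex.choose_spec
  have := log_unique (isPreconnected_Icc (a := (0 : ℝ)) (b := 1)) h1.1 hθ
    (fun t ht => by rw [← h1.2 t ht, ← h t ht]) (a := 0) (b := 1) (by simp) (by simp)
  linarith

theorem ang_congr {u v : ℝ → Circle} (h : ∀ t ∈ Icc (0 : ℝ) 1, u t = v t) : ang u = ang v := by
  by_cases hex : ∃ θ : ℝ → ℝ, ContinuousOn θ (Icc 0 1) ∧
      ∀ t ∈ Icc (0 : ℝ) 1, u t = Circle.exp (θ t)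
  · obtain ⟨θ, hθ, h1⟩ := hex
    rw [ang_eq hθ h1, ang_eq hθ (fun t ht => by rw [← h t ht, h1 t ht])]
  · have hex' : ¬ ∃ θ : ℝ → ℝ, ContinuousOn θ (Icc 0 1) ∧
        ∀ t ∈ Icc (0 : ℝ) 1, v t = Circle.exp (θ t) := by
      rintro ⟨θ, hθ, h1⟩
      exact hex ⟨θ, hθ, fun t ht => by rw [h t ht, h1 t ht]⟩
    unfold ang
    rw [dif_neg hex, dif_neg hex']

theorem ang_comp_log {X : Type*} [TopologicalSpace X] {F : X → Circle} {L : X → ℝ} {D : Set X}
    (hL : ContinuousOn L D) (h : ∀ z ∈ D, F z = Circle.exp (L z)) {c : ℝ → X}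
    (hc : ContinuousOn c (Icc 0 1)) (hcD : ∀ t ∈ Icc (0 : ℝ) 1, c t ∈ D) :
    ang (F ∘ c) = L (c 1) - L (c 0) :=
  ang_eq (θ := L ∘ c) (hL.comp hc hcD) (fun t ht => h _ (hcD t ht))

theorem ang_const (z : Circle) : ang (fun _ => z) = 0 := by
  obtain ⟨e₀, he₀⟩ := Circle.exp_surjective z
  rw [ang_eq (θ := fun _ => e₀) continuousOn_const (fun t _ => he₀.symm)]
  simp

theorem ang_mul {u v : ℝ → Circle} (hu : ContinuousOn u (Icc 0 1))
    (hv : ContinuousOn v (Icc 0 1)) : ang (fun t => u t * v t) = ang u + ang v := by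
  obtain ⟨θ, hθ, h1⟩ := exists_lift hu
  obtain ⟨η, hη, h2⟩ := exists_lift hv
  rw [ang_eq hθ h1, ang_eq hη h2, ang_eq (θ := fun t => θ t + η t) (hθ.add hη)
    (fun t ht => by rw [h1 t ht, h2 t ht, Circle.exp_add])]
  ring

theorem exp_int_mul (n : ℤ) (x : ℝ) : Circle.exp (n * x) = Circle.exp x ^ n := by
  have := map_zsmul Circle.expHom n x
  rw [zsmul_eq_mul] at this
  exact this

theorem ang_zpow {u : ℝ → Circle} (hu : ContinuousOn u (Icc 0 1)) (n : ℤ) :
    ang (fun t => u t ^ n) = n * ang u := by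
  obtain ⟨θ, hθ, h1⟩ := exists_lift hu
  rw [ang_eq hθ h1, ang_eq (θ := fun t => (n : ℝ) * θ t) (hθ.const_mul _)
    (fun t ht => by rw [h1 t ht, exp_int_mul])]
  ring

/-- The angle of a closed curve is an integral multiple of `2π`. -/
theorem ang_loop {u : ℝ → Circle} (hu : ContinuousOn u (Icc 0 1)) (h : u 0 = u 1) :
    ∃ n : ℤ, ang u = 2 * Real.pi * n := by
  obtain ⟨θ, hθ, h1⟩ := exists_lift hu
  rw [ang_eq hθ h1]
  have h0 : Circle.exp (θ 1) = Circle.exp (θ 0) := by
    rw [← h1 1 (by simp), ← h1 0 (by simp), h]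
  obtain ⟨m, hm⟩ := Circle.exp_eq_exp.1 h0
  exact ⟨m, by rw [hm]; ring⟩

end Pool.Agent.Kuiper
end


/-! ### file Disc -/
section
/-! # Embedded discs and half-discs -/

set_option autoImplicit false
open Set Topology Metric

namespace Pool.Agent.Kuiper

section Disc
variable {M : Type*} [TopologicalSpace M]

theorem isCompact_HD : IsCompact HD := by
  have : HD = closedBall (0 : ℂ) 1 ∩ {z | 0 ≤ z.im} := by
    ext z; simp [HD]
  rw [this]
  exact (isCompact_closedBall _ _).inter_right (isClosed_le continuous_const Complex.continuous_im)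

theorem convex_HD : Convex ℝ HD := by
  have : HD = closedBall (0 : ℂ) 1 ∩ {z | 0 ≤ z.im} := by
    ext z; simp [HD]
  rw [this]
  exact (convex_closedBall _ _).inter (convex_halfSpace_im_ge 0)

theorem HDo_subset : HDo ⊆ HD := fun _ hz => ⟨hz.1.le, hz.2⟩

theorem HDo_eq : HDo = HD ∩ ball (0 : ℂ) 1 := by
  ext z
  simp only [HDo, HD, mem_setOf_eq, mem_inter_iff, mem_ball, dist_zero_right]
  constructor
  · rintro ⟨h1, h2⟩
    exact ⟨⟨h1.le, h2⟩, h1⟩
  · rintro ⟨⟨_, h2⟩, h1⟩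
    exact ⟨h1, h2⟩

/-- continuous inverse on the image -/
theorem IsEmb.exists_inv [T2Space M] {K O : Set ℂ} {δ : ℂ → M} (h : IsEmb K O δ)
    (hK : IsCompact K) :
    ∃ i : M → ℂ, ContinuousOn i (δ '' K) ∧ ∀ w ∈ K, i (δ w) = w := by
  classical
  have hinv : ∀ w ∈ K, Function.invFunOn δ K (δ w) = w := fun w hw => h.inj.leftInvOn_invFunOn hw
  refine ⟨Function.invFunOn δ K, ?_, hinv⟩
  rw [continuousOn_iff_isClosed]
  intro t ht
  refine ⟨δ '' (K ∩ t), ?_, ?_⟩
  · exact ((hK.inter_right ht).image h.cont).isClosed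
  · ext m
    constructor
    · rintro ⟨hm, ⟨w, hw, rfl⟩⟩
      refine ⟨⟨w, ⟨hw, ?_⟩, rfl⟩, ⟨w, hw, rfl⟩⟩
      have : Function.invFunOn δ K (δ w) ∈ t := hm
      rwa [hinv w hw] at this
    · rintro ⟨⟨w, ⟨hw, hwt⟩, rfl⟩, _⟩
      refine ⟨?_, ⟨w, hw, rfl⟩⟩
      change Function.invFunOn δ K (δ w) ∈ t
      rwa [hinv w hw]

theorem IsEmb.isOpen_image [T2Space M] {K O : Set ℂ} {δ : ℂ → M} (h : IsEmb K O δ)
    (hK : IsCompact K) (hO : O ⊆ K) {V : Set ℂ} (hV : IsOpen V) : IsOpen (δ '' (O ∩ V)) := by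
  have : δ '' (O ∩ V) = δ '' O \ δ '' (K \ V) := by
    ext m
    constructor
    · rintro ⟨w, ⟨hw, hwV⟩, rfl⟩
      refine ⟨⟨w, hw, rfl⟩, ?_⟩
      rintro ⟨w', ⟨hw', hw'V⟩, he⟩
      rw [h.inj hw' (hO hw) he] at hw'V
      exact hw'V hwV
    · rintro ⟨⟨w, hw, rfl⟩, hn⟩
      refine ⟨w, ⟨hw, ?_⟩, rfl⟩
      by_contra hwV
      exact hn ⟨w, ⟨hO hw, hwV⟩, rfl⟩
  rw [this]
  exact h.isOpen.sdiff ((hK.diff hV).image h.cont).isClosed

/-- Gluing along the boundary of an embedded piece. -/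
theorem IsEmb.glue [T2Space M] {K O : Set ℂ} {δ : ℂ → M} (h : IsEmb K O δ)
    (hK : IsCompact K) (hO : O ⊆ K) {Z : Type*} [TopologicalSpace Z] {g : M → Z} {F : ℂ → Z}
    {A : Set M} (hF : ContinuousOn F (K ∩ δ ⁻¹' A)) (hg : ContinuousOn g (A \ δ '' O))
    (hag : ∀ w ∈ K, w ∉ O → δ w ∈ A → F w = g (δ w)) :
    ∃ g' : M → Z, ContinuousOn g' A ∧ (∀ w ∈ K, δ w ∈ A → g' (δ w) = F w) ∧
      (∀ m, m ∉ δ '' O → m ∈ A → g' m = g m) := by
  classical
  obtain ⟨i, hi, hinv⟩ := h.exists_inv hK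
  let g' : M → Z := fun m => if m ∈ δ '' K then F (i m) else g m
  have h1 : ∀ w ∈ K, δ w ∈ A → g' (δ w) = F w := by
    intro w hw _
    simp only [g']
    rw [if_pos ⟨w, hw, rfl⟩, hinv w hw]
  have h2 : ∀ m, m ∉ δ '' O → m ∈ A → g' m = g m := by
    intro m hm hmA
    by_cases hmK : m ∈ δ '' K
    · obtain ⟨w, hw, rfl⟩ := hmK
      rw [h1 w hw hmA, hag w hw (fun hwO => hm ⟨w, hwO, rfl⟩) hmA]
    · simp only [g']
      rw [if_neg hmK]
  refine ⟨g', ?_, h1, h2⟩
  have hc1 : ContinuousOn g' (A ∩ δ '' K) := by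
    have hF' : ContinuousOn (F ∘ i) (A ∩ δ '' K) := by
      apply hF.comp (hi.mono inter_subset_right)
      rintro m ⟨hmA, ⟨w, hw, rfl⟩⟩
      rw [hinv w hw]
      exact ⟨hw, hmA⟩
    refine hF'.congr ?_
    rintro m ⟨hmA, ⟨w, hw, rfl⟩⟩
    rw [h1 w hw hmA]
    simp [hinv w hw]
  have hc2 : ContinuousOn g' (A ∩ (δ '' O)ᶜ) :=
    hg.congr (fun m hm => h2 m hm.2 hm.1)
  have hcov : A ⊆ (A ∩ δ '' K) ∪ (A ∩ (δ '' O)ᶜ) := by
    intro m hm
    by_cases hmO : m ∈ δ '' O
    · exact Or.inl ⟨hm, image_mono hO hmO⟩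
    · exact Or.inr ⟨hm, hmO⟩
  have hcK : IsClosed (δ '' K) := (hK.image h.cont).isClosed
  have hcO : IsClosed ((δ '' O)ᶜ) := h.isOpen.isClosed_compl
  rw [continuousOn_iff_isClosed] at hc1 hc2 ⊢
  intro t ht
  obtain ⟨u1, hu1, he1⟩ := hc1 t ht
  obtain ⟨u2, hu2, he2⟩ := hc2 t ht
  refine ⟨(u1 ∩ δ '' K) ∪ (u2 ∩ (δ '' O)ᶜ), (hu1.inter hcK).union (hu2.inter hcO), ?_⟩
  ext m
  constructor
  · rintro ⟨hmt, hmA⟩
    refine ⟨?_, hmA⟩
    rcases hcov hmA with hm | hm
    · have : m ∈ u1 ∩ (A ∩ δ '' K) := he1 ▸ ⟨hmt, hm⟩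
      exact Or.inl ⟨this.1, hm.2⟩
    · have : m ∈ u2 ∩ (A ∩ (δ '' O)ᶜ) := he2 ▸ ⟨hmt, hm⟩
      exact Or.inr ⟨this.1, hm.2⟩
  · rintro ⟨hm, hmA⟩
    refine ⟨?_, hmA⟩
    rcases hm with hm | hm
    · have : m ∈ g' ⁻¹' t ∩ (A ∩ δ '' K) := he1 ▸ ⟨hm.1, hmA, hm.2⟩
      exact this.1
    · have : m ∈ g' ⁻¹' t ∩ (A ∩ (δ '' O)ᶜ) := he2 ▸ ⟨hm.1, hmA, hm.2⟩
      exact this.1

/-- the affine change of variable is injective -/
theorem affine_inj {w₀ : ℂ} {ρ : ℝ} (hρ : 0 < ρ) {z w : ℂ} (h : w₀ + ρ * z = w₀ + ρ * w) :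
    z = w := by
  have hρ' : (ρ : ℂ) ≠ 0 := by exact_mod_cast hρ.ne'
  exact mul_left_cancel₀ hρ' (add_left_cancel h)

/-- affine image of a piece inside another one -/
theorem IsEmb.sub [T2Space M] {K O K' O' V : Set ℂ} {δ : ℂ → M} (h : IsEmb K O δ)
    (hK : IsCompact K) (hO : O ⊆ K) {w₀ : ℂ} {ρ : ℝ} (hρ : 0 < ρ)
    (hKK : ∀ w ∈ K', w₀ + ρ * w ∈ K) (hV : IsOpen V)
    (hOV : (fun w : ℂ => w₀ + ρ * w) '' O' = O ∩ V) :
    IsEmb K' O' (fun w => δ (w₀ + ρ * w)) where
  cont := h.cont.comp (by fun_prop)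
  inj := fun z hz w hw he => affine_inj hρ (h.inj (hKK z hz) (hKK w hw) he)
  isOpen := by
    have : (fun w => δ (w₀ + ρ * w)) '' O' = δ '' ((fun w : ℂ => w₀ + ρ * w) '' O') := by
      rw [image_image]
    rw [this, hOV]
    exact h.isOpen_image hK hO hV

theorem norm_affine_le {w₀ w : ℂ} {ρ : ℝ} (hρ : 0 < ρ) (hle : ‖w₀‖ + ρ ≤ 1) (hw : ‖w‖ ≤ 1) :
    ‖w₀ + ρ * w‖ ≤ 1 := by
  calc ‖w₀ + ρ * w‖ ≤ ‖w₀‖ + ‖(ρ : ℂ) * w‖ := norm_add_le _ _
    _ = ‖w₀‖ + ρ * ‖w‖ := by rw [norm_mul, Complex.norm_real, Real.norm_of_nonneg hρ.le]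
    _ ≤ ‖w₀‖ + ρ := by nlinarith
    _ ≤ 1 := hle

theorem norm_affine_lt {w₀ w : ℂ} {ρ : ℝ} (hρ : 0 < ρ) (hle : ‖w₀‖ + ρ ≤ 1) (hw : ‖w‖ < 1) :
    ‖w₀ + ρ * w‖ < 1 := by
  calc ‖w₀ + ρ * w‖ ≤ ‖w₀‖ + ‖(ρ : ℂ) * w‖ := norm_add_le _ _
    _ = ‖w₀‖ + ρ * ‖w‖ := by rw [norm_mul, Complex.norm_real, Real.norm_of_nonneg hρ.le]
    _ < ‖w₀‖ + ρ := by nlinarith
    _ ≤ 1 := hle

theorem image_affine_ball {w₀ : ℂ} {ρ : ℝ} (hρ : 0 < ρ) (hle : ‖w₀‖ + ρ ≤ 1) :
    (fun w : ℂ => w₀ + ρ * w) '' ball (0 : ℂ) 1 = ball (0 : ℂ) 1 ∩ ball w₀ ρ := by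
  have hρ' : (ρ : ℂ) ≠ 0 := by exact_mod_cast hρ.ne'
  ext z
  constructor
  · rintro ⟨w, hw, rfl⟩
    rw [mem_ball, dist_zero_right] at hw
    refine ⟨?_, ?_⟩
    · rw [mem_ball, dist_zero_right]
      exact norm_affine_lt hρ hle hw
    · rw [mem_ball, dist_eq_norm, add_sub_cancel_left, norm_mul, Complex.norm_real,
        Real.norm_of_nonneg hρ.le]
      nlinarith
  · rintro ⟨_, hz⟩
    refine ⟨(z - w₀) / ρ, ?_, ?_⟩
    · rw [mem_ball, dist_zero_right, norm_div, Complex.norm_real, Real.norm_of_nonneg hρ.le,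
        div_lt_one hρ]
      rwa [mem_ball, dist_eq_norm] at hz
    · simp only
      field_simp
      ring

theorem IsDisc.sub [T2Space M] {δ : ℂ → M} (h : IsDisc δ) {w₀ : ℂ} {ρ : ℝ} (hρ : 0 < ρ)
    (hle : ‖w₀‖ + ρ ≤ 1) : IsDisc (fun w => δ (w₀ + ρ * w)) := by
  refine IsEmb.sub (V := ball w₀ ρ) h (isCompact_closedBall _ _) ball_subset_closedBall hρ ?_
    isOpen_ball (image_affine_ball hρ hle)
  intro w hw
  rw [mem_closedBall, dist_zero_right] at hw ⊢
  exact norm_affine_le hρ hle hw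

theorem IsHalfDisc.sub [T2Space M] {δ : ℂ → M} (h : IsHalfDisc δ) {x ρ : ℝ} (hρ : 0 < ρ)
    (hle : |x| + ρ ≤ 1) : IsHalfDisc (fun w => δ (x + ρ * w)) := by
  have hle' : ‖(x : ℂ)‖ + ρ ≤ 1 := by simpa using hle
  have hρ' : (ρ : ℂ) ≠ 0 := by exact_mod_cast hρ.ne'
  refine IsEmb.sub (V := ball (x : ℂ) ρ) h isCompact_HD HDo_subset hρ ?_ isOpen_ball ?_
  · intro w hw
    exact ⟨norm_affine_le hρ hle' hw.1, by simpa using mul_nonneg hρ.le hw.2⟩
  · ext z
    constructor
    · rintro ⟨w, hw, rfl⟩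
      refine ⟨⟨norm_affine_lt hρ hle' hw.1, by simpa using mul_nonneg hρ.le hw.2⟩, ?_⟩
      rw [mem_ball, dist_eq_norm, add_sub_cancel_left, norm_mul, Complex.norm_real,
        Real.norm_of_nonneg hρ.le]
      have := hw.1
      nlinarith
    · rintro ⟨hz1, hz⟩
      refine ⟨(z - x) / ρ, ⟨?_, ?_⟩, ?_⟩
      · rw [norm_div, Complex.norm_real, Real.norm_of_nonneg hρ.le, div_lt_one hρ]
        rwa [mem_ball, dist_eq_norm] at hz
      · rw [Complex.div_ofReal_im]
        have := hz1.2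
        simp only [Complex.sub_im, Complex.ofReal_im, sub_zero]
        positivity
      · simp only
        field_simp
        ring

/-- full sub-discs of the upper part of a half-disc -/
theorem IsHalfDisc.subDisc [T2Space M] {δ : ℂ → M} (h : IsHalfDisc δ) {w₀ : ℂ} {ρ : ℝ}
    (hρ : 0 < ρ) (hle : ‖w₀‖ + ρ ≤ 1) (him : ρ ≤ w₀.im) : IsDisc (fun w => δ (w₀ + ρ * w)) := by
  have him' : ∀ w : ℂ, ‖w‖ ≤ 1 → 0 ≤ (w₀ + ρ * w).im := by
    intro w hw
    have h1 : |w.im| ≤ 1 := (Complex.abs_im_le_norm w).trans hw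
    have h2 := neg_le_of_abs_le h1
    simp only [Complex.add_im, Complex.mul_im, Complex.ofReal_re, Complex.ofReal_im, zero_mul,
      add_zero]
    nlinarith
  refine IsEmb.sub (V := ball w₀ ρ) h isCompact_HD HDo_subset hρ ?_ isOpen_ball ?_
  · intro w hw
    rw [mem_closedBall, dist_zero_right] at hw
    exact ⟨norm_affine_le hρ hle hw, him' w hw⟩
  · rw [image_affine_ball hρ hle]
    ext z
    constructor
    · rintro ⟨h1, h2⟩
      refine ⟨⟨by simpa using h1, ?_⟩, h2⟩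
      rw [mem_ball, dist_eq_norm] at h2
      have h3 : |(z - w₀).im| ≤ ‖z - w₀‖ := Complex.abs_im_le_norm _
      have h4 := neg_le_of_abs_le (h3.trans h2.le)
      simp only [Complex.sub_im] at h4
      linarith
    · rintro ⟨h1, h2⟩
      exact ⟨by simpa using h1.1, h2⟩

theorem isOpen_inn : IsOpen (inn M) := by
  have : inn M = ⋃ (δ : ℂ → M) (_ : IsDisc δ), δ '' ball (0 : ℂ) 1 := by
    ext z
    simp only [inn, mem_setOf_eq, mem_iUnion, exists_prop]
  rw [this]
  exact isOpen_iUnion fun δ => isOpen_iUnion fun h => h.isOpen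

theorem isClosed_bdy : IsClosed (bdy M) := isOpen_inn.isClosed_compl

theorem IsDisc.mem_inn {δ : ℂ → M} (h : IsDisc δ) {w : ℂ} (hw : ‖w‖ < 1) : δ w ∈ inn M :=
  ⟨δ, h, w, by simpa using hw, rfl⟩

theorem exists_disc [T2Space M] {z : M} (hz : z ∈ inn M) {U : Set M} (hU : U ∈ 𝓝 z) :
    ∃ δ : ℂ → M, IsDisc δ ∧ δ 0 = z ∧ δ '' closedBall (0 : ℂ) 1 ⊆ U := by
  obtain ⟨δ, hδ, w, hw, rfl⟩ := hz
  rw [mem_ball, dist_zero_right] at hw
  have hcont : Continuous δ := hδ.cont
  have hU' : δ ⁻¹' U ∈ 𝓝 w := hcont.continuousAt hU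
  obtain ⟨r, hr, hrU⟩ := Metric.nhds_basis_closedBall.mem_iff.1 hU'
  let ρ := min r (1 - ‖w‖)
  have hρ : 0 < ρ := lt_min hr (by linarith)
  have hle : ‖w‖ + ρ ≤ 1 := by
    have : ρ ≤ 1 - ‖w‖ := min_le_right _ _
    linarith
  refine ⟨_, hδ.sub hρ hle, by simp, ?_⟩
  rintro _ ⟨z, hz, rfl⟩
  rw [mem_closedBall, dist_zero_right] at hz
  apply hrU
  rw [mem_closedBall, dist_eq_norm, add_sub_cancel_left, norm_mul, Complex.norm_real,
        Real.norm_of_nonneg hρ.le]
  have : ρ ≤ r := min_le_left _ _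
  nlinarith [norm_nonneg z]

theorem exists_halfDisc [Surf M] {z : M} (hz : z ∈ bdy M) {U : Set M}
    (hU : U ∈ 𝓝 z) :
    ∃ δ : ℂ → M, IsHalfDisc δ ∧ δ 0 = z ∧ δ '' HD ⊆ U := by
  rcases Surf.exists_emb z U hU with ⟨δ, h1, h2, h3⟩ | h
  · exact absurd (h2 ▸ h1.mem_inn (by simp)) hz
  · exact h

theorem IsHalfDisc.mem_inn [T2Space M] {δ : ℂ → M} (h : IsHalfDisc δ) {w : ℂ} (hw : ‖w‖ < 1)
    (hw' : 0 < w.im) : δ w ∈ inn M := by
  let ρ := min w.im (1 - ‖w‖)
  have hρ : 0 < ρ := lt_min hw' (by linarith)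
  have hle : ‖w‖ + ρ ≤ 1 := by
    have : ρ ≤ 1 - ‖w‖ := min_le_right _ _
    linarith
  have := (h.subDisc hρ hle (min_le_left _ _)).mem_inn (w := 0) (by simp)
  simpa using this

/-- every function on an embedded piece has a logarithm (total version: `F ∘ δ` on `ℂ`). -/
theorem exists_log_comp {δ : ℂ → M} (hδ : Continuous δ) {F : M → Circle} (hF : Continuous F) :
    ∃ L : ℂ → ℝ, Continuous L ∧ ∀ w, F (δ w) = Circle.exp (L w) := by
  obtain ⟨L, h1, h2⟩ := exists_log_star (D := (univ : Set ℂ)) (c := 0)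
    (convex_univ.starConvex (mem_univ _)) (mem_univ _) (F := F ∘ δ) (hF.comp hδ).continuousOn
  exact ⟨L, continuousOn_univ.1 h1, fun w => h2 w (mem_univ _)⟩

end Disc

end Pool.Agent.Kuiper
end


/-! ### file Inv -/
section
/-! # Invariance of the boundary -/

set_option autoImplicit false
open Set Topology Metric

namespace Pool.Agent.Kuiper

section Inv
variable {M : Type*} [TopologicalSpace M]

theorem inv_coe_circ (t : ℝ) : circ t = Complex.exp (2 * Real.pi * t * Complex.I) := by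
  unfold circ
  rw [Circle.coe_exp]
  push_cast
  ring_nf

theorem inv_continuous_circ : Continuous circ := by
  unfold circ
  fun_prop

theorem inv_norm_circ (t : ℝ) : ‖circ t‖ = 1 := by
  unfold circ
  exact Circle.norm_coe _

theorem inv_circ_one : circ 1 = circ 0 := by
  rw [inv_coe_circ, inv_coe_circ]
  simp [Complex.exp_two_pi_mul_I]

theorem inv_dir_circ {ρ : ℝ} (hρ : 0 < ρ) (t : ℝ) :
    dir (ρ * circ t) = Circle.exp (2 * Real.pi * t) := by
  apply Circle.ext
  unfold dir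
  have h1 : ((ρ : ℂ) * circ t) ≠ 0 := by
    apply mul_ne_zero
    · exact_mod_cast hρ.ne'
    · intro h
      have := inv_norm_circ t
      rw [h] at this
      simp at this
  have h2 : ‖(ρ : ℂ) * circ t‖ = ρ := by
    rw [norm_mul, inv_norm_circ, Complex.norm_real, Real.norm_of_nonneg hρ.le, mul_one]
  have h3 := Complex.norm_mul_exp_arg_mul_I ((ρ : ℂ) * circ t)
  rw [h2] at h3
  have h4 : Complex.exp (Complex.arg ((ρ : ℂ) * circ t) * Complex.I) = circ t := by
    have hρ' : (ρ : ℂ) ≠ 0 := by exact_mod_cast hρ.ne'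
    exact mul_left_cancel₀ hρ' h3
  rw [Circle.coe_exp, h4]
  rfl

theorem inv_continuousOn_dir_comp {X : Type*} [TopologicalSpace X] {g : X → ℂ} {D : Set X}
    (hg : ContinuousOn g D) (h0 : ∀ z ∈ D, g z ≠ 0) : ContinuousOn (fun z => dir (g z)) D := by
  have h1 : ContinuousOn (fun z => ((dir (g z) : Circle) : ℂ)) D := by
    have h2 : ContinuousOn (fun z => g z / (‖g z‖ : ℂ)) D := by
      apply hg.div
      · exact Complex.continuous_ofReal.comp_continuousOn hg.norm
      · intro z hz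
        have := norm_ne_zero_iff.mpr (h0 z hz)
        exact_mod_cast this
    apply h2.congr
    intro z hz
    have h3 := Complex.norm_mul_exp_arg_mul_I (g z)
    have h4 : (‖g z‖ : ℂ) ≠ 0 := by
      have := norm_ne_zero_iff.mpr (h0 z hz)
      exact_mod_cast this
    have h5 : ((dir (g z) : Circle) : ℂ) = Complex.exp (Complex.arg (g z) * Complex.I) := by
      unfold dir
      rw [Circle.coe_exp]
    simp only [h5]
    rw [eq_div_iff h4, mul_comm]
    exact h3
  have hind : IsInducing (fun z : Circle => (z : ℂ)) := IsInducing.subtypeVal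
  exact hind.continuousOn_iff.mpr h1

theorem inv_centred [T2Space M] {δ η : ℂ → M} (h : IsHalfDisc δ) (hη : IsDisc η)
    (h0 : η 0 = δ 0) : False := by
  obtain ⟨iη, hiη, hiη'⟩ := hη.exists_inv (isCompact_closedBall 0 1)
  obtain ⟨iδ, hiδ, hiδ'⟩ := h.exists_inv isCompact_HD
  -- small half-disc inside the disc
  obtain ⟨r, hr0, hr1, hr⟩ : ∃ r : ℝ, 0 < r ∧ r ≤ 1 ∧ δ '' closedBall (0 : ℂ) r ⊆
      η '' ball (0 : ℂ) 1 := by
    have hmem : δ ⁻¹' (η '' ball (0 : ℂ) 1) ∈ 𝓝 (0 : ℂ) := by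
      apply h.cont.continuousAt.preimage_mem_nhds
      apply hη.isOpen.mem_nhds
      exact ⟨0, by simp, h0⟩
    obtain ⟨ε, hε, hε'⟩ := Metric.mem_nhds_iff.mp hmem
    refine ⟨min (ε / 2) 1, by positivity, min_le_right _ _, ?_⟩
    rintro _ ⟨z, hz, rfl⟩
    apply hε'
    have : min (ε / 2) 1 < ε := lt_of_le_of_lt (min_le_left _ _) (by linarith)
    exact (closedBall_subset_ball this) hz
  obtain ⟨ρ, hρ0, hρ1, hρ⟩ : ∃ ρ : ℝ, 0 < ρ ∧ ρ ≤ 1 ∧ η '' closedBall (0 : ℂ) ρ ⊆
      δ '' (HDo ∩ ball 0 r) := by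
    have hop : IsOpen (δ '' (HDo ∩ ball 0 r)) := h.isOpen_image isCompact_HD HDo_subset isOpen_ball
    have hmem : η ⁻¹' (δ '' (HDo ∩ ball 0 r)) ∈ 𝓝 (0 : ℂ) := by
      apply hη.cont.continuousAt.preimage_mem_nhds
      apply hop.mem_nhds
      refine ⟨0, ⟨?_, by simpa using hr0⟩, h0.symm⟩
      constructor
      · simp
      · simp
    obtain ⟨ε, hε, hε'⟩ := Metric.mem_nhds_iff.mp hmem
    refine ⟨min (ε / 2) 1, by positivity, min_le_right _ _, ?_⟩
    rintro _ ⟨z, hz, rfl⟩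
    apply hε'
    have : min (ε / 2) 1 < ε := lt_of_le_of_lt (min_le_left _ _) (by linarith)
    exact (closedBall_subset_ball this) hz
  set D : Set ℂ := {z | ‖z‖ ≤ r ∧ 0 ≤ z.im ∧ z ≠ 0} with hD
  have hDHD : ∀ z ∈ D, z ∈ HD := by
    intro z hz
    exact ⟨hz.1.trans hr1, hz.2.1⟩
  have hmemη : ∀ z ∈ D, ∃ w ∈ ball (0 : ℂ) 1, η w = δ z := by
    intro z hz
    have : δ z ∈ η '' ball (0 : ℂ) 1 := hr ⟨z, by simpa using hz.1, rfl⟩
    obtain ⟨w, hw, hw'⟩ := this
    exact ⟨w, hw, hw'⟩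
  have hcontD : ContinuousOn (fun z => iη (δ z)) D := by
    apply hiη.comp h.cont.continuousOn
    intro z hz
    obtain ⟨w, hw, hw'⟩ := hmemη z hz
    exact ⟨w, ball_subset_closedBall hw, hw'⟩
  have hneD : ∀ z ∈ D, iη (δ z) ≠ 0 := by
    intro z hz hzero
    obtain ⟨w, hw, hw'⟩ := hmemη z hz
    have h1 : iη (δ z) = w := by
      rw [← hw']
      exact hiη' w (ball_subset_closedBall hw)
    have h2 : w = 0 := by rw [← h1, hzero]
    have h3 : δ z = δ 0 := by rw [← hw', h2, h0]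
    have h4 : z = 0 := h.inj (hDHD z hz) (by constructor <;> simp) h3
    exact hz.2.2 h4
  have hcont2 := inv_continuousOn_dir_comp hcontD hneD
  have hstar : StarConvex ℝ ((r / 2 : ℝ) * Complex.I) D := by
    intro z hz a b ha hb hab
    have hrr : ‖((r / 2 : ℝ) * Complex.I : ℂ)‖ ≤ r := by
      rw [norm_mul, Complex.norm_I, Complex.norm_real, Real.norm_of_nonneg (by positivity)]
      linarith
    refine ⟨?_, ?_, ?_⟩
    · calc ‖a • ((r / 2 : ℝ) * Complex.I : ℂ) + b • z‖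
          ≤ ‖a • ((r / 2 : ℝ) * Complex.I : ℂ)‖ + ‖b • z‖ := norm_add_le _ _
        _ = a * ‖((r / 2 : ℝ) * Complex.I : ℂ)‖ + b * ‖z‖ := by
            rw [norm_smul, norm_smul, Real.norm_of_nonneg ha, Real.norm_of_nonneg hb]
        _ ≤ a * r + b * r := by
            have := hz.1
            gcongr
        _ = r := by rw [← add_mul, hab, one_mul]
    · have := hz.2.1
      simp
      positivity
    · intro heq
      have him := congrArg Complex.im heq
      simp at him
      have hz1 := hz.2.1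
      rcases ha.eq_or_lt with ha' | ha'
      · have hb1 : b = 1 := by linarith
        rw [← ha', hb1] at heq
        simp at heq
        exact hz.2.2 heq
      · have : 0 < a * (r / 2) := by positivity
        have : 0 ≤ b * z.im := by positivity
        linarith
  have hc : ((r / 2 : ℝ) * Complex.I : ℂ) ∈ D := by
    refine ⟨?_, ?_, ?_⟩
    · rw [norm_mul, Complex.norm_I, Complex.norm_real, Real.norm_of_nonneg (by positivity)]
      linarith
    · simp
      positivity
    · simp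
      exact hr0.ne'
  obtain ⟨L, hL, hL'⟩ := exists_log_star hstar hc hcont2
  -- the loop
  have hloop : ∀ t : ℝ, iδ (η (ρ * circ t)) ∈ D ∧ δ (iδ (η (ρ * circ t))) = η (ρ * circ t) := by
    intro t
    have hmem : (ρ * circ t : ℂ) ∈ closedBall (0 : ℂ) ρ := by
      rw [mem_closedBall_zero_iff, norm_mul, inv_norm_circ, Complex.norm_real,
        Real.norm_of_nonneg hρ0.le, mul_one]
    obtain ⟨z, hz, hz'⟩ := hρ ⟨_, hmem, rfl⟩
    have h1 : iδ (η (ρ * circ t)) = z := by
      rw [← hz']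
      exact hiδ' z (HDo_subset hz.1)
    rw [h1]
    refine ⟨⟨?_, hz.1.2, ?_⟩, hz'⟩
    · have := hz.2
      rw [mem_ball_zero_iff] at this
      exact this.le
    · intro hz0
      rw [hz0, ← h0] at hz'
      have h3 := hη.inj (by simp) (closedBall_subset_closedBall hρ1 hmem) hz'
      have h4 : ‖(ρ * circ t : ℂ)‖ = 0 := by rw [← h3]; simp
      rw [norm_mul, inv_norm_circ, Complex.norm_real, Real.norm_of_nonneg hρ0.le, mul_one] at h4
      exact hρ0.ne' h4
  have hang1 : ang (fun t => dir (ρ * circ t)) = 2 * Real.pi := by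
    have := ang_eq (u := fun t => dir (ρ * circ t)) (θ := fun t => 2 * Real.pi * t)
      (by fun_prop) (fun t _ => inv_dir_circ hρ0 t)
    rw [this]
    ring
  have hang2 : ang (fun t => dir (ρ * circ t)) = 0 := by
    have hcz : ContinuousOn (fun t : ℝ => iδ (η (ρ * circ t))) (Icc 0 1) := by
      apply hiδ.comp (t := δ '' HD) (f := fun t : ℝ => η (ρ * circ t))
      · apply Continuous.continuousOn
        exact hη.cont.comp (continuous_const.mul inv_continuous_circ)
      · intro t _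
        have := hloop t
        exact ⟨_, hDHD _ this.1, this.2⟩
    have := ang_eq (u := fun t => dir (ρ * circ t))
      (θ := fun t => L (iδ (η (ρ * circ t)))) ?_ ?_
    · rw [this]
      simp only [inv_circ_one, sub_self]
    · exact hL.comp hcz (fun t _ => (hloop t).1)
    · intro t _
      have h1 := hL' _ (hloop t).1
      rw [← h1]
      rw [(hloop t).2]
      congr 1
      symm
      apply hiη'
      rw [mem_closedBall_zero_iff, norm_mul, inv_norm_circ, Complex.norm_real,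
        Real.norm_of_nonneg hρ0.le, mul_one]
      exact hρ1
  rw [hang1] at hang2
  have := Real.pi_pos
  linarith

/-- **INV** -/
theorem IsHalfDisc.mem_bdy [T2Space M] {δ : ℂ → M} (h : IsHalfDisc δ) {x : ℝ} (hx : |x| < 1) :
    δ x ∈ bdy M := by
  rintro ⟨η, hη, w, hw, hw'⟩
  rw [mem_ball_zero_iff] at hw
  have h1 : IsHalfDisc (fun z => δ (x + ((1 - |x| : ℝ) : ℂ) * z)) :=
    h.sub (by linarith) (by linarith)
  have h2 : IsDisc (fun z => η (w + ((1 - ‖w‖ : ℝ) : ℂ) * z)) :=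
    hη.sub (by linarith) (by linarith)
  apply inv_centred h1 h2
  simp [hw']

theorem IsHalfDisc.real_of_bdy [T2Space M] {δ : ℂ → M} (h : IsHalfDisc δ) {m : M}
    (hm : m ∈ bdy M) (hm' : m ∈ δ '' HDo) : ∃ x : ℝ, |x| < 1 ∧ m = δ x := by
  obtain ⟨w, hw, rfl⟩ := hm'
  rcases hw.2.eq_or_lt with h0 | h0
  · have hwx : w = (w.re : ℂ) := by
      apply Complex.ext
      · simp
      · simp [← h0]
    refine ⟨w.re, ?_, by rw [← hwx]⟩
    exact lt_of_le_of_lt (Complex.abs_re_le_norm w) hw.1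
  · exact absurd (h.mem_inn hw.1 h0) hm

theorem IsHalfDisc.im_pos_of_inn [T2Space M] {δ : ℂ → M} (h : IsHalfDisc δ) {w : ℂ}
    (hw : w ∈ HDo) (hm : δ w ∈ inn M) : 0 < w.im := by
  rcases hw.2.eq_or_lt with h0 | h0
  · have hwx : w = (w.re : ℂ) := by
      apply Complex.ext
      · simp
      · simp [← h0]
    rw [hwx] at hm
    have := h.mem_bdy (x := w.re) (lt_of_le_of_lt (Complex.abs_re_le_norm w) hw.1)
    exact absurd hm this
  · exact h0

theorem inn_frequently [T2Space M] [Surf M] (b : M) : ∃ᶠ z in 𝓝 b, z ∈ inn M := by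
  rw [Filter.frequently_iff]
  intro U hU
  rcases Surf.exists_emb b U hU with ⟨δ, hδ, h0, -⟩ | ⟨δ, hδ, h0, hsub⟩
  · refine ⟨b, mem_of_mem_nhds hU, δ, hδ, 0, by simp, h0⟩
  · refine ⟨δ (Complex.I / 2), hsub ⟨_, ?_, rfl⟩, ?_⟩
    · constructor
      · rw [norm_div, Complex.norm_I]
        norm_num
      · simp
    · apply hδ.mem_inn
      · rw [norm_div, Complex.norm_I]
        norm_num
      · simp

end Inv

end Pool.Agent.Kuiper
end


/-! ### file Punct -/
section
/-!
# MP_4139f5_gt, part C1: propagation along connected sets and punctured functions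
-/

set_option autoImplicit false
open Set Topology Metric

namespace Pool.Agent.Kuiper

section Disc
variable {M : Type*} [TopologicalSpace M]

/-- A property of interior points off `γ` which is locally constant propagates along
connected sets. -/
theorem decomp [T2Space M] [Surf M] {P : M → Prop} {γ : Set M} (hγ : IsClosed γ)
    (hP : ∀ z ∈ inn M, z ∉ γ → ∀ᶠ z' in 𝓝 z, (P z' ↔ P z)) {S : Set M}
    (hS : IsPreconnected S) (hSγ : Disjoint S γ) {a b : M} (ha : a ∈ S) (hb : b ∈ S)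
    (hPa : ∀ᶠ z in 𝓝 a, z ∈ inn M → P z) : ∀ᶠ z in 𝓝 b, z ∈ inn M → P z := by
  set U1 : Set M := {z | ∀ᶠ z' in 𝓝 z, z' ∈ inn M → P z'} with hU1
  set U0 : Set M := {z | ∀ᶠ z' in 𝓝 z, z' ∈ inn M → ¬ P z'} with hU0
  have hU1o : IsOpen U1 := by
    rw [isOpen_iff_mem_nhds]
    intro x hx
    exact eventually_eventually_nhds.2 hx
  have hU0o : IsOpen U0 := by
    rw [isOpen_iff_mem_nhds]
    intro x hx
    exact eventually_eventually_nhds.2 hx
  have hdisj : Disjoint U1 U0 := by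
    rw [Set.disjoint_left]
    intro z h1 h0
    have hf := inn_frequently (M := M) z
    apply hf
    have h1' : ∀ᶠ z' in 𝓝 z, z' ∈ inn M → P z' := h1
    have h0' : ∀ᶠ z' in 𝓝 z, z' ∈ inn M → ¬ P z' := h0
    filter_upwards [h1', h0'] with w hw1 hw0 hw
    exact hw0 hw (hw1 hw)
  have hcover : ∀ z, z ∉ γ → z ∈ U1 ∪ U0 := by
    intro z hz
    by_cases hzi : z ∈ inn M
    · have h := hP z hzi hz
      by_cases hPz : P z
      · left
        show ∀ᶠ z' in 𝓝 z, z' ∈ inn M → P z'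
        filter_upwards [h] with w hw _
        exact hw.2 hPz
      · right
        show ∀ᶠ z' in 𝓝 z, z' ∈ inn M → ¬ P z'
        filter_upwards [h] with w hw _ hPw
        exact hPz (hw.1 hPw)
    · obtain ⟨δ, hδ, h0, hsub⟩ := exists_halfDisc (M := M) hzi (hγ.isOpen_compl.mem_nhds hz)
      set Up : Set ℂ := {w | ‖w‖ < 1 ∧ 0 < w.im} with hUp
      have hUpo : IsOpen Up :=
        (isOpen_lt continuous_norm continuous_const).inter
          (isOpen_lt continuous_const Complex.continuous_im)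
      have hUpc : Convex ℝ Up := by
        have h1 : Up = ball (0 : ℂ) 1 ∩ {w | 0 < w.im} := by
          ext w; simp [hUp]
        rw [h1]
        exact (convex_ball _ _).inter (convex_halfSpace_im_gt 0)
      have hUpHD : Up ⊆ HD := fun w hw => ⟨hw.1.le, hw.2.le⟩
      have hloc : ∀ w ∈ Up, ∀ᶠ w' in 𝓝 w, (P (δ w') ↔ P (δ w)) := by
        intro w hw
        have hin : δ w ∈ inn M := hδ.mem_inn hw.1 hw.2
        have hγ' : δ w ∉ γ := hsub ⟨w, hUpHD hw, rfl⟩
        exact hδ.cont.continuousAt.eventually (hP _ hin hγ')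
      have hA1 : IsOpen {w | w ∈ Up ∧ P (δ w)} := by
        rw [isOpen_iff_mem_nhds]
        rintro w ⟨hw, hPw⟩
        filter_upwards [hUpo.mem_nhds hw, hloc w hw] with w' h1 h2
        exact ⟨h1, h2.2 hPw⟩
      have hA0 : IsOpen {w | w ∈ Up ∧ ¬ P (δ w)} := by
        rw [isOpen_iff_mem_nhds]
        rintro w ⟨hw, hPw⟩
        filter_upwards [hUpo.mem_nhds hw, hloc w hw] with w' h1 h2
        exact ⟨h1, fun h => hPw (h2.1 h)⟩
      have hAd : Disjoint {w | w ∈ Up ∧ P (δ w)} {w | w ∈ Up ∧ ¬ P (δ w)} := by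
        rw [Set.disjoint_left]
        rintro w ⟨_, h1⟩ ⟨_, h2⟩
        exact h2 h1
      have hcov : Up ⊆ {w | w ∈ Up ∧ P (δ w)} ∪ {w | w ∈ Up ∧ ¬ P (δ w)} := by
        intro w hw
        by_cases h : P (δ w)
        · exact Or.inl ⟨hw, h⟩
        · exact Or.inr ⟨hw, h⟩
      have hmem : (Complex.I / 2) ∈ Up := by
        constructor
        · simp; norm_num
        · simp
      have hO : δ '' HDo ∈ 𝓝 z := by
        apply hδ.isOpen.mem_nhds
        rw [← h0]
        exact ⟨0, ⟨by simp, by simp⟩, rfl⟩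
      by_cases hPc : P (δ (Complex.I / 2))
      · left
        have hsubUp := hUpc.isPreconnected.subset_left_of_subset_union hA1 hA0 hAd hcov
          ⟨_, hmem, hmem, hPc⟩
        show ∀ᶠ z' in 𝓝 z, z' ∈ inn M → P z'
        filter_upwards [hO] with z' hz' hz'i
        obtain ⟨w, hw, rfl⟩ := hz'
        have := hδ.im_pos_of_inn hw hz'i
        exact (hsubUp (⟨hw.1, this⟩ : w ∈ Up)).2
      · right
        have hsubUp := hUpc.isPreconnected.subset_right_of_subset_union hA1 hA0 hAd hcov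
          ⟨_, hmem, hmem, hPc⟩
        show ∀ᶠ z' in 𝓝 z, z' ∈ inn M → ¬ P z'
        filter_upwards [hO] with z' hz' hz'i
        obtain ⟨w, hw, rfl⟩ := hz'
        have := hδ.im_pos_of_inn hw hz'i
        exact (hsubUp (⟨hw.1, this⟩ : w ∈ Up)).2
  have hSsub : S ⊆ U1 ∪ U0 := fun z hz => hcover z (Set.disjoint_left.1 hSγ hz)
  exact hS.subset_left_of_subset_union hU1o hU0o hdisj hSsub ⟨a, ha, hPa⟩ hb

/-- move the puncture of a disc to its centre -/
theorem move [T2Space M] {δ : ℂ → M} (hδ : IsDisc δ) {z : M} (hz : z ∈ δ '' ball (0 : ℂ) 1)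
    {g : M → Circle} (hg : ContinuousOn g {z}ᶜ) :
    ∃ g' : M → Circle, ContinuousOn g' {δ 0}ᶜ ∧
      (∀ m, m ∉ δ '' ball (0 : ℂ) 1 → g' m = g m) := by
  obtain ⟨w₀, hw₀, rfl⟩ := hz
  have hw₀' : ‖w₀‖ < 1 := by simpa using hw₀
  set F : ℂ → Circle := fun w => g (δ ((‖w‖ : ℂ)⁻¹ * w)) with hFdef
  have hnorm : ∀ w : ℂ, w ≠ 0 → ‖(‖w‖ : ℂ)⁻¹ * w‖ = 1 := by
    intro w hw
    rw [norm_mul, norm_inv, Complex.norm_real, norm_norm]
    exact inv_mul_cancel₀ (norm_ne_zero_iff.2 hw)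
  have hF : ContinuousOn F (closedBall (0 : ℂ) 1 ∩ δ ⁻¹' {δ 0}ᶜ) := by
    have h0 : ∀ w ∈ closedBall (0 : ℂ) 1 ∩ δ ⁻¹' {δ 0}ᶜ, w ≠ 0 := by
      rintro w ⟨_, hw⟩ rfl
      exact hw rfl
    have h1 : ContinuousOn (fun w : ℂ => (‖w‖ : ℂ)⁻¹ * w)
        (closedBall (0 : ℂ) 1 ∩ δ ⁻¹' {δ 0}ᶜ) := by
      apply ContinuousOn.mul _ continuousOn_id
      apply ContinuousOn.inv₀
      · exact (Complex.continuous_ofReal.comp continuous_norm).continuousOn
      · intro w hw
        simpa using h0 w hw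
    refine hg.comp (hδ.cont.comp_continuousOn h1) ?_
    intro w hw
    simp only [mem_compl_iff, mem_singleton_iff]
    intro heq
    have h2 : ‖(‖w‖ : ℂ)⁻¹ * w‖ = 1 := hnorm w (h0 w hw)
    have h3 := hδ.inj (mem_closedBall_zero_iff.2 h2.le) (mem_closedBall_zero_iff.2 hw₀'.le) heq
    rw [h3] at h2
    exact absurd h2 hw₀'.ne
  have hg' : ContinuousOn g ({δ 0}ᶜ \ δ '' ball (0 : ℂ) 1) := by
    apply hg.mono
    rintro m ⟨_, hm⟩ rfl
    exact hm ⟨w₀, hw₀, rfl⟩
  obtain ⟨g', h1, _, h3⟩ := hδ.glue (isCompact_closedBall _ _) ball_subset_closedBall hF hg' (by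
    intro w hw hw' _
    have h4 : ‖w‖ = 1 := by
      apply le_antisymm
      · simpa using hw
      · simpa using hw'
    simp [hFdef, h4])
  refine ⟨g', h1, fun m hm => ?_⟩
  by_cases hm0 : m ∈ ({δ 0}ᶜ : Set M)
  · exact h3 m hm hm0
  · exfalso
    apply hm
    have : m = δ 0 := by simpa using hm0
    exact ⟨0, by simp, this.symm⟩

/-- fill the puncture through the flat side of a half-disc -/
theorem fill [T2Space M] {δ : ℂ → M} (hδ : IsHalfDisc δ) {z : M} (hz : z ∈ δ '' HDo)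
    {g : M → Circle} (hg : ContinuousOn g {z}ᶜ) :
    ∃ g' : M → Circle, Continuous g' ∧ (∀ m, m ∉ δ '' HDo → g' m = g m) := by
  obtain ⟨w₀, hw₀, rfl⟩ := hz
  set pr : ℂ → ℂ := fun w => ⟨w.re, Real.sqrt (1 - w.re ^ 2)⟩ with hpr
  have hprc : Continuous pr := by
    have : pr = fun w => ((w.re : ℝ) : ℂ) + ((Real.sqrt (1 - w.re ^ 2) : ℝ) : ℂ) * Complex.I := by
      funext w
      apply Complex.ext <;> simp [hpr]
    rw [this]
    fun_prop
  have hprn : ∀ w ∈ HD, ‖pr w‖ = 1 := by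
    intro w hw
    have h1 : w.re ^ 2 ≤ 1 := by
      have h2 : w.re ^ 2 + w.im ^ 2 = ‖w‖ ^ 2 := by
        rw [Complex.sq_norm, Complex.normSq_apply]; ring
      have h3 : ‖w‖ ^ 2 ≤ 1 := by
        have := hw.1
        nlinarith [norm_nonneg w]
      nlinarith [sq_nonneg w.im]
    have h4 : ‖pr w‖ ^ 2 = 1 := by
      rw [Complex.sq_norm, Complex.normSq_apply]
      simp only [hpr]
      have := Real.mul_self_sqrt (by linarith : (0 : ℝ) ≤ 1 - w.re ^ 2)
      rw [this]; ring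
    have h5 := norm_nonneg (pr w)
    nlinarith
  have hprHD : ∀ w ∈ HD, pr w ∈ HD := fun w hw => ⟨(hprn w hw).le, Real.sqrt_nonneg _⟩
  obtain ⟨g', h1, _, h3⟩ := hδ.glue isCompact_HD HDo_subset (A := univ)
    (F := fun w => g (δ (pr w))) (g := g) (by
      refine (hg.comp (hδ.cont.comp hprc).continuousOn ?_).mono inter_subset_left
      intro w hw
      simp only [mem_compl_iff, mem_singleton_iff, Function.comp]
      intro heq
      have h2 := hδ.inj (hprHD w hw) (HDo_subset hw₀) heq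
      have h3 := hprn w hw
      rw [h2] at h3
      exact absurd h3 hw₀.1.ne) (by
      apply hg.mono
      rintro m ⟨_, hm⟩ rfl
      exact hm ⟨w₀, hw₀, rfl⟩) (by
      intro w hw hw' _
      have h4 : ‖w‖ = 1 := by
        apply le_antisymm hw.1
        by_contra hlt
        exact hw' ⟨not_le.1 hlt, hw.2⟩
      have h5 : pr w = w := by
        have h2 : w.re ^ 2 + w.im ^ 2 = 1 := by
          have : w.re ^ 2 + w.im ^ 2 = ‖w‖ ^ 2 := by
            rw [Complex.sq_norm, Complex.normSq_apply]; ring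
          rw [this, h4]; norm_num
        apply Complex.ext
        · rfl
        · show Real.sqrt (1 - w.re ^ 2) = w.im
          rw [show 1 - w.re ^ 2 = w.im ^ 2 by linarith]
          exact Real.sqrt_sq hw.2
      simp only [h5])
  exact ⟨g', continuousOn_univ.1 h1, fun m hm => h3 m hm (mem_univ m)⟩

/-- The model function with a puncture at `i/2`: degree one, trivial outside a thin cone. -/
noncomputable def G (z : ℂ) : Circle :=
  open Classical in
  if (z - Complex.I / 2).im < 0 then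
    Circle.exp (Real.pi * (1 + max (-1) (min 1 (2 * (z - Complex.I / 2).re / ‖z - Complex.I / 2‖))))
  else 1

theorem exp_clamp_of_le {x : ℝ} (hx : x ≤ -1) :
    Circle.exp (Real.pi * (1 + max (-1) (min 1 x))) = 1 := by
  rw [min_eq_right (by linarith), max_eq_left hx]
  simp

theorem exp_clamp_of_ge {x : ℝ} (hx : 1 ≤ x) :
    Circle.exp (Real.pi * (1 + max (-1) (min 1 x))) = 1 := by
  rw [min_eq_left hx, max_eq_right (by norm_num)]
  rw [show Real.pi * (1 + 1) = 2 * Real.pi by ring]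
  exact Circle.exp_two_pi

theorem exp_clamp_of_abs {x : ℝ} (hx : 1 ≤ |x|) :
    Circle.exp (Real.pi * (1 + max (-1) (min 1 x))) = 1 := by
  rcases le_abs.1 hx with h | h
  · exact exp_clamp_of_ge h
  · exact exp_clamp_of_le (by linarith)

theorem continuousOn_G : ContinuousOn G {Complex.I / 2}ᶜ := by
  unfold G
  apply ContinuousOn.if
  · rintro z ⟨hz, hz'⟩
    have h1 : (z - Complex.I / 2).im = 0 := by
      have hsub := frontier_lt_subset_eq (f := fun z : ℂ => (z - Complex.I / 2).im)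
        (g := fun _ => (0 : ℝ)) (by fun_prop) continuous_const
      exact hsub hz'
    have hv : z - Complex.I / 2 ≠ 0 := sub_ne_zero.2 (by simpa using hz)
    have h2 : ‖z - Complex.I / 2‖ = |(z - Complex.I / 2).re| := by
      rw [Complex.norm_eq_sqrt_sq_add_sq, h1]
      simp [Real.sqrt_sq_eq_abs]
    have h3 : (z - Complex.I / 2).re ≠ 0 := by
      intro h
      exact hv (Complex.ext h h1)
    apply exp_clamp_of_abs
    rw [h2, abs_div, abs_abs, abs_mul]
    rw [mul_div_assoc, div_self (abs_ne_zero.2 h3)]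
    norm_num
  · apply Continuous.comp_continuousOn Circle.exp.continuous
    apply ContinuousOn.mul continuousOn_const
    apply ContinuousOn.add continuousOn_const
    apply ContinuousOn.sup continuousOn_const
    apply ContinuousOn.inf continuousOn_const
    apply ContinuousOn.div
    · exact (by fun_prop : Continuous fun z : ℂ => 2 * (z - Complex.I / 2).re).continuousOn
    · exact (by fun_prop : Continuous fun z : ℂ => ‖z - Complex.I / 2‖).continuousOn
    · rintro z ⟨hz, _⟩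
      exact norm_ne_zero_iff.2 (sub_ne_zero.2 (by simpa using hz))
  · exact continuousOn_const

theorem G_eq_one {z : ℂ} (hz : 1 ≤ ‖z‖) (hz' : 0 ≤ z.im) : G z = 1 := by
  unfold G
  split_ifs with h
  · apply exp_clamp_of_abs
    have him : (z - Complex.I / 2).im = z.im - 1 / 2 := by simp
    have hre : (z - Complex.I / 2).re = z.re := by simp
    rw [him] at h
    have hn : z.re ^ 2 + z.im ^ 2 = ‖z‖ ^ 2 := by
      rw [Complex.sq_norm, Complex.normSq_apply]; ring
    have hn1 : 1 ≤ ‖z‖ ^ 2 := by nlinarith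
    have hnv : ‖z - Complex.I / 2‖ ^ 2 = z.re ^ 2 + (z.im - 1 / 2) ^ 2 := by
      rw [Complex.sq_norm, Complex.normSq_apply, him, hre]; ring
    have hvpos : 0 < ‖z - Complex.I / 2‖ := by
      apply lt_of_le_of_ne (norm_nonneg _)
      intro h0
      rw [← h0] at hnv
      nlinarith [sq_nonneg z.re, sq_nonneg (z.im - 1 / 2)]
    rw [hre, abs_div, abs_of_pos hvpos, le_div_iff₀ hvpos, one_mul, abs_mul]
    have h2 : |(2 : ℝ)| = 2 := by norm_num
    rw [h2]
    have h3 : ‖z - Complex.I / 2‖ ^ 2 ≤ (2 * |z.re|) ^ 2 := by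
      rw [hnv, mul_pow, sq_abs]
      nlinarith
    exact abs_le_of_sq_le_sq' h3 (by positivity) |>.2
  · rfl

theorem G_real (x : ℝ) :
    G x = Circle.exp (Real.pi * (1 + max (-1) (min 1 (2 * x / Real.sqrt (x ^ 2 + 1 / 4))))) := by
  have h1 : ((x : ℂ) - Complex.I / 2).im < 0 := by simp
  have h2 : ((x : ℂ) - Complex.I / 2).re = x := by simp
  have h3 : ‖(x : ℂ) - Complex.I / 2‖ = Real.sqrt (x ^ 2 + 1 / 4) := by
    rw [Complex.norm_eq_sqrt_sq_add_sq]
    congr 1
    simp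
    norm_num
  unfold G
  rw [if_pos h1, h2, h3]

theorem ang_G_circ {ρ : ℝ} (hρ : 0 < ρ) :
    ang (fun t => G (Complex.I / 2 + ρ * circ t)) = 2 * Real.pi := by
  set θ : ℝ → ℝ := fun t => if t ≤ 1 / 2 then 0 else
    Real.pi * (1 + max (-1) (min 1 (2 * Real.cos (2 * Real.pi * t)))) with hθ
  have hre : ∀ t, (circ t).re = Real.cos (2 * Real.pi * t) := by
    intro t
    simp only [circ, Circle.coe_exp]
    rw [Complex.exp_ofReal_mul_I_re]
  have him : ∀ t, (circ t).im = Real.sin (2 * Real.pi * t) := by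
    intro t
    simp only [circ, Circle.coe_exp]
    rw [Complex.exp_ofReal_mul_I_im]
  have hnorm : ∀ t, ‖circ t‖ = 1 := fun t => Circle.norm_coe _
  have hθc : ContinuousOn θ (Icc 0 1) := by
    apply Continuous.continuousOn
    apply Continuous.if_le continuous_const (by fun_prop) continuous_id continuous_const
    intro t ht
    have ht' : t = 1 / 2 := ht
    rw [ht', show 2 * Real.pi * (1 / 2) = Real.pi by ring, Real.cos_pi]
    norm_num
  have hval : ∀ t ∈ Icc (0 : ℝ) 1, G (Complex.I / 2 + ρ * circ t) = Circle.exp (θ t) := by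
    intro t ht
    have hv : Complex.I / 2 + ρ * circ t - Complex.I / 2 = ρ * circ t := by ring
    have hvim : ((ρ : ℂ) * circ t).im = ρ * Real.sin (2 * Real.pi * t) := by
      rw [Complex.im_ofReal_mul, him]
    have hvre : ((ρ : ℂ) * circ t).re = ρ * Real.cos (2 * Real.pi * t) := by
      rw [Complex.re_ofReal_mul, hre]
    have hvn : ‖(ρ : ℂ) * circ t‖ = ρ := by
      rw [norm_mul, hnorm, mul_one, Complex.norm_real, Real.norm_of_nonneg hρ.le]
    unfold G
    rw [hv, hvim, hvre, hvn]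
    have hdiv : 2 * (ρ * Real.cos (2 * Real.pi * t)) / ρ = 2 * Real.cos (2 * Real.pi * t) := by
      field_simp
    rw [hdiv]
    by_cases h12 : t ≤ 1 / 2
    · have hs : 0 ≤ Real.sin (2 * Real.pi * t) := by
        apply Real.sin_nonneg_of_nonneg_of_le_pi
        · have := Real.pi_pos; have := ht.1; positivity
        · have := Real.pi_pos; nlinarith
      rw [if_neg (not_lt.2 (mul_nonneg hρ.le hs)), hθ]
      simp only [if_pos h12, Circle.exp_zero]
    · have h12' := not_le.1 h12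
      simp only [hθ, if_neg h12]
      rcases eq_or_lt_of_le ht.2 with h1 | h1
      · rw [h1, mul_one, Real.sin_two_pi, Real.cos_two_pi, mul_zero, if_neg (lt_irrefl _),
          exp_clamp_of_ge (by norm_num)]
      · have hs : Real.sin (2 * Real.pi * t) < 0 := by
          have h2 : Real.sin (2 * Real.pi * t) = - Real.sin (2 * Real.pi * t - Real.pi) := by
            rw [Real.sin_sub_pi, neg_neg]
          rw [h2, neg_lt_zero]
          apply Real.sin_pos_of_pos_of_lt_pi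
          · have := Real.pi_pos; nlinarith
          · have := Real.pi_pos; nlinarith
        rw [if_pos (mul_neg_of_pos_of_neg hρ hs)]
  rw [ang_eq hθc hval]
  simp only [hθ]
  rw [if_neg (by norm_num), if_pos (by norm_num), mul_one, Real.cos_two_pi]
  norm_num
  ring

/-- transplant `G` to `M` by a half-disc -/
theorem IsHalfDisc.exists_G [T2Space M] {δ : ℂ → M} (hδ : IsHalfDisc δ) :
    ∃ g : M → Circle, ContinuousOn g {δ (Complex.I / 2)}ᶜ ∧ (∀ w ∈ HD, w ≠ Complex.I / 2 →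
      g (δ w) = G w) ∧ ∀ m, m ∉ δ '' HDo → g m = 1 := by
  have hI : (Complex.I / 2) ∈ HD := ⟨by simp; norm_num, by simp⟩
  have hIo : (Complex.I / 2) ∈ HDo := ⟨by simp; norm_num, by simp⟩
  obtain ⟨g, h1, h2, h3⟩ := hδ.glue isCompact_HD HDo_subset (A := {δ (Complex.I / 2)}ᶜ)
    (F := G) (g := fun _ => (1 : Circle)) (by
      apply continuousOn_G.mono
      rintro w ⟨_, hw⟩ hw'
      apply hw
      rw [mem_singleton_iff.1 hw']
      rfl) continuousOn_const (by
      intro w hw hw' _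
      apply G_eq_one _ hw.2
      by_contra hlt
      exact hw' ⟨not_le.1 hlt, hw.2⟩)
  refine ⟨g, h1, fun w hw hne => h2 w hw ?_, fun m hm => h3 m hm ?_⟩
  · intro h
    exact hne (hδ.inj hw hI h)
  · rintro rfl
    exact hm ⟨_, hIo, rfl⟩

end Disc

end Pool.Agent.Kuiper
end


/-! ### file Sep -/
section
/-!
# MP_4139f5_gt, part C2: the separation lemma
-/

set_option autoImplicit false
open Set Topology Metric

namespace Pool.Agent.Kuiper

section Disc
variable {M : Type*} [TopologicalSpace M]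

/-- The property used in the separation lemma: some circle valued function with a puncture
at `z` detects the family of paths. -/
def Detects {ι : Type*} [Fintype ι] (c : ι → ℝ → M) (ε : ι → ℝ) (z : M) : Prop :=
  ∃ g : M → Circle, ContinuousOn g {z}ᶜ ∧ ∑ i, ε i * ang (g ∘ c i) ≠ 0

omit [TopologicalSpace M] in
theorem sum_congr_of_eq {ι : Type*} [Fintype ι] {c : ι → ℝ → M} {ε : ι → ℝ}
    {g g' : M → Circle} (h : ∀ i, ∀ t ∈ Icc (0 : ℝ) 1, g' (c i t) = g (c i t)) :
    ∑ i, ε i * ang (g' ∘ c i) = ∑ i, ε i * ang (g ∘ c i) := by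
  apply Finset.sum_congr rfl
  intro i _
  congr 1
  exact ang_congr (fun t ht => h i t ht)

theorem Detects.locally [T2Space M] [Surf M] {ι : Type*} [Fintype ι] {γ : Set M}
    (hγ : IsClosed γ) {c : ι → ℝ → M} {ε : ι → ℝ}
    (hin : ∀ i, ∀ t ∈ Icc (0 : ℝ) 1, c i t ∈ γ ∪ bdy M) {z : M} (hz : z ∈ inn M) (hzγ : z ∉ γ) :
    ∀ᶠ z' in 𝓝 z, (Detects c ε z' ↔ Detects c ε z) := by
  obtain ⟨Δ, hΔ, h0, hsub⟩ := exists_disc hz (hγ.isOpen_compl.mem_nhds hzγ)
  have havoid : ∀ i, ∀ t ∈ Icc (0 : ℝ) 1, c i t ∉ Δ '' ball (0 : ℂ) 1 := by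
    intro i t ht hmem
    rcases hin i t ht with h | h
    · exact hsub (image_mono ball_subset_closedBall hmem) h
    · exact h ⟨Δ, hΔ, hmem⟩
  have hopen : IsOpen (Δ '' (ball (0 : ℂ) 1 ∩ ball (0 : ℂ) (1 / 3))) :=
    hΔ.isOpen_image (isCompact_closedBall _ _) ball_subset_closedBall isOpen_ball
  have hzmem : z ∈ Δ '' (ball (0 : ℂ) 1 ∩ ball (0 : ℂ) (1 / 3)) :=
    ⟨0, ⟨by simp, by simp⟩, h0⟩
  filter_upwards [hopen.mem_nhds hzmem] with z' hz'
  obtain ⟨w, ⟨hw1, hw3⟩, rfl⟩ := hz'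
  have hw : ‖w‖ < 1 / 3 := by simpa using hw3
  constructor
  · rintro ⟨g, hg, hsum⟩
    obtain ⟨g', hg', heq⟩ := move hΔ ⟨w, hw1, rfl⟩ hg
    refine ⟨g', by rwa [h0] at hg', ?_⟩
    rw [sum_congr_of_eq (fun i t ht => heq _ (havoid i t ht))]
    exact hsum
  · rintro ⟨g, hg, hsum⟩
    have hD : IsDisc (fun v => Δ (w + (2 / 3 : ℝ) * v)) := hΔ.sub (by norm_num) (by linarith)
    have hDsub : (fun v => Δ (w + (2 / 3 : ℝ) * v)) '' ball (0 : ℂ) 1 ⊆ Δ '' ball (0 : ℂ) 1 := by
      rintro _ ⟨v, hv, rfl⟩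
      refine ⟨_, ?_, rfl⟩
      have hv' : ‖v‖ < 1 := by simpa using hv
      rw [mem_ball_zero_iff]
      calc ‖w + ((2 / 3 : ℝ) : ℂ) * v‖ ≤ ‖w‖ + ‖((2 / 3 : ℝ) : ℂ) * v‖ := norm_add_le _ _
        _ = ‖w‖ + 2 / 3 * ‖v‖ := by
          rw [norm_mul, Complex.norm_real, Real.norm_of_nonneg (by norm_num)]
        _ < 1 := by linarith
    have hzD : z ∈ (fun v => Δ (w + (2 / 3 : ℝ) * v)) '' ball (0 : ℂ) 1 := by
      refine ⟨-((3 / 2 : ℝ) : ℂ) * w, ?_, ?_⟩
      · rw [mem_ball_zero_iff, norm_mul, norm_neg, Complex.norm_real,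
          Real.norm_of_nonneg (by norm_num)]
        linarith
      · show Δ (w + ((2 / 3 : ℝ) : ℂ) * (-((3 / 2 : ℝ) : ℂ) * w)) = z
        rw [← h0]
        congr 1
        push_cast
        ring
    obtain ⟨g', hg', heq⟩ := move hD hzD hg
    refine ⟨g', ?_, ?_⟩
    · simpa using hg'
    · rw [sum_congr_of_eq (fun i t ht => heq _ (fun h => havoid i t ht (hDsub h)))]
      exact hsum

/-- the lift of `G` along the real line -/
noncomputable def phi (x : ℝ) : ℝ :=
  Real.pi * (1 + max (-1) (min 1 (2 * x / Real.sqrt (x ^ 2 + 1 / 4))))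

theorem continuous_phi : Continuous phi := by
  unfold phi
  have h : ∀ x : ℝ, Real.sqrt (x ^ 2 + 1 / 4) ≠ 0 := fun x =>
    (Real.sqrt_pos.2 (by positivity)).ne'
  have h2 : Continuous fun x : ℝ => 2 * x / Real.sqrt (x ^ 2 + 1 / 4) :=
    Continuous.div (by fun_prop) (by fun_prop) h
  fun_prop

theorem phi_of_ge {x : ℝ} (hx : 1 ≤ x) : phi x = 2 * Real.pi := by
  unfold phi
  have hs : 0 < Real.sqrt (x ^ 2 + 1 / 4) := Real.sqrt_pos.2 (by positivity)
  have h1 : 1 ≤ 2 * x / Real.sqrt (x ^ 2 + 1 / 4) := by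
    rw [le_div_iff₀ hs, one_mul]
    apply Real.sqrt_le_iff.2
    constructor
    · linarith
    · nlinarith
  rw [min_eq_left h1, max_eq_right (by norm_num)]
  ring

theorem phi_of_le {x : ℝ} (hx : x ≤ -1) : phi x = 0 := by
  unfold phi
  have hs : 0 < Real.sqrt (x ^ 2 + 1 / 4) := Real.sqrt_pos.2 (by positivity)
  have h1 : 2 * x / Real.sqrt (x ^ 2 + 1 / 4) ≤ -1 := by
    rw [div_le_iff₀ hs]
    have : Real.sqrt (x ^ 2 + 1 / 4) ≤ -(2 * x) := by
      apply Real.sqrt_le_iff.2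
      constructor
      · linarith
      · nlinarith
    linarith
  rw [min_eq_right (by linarith), max_eq_left h1]
  simp

theorem exp_phi_of_abs {x : ℝ} (hx : 1 ≤ |x|) : Circle.exp (phi x) = 1 := by
  rcases le_abs.1 hx with h | h
  · rw [phi_of_ge h]; exact Circle.exp_two_pi
  · rw [phi_of_le (by linarith)]; exact Circle.exp_zero

/-- **Separation lemma.** -/
theorem sep [T2Space M] [Surf M] {ι : Type*} [Fintype ι] {γ : Set M} (hγ : IsClosed γ)
    (c : ι → ℝ → M) (hc : ∀ i, ContinuousOn (c i) (Icc 0 1)) (ε : ι → ℝ)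
    (hin : ∀ i, ∀ t ∈ Icc (0 : ℝ) 1, c i t ∈ γ ∪ bdy M)
    (null : ∀ F : M → Circle, Continuous F → ∑ i, ε i * ang (F ∘ c i) = 0)
    {δ : ℂ → M} (hδ : IsHalfDisc δ) (hδγ : Disjoint (δ '' HD) γ)
    (i₀ : ι) (hε : ε i₀ ≠ 0) {u : ℝ → ℝ} (hu : ContinuousOn u (Icc 0 1))
    (hu01 : (u 0 ≤ -1 ∧ 1 ≤ u 1) ∨ (1 ≤ u 0 ∧ u 1 ≤ -1))
    (hpass : ∀ t ∈ Icc (0 : ℝ) 1, |u t| ≤ 1 → c i₀ t = δ (u t))
    (hpass' : ∀ t ∈ Icc (0 : ℝ) 1, 1 < |u t| → c i₀ t ∉ δ '' HD)
    (hother : ∀ i, i ≠ i₀ → ∀ t ∈ Icc (0 : ℝ) 1, c i t ∉ δ '' HD)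
    {r' : M} (hr' : r' ∈ bdy M) (hr'γ : r' ∉ γ)
    (hr'c : ∀ i, ∀ t ∈ Icc (0 : ℝ) 1, c i t ≠ r')
    {S : Set M} (hS : IsPreconnected S) (hSγ : Disjoint S γ) (hrS : δ 0 ∈ S) (hr'S : r' ∈ S) :
    False := by
  classical
  have hP : ∀ z ∈ inn M, z ∉ γ → ∀ᶠ z' in 𝓝 z, (Detects c ε z' ↔ Detects c ε z) :=
    fun z hz hzγ => Detects.locally hγ hin hz hzγ
  have hIHD : (Complex.I / 2) ∈ HD := ⟨by simp; norm_num, by simp⟩
  -- the detecting function at `δ (i/2)`
  have hcentre : Detects c ε (δ (Complex.I / 2)) := by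
    obtain ⟨g, hg, hgδ, hg1⟩ := hδ.exists_G
    refine ⟨g, hg, ?_⟩
    have hreal : ∀ x : ℝ, |x| ≤ 1 → g (δ x) = Circle.exp (phi x) := by
      intro x hx
      rw [hgδ x ⟨by simpa using hx, by simp⟩ (by
        intro h
        have := congrArg Complex.im h
        simp at this)]
      rw [G_real]
      rfl
    have hi₀ : ang (g ∘ c i₀) = phi (u 1) - phi (u 0) := by
      apply ang_eq (θ := fun t => phi (u t))
      · exact continuous_phi.comp_continuousOn hu
      · intro t ht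
        by_cases hut : |u t| ≤ 1
        · show g (c i₀ t) = _
          rw [hpass t ht hut, hreal _ hut]
        · have hut' := not_le.1 hut
          show g (c i₀ t) = _
          rw [hg1 _ (fun h => hpass' t ht hut' (image_mono HDo_subset h)),
            exp_phi_of_abs hut'.le]
    have hne : ang (g ∘ c i₀) ≠ 0 := by
      rw [hi₀]
      rcases hu01 with ⟨h1, h2⟩ | ⟨h1, h2⟩
      · rw [phi_of_ge h2, phi_of_le h1, sub_zero]
        positivity
      · rw [phi_of_ge h1, phi_of_le h2, zero_sub]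
        have := Real.pi_pos
        intro h
        linarith
    have hothers : ∀ i, i ≠ i₀ → ang (g ∘ c i) = 0 := by
      intro i hi
      have h1 : ang (g ∘ c i) = ang (fun _ => (1 : Circle)) := ang_congr (fun t ht =>
        hg1 _ (fun h => hother i hi t ht (image_mono HDo_subset h)))
      rw [h1]
      exact ang_const 1
    rw [Finset.sum_eq_single i₀ (fun i _ hi => by rw [hothers i hi, mul_zero])
      (fun h => absurd (Finset.mem_univ _) h)]
    exact mul_ne_zero hε hne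
  have hHDpre : IsPreconnected (δ '' HD) :=
    convex_HD.isPreconnected.image _ hδ.cont.continuousOn
  have hstart : ∀ᶠ z in 𝓝 (δ 0), z ∈ inn M → Detects c ε z := by
    apply decomp hγ hP hHDpre hδγ (a := δ (Complex.I / 2)) ⟨_, hIHD, rfl⟩
      ⟨0, ⟨by simp, by simp⟩, rfl⟩
    have hin' : δ (Complex.I / 2) ∈ inn M := hδ.mem_inn (by simp; norm_num) (by simp)
    have hγ' : δ (Complex.I / 2) ∉ γ := Set.disjoint_left.1 hδγ ⟨_, hIHD, rfl⟩
    filter_upwards [hP _ hin' hγ'] with z hz _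
    exact hz.2 hcentre
  have hend := decomp hγ hP hS hSγ hrS hr'S hstart
  -- near `r'` nothing is detected
  have hnear : ∀ᶠ z in 𝓝 r', ¬ Detects c ε z := by
    set U : Set M := (γ ∪ ⋃ i, c i '' Icc 0 1)ᶜ with hU
    have hUo : IsOpen U := by
      rw [hU, isOpen_compl_iff]
      apply hγ.union
      apply isClosed_iUnion_of_finite
      intro i
      exact (isCompact_Icc.image_of_continuousOn (hc i)).isClosed
    have hrU : r' ∈ U := by
      rw [hU]
      rintro (h | h)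
      · exact hr'γ h
      · obtain ⟨i, t, ht, h⟩ := mem_iUnion.1 h
        exact hr'c i t ht h
    obtain ⟨η, hη, h0, hsub⟩ := exists_halfDisc hr' (hUo.mem_nhds hrU)
    have hO : η '' HDo ∈ 𝓝 r' := by
      apply hη.isOpen.mem_nhds
      rw [← h0]
      exact ⟨0, ⟨by simp, by simp⟩, rfl⟩
    filter_upwards [hO] with z hz
    rintro ⟨g, hg, hsum⟩
    obtain ⟨g', hg', heq⟩ := fill hη hz hg
    apply hsum
    rw [← null g' hg']
    symm
    apply sum_congr_of_eq
    intro i t ht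
    apply heq
    intro h
    exact hsub (image_mono HDo_subset h) (Or.inr (mem_iUnion.2 ⟨i, t, ht, rfl⟩))
  have hf := inn_frequently (M := M) r'
  apply hf
  filter_upwards [hend, hnear] with z h1 h2 h3
  exact h2 (h1 h3)

end Disc

end Pool.Agent.Kuiper
end


/-! ### file LocalSep -/
section
/-! # Separation by a path inside a half-disc -/

set_option autoImplicit false
open Set Topology Metric

namespace Pool.Agent.Kuiper

section Disc
variable {M : Type*} [TopologicalSpace M]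

/-- Choose a small half-disc around `Δ x`, disjoint from a closed set. -/
theorem IsHalfDisc.exists_small {Δ : ℂ → M} (hΔ : IsHalfDisc Δ) {γ : Set M}
    (hγ : IsClosed γ) {x : ℝ} (hx : |x| < 1) (hxγ : Δ x ∉ γ) {η : ℝ} (hη : 0 < η) :
    ∃ ρ : ℝ, 0 < ρ ∧ ρ ≤ η ∧ |x| + ρ ≤ 1 ∧ Disjoint ((fun w : ℂ => Δ (x + ρ * w)) '' HD) γ := by
  have hcont : Continuous Δ := hΔ.cont
  have hU' : Δ ⁻¹' γᶜ ∈ 𝓝 (x : ℂ) := hcont.continuousAt (hγ.isOpen_compl.mem_nhds hxγ)
  obtain ⟨r, hr, hrU⟩ := Metric.nhds_basis_closedBall.mem_iff.1 hU'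
  refine ⟨min (min r η) (1 - |x|), lt_min (lt_min hr hη) (by linarith),
    (min_le_left _ _).trans (min_le_right _ _), by
      have : min (min r η) (1 - |x|) ≤ 1 - |x| := min_le_right _ _
      linarith, ?_⟩
  rw [Set.disjoint_left]
  rintro _ ⟨w, hw, rfl⟩ hmem
  have hρ : 0 < min (min r η) (1 - |x|) := lt_min (lt_min hr hη) (by linarith)
  refine hrU ?_ hmem
  rw [mem_closedBall, dist_eq_norm, add_sub_cancel_left, norm_mul, Complex.norm_real,
    Real.norm_of_nonneg hρ.le]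
  have h1 : min (min r η) (1 - |x|) ≤ r := (min_le_left _ _).trans (min_le_left _ _)
  have h2 := hw.1
  nlinarith [norm_nonneg w]

theorem real_mem_HD {x : ℝ} (hx : |x| ≤ 1) : (x : ℂ) ∈ HD := by
  refine ⟨?_, ?_⟩
  · rw [Complex.norm_real]; exact hx
  · simp

theorem abs_lt_one_of_between {a b s : ℝ} (ha : |a| < 1) (hb : |b| < 1) (hs : s ∈ Icc (0 : ℝ) 1) :
    |a + s * (b - a)| < 1 := by
  have h := (convex_ball (0 : ℝ) 1) (x := a) (by simpa using ha) (y := b) (by simpa using hb)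
    (sub_nonneg.2 hs.2) hs.1 (by ring)
  rw [mem_ball, dist_zero_right, Real.norm_eq_abs] at h
  convert h using 2
  simp only [smul_eq_mul]
  ring

theorem local_sep [T2Space M] [Surf M] {Δ : ℂ → M} (hΔ : IsHalfDisc Δ) {γ : Set M}
    (hγ : IsClosed γ) {π : ℝ → M} (hπ : ContinuousOn π (Icc 0 1))
    (hπΔ : ∀ t ∈ Icc (0 : ℝ) 1, π t ∈ Δ '' HD) (hπγ : ∀ t ∈ Icc (0 : ℝ) 1, π t ∈ γ)
    {a b x : ℝ} (ha : |a| < 1) (hb : |b| < 1) (h0 : π 0 = Δ a) (h1 : π 1 = Δ b)
    (hx : (a < x ∧ x < b) ∨ (b < x ∧ x < a)) (hxγ : Δ x ∉ γ)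
    {r' : M} (hr' : r' ∈ bdy M) (hr'γ : r' ∉ γ) (hr'Δ : r' ∉ Δ '' HD)
    {S : Set M} (hS : IsPreconnected S) (hSγ : Disjoint S γ) (hrS : Δ x ∈ S) (hr'S : r' ∈ S) :
    False := by
  have hxabs : |x| < 1 := by
    rw [abs_lt] at *
    rcases hx with hx | hx <;> constructor <;> linarith
  have hη : 0 < min |x - a| |x - b| := by
    apply lt_min <;> rw [abs_pos] <;> intro h <;> rcases hx with hx | hx <;> linarith
  obtain ⟨ρ, hρ, hρη, hρ1, hdis⟩ := hΔ.exists_small hγ hxabs hxγ hη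
  have hρa : ρ ≤ |x - a| := hρη.trans (min_le_left _ _)
  have hρb : ρ ≤ |x - b| := hρη.trans (min_le_right _ _)
  have hρ' : (ρ : ℂ) ≠ 0 := by exact_mod_cast hρ.ne'
  let c : Bool → ℝ → M := fun i t => if i then Δ ((a + t * (b - a) : ℝ) : ℂ) else π t
  let ε : Bool → ℝ := fun i => if i then 1 else -1
  have hcont : Continuous Δ := hΔ.cont
  refine sep hγ c ?_ ε ?_ ?_ (hΔ.sub hρ hρ1) hdis true (by simp [ε])
    (u := fun t => (a + t * (b - a) - x) / ρ) ?_ ?_ ?_ ?_ ?_ hr' hr'γ ?_ hS hSγ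
    (by simpa using hrS) hr'S
  · -- continuity
    intro i
    cases i
    · simpa [c] using hπ
    · simp only [c, if_true]
      apply Continuous.continuousOn
      exact hcont.comp (by fun_prop)
  · -- in γ ∪ bdy
    intro i t ht
    cases i
    · simp only [c, Bool.false_eq_true, if_false]
      exact Or.inl (hπγ t ht)
    · simp only [c, if_true]
      exact Or.inr (hΔ.mem_bdy (abs_lt_one_of_between ha hb ht))
  · -- null
    intro F hF
    obtain ⟨L, hL, hLF⟩ := exists_log_comp hcont hF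
    obtain ⟨i, hi, hinv⟩ := IsEmb.exists_inv hΔ isCompact_HD
    have e1 : ang (F ∘ c true) = L b - L a := by
      have := ang_comp_log (X := ℝ) (F := fun s : ℝ => F (Δ s)) (L := fun s : ℝ => L s)
        (D := univ) (by fun_prop) (fun z _ => hLF z) (c := fun t : ℝ => a + t * (b - a))
        (by fun_prop) (fun _ _ => mem_univ _)
      simp only [zero_mul, add_zero, one_mul, add_sub_cancel] at this
      rw [← this]
      apply ang_congr
      intro t _
      simp [c]
    have e2 : ang (F ∘ c false) = L b - L a := by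
      have h2 : ∀ m ∈ Δ '' HD, F m = Circle.exp ((L ∘ i) m) := by
        rintro _ ⟨w, hw, rfl⟩
        simp only [Function.comp_apply, hinv w hw]
        exact hLF w
      have := ang_comp_log (F := F) (L := L ∘ i) (D := Δ '' HD)
        (hL.comp_continuousOn hi) h2 (c := c false) (by simpa [c] using hπ)
        (by intro t ht; simpa [c] using hπΔ t ht)
      rw [this]
      simp only [c, Bool.false_eq_true, if_false, Function.comp_apply, h0, h1]
      rw [hinv _ (real_mem_HD hb.le), hinv _ (real_mem_HD ha.le)]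
    simp only [Fintype.sum_bool, e1, e2, ε]
    simp
  · fun_prop
  · -- endpoints of u
    simp only [zero_mul, add_zero, one_mul, add_sub_cancel]
    rcases hx with hx | hx
    · left
      rw [abs_of_pos (by linarith)] at hρa
      rw [abs_of_neg (by linarith)] at hρb
      constructor
      · rw [div_le_iff₀ hρ]; linarith
      · rw [le_div_iff₀ hρ]; linarith
    · right
      rw [abs_of_neg (by linarith)] at hρa
      rw [abs_of_pos (by linarith)] at hρb
      constructor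
      · rw [le_div_iff₀ hρ]; linarith
      · rw [div_le_iff₀ hρ]; linarith
  · -- passing
    intro t _ _
    simp only [c, if_true]
    congr 1
    push_cast
    field_simp
    ring
  · intro t ht h2
    simp only [c, if_true]
    rintro ⟨w, hw, he⟩
    have hw1 : (x : ℂ) + ρ * w ∈ HD := by
      refine ⟨norm_affine_le hρ (by simpa using hρ1) hw.1, ?_⟩
      simpa using mul_nonneg hρ.le hw.2
    have he' := hΔ.inj hw1 (real_mem_HD (abs_lt_one_of_between ha hb ht).le) he
    have h3 : (ρ : ℂ) * w = ((a + t * (b - a) - x : ℝ) : ℂ) := by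
      push_cast at he' ⊢
      linear_combination he'
    have h4 : ρ * ‖w‖ = |a + t * (b - a) - x| := by
      have := congrArg norm h3
      rwa [norm_mul, Complex.norm_real, Real.norm_of_nonneg hρ.le, Complex.norm_real,
        Real.norm_eq_abs] at this
    rw [abs_div, abs_of_pos hρ, lt_div_iff₀ hρ] at h2
    have := hw.1
    nlinarith
  · intro i hi t ht
    cases i
    · simp only [c, Bool.false_eq_true, if_false]
      intro hmem
      exact Set.disjoint_left.1 hdis hmem (hπγ t ht)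
    · exact absurd rfl hi
  · intro i t ht
    cases i
    · simp only [c, Bool.false_eq_true, if_false]
      intro he
      exact hr'γ (he ▸ hπγ t ht)
    · simp only [c, if_true]
      intro he
      exact hr'Δ ⟨_, real_mem_HD (abs_lt_one_of_between ha hb ht).le, he⟩

end Disc

end Pool.Agent.Kuiper
end


/-! ### file Mult -/
section
/-! # Degrees of circle-valued functions on punctured discs -/

set_option autoImplicit false
open Set Topology Metric

namespace Pool.Agent.Kuiper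

theorem coe_dir {w : ℂ} (hw : w ≠ 0) : (dir w : ℂ) = w / ‖w‖ := by
  have h := Complex.norm_mul_exp_arg_mul_I w
  have h' : (‖w‖ : ℂ) ≠ 0 := by simpa using hw
  rw [dir, Circle.coe_exp, eq_div_iff h', mul_comm]
  exact h

theorem continuousOn_dir : ContinuousOn dir {0}ᶜ := by
  have hi : Topology.IsInducing (fun z : Circle => (z : ℂ)) := Topology.IsInducing.subtypeVal
  refine hi.continuousOn_iff.2 ?_
  have h : ContinuousOn (fun w : ℂ => w / (‖w‖ : ℂ)) {0}ᶜ := by
    apply ContinuousOn.div continuousOn_id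
    · fun_prop
    · intro x hx
      simpa using hx
  exact h.congr fun w hw => coe_dir hw

theorem dir_mul {z w : ℂ} (hz : z ≠ 0) (hw : w ≠ 0) : dir (z * w) = dir z * dir w := by
  apply Circle.ext
  rw [Circle.coe_mul, coe_dir hz, coe_dir hw, coe_dir (mul_ne_zero hz hw), norm_mul]
  push_cast
  rw [mul_div_mul_comm]

theorem dir_coe (z : Circle) : dir (z : ℂ) = z := Circle.exp_arg z

theorem dir_real {r : ℝ} (hr : 0 < r) : dir (r : ℂ) = 1 := by
  rw [dir, Complex.arg_ofReal_of_nonneg hr.le, Circle.exp_zero]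

theorem norm_circ (t : ℝ) : ‖circ t‖ = 1 := Circle.norm_coe _

theorem circ_ne_zero (t : ℝ) : circ t ≠ 0 := Circle.coe_ne_zero _

theorem circ_one : circ 1 = circ 0 := by
  unfold circ
  rw [mul_one, Circle.exp_two_pi, mul_zero, Circle.exp_zero]

theorem continuous_circ : Continuous circ := by
  unfold circ
  exact continuous_subtype_val.comp (Circle.exp.continuous.comp (by fun_prop))

theorem dir_circ (t : ℝ) : dir (circ t) = Circle.exp (2 * Real.pi * t) := dir_coe _

/-- **Mult** -/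
theorem exists_mult {g : ℂ → Circle} (hg : ContinuousOn g (closedBall 0 1 \ {0})) :
    ∃ d : ℤ, ang (g ∘ circ) = 2 * Real.pi * d ∧ ∃ L : ℂ → ℝ,
      ContinuousOn L (closedBall 0 1 \ {0}) ∧
      ∀ w ∈ closedBall (0 : ℂ) 1 \ {0}, g w = dir w ^ d * Circle.exp (L w) := by
  -- polar coordinates
  let Φ : ℝ × ℝ → ℂ := fun p => (p.2 : ℂ) * (Circle.exp p.1 : Circle)
  have hΦ : Continuous Φ := by
    apply Continuous.mul
    · fun_prop
    · exact continuous_subtype_val.comp (Circle.exp.continuous.comp continuous_fst)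
  let D : Set (ℝ × ℝ) := univ ×ˢ Ioc 0 1
  have hΦD : ∀ p ∈ D, Φ p ∈ closedBall (0 : ℂ) 1 \ {0} := by
    rintro ⟨θ, ρ⟩ ⟨_, h1, h2⟩
    simp only at h1 h2
    refine ⟨?_, ?_⟩
    · rw [mem_closedBall, dist_zero_right, norm_mul, Circle.norm_coe, Complex.norm_real,
        Real.norm_of_nonneg h1.le, mul_one]
      exact h2
    · intro h
      rw [mem_singleton_iff, mul_eq_zero] at h
      rcases h with h | h
      · exact h1.ne' (by exact_mod_cast h)
      · exact Circle.coe_ne_zero _ h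
  have hDconv : Convex ℝ D := convex_univ.prod (convex_Ioc 0 1)
  have hD01 : ((0 : ℝ), (1 : ℝ)) ∈ D := ⟨mem_univ _, by norm_num, le_rfl⟩
  obtain ⟨Θ, hΘ, hΘe⟩ := exists_log_star (c := ((0 : ℝ), (1 : ℝ))) (hDconv.starConvex hD01) hD01
    (F := g ∘ Φ) (hg.comp hΦ.continuousOn hΦD)
  -- the degree
  have hcont : ContinuousOn (g ∘ circ) (Icc 0 1) := by
    apply hg.comp continuous_circ.continuousOn
    intro t _
    exact ⟨by rw [mem_closedBall, dist_zero_right, norm_circ], circ_ne_zero t⟩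
  obtain ⟨d, hd⟩ := ang_loop hcont (by simp only [Function.comp]; rw [circ_one])
  have hang : ang (g ∘ circ) = Θ (2 * Real.pi, 1) - Θ (0, 1) := by
    have := ang_eq (u := g ∘ circ) (θ := fun t => Θ (2 * Real.pi * t, 1)) ?_ ?_
    · rw [this, mul_one, mul_zero]
    · apply hΘ.comp (by fun_prop)
      intro t _
      exact ⟨mem_univ _, by norm_num, le_rfl⟩
    · intro t _
      rw [← hΘe (2 * Real.pi * t, 1) ⟨mem_univ _, by norm_num, le_rfl⟩]
      simp [Φ, circ]
  refine ⟨d, hd, ?_⟩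
  let Ψ : ℝ × ℝ → ℝ := fun p => Θ p - d * p.1
  have hΨ : ContinuousOn Ψ D := hΘ.sub (by fun_prop)
  have hper : ∀ ρ ∈ Ioc (0 : ℝ) 1, Function.Periodic (fun θ => Ψ (θ, ρ)) (2 * Real.pi) := by
    intro ρ hρ θ
    have := log_unique hDconv.isPreconnected (L := fun p : ℝ × ℝ => Θ (p.1 + 2 * Real.pi, p.2))
      (L' := Θ) (hΘ.comp (by fun_prop) (fun p hp => ⟨mem_univ _, hp.2⟩)) hΘ
      (fun p hp => by
        rw [← hΘe p hp, ← hΘe (p.1 + 2 * Real.pi, p.2) ⟨mem_univ _, hp.2⟩]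
        simp only [Function.comp, Φ]
        rw [Circle.exp_add_two_pi]) (a := (θ, ρ)) (b := (0, 1)) ⟨mem_univ _, hρ⟩ hD01
    simp only [zero_add] at this
    simp only [Ψ]
    rw [hang] at hd
    linarith
  refine ⟨fun w => Ψ (Complex.arg w, ‖w‖), ?_, ?_⟩
  · intro w₀ hw₀
    have hw₀0 : w₀ ≠ 0 := hw₀.2
    -- local expression
    have hloc : ∀ w ∈ closedBall (0 : ℂ) 1 \ {0}, Ψ (Complex.arg w, ‖w‖) =
        Ψ (Complex.arg w₀ + Complex.arg (w / w₀), ‖w‖) := by
      rintro w ⟨hw1, hw0⟩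
      rw [mem_closedBall, dist_zero_right] at hw1
      rw [mem_singleton_iff] at hw0
      have hρ : ‖w‖ ∈ Ioc (0 : ℝ) 1 := ⟨norm_pos_iff.2 hw0, hw1⟩
      have hexp : Circle.exp (Complex.arg w) =
          Circle.exp (Complex.arg w₀ + Complex.arg (w / w₀)) := by
        have h1 := dir_mul hw₀0 (div_ne_zero hw0 hw₀0)
        rw [mul_div_cancel₀ _ hw₀0] at h1
        rw [Circle.exp_add]
        exact h1
      obtain ⟨m, hm⟩ := Circle.exp_eq_exp.1 hexp
      rw [hm]
      exact (hper _ hρ).int_mul m _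
    have hc : ContinuousWithinAt (fun w => Ψ (Complex.arg w₀ + Complex.arg (w / w₀), ‖w‖))
        (closedBall (0 : ℂ) 1 \ {0}) w₀ := by
      have hmem : (Complex.arg w₀ + Complex.arg (w₀ / w₀), ‖w₀‖) ∈ D := by
        have h1 := hw₀.1
        rw [mem_closedBall, dist_zero_right] at h1
        exact ⟨mem_univ _, norm_pos_iff.2 hw₀0, h1⟩
      apply ContinuousWithinAt.comp (g := Ψ) (t := D)
        (f := fun w : ℂ => (Complex.arg w₀ + Complex.arg (w / w₀), ‖w‖)) (hΨ _ hmem)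
      · apply ContinuousAt.continuousWithinAt
        apply ContinuousAt.prodMk _ continuous_norm.continuousAt
        apply ContinuousAt.add continuousAt_const
        have h1 : ContinuousAt (fun w : ℂ => w / w₀) w₀ := by fun_prop
        have h2 : ContinuousAt Complex.arg (w₀ / w₀) := by
          rw [div_self hw₀0]
          exact Complex.continuousAt_arg Complex.one_mem_slitPlane
        exact ContinuousAt.comp (f := fun w : ℂ => w / w₀) h2 h1
      · rintro w ⟨hw1, hw0⟩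
        rw [mem_closedBall, dist_zero_right] at hw1
        rw [mem_singleton_iff] at hw0
        exact ⟨mem_univ _, norm_pos_iff.2 hw0, hw1⟩
    exact hc.congr hloc (hloc w₀ hw₀)
  · rintro w ⟨hw1, hw0⟩
    rw [mem_closedBall, dist_zero_right] at hw1
    rw [mem_singleton_iff] at hw0
    have hmem : (Complex.arg w, ‖w‖) ∈ D := ⟨mem_univ _, norm_pos_iff.2 hw0, hw1⟩
    have h1 := hΘe _ hmem
    have h2 : (g ∘ Φ) (Complex.arg w, ‖w‖) = g w := by
      simp only [Function.comp, Φ]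
      congr 1
      rw [Circle.coe_exp]
      exact Complex.norm_mul_exp_arg_mul_I w
    rw [h2] at h1
    simp only [Ψ]
    rw [h1, sub_eq_add_neg, Circle.exp_add, Circle.exp_neg, Circle.exp_intCast_mul, dir,
      mul_comm, inv_mul_cancel_right]

/-- the angle of a multiplicative function along a closed curve -/
theorem ang_of_mult {g : ℂ → Circle} {d : ℤ} {L : ℂ → ℝ}
    (hL : ContinuousOn L (closedBall 0 1 \ {0}))
    (hg : ∀ w ∈ closedBall (0 : ℂ) 1 \ {0}, g w = dir w ^ d * Circle.exp (L w))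
    {c : ℝ → ℂ} (hc : ContinuousOn c (Icc 0 1))
    (hcD : ∀ t ∈ Icc (0 : ℝ) 1, c t ∈ closedBall (0 : ℂ) 1 \ {0}) (h01 : c 0 = c 1) :
    ang (g ∘ c) = d * ang (dir ∘ c) := by
  have hdc : ContinuousOn (dir ∘ c) (Icc 0 1) :=
    continuousOn_dir.comp hc (fun t ht => (hcD t ht).2)
  have h1 : ang (g ∘ c) = ang (fun t => (dir ∘ c) t ^ d * Circle.exp (L (c t))) :=
    ang_congr (fun t ht => hg _ (hcD t ht))
  have hLc : ContinuousOn (fun t => L (c t)) (Icc 0 1) := hL.comp hc hcD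
  rw [h1, ang_mul (u := fun t => (dir ∘ c) t ^ d) (v := fun t => Circle.exp (L (c t)))
    (hdc.zpow d) (Circle.exp.continuous.comp_continuousOn hLc), ang_zpow hdc,
    ang_eq (u := fun t => Circle.exp (L (c t))) (θ := fun t => L (c t)) hLc (fun _ _ => rfl), h01]
  ring

/-- circles around a point at distance less than the radius have winding number one -/
theorem ang_dir_circ {w : ℂ} {ρ : ℝ} (hw : ‖w‖ < ρ) :
    ang (fun t => dir (w + ρ * circ t)) = 2 * Real.pi := by
  have hρ : 0 < ρ := (norm_nonneg w).trans_lt hw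
  have hρ' : (ρ : ℂ) ≠ 0 := by exact_mod_cast hρ.ne'
  let v : ℝ → ℂ := fun t => w / (ρ * circ t)
  have hv : Continuous v := by
    apply continuous_const.div (continuous_const.mul continuous_circ)
    intro t
    exact mul_ne_zero hρ' (circ_ne_zero t)
  have hv1 : ∀ t, 1 + v t ∈ Complex.slitPlane := by
    intro t
    apply Complex.mem_slitPlane_of_norm_lt_one
    simp only [v]
    rw [norm_div, norm_mul, norm_circ, Complex.norm_real, Real.norm_of_nonneg hρ.le, mul_one,
      div_lt_one hρ]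
    exact hw
  rw [ang_eq (θ := fun t => 2 * Real.pi * t + Complex.arg (1 + v t))]
  · simp only [v]
    rw [circ_one]
    ring
  · apply ContinuousOn.add (by fun_prop)
    apply Continuous.continuousOn
    rw [continuous_iff_continuousAt]
    intro t
    exact ContinuousAt.comp (f := fun t => 1 + v t) (Complex.continuousAt_arg (hv1 t))
      (continuous_const.add hv).continuousAt
  · intro t _
    have h1 : w + ρ * circ t = ρ * (circ t * (1 + v t)) := by
      have := circ_ne_zero t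
      simp only [v]
      field_simp
      ring
    have h2 : (1 + v t) ≠ 0 := Complex.slitPlane_ne_zero (hv1 t)
    rw [h1, dir_mul hρ' (mul_ne_zero (circ_ne_zero t) h2), dir_mul (circ_ne_zero t) h2,
      dir_real hρ, one_mul, dir_circ, Circle.exp_add]
    rfl

section Disc
variable {M : Type*} [TopologicalSpace M]

theorem IsDisc.continuousOn_comp {δ : ℂ → M} (hδ : IsDisc δ) {z : M} (hz : δ 0 = z)
    {g : M → Circle} (hg : ContinuousOn g {z}ᶜ) :
    ContinuousOn (g ∘ δ) (closedBall (0 : ℂ) 1 \ {0}) := by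
  apply hg.comp hδ.cont.continuousOn
  rintro w ⟨hw, hw0⟩ h
  rw [mem_singleton_iff, ← hz] at h
  exact hw0 (hδ.inj hw (mem_closedBall_self zero_le_one) h)

theorem circ_mem (t : ℝ) : circ t ∈ closedBall (0 : ℂ) 1 \ {0} :=
  ⟨by rw [mem_closedBall, dist_zero_right, norm_circ], circ_ne_zero t⟩

/-- degrees of centred discs divide each other -/
theorem deg_dvd [T2Space M] {δ δ' : ℂ → M} (hδ : IsDisc δ) (hδ' : IsDisc δ') (h0 : δ 0 = δ' 0)
    {g : M → Circle} (hg : ContinuousOn g {δ 0}ᶜ) :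
    ∃ k : ℤ, ang (g ∘ δ ∘ circ) = k * ang (g ∘ δ' ∘ circ) := by
  obtain ⟨d, hd, L, hL, hgL⟩ := exists_mult (hδ.continuousOn_comp rfl hg)
  obtain ⟨d', hd', L', hL', hgL'⟩ := exists_mult (hδ'.continuousOn_comp h0.symm hg)
  -- a small disc
  have hopen : δ ⁻¹' (δ' '' ball (0 : ℂ) 1) ∈ 𝓝 (0 : ℂ) := by
    apply (hδ'.isOpen.preimage hδ.cont).mem_nhds
    rw [mem_preimage, h0]
    exact ⟨0, mem_ball_self one_pos, rfl⟩
  obtain ⟨r, hr, hrU⟩ := Metric.nhds_basis_closedBall.mem_iff.1 hopen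
  let κ := min r 1
  have hκ : 0 < κ := lt_min hr one_pos
  have hκ1 : κ ≤ 1 := min_le_right _ _
  have hκr : κ ≤ r := min_le_left _ _
  have hκ' : (κ : ℂ) ≠ 0 := by exact_mod_cast hκ.ne'
  have hnorm : ∀ w : ℂ, ‖(κ : ℂ) * w‖ = κ * ‖w‖ := by
    intro w
    rw [norm_mul, Complex.norm_real, Real.norm_of_nonneg hκ.le]
  have hmem : ∀ w ∈ closedBall (0 : ℂ) 1, δ (κ * w) ∈ δ' '' ball (0 : ℂ) 1 := by
    intro w hw
    apply hrU
    rw [mem_closedBall, dist_zero_right] at hw ⊢
    rw [hnorm]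
    nlinarith [norm_nonneg w]
  obtain ⟨i, hi, hinv⟩ := hδ'.exists_inv (isCompact_closedBall _ _)
  let μ : ℂ → ℂ := fun w => i (δ (κ * w))
  have hμc : ContinuousOn μ (closedBall (0 : ℂ) 1) := by
    apply hi.comp (hδ.cont.comp (continuous_const.mul continuous_id)).continuousOn
    intro w hw
    exact image_mono ball_subset_closedBall (hmem w hw)
  have hμ : ∀ w ∈ closedBall (0 : ℂ) 1, μ w ∈ closedBall (0 : ℂ) 1 ∧ δ' (μ w) = δ (κ * w) := by
    intro w hw
    obtain ⟨z, hz, he⟩ := hmem w hw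
    simp only [μ]
    rw [← he, hinv z (ball_subset_closedBall hz)]
    exact ⟨ball_subset_closedBall hz, rfl⟩
  have hκmem : ∀ w ∈ closedBall (0 : ℂ) 1 \ {0}, (κ : ℂ) * w ∈ closedBall (0 : ℂ) 1 \ {0} := by
    rintro w ⟨hw, hw0⟩
    refine ⟨?_, mul_ne_zero hκ' hw0⟩
    rw [mem_closedBall, dist_zero_right] at hw ⊢
    rw [hnorm]
    nlinarith [norm_nonneg w]
  have hμ0 : ∀ w ∈ closedBall (0 : ℂ) 1 \ {0}, μ w ∈ closedBall (0 : ℂ) 1 \ {0} := by
    rintro w ⟨hw, hw0⟩
    refine ⟨(hμ w hw).1, ?_⟩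
    intro h
    have h1 := (hμ w hw).2
    rw [mem_singleton_iff] at h
    rw [h, ← h0] at h1
    have h2 := hδ.inj (mem_closedBall_self zero_le_one) (hκmem w ⟨hw, hw0⟩).1 h1
    exact (hκmem w ⟨hw, hw0⟩).2 h2.symm
  have hμcirc : ContinuousOn (μ ∘ circ) (Icc 0 1) :=
    hμc.comp continuous_circ.continuousOn (fun t _ => (circ_mem t).1)
  -- the angle of the direction of μ
  obtain ⟨k, hk⟩ := ang_loop (u := dir ∘ μ ∘ circ)
    (continuousOn_dir.comp hμcirc (fun t _ => (hμ0 _ (circ_mem t)).2))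
    (by simp only [Function.comp]; rw [circ_one])
  have h1 : ang ((g ∘ δ) ∘ (fun t => (κ : ℂ) * circ t)) = 2 * Real.pi * d := by
    rw [ang_of_mult hL hgL (c := fun t => (κ : ℂ) * circ t)
      (continuous_const.mul continuous_circ).continuousOn (fun t _ => hκmem _ (circ_mem t))
      (by rw [circ_one])]
    have := ang_dir_circ (w := 0) (ρ := κ) (by simpa using hκ)
    simp only [zero_add] at this
    have h2 : ang (dir ∘ fun t => (κ : ℂ) * circ t) = 2 * Real.pi := this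
    rw [h2]
    ring
  have h2 : ang ((g ∘ δ) ∘ (fun t => (κ : ℂ) * circ t)) = d' * (2 * Real.pi * k) := by
    rw [← hk, ← ang_of_mult hL' hgL' (c := μ ∘ circ) hμcirc (fun t _ => hμ0 _ (circ_mem t))
      (by simp only [Function.comp]; rw [circ_one])]
    apply ang_congr
    intro t _
    simp only [Function.comp]
    rw [(hμ _ (circ_mem t).1).2]
  refine ⟨k, ?_⟩
  have e1 : ang (g ∘ δ ∘ circ) = 2 * Real.pi * d := hd
  have e2 : ang (g ∘ δ' ∘ circ) = 2 * Real.pi * d' := hd'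
  rw [e1, e2, ← h1, h2]
  ring

/-- The local degree is independent, up to sign, of the centred disc. -/
theorem deg_pm [T2Space M] {δ δ' : ℂ → M} (hδ : IsDisc δ) (hδ' : IsDisc δ') (h0 : δ 0 = δ' 0)
    {g : M → Circle} (hg : ContinuousOn g {δ 0}ᶜ) :
    ang (g ∘ δ ∘ circ) = ang (g ∘ δ' ∘ circ) ∨ ang (g ∘ δ ∘ circ) = - ang (g ∘ δ' ∘ circ) := by
  obtain ⟨k, hk⟩ := deg_dvd hδ hδ' h0 hg
  obtain ⟨k', hk'⟩ := deg_dvd hδ' hδ h0.symm (by rw [← h0]; exact hg)
  by_cases ha : ang (g ∘ δ ∘ circ) = 0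
  · left
    rw [hk', ha]
    ring
  · have h1 : (k : ℝ) * k' = 1 := by
      have : ang (g ∘ δ ∘ circ) * (k * k' - 1) = 0 := by
        have h2 : ang (g ∘ δ ∘ circ) = k * (k' * ang (g ∘ δ ∘ circ)) := by
          rw [← hk']
          exact hk
        linear_combination -h2
      rcases mul_eq_zero.1 this with h | h
      · exact absurd h ha
      · linarith
    have h2 : k * k' = 1 := by exact_mod_cast h1
    rcases Int.eq_one_or_neg_one_of_mul_eq_one h2 with h | h
    · left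
      rw [hk, h]
      simp
    · right
      rw [hk, h]
      simp

end Disc

end Pool.Agent.Kuiper
end


/-! ### file Odd -/
section
/-! # A circle-valued function with a puncture of odd degree -/

set_option autoImplicit false
open Set Topology Metric

namespace Pool.Agent.Kuiper

section Disc
variable {M : Type*} [TopologicalSpace M]

/-- there is a function with one puncture, at `z`, of odd degree -/
def OddAt (z : M) : Prop :=
  ∃ (δ : ℂ → M) (g : M → Circle) (n : ℤ), IsDisc δ ∧ δ 0 = z ∧ ContinuousOn g {z}ᶜ ∧ Odd n ∧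
    ang (g ∘ δ ∘ circ) = 2 * Real.pi * n

/-- the odd degree may be computed with any centred disc -/
theorem OddAt.exists_of_disc [T2Space M] {z : M} (h : OddAt z) {δ : ℂ → M} (hδ : IsDisc δ)
    (hz : δ 0 = z) : ∃ (g : M → Circle) (n : ℤ), ContinuousOn g {z}ᶜ ∧ Odd n ∧
      ang (g ∘ δ ∘ circ) = 2 * Real.pi * n := by
  obtain ⟨δ', g, n, hδ', hz', hg, hn, ha⟩ := h
  rcases deg_pm hδ hδ' (hz.trans hz'.symm) (by rw [hz]; exact hg) with h | h
  · exact ⟨g, n, hg, hn, by rw [h, ha]⟩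
  · exact ⟨g, -n, hg, hn.neg, by rw [h, ha]; push_cast; ring⟩

theorem OddAt.transfer [T2Space M] {Δ : ℂ → M} (hΔ : IsDisc Δ) {w w' : ℂ} (hw : ‖w‖ < 1 / 8)
    (hw' : ‖w'‖ < 1 / 8) (h : OddAt (Δ w)) : OddAt (Δ w') := by
  have hD1 : IsDisc (fun u => Δ (w + ((3 / 4 : ℝ) : ℂ) * u)) :=
    hΔ.sub (by norm_num) (by linarith)
  have hD2 : IsDisc (fun u => Δ (w' + ((1 / 2 : ℝ) : ℂ) * u)) :=
    hΔ.sub (by norm_num) (by linarith)
  have hww : ‖w' - w‖ < 1 / 4 := by
    calc ‖w' - w‖ ≤ ‖w'‖ + ‖w‖ := norm_sub_le _ _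
      _ < 1 / 4 := by linarith
  obtain ⟨g, n, hg, hn, ha⟩ := h.exists_of_disc hD1 (by simp)
  -- D2 ∘ circ in the coordinates of D1
  obtain ⟨d, hd, L, hL, hgL⟩ := exists_mult (hD1.continuousOn_comp (z := Δ w) (by simp) hg)
  have hdn : d = n := by
    have h1 : 2 * Real.pi * (d : ℝ) = 2 * Real.pi * n := by
      rw [← ha, ← hd]
      rfl
    have h2 : (d : ℝ) = n := mul_left_cancel₀ (by positivity) h1
    exact_mod_cast h2
  let c : ℝ → ℂ := fun t => ((4 / 3 : ℝ) : ℂ) * (w' - w) + ((2 / 3 : ℝ) : ℂ) * circ t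
  have hnc1 : ‖((4 / 3 : ℝ) : ℂ) * (w' - w)‖ < 1 / 3 := by
    rw [norm_mul, Complex.norm_real, Real.norm_of_nonneg (by norm_num)]
    linarith
  have hnc2 : ∀ t, ‖((2 / 3 : ℝ) : ℂ) * circ t‖ = 2 / 3 := by
    intro t
    rw [norm_mul, Complex.norm_real, Real.norm_of_nonneg (by norm_num), norm_circ, mul_one]
  have hcc : Continuous c := continuous_const.add (continuous_const.mul continuous_circ)
  have hcD : ∀ t, c t ∈ closedBall (0 : ℂ) 1 \ {0} := by
    intro t
    refine ⟨?_, ?_⟩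
    · rw [mem_closedBall, dist_zero_right]
      calc ‖c t‖ ≤ _ + _ := norm_add_le _ _
        _ ≤ 1 := by rw [hnc2]; linarith
    · intro h0
      have h1 : ((4 / 3 : ℝ) : ℂ) * (w' - w) = -(((2 / 3 : ℝ) : ℂ) * circ t) :=
        eq_neg_of_add_eq_zero_left h0
      rw [h1, norm_neg, hnc2] at hnc1
      norm_num at hnc1
  have hc12 : ∀ t, Δ (w' + ((1 / 2 : ℝ) : ℂ) * circ t) = Δ (w + ((3 / 4 : ℝ) : ℂ) * c t) := by
    intro t
    congr 1
    simp only [c]
    push_cast
    ring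
  have hang : ang (g ∘ (fun u => Δ (w' + ((1 / 2 : ℝ) : ℂ) * u)) ∘ circ) = 2 * Real.pi * n := by
    have h1 := ang_of_mult hL hgL hcc.continuousOn (fun t _ => hcD t)
      (by simp only [c]; rw [circ_one])
    have h2 : ang (dir ∘ c) = 2 * Real.pi := ang_dir_circ (by linarith)
    rw [h2] at h1
    rw [← hdn, mul_comm, ← h1]
    apply ang_congr
    intro t _
    simp only [Function.comp]
    rw [hc12]
  -- move the puncture
  have hz : Δ w ∈ (fun u => Δ (w' + ((1 / 2 : ℝ) : ℂ) * u)) '' ball (0 : ℂ) 1 := by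
    refine ⟨((2 : ℝ) : ℂ) * (w - w'), ?_, ?_⟩
    · rw [mem_ball, dist_zero_right, norm_mul, Complex.norm_real, Real.norm_of_nonneg (by norm_num),
        norm_sub_rev]
      linarith
    · simp only
      congr 1
      push_cast
      ring
  obtain ⟨g', hg', hgg'⟩ := move hD2 hz hg
  refine ⟨_, g', n, hD2, by simp, by simpa using hg', hn, ?_⟩
  rw [← hang]
  apply ang_congr
  intro t _
  simp only [Function.comp]
  apply hgg'
  rintro ⟨u, hu, he⟩
  have h1 := hD2.inj (ball_subset_closedBall hu) (circ_mem t).1 he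
  rw [h1, mem_ball, dist_zero_right, norm_circ] at hu
  exact lt_irrefl _ hu

/-- oddness is locally constant in the interior -/
theorem oddAt_locally [T2Space M] [Surf M] {z : M} (hz : z ∈ inn M) :
    ∀ᶠ z' in 𝓝 z, (OddAt z' ↔ OddAt z) := by
  obtain ⟨Δ, hΔ, h0, _⟩ := exists_disc hz Filter.univ_mem
  have hopen : IsOpen (Δ '' (ball (0 : ℂ) 1 ∩ ball (0 : ℂ) (1 / 8))) :=
    hΔ.isOpen_image (isCompact_closedBall _ _) ball_subset_closedBall isOpen_ball
  have hmem : z ∈ Δ '' (ball (0 : ℂ) 1 ∩ ball (0 : ℂ) (1 / 8)) :=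
    ⟨0, ⟨mem_ball_self (by norm_num), mem_ball_self (by norm_num)⟩, h0⟩
  filter_upwards [hopen.mem_nhds hmem]
  rintro _ ⟨w, ⟨_, hw⟩, rfl⟩
  rw [mem_ball, dist_zero_right] at hw
  rw [← h0]
  exact ⟨fun h => h.transfer hΔ hw (by simp), fun h => h.transfer hΔ (by simp) hw⟩

theorem IsHalfDisc.oddAt [T2Space M] {δ : ℂ → M} (hδ : IsHalfDisc δ) :
    OddAt (δ (Complex.I / 2)) := by
  obtain ⟨g, hg, h1, _⟩ := hδ.exists_G
  have hI : ‖Complex.I / 2‖ = 1 / 2 := by simp
  have hD : IsDisc (fun u => δ (Complex.I / 2 + ((1 / 4 : ℝ) : ℂ) * u)) :=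
    hδ.subDisc (by norm_num) (by rw [hI]; norm_num) (by simp; norm_num)
  refine ⟨_, g, 1, hD, by simp, hg, odd_one, ?_⟩
  have h2 := ang_G_circ (ρ := 1 / 4) (by norm_num)
  rw [Int.cast_one, mul_one, ← h2]
  apply ang_congr
  intro t _
  simp only [Function.comp]
  apply h1
  · have h3 : ‖((1 / 4 : ℝ) : ℂ) * circ t‖ = 1 / 4 := by
      rw [norm_mul, Complex.norm_real, Real.norm_of_nonneg (by norm_num), norm_circ, mul_one]
    refine ⟨(norm_add_le _ _).trans (by rw [h3, hI]; norm_num), ?_⟩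
    have h4 : |(((1 / 4 : ℝ) : ℂ) * circ t).im| ≤ 1 / 4 :=
      (Complex.abs_im_le_norm _).trans h3.le
    have h5 := neg_le_of_abs_le h4
    have h6 : (Complex.I / 2).im = 1 / 2 := by simp
    rw [Complex.add_im, h6]
    linarith
  · intro h
    have h3 : ((1 / 4 : ℝ) : ℂ) * circ t = 0 := by linear_combination h
    rcases mul_eq_zero.1 h3 with h4 | h4
    · norm_num at h4
    · exact circ_ne_zero t h4

theorem exists_odd [T2Space M] [Surf M] [ConnectedSpace M] (hbd : (bdy M).Nonempty)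
    {δ : ℂ → M} (hδ : IsDisc δ) :
    ∃ (g : M → Circle) (n : ℤ), ContinuousOn g {δ 0}ᶜ ∧ Odd n ∧
      ang (g ∘ δ ∘ circ) = 2 * Real.pi * n := by
  obtain ⟨b, hb⟩ := hbd
  obtain ⟨η, hη, _, _⟩ := exists_halfDisc hb Filter.univ_mem
  have hηI : η (Complex.I / 2) ∈ inn M := hη.mem_inn (by norm_num) (by simp)
  have h1 : ∀ᶠ z in 𝓝 (η (Complex.I / 2)), z ∈ inn M → OddAt z := by
    filter_upwards [oddAt_locally hηI] with z hz _
    exact hz.2 hη.oddAt
  have h2 := decomp (P := OddAt) (γ := ∅) isClosed_empty (fun z hz _ => oddAt_locally hz)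
    (S := univ) isPreconnected_univ (disjoint_empty _) (mem_univ _) (mem_univ (δ 0)) h1
  exact (h2.self_of_nhds (hδ.mem_inn (by simp))).exists_of_disc hδ rfl

end Disc

end Pool.Agent.Kuiper
end
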