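import Pool.Agent.Lib.MP_4139f5_gt.K1

/-! # MP_4139f5_gt, merged module K2: Convex, Chain, Basic, PartB, PartS -/


/-! ### file Convex -/
section
/-! # MP_4139f5_gt: piece G, convex geometry in finite dimension

Straszewicz's theorem, edges, sections of compact convex sets. -/

set_option autoImplicit false
open Set Topology Metric

namespace Pool.Agent.Kuiper

section Convex
variable {E : Type*} [NormedAddCommGroup E] [InnerProductSpace ℝ E] [FiniteDimensional ℝ E]

theorem isCompact_convexHull {S : Set E} (hS : IsCompact S) :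
    IsCompact (convexHull ℝ S) := by
  classical
  rcases S.eq_empty_or_nonempty with rfl | ⟨s0, hs0⟩
  · simp
  set N := Module.finrank ℝ E + 1 with hN
  let Φ : (Fin N → ℝ) × (Fin N → E) → E := fun p => ∑ i, p.1 i • p.2 i
  have hΦ : Continuous Φ := by
    refine continuous_finsetSum _ fun i _ => ?_
    exact ((continuous_apply i).comp continuous_fst).smul ((continuous_apply i).comp continuous_snd)
  have hS' : IsCompact (stdSimplex ℝ (Fin N) ×ˢ (Set.pi univ fun _ : Fin N => S)) :=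
    (isCompact_stdSimplex ℝ (Fin N)).prod (isCompact_univ_pi fun _ => hS)
  have himg : convexHull ℝ S = Φ '' (stdSimplex ℝ (Fin N) ×ˢ (Set.pi univ fun _ : Fin N => S)) := by
    apply Subset.antisymm
    · intro x hx
      obtain ⟨ι, hι, z, w, hz, hind, hw, hw1, hx⟩ := eq_pos_convex_span_of_mem_convexHull hx
      have hcard : Fintype.card ι ≤ Fintype.card (Fin N) := by
        rw [Fintype.card_fin]
        have h1 := hind.card_le_finrank_succ
        have h2 : Module.finrank ℝ (vectorSpan ℝ (range z)) ≤ Module.finrank ℝ E :=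
          Submodule.finrank_le _
        omega
      obtain ⟨e⟩ := Function.Embedding.nonempty_of_card_le hcard
      refine ⟨(Function.extend e w 0, Function.extend e z (fun _ => s0)), ⟨⟨?_, ?_⟩, ?_⟩, ?_⟩
      · intro j
        by_cases hj : ∃ i, e i = j
        · obtain ⟨i, rfl⟩ := hj
          simp only [e.injective.extend_apply]
          exact (hw i).le
        · simp [Function.extend_apply' _ _ _ hj]
      · rw [← hw1]
        symm
        apply Fintype.sum_of_injective e e.injective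
        · intro j hj
          simp only
          rw [Function.extend_apply' _ _ _ (by simpa using hj)]
          rfl
        · intro i
          simp [e.injective.extend_apply]
      · intro j _
        by_cases hj : ∃ i, e i = j
        · obtain ⟨i, rfl⟩ := hj
          simp only [e.injective.extend_apply]
          exact hz (mem_range_self i)
        · simp only [Function.extend_apply' _ _ _ hj]
          exact hs0
      · rw [← hx]
        symm
        apply Fintype.sum_of_injective e e.injective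
        · intro j hj
          simp only
          rw [Function.extend_apply' _ _ _ (by simpa using hj)]
          simp
        · intro i
          simp [e.injective.extend_apply]
    · rintro _ ⟨⟨w, z⟩, ⟨hw, hz⟩, rfl⟩
      exact (convex_convexHull ℝ S).sum_mem (fun i _ => hw.1 i) hw.2
        (fun i _ => subset_convexHull ℝ S (hz i (mem_univ i)))
  rw [himg]
  exact hS'.image hΦ

omit [FiniteDimensional ℝ E] in
/-- A farthest point is exposed. -/
theorem mem_exposed_of_farthest {K : Set E} {y c : E} (hy : y ∈ K)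
    (h : ∀ z ∈ K, ‖z - c‖ ≤ ‖y - c‖) : y ∈ K.exposedPoints ℝ := by
  have key : ∀ z ∈ K, inner ℝ (y - c) (y - c) ≤ inner ℝ (y - c) (z - c) → z = y := by
    intro z hz hle
    rw [real_inner_self_eq_norm_sq] at hle
    have h1 : ‖(z - c) - (y - c)‖ ^ 2 ≤ 0 := by
      rw [norm_sub_sq_real, real_inner_comm]
      have h2 := h z hz
      have h3 : ‖z - c‖ ^ 2 ≤ ‖y - c‖ ^ 2 := by gcongr
      linarith
    have h4 : (z - c) - (y - c) = 0 := by
      rw [← norm_eq_zero]
      nlinarith [norm_nonneg ((z - c) - (y - c))]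
    have h5 : z - y = 0 := by rw [← h4]; abel
    exact sub_eq_zero.1 h5
  refine ⟨hy, innerSL ℝ (y - c), fun z hz => ?_⟩
  have hsplit : ∀ u : E, innerSL ℝ (y - c) u = inner ℝ (y - c) (u - c) + inner ℝ (y - c) c := by
    intro u
    rw [innerSL_apply_apply, inner_sub_right]
    ring
  rw [hsplit, hsplit]
  constructor
  · have h1 : inner ℝ (y - c) (z - c) ≤ inner ℝ (y - c) (y - c) := by
      rw [real_inner_self_eq_norm_sq]
      calc inner ℝ (y - c) (z - c) ≤ ‖y - c‖ * ‖z - c‖ := real_inner_le_norm _ _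
        _ ≤ ‖y - c‖ * ‖y - c‖ := by gcongr; exact h z hz
        _ = ‖y - c‖ ^ 2 := by ring
    linarith
  · intro hle
    exact key z hz (by linarith)

theorem straszewicz {K : Set E} (hK : IsCompact K) (hc : Convex ℝ K) :
    K = closure (convexHull ℝ (K.exposedPoints ℝ)) := by
  have := FiniteDimensional.complete ℝ E
  apply Subset.antisymm
  swap
  · exact closure_minimal (convexHull_min exposedPoints_subset hc) hK.isClosed
  intro x0 hx0
  by_contra hx
  obtain ⟨v, u, hu1, hu2⟩ := geometric_hahn_banach_closed_point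
    (convex_convexHull ℝ (K.exposedPoints ℝ)).closure isClosed_closure hx
  set w : E := (InnerProductSpace.toDual ℝ E).symm v with hw
  have hwv : ∀ y, inner ℝ w y = v y := fun y => by
    rw [hw, InnerProductSpace.toDual_symm_apply]
  obtain ⟨D, hD⟩ := hK.isBounded.exists_norm_le
  set ε : ℝ := v x0 - u with hε
  have hεpos : 0 < ε := by rw [hε]; linarith
  set R : ℝ := D + ‖x0‖ with hR
  obtain ⟨t, ht⟩ : ∃ t : ℝ, R ^ 2 < 2 * t * ε ∧ 0 < t := by
    refine ⟨(R ^ 2 + 1) / ε, ?_, by positivity⟩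
    have : 2 * ((R ^ 2 + 1) / ε) * ε = 2 * (R ^ 2 + 1) := by field_simp
    rw [this]
    nlinarith [sq_nonneg R]
  set c : E := x0 - t • w with hcdef
  obtain ⟨y, hyK, hy⟩ := hK.exists_isMaxOn ⟨x0, hx0⟩
    (f := fun z => ‖z - c‖) (by fun_prop)
  have hy' : ∀ z ∈ K, ‖z - c‖ ≤ ‖y - c‖ := fun z hz => hy hz
  have hexp := mem_exposed_of_farthest hyK hy'
  have hyc : v y < u := hu1 y (subset_closure (subset_convexHull ℝ _ hexp))
  have h1 := hy' x0 hx0
  have e1 : x0 - c = t • w := by rw [hcdef]; abel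
  have e2 : y - c = (y - x0) + t • w := by rw [hcdef]; abel
  have h2 : ‖y - c‖ ^ 2 < ‖x0 - c‖ ^ 2 := by
    rw [e1, e2, norm_add_sq_real, inner_smul_right, real_inner_comm, hwv, map_sub]
    have h3 : ‖y - x0‖ ≤ R := by
      calc ‖y - x0‖ ≤ ‖y‖ + ‖x0‖ := norm_sub_le _ _
        _ ≤ D + ‖x0‖ := by gcongr; exact hD y hyK
    have h4 : ‖y - x0‖ ^ 2 ≤ R ^ 2 := by
      have := norm_nonneg (y - x0)
      nlinarith
    have h5 : v y - v x0 < -ε := by rw [hε]; linarith
    have h6 : 2 * (t * (v y - v x0)) < - (2 * t * ε) := by nlinarith [ht.2]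
    linarith [ht.1]
  have h7 : ‖x0 - c‖ ^ 2 ≤ ‖y - c‖ ^ 2 := by gcongr
  linarith

theorem eq_convexHull_of_finite {K : Set E} (hK : IsCompact K) (hc : Convex ℝ K)
    (hfin : (K.exposedPoints ℝ).Finite) : K = convexHull ℝ (K.exposedPoints ℝ) := by
  have h := straszewicz hK hc
  rwa [(hfin.isClosed_convexHull ℝ).closure_eq] at h

theorem extremePoints_subset {K : Set E} (hK : IsCompact K) (hc : Convex ℝ K) :
    K.extremePoints ℝ ⊆ closure (K.exposedPoints ℝ) := by
  have hsub : closure (K.exposedPoints ℝ) ⊆ K :=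
    closure_minimal exposedPoints_subset hK.isClosed
  have hcomp : IsCompact (closure (K.exposedPoints ℝ)) :=
    hK.of_isClosed_subset isClosed_closure hsub
  have hK' : K = convexHull ℝ (closure (K.exposedPoints ℝ)) := by
    apply Subset.antisymm
    · conv_lhs => rw [straszewicz hK hc]
      exact closure_minimal (convexHull_mono subset_closure)
        (isCompact_convexHull hcomp).isClosed
    · exact convexHull_min hsub hc
  intro x hx
  have hx' : x ∈ (convexHull ℝ (closure (K.exposedPoints ℝ))).extremePoints ℝ := by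
    rw [← hK']; exact hx
  exact extremePoints_convexHull_subset hx'

/-- a convex combination of numbers at most `c` equal to `c` -/
theorem eq_of_comb {a b x y c : ℝ} (ha : 0 < a) (hb : 0 < b) (hab : a + b = 1) (hx : x ≤ c)
    (hy : y ≤ c) (h : a * x + b * y = c) : x = c ∧ y = c := by
  have h1 : a * (c - x) + b * (c - y) = 0 := by linear_combination c * hab - h
  have h2 : 0 ≤ a * (c - x) := mul_nonneg ha.le (by linarith)
  have h3 : 0 ≤ b * (c - y) := mul_nonneg hb.le (by linarith)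
  constructor
  · have h4 : a * (c - x) = 0 := by linarith
    rcases mul_eq_zero.1 h4 with h5 | h5
    · exact absurd h5 ha.ne'
    · linarith
  · have h4 : b * (c - y) = 0 := by linarith
    rcases mul_eq_zero.1 h4 with h5 | h5
    · exact absurd h5 hb.ne'
    · linarith

/-- `[v,w]` is an exposed edge of `K` -/
def IsEdge (K : Set E) (v w : E) : Prop :=
  v ≠ w ∧ ∃ (L : E →L[ℝ] ℝ) (c : ℝ), (∀ y ∈ K, L y ≤ c) ∧ {y ∈ K | L y = c} = segment ℝ v w

omit [FiniteDimensional ℝ E] in
theorem IsEdge.symm {K : Set E} {v w : E} (h : IsEdge K v w) : IsEdge K w v := by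
  obtain ⟨hne, L, c, h1, h2⟩ := h
  exact ⟨hne.symm, L, c, h1, by rw [segment_symm]; exact h2⟩

omit [FiniteDimensional ℝ E] in
theorem IsEdge.left_mem {K : Set E} {v w : E} (h : IsEdge K v w) : v ∈ K.extremePoints ℝ := by
  obtain ⟨hne, L, c, h1, h2⟩ := h
  have hv : v ∈ {y ∈ K | L y = c} := by rw [h2]; exact left_mem_segment ℝ v w
  refine ⟨hv.1, ?_⟩
  intro x₁ hx₁ x₂ hx₂ hvx
  obtain ⟨a, b, ha, hb, hab, hv'⟩ := hvx
  have hL : a * L x₁ + b * L x₂ = c := by
    rw [← hv.2, ← hv', map_add, map_smul, map_smul, smul_eq_mul, smul_eq_mul]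
  have hL1 := h1 x₁ hx₁
  have hL2 := h1 x₂ hx₂
  obtain ⟨e1, e2⟩ := eq_of_comb ha hb hab hL1 hL2 hL
  have m1 : x₁ ∈ segment ℝ v w := by rw [← h2]; exact ⟨hx₁, e1⟩
  have m2 : x₂ ∈ segment ℝ v w := by rw [← h2]; exact ⟨hx₂, e2⟩
  rw [segment_eq_image'] at m1 m2
  obtain ⟨s, hs, rfl⟩ := m1
  obtain ⟨t, ht, rfl⟩ := m2
  simp only at hv' ⊢
  have h3 : (a * s + b * t) • (w - v) = 0 := by
    have : a • (v + s • (w - v)) + b • (v + t • (w - v)) =
        (a + b) • v + (a * s + b * t) • (w - v) := by module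
    rw [this, hab, one_smul] at hv'
    simpa using hv'
  rcases smul_eq_zero.1 h3 with h4 | h4
  · have hs0 : s = 0 := by
      have h5 : 0 ≤ b * t := mul_nonneg hb.le ht.1
      have h6 : 0 ≤ a * s := mul_nonneg ha.le hs.1
      have h7 : a * s = 0 := by linarith
      rcases mul_eq_zero.1 h7 with h8 | h8
      · exact absurd h8 ha.ne'
      · exact h8
    rw [hs0]; simp
  · exact absurd (sub_eq_zero.1 h4).symm hne

omit [FiniteDimensional ℝ E] in
/-- an extreme point on a segment contained in `K` is an end of it -/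
theorem eq_or_eq_of_mem_segment {K : Set E} {v w z : E} (hv : v ∈ K) (hw : w ∈ K)
    (hz : z ∈ K.extremePoints ℝ) (hzs : z ∈ segment ℝ v w) : z = v ∨ z = w := by
  rcases (mem_extremePoints_iff_forall_segment.1 hz).2 v hv w hw hzs with h | h
  · exact Or.inl h.symm
  · exact Or.inr h.symm

/-- two nonempty sets of reals, one below the other, have a number in between -/
theorem exists_between_sets {A B : Set ℝ} (hA : A.Nonempty) (hB : B.Nonempty)
    (h : ∀ a ∈ A, ∀ b ∈ B, a ≤ b) : ∃ c, (∀ a ∈ A, a ≤ c) ∧ (∀ b ∈ B, c ≤ b) := by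
  obtain ⟨b0, hb0⟩ := hB
  refine ⟨sSup A, fun a ha => le_csSup ⟨b0, fun x hx => h x hx b0 hb0⟩ ha, fun b hb => ?_⟩
  exact csSup_le hA fun a ha => h a ha b hb

omit [FiniteDimensional ℝ E] in
/-- **Lemma Z** -/
theorem section_exposed {K : Set E} (hK : IsCompact K) (hc : Convex ℝ K) {l : E →L[ℝ] ℝ} {t : ℝ}
    (hlo : ∃ y ∈ K, l y < t) (hhi : ∃ y ∈ K, t < l y) {z : E}
    (hz : z ∈ ({y ∈ K | l y = t}).exposedPoints ℝ) :
    z ∈ K.extremePoints ℝ ∨ ∃ v w, IsEdge K v w ∧ z ∈ segment ℝ v w := by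
  obtain ⟨⟨hzK, hzt⟩, l', hl'⟩ := hz
  -- the supporting line
  obtain ⟨lam, hlam1, hlam2⟩ : ∃ lam : ℝ,
      (∀ a ∈ (fun y => (l' y - l' z) / (t - l y)) '' {y ∈ K | l y < t}, a ≤ lam) ∧
      (∀ b ∈ (fun y => (l' z - l' y) / (l y - t)) '' {y ∈ K | t < l y}, lam ≤ b) := by
    apply exists_between_sets
    · obtain ⟨y, hy, hy'⟩ := hlo
      exact ⟨_, ⟨y, ⟨hy, hy'⟩, rfl⟩⟩
    · obtain ⟨y, hy, hy'⟩ := hhi
      exact ⟨_, ⟨y, ⟨hy, hy'⟩, rfl⟩⟩
    · rintro _ ⟨y1, ⟨hy1, hy1'⟩, rfl⟩ _ ⟨y2, ⟨hy2, hy2'⟩, rfl⟩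
      simp only
      have hp1 : 0 < t - l y1 := by linarith
      have hp2 : 0 < l y2 - t := by linarith
      have hp : 0 < l y2 - l y1 := by linarith
      set y := ((l y2 - t) / (l y2 - l y1)) • y1 + ((t - l y1) / (l y2 - l y1)) • y2 with hydef
      have hyK : y ∈ K := by
        apply hc hy1 hy2 (by positivity) (by positivity)
        field_simp
        ring
      have hyt : l y = t := by
        rw [hydef, map_add, map_smul, map_smul, smul_eq_mul, smul_eq_mul]
        field_simp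
        ring
      have h3 := (hl' y ⟨hyK, hyt⟩).1
      rw [hydef, map_add, map_smul, map_smul, smul_eq_mul, smul_eq_mul] at h3
      have h4 : (l y2 - t) * l' y1 + (t - l y1) * l' y2 ≤ l' z * (l y2 - l y1) := by
        have h5 : (l y2 - t) / (l y2 - l y1) * l' y1 + (t - l y1) / (l y2 - l y1) * l' y2 =
          ((l y2 - t) * l' y1 + (t - l y1) * l' y2) / (l y2 - l y1) := by ring
        rw [h5, div_le_iff₀ hp] at h3
        exact h3
      rw [div_le_div_iff₀ hp1 hp2]
      nlinarith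
  set g : E →L[ℝ] ℝ := l' + lam • l with hg
  have hgy : ∀ y, g y = l' y + lam * l y := fun y => by simp [hg]
  have hgz : g z = l' z + lam * t := by rw [hgy, hzt]
  have hgle : ∀ y ∈ K, g y ≤ g z := by
    intro y hy
    rw [hgy, hgz]
    rcases lt_trichotomy (l y) t with h | h | h
    · have h1 := hlam1 _ ⟨y, ⟨hy, h⟩, rfl⟩
      simp only at h1
      rw [div_le_iff₀ (by linarith)] at h1
      nlinarith
    · rw [h]
      have := (hl' y ⟨hy, h⟩).1
      linarith
    · have h1 := hlam2 _ ⟨y, ⟨hy, h⟩, rfl⟩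
      simp only at h1
      rw [le_div_iff₀ (by linarith)] at h1
      nlinarith
  set F : Set E := {y ∈ K | g y = g z} with hF
  have hzF : z ∈ F := ⟨hzK, rfl⟩
  have hFz : ∀ y ∈ F, l y = t → y = z := by
    rintro y ⟨hy1, hy2⟩ hyt
    apply (hl' y ⟨hy1, hyt⟩).2
    rw [hgy, hgz, hyt] at hy2
    linarith
  have hFc : Convex ℝ F := by
    have : F = K ∩ {y | g y = g z} := rfl
    rw [this]
    exact hc.inter (convex_hyperplane g.toLinearMap.isLinear _)
  have hFcomp : IsCompact F := by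
    have : F = K ∩ {y | g y = g z} := rfl
    rw [this]
    exact hK.inter_right (isClosed_eq g.continuous continuous_const)
  by_cases hcase : (∃ y ∈ F, l y < t) ∧ (∃ y ∈ F, t < l y)
  · right
    obtain ⟨⟨y1, hy1, hy1'⟩, ⟨y2, hy2, hy2'⟩⟩ := hcase
    obtain ⟨a, haF, ha⟩ := hFcomp.exists_isMinOn ⟨z, hzF⟩ (f := fun y => l y)
      l.continuous.continuousOn
    obtain ⟨b, hbF, hb⟩ := hFcomp.exists_isMaxOn ⟨z, hzF⟩ (f := fun y => l y)
      l.continuous.continuousOn
    have ha' : ∀ y ∈ F, l a ≤ l y := fun y hy => ha hy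
    have hb' : ∀ y ∈ F, l y ≤ l b := fun y hy => hb hy
    have hat : l a < t := (ha' y1 hy1).trans_lt hy1'
    have hbt : t < l b := hy2'.trans_le (hb' y2 hy2)
    have hab : a ≠ b := by
      rintro rfl
      linarith
    -- points of `F` at the same level agree
    have huniq : ∀ y ∈ F, ∀ y' ∈ F, l y = l y' → y = y' := by
      intro y hy y' hy' hyy
      rcases le_total (l y) t with hle | hle
      · -- join with `b`
        have hpos : 0 < l b - l y := by linarith
        set s := (t - l y) / (l b - l y) with hs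
        have hs0 : 0 ≤ s := by apply div_nonneg <;> linarith
        have hs1 : s < 1 := by rw [hs, div_lt_one hpos]; linarith
        have hlev : (1 - s) * l y + s * l b = t := by
          rw [hs]; field_simp; ring
        have q1 : (1 - s) • y + s • b = z := by
          apply hFz
          · exact hFc hy hbF (by linarith) hs0 (by ring)
          · rw [map_add, map_smul, map_smul, smul_eq_mul, smul_eq_mul, hlev]
        have q2 : (1 - s) • y' + s • b = z := by
          apply hFz
          · exact hFc hy' hbF (by linarith) hs0 (by ring)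
          · rw [map_add, map_smul, map_smul, smul_eq_mul, smul_eq_mul, ← hyy, hlev]
        have q3 : (1 - s) • (y - y') = 0 := by
          rw [smul_sub, sub_eq_zero]
          exact add_right_cancel (q1.trans q2.symm)
        rcases smul_eq_zero.1 q3 with q4 | q4
        · linarith
        · exact sub_eq_zero.1 q4
      · have hpos : 0 < l y - l a := by linarith
        set s := (l y - t) / (l y - l a) with hs
        have hs0 : 0 ≤ s := by apply div_nonneg <;> linarith
        have hs1 : s < 1 := by rw [hs, div_lt_one hpos]; linarith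
        have hlev : (1 - s) * l y + s * l a = t := by
          rw [hs]; field_simp; ring
        have q1 : (1 - s) • y + s • a = z := by
          apply hFz
          · exact hFc hy haF (by linarith) hs0 (by ring)
          · rw [map_add, map_smul, map_smul, smul_eq_mul, smul_eq_mul, hlev]
        have q2 : (1 - s) • y' + s • a = z := by
          apply hFz
          · exact hFc hy' haF (by linarith) hs0 (by ring)
          · rw [map_add, map_smul, map_smul, smul_eq_mul, smul_eq_mul, ← hyy, hlev]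
        have q3 : (1 - s) • (y - y') = 0 := by
          rw [smul_sub, sub_eq_zero]
          exact add_right_cancel (q1.trans q2.symm)
        rcases smul_eq_zero.1 q3 with q4 | q4
        · linarith
        · exact sub_eq_zero.1 q4
    have hFseg : F = segment ℝ a b := by
      apply Subset.antisymm
      · intro y hy
        have h1 := ha' y hy
        have h2 := hb' y hy
        have hpos : 0 < l b - l a := by linarith
        set s := (l y - l a) / (l b - l a) with hs
        have hs0 : 0 ≤ s := by apply div_nonneg <;> linarith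
        have hs1 : s ≤ 1 := by rw [hs, div_le_one hpos]; linarith
        have hmem : (1 - s) • a + s • b ∈ F := hFc haF hbF (by linarith) hs0 (by ring)
        have heq : y = (1 - s) • a + s • b := by
          apply huniq y hy _ hmem
          rw [map_add, map_smul, map_smul, smul_eq_mul, smul_eq_mul, hs]
          field_simp
          ring
        rw [heq]
        exact ⟨1 - s, s, by linarith, hs0, by ring, rfl⟩
      · exact hFc.segment_subset haF hbF
    refine ⟨a, b, ⟨hab, g, g z, hgle, hFseg⟩, ?_⟩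
    rw [← hFseg]; exact hzF
  · left
    refine ⟨hzK, ?_⟩
    intro x₁ hx₁ x₂ hx₂ hzx
    obtain ⟨α, β, hα, hβ, hαβ, hz'⟩ := hzx
    have hG : α * g x₁ + β * g x₂ = g z := by
      rw [← hz', map_add, map_smul, map_smul, smul_eq_mul, smul_eq_mul]
    have hG1 := hgle x₁ hx₁
    have hG2 := hgle x₂ hx₂
    obtain ⟨e1, e2⟩ := eq_of_comb hα hβ hαβ hG1 hG2 hG
    have f1 : x₁ ∈ F := ⟨hx₁, e1⟩
    have f2 : x₂ ∈ F := ⟨hx₂, e2⟩
    have hLz : α * l x₁ + β * l x₂ = t := by
      rw [← hzt, ← hz', map_add, map_smul, map_smul, smul_eq_mul, smul_eq_mul]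
    have hLz' : β * (l x₂ - t) = α * (t - l x₁) := by linear_combination hLz - t * hαβ
    have hl1 : l x₁ = t := by
      by_contra hne1
      apply hcase
      rcases lt_or_gt_of_ne hne1 with h | h
      · refine ⟨⟨x₁, f1, h⟩, ⟨x₂, f2, ?_⟩⟩
        by_contra h'
        have h5 : 0 < α * (t - l x₁) := mul_pos hα (by linarith)
        have h6 : 0 ≤ β * (t - l x₂) := mul_nonneg hβ.le (by linarith)
        linarith
      · refine ⟨⟨x₂, f2, ?_⟩, ⟨x₁, f1, h⟩⟩
        by_contra h'
        have h5 : 0 < α * (l x₁ - t) := mul_pos hα (by linarith)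
        have h6 : 0 ≤ β * (l x₂ - t) := mul_nonneg hβ.le (by linarith)
        linarith
    exact hFz x₁ f1 hl1

/-- a set of points has three elements or is contained in a pair -/
theorem three_or_pair {α : Type*} [Nonempty α] (S : Set α) :
    (∃ z : Fin 3 → α, Function.Injective z ∧ ∀ i, z i ∈ S) ∨ ∃ u v, S ⊆ {u, v} := by
  by_cases h0 : S.Nonempty
  · obtain ⟨u, hu⟩ := h0
    by_cases h1 : ∃ v ∈ S, v ≠ u
    · obtain ⟨v, hv, hvu⟩ := h1
      by_cases h2 : ∃ w ∈ S, w ≠ u ∧ w ≠ v
      · obtain ⟨w, hw, hwu, hwv⟩ := h2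
        left
        refine ⟨![u, v, w], ?_, ?_⟩
        · intro i j hij
          fin_cases i <;> fin_cases j <;> simp_all
        · intro i
          fin_cases i <;> simp [hu, hv, hw]
      · right
        refine ⟨u, v, fun w hw => ?_⟩
        by_contra h3
        apply h2
        refine ⟨w, hw, ?_, ?_⟩
        · rintro rfl; exact h3 (by simp)
        · rintro rfl; exact h3 (by simp)
    · right
      refine ⟨u, u, fun w hw => ?_⟩
      by_contra h3
      apply h1
      refine ⟨w, hw, ?_⟩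
      rintro rfl; exact h3 (by simp)
  · right
    obtain ⟨u⟩ := ‹Nonempty α›
    refine ⟨u, u, fun w hw => absurd ⟨w, hw⟩ h0⟩

theorem section_three {K : Set E} (hK : IsCompact K) (hc : Convex ℝ K)
    (hspan : affineSpan ℝ K = ⊤) (hdim : 3 ≤ Module.finrank ℝ E) {l : E →L[ℝ] ℝ} {t : ℝ}
    (hlo : ∃ y ∈ K, l y < t) (hhi : ∃ y ∈ K, t < l y) :
    ∃ z : Fin 3 → E, Function.Injective z ∧
      ∀ i, z i ∈ ({y ∈ K | l y = t}).exposedPoints ℝ := by
  set Kt : Set E := {y ∈ K | l y = t} with hKt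
  have hKtc : Convex ℝ Kt := by
    have : Kt = K ∩ {y | l y = t} := rfl
    rw [this]
    exact hc.inter (convex_hyperplane l.toLinearMap.isLinear _)
  have hKtcomp : IsCompact Kt := by
    have : Kt = K ∩ {y | l y = t} := rfl
    rw [this]
    exact hK.inter_right (isClosed_eq l.continuous continuous_const)
  rcases three_or_pair (Kt.exposedPoints ℝ) with h | ⟨u, v, huv⟩
  · exact h
  exfalso
  have hfin : (Kt.exposedPoints ℝ).Finite := (Set.toFinite {u, v}).subset huv
  have hseg : Kt ⊆ segment ℝ u v := by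
    rw [eq_convexHull_of_finite hKtcomp hKtc hfin, ← convexHull_pair]
    exact convexHull_mono huv
  -- an interior point at level `t`
  obtain ⟨y0, hy0⟩ := hc.interior_nonempty_iff_affineSpan_eq_top.2 hspan
  obtain ⟨y1, hy1, hy1t⟩ : ∃ y1 ∈ interior K, l y1 = t := by
    have aux : ∀ y' ∈ K, ∀ θ : ℝ, 0 < θ → θ < 1 → (1 - θ) * l y0 + θ * l y' = t →
        ∃ y1 ∈ interior K, l y1 = t := by
      intro y' hy' θ h1 h2 h3
      refine ⟨(1 - θ) • y0 + θ • y', hc.openSegment_interior_self_subset_interior hy0 hy'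
        ⟨1 - θ, θ, by linarith, h1, by ring, rfl⟩, ?_⟩
      rw [map_add, map_smul, map_smul, smul_eq_mul, smul_eq_mul, h3]
    rcases lt_trichotomy (l y0) t with h | h | h
    · obtain ⟨y2, hy2, hy2'⟩ := hhi
      have hp : 0 < l y2 - l y0 := by linarith
      refine aux y2 hy2 ((t - l y0) / (l y2 - l y0)) (div_pos (by linarith) hp)
        ((div_lt_one hp).2 (by linarith)) ?_
      field_simp
      ring
    · exact ⟨y0, hy0, h⟩
    · obtain ⟨y2, hy2, hy2'⟩ := hlo
      have hp : 0 < l y0 - l y2 := by linarith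
      refine aux y2 hy2 ((l y0 - t) / (l y0 - l y2)) (div_pos (by linarith) hp)
        ((div_lt_one hp).2 (by linarith)) ?_
      field_simp
      ring
  obtain ⟨r, hr, hball⟩ := Metric.isOpen_iff.1 isOpen_interior y1 hy1
  have hy1K : y1 ∈ K := interior_subset hy1
  -- the kernel of `l` is contained in a line
  have hker : LinearMap.ker l.toLinearMap ≤ Submodule.span ℝ {v - u} := by
    intro w hw
    have hlw : l w = 0 := hw
    set ρ : ℝ := r / (2 * (‖w‖ + 1)) with hρ
    have hρpos : 0 < ρ := by positivity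
    have hmem : y1 + ρ • w ∈ Kt := by
      refine ⟨interior_subset (hball ?_), ?_⟩
      · rw [mem_ball, dist_eq_norm]
        have : y1 + ρ • w - y1 = ρ • w := by abel
        rw [this, norm_smul, Real.norm_of_nonneg hρpos.le, hρ]
        rw [div_mul_eq_mul_div, div_lt_iff₀ (by positivity)]
        nlinarith [norm_nonneg w]
      · rw [map_add, map_smul, hlw, hy1t]; simp
    have hmem1 : y1 ∈ Kt := ⟨hy1K, hy1t⟩
    have m1 := hseg hmem
    have m2 := hseg hmem1
    rw [segment_eq_image'] at m1 m2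
    obtain ⟨s1, -, e1⟩ := m1
    obtain ⟨s2, -, e2⟩ := m2
    simp only at e1 e2
    have e3 : ρ • w = (s1 - s2) • (v - u) := by
      have : ρ • w = (y1 + ρ • w) - y1 := by abel
      rw [this, ← e1, ← e2]
      module
    have e4 : w = (ρ⁻¹ * (s1 - s2)) • (v - u) := by
      rw [mul_smul, ← e3, smul_smul, inv_mul_cancel₀ hρpos.ne', one_smul]
    rw [e4]
    exact Submodule.smul_mem _ _ (Submodule.mem_span_singleton_self _)
  have h1 : Module.finrank ℝ (LinearMap.ker l.toLinearMap) ≤ 1 :=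
    (Submodule.finrank_mono hker).trans (by
      have := finrank_span_le_card (R := ℝ) ({v - u} : Set E)
      simpa using this)
  have h2 := LinearMap.finrank_range_add_finrank_ker l.toLinearMap
  have h3 : Module.finrank ℝ (LinearMap.range l.toLinearMap) ≤ 1 := by
    have := Submodule.finrank_le (LinearMap.range l.toLinearMap)
    simpa using this
  omega

omit [FiniteDimensional ℝ E] in
/-- separation of a segment from a compact convex set -/
theorem exists_halfspace {T : Set E} (hT : IsCompact T) (hTc : Convex ℝ T) {a b : E}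
    (h : ¬ (segment ℝ a b ∩ T).Nonempty) :
    ∃ (l : E →L[ℝ] ℝ) (c : ℝ), c ≤ l a ∧ c ≤ l b ∧ ∀ y ∈ T, l y < c := by
  have hdisj : Disjoint T (segment ℝ a b) := by
    rw [Set.disjoint_iff_inter_eq_empty]
    rw [Set.not_nonempty_iff_eq_empty] at h
    rw [inter_comm]; exact h
  have hclosed : IsClosed (segment ℝ a b) := by
    rw [← convexHull_pair]
    exact (Set.toFinite {a, b}).isClosed_convexHull ℝ
  obtain ⟨f, u, v, h1, h2, h3⟩ := geometric_hahn_banach_compact_closed hTc hT
    (convex_segment a b) hclosed hdisj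
  exact ⟨f, v, (h3 a (left_mem_segment ℝ a b)).le, (h3 b (right_mem_segment ℝ a b)).le,
    fun y hy => (h1 y hy).trans h2⟩

end Convex

end Pool.Agent.Kuiper
end


/-! ### file Chain -/
section
/-! # The chain lemma -/

set_option autoImplicit false
open Set Topology Metric

namespace Pool.Agent.Kuiper

section Tight
variable {M : Type*} [MetricSpace M] [CompactSpace M] [ConnectedSpace M] [Surf M]
variable {E : Type*} [NormedAddCommGroup E] [InnerProductSpace ℝ E] [FiniteDimensional ℝ E]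
variable {f : M → E}

omit [ConnectedSpace M] [Surf M] [FiniteDimensional ℝ E] in
/-- connected sets with small image that come near `p` are close to `p` -/
theorem Tight.shrink (hf : Tight f) {p : M} {U : Set M} (hU : U ∈ 𝓝 p) :
    ∃ V ∈ 𝓝 p, ∃ ε > 0, ∀ S : Set M, IsPreconnected S → (S ∩ V).Nonempty →
      (∀ m ∈ S, dist (f m) (f p) < ε) → S ⊆ U := by
  obtain ⟨U1, hU1, hinj⟩ := hf.locInj p
  obtain ⟨r, hr, hsub⟩ := Metric.nhds_basis_closedBall.mem_iff.1 (Filter.inter_mem hU hU1)
  have hK : IsCompact (sphere p r) := isClosed_sphere.isCompact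
  have hcont : Continuous fun m => dist (f m) (f p) := hf.cont.dist continuous_const
  obtain ⟨ε, hε, hmin⟩ : ∃ ε > 0, ∀ m ∈ sphere p r, ε ≤ dist (f m) (f p) := by
    rcases (sphere p r).eq_empty_or_nonempty with h | h
    · exact ⟨1, one_pos, by simp [h]⟩
    · obtain ⟨m0, hm0, hmin⟩ := hK.exists_isMinOn h hcont.continuousOn
      refine ⟨dist (f m0) (f p), ?_, fun m hm => hmin hm⟩
      rw [gt_iff_lt, dist_pos]
      intro he
      have : m0 = p := hinj (hsub (sphere_subset_closedBall hm0)).2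
        (hsub (mem_closedBall_self hr.le)).2 he
      rw [this, mem_sphere, dist_self] at hm0
      exact hr.ne hm0
  refine ⟨ball p r, ball_mem_nhds p hr, ε, hε, ?_⟩
  rintro S hS ⟨a, haS, haV⟩ hd m hm
  by_contra hmU
  have hcov : S ⊆ ball p r ∪ (closedBall p r)ᶜ := by
    intro z hz
    by_cases h1 : dist z p < r
    · exact Or.inl h1
    · right
      intro h2
      have : z ∈ sphere p r := le_antisymm h2 (not_lt.1 h1)
      exact absurd (hd z hz) (not_lt.2 (hmin z this))
  obtain ⟨z, -, hz1, hz2⟩ := hS (ball p r) (closedBall p r)ᶜ isOpen_ball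
    isClosed_closedBall.isOpen_compl hcov ⟨a, haS, haV⟩ ⟨m, hm, fun h => hmU (hsub h).1⟩
  exact hz2 (ball_subset_closedBall hz1)

/-! ### Uniform local injectivity -/

omit [ConnectedSpace M] [Surf M] [FiniteDimensional ℝ E] in
theorem Tight.exists_uli (hf : Tight f) :
    ∃ η > 0, ∀ ε > 0, ∃ κ > 0, ∀ m m' : M, dist m m' ≤ η → dist (f m) (f m') < κ →
      dist m m' < ε := by
  have h1 : ∀ x : M, ∃ V : Set M, IsOpen V ∧ x ∈ V ∧ InjOn f V := by
    intro x
    obtain ⟨U, hU, hinj⟩ := hf.locInj x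
    obtain ⟨V, hVU, hV, hxV⟩ := _root_.mem_nhds_iff.1 hU
    exact ⟨V, hV, hxV, hinj.mono hVU⟩
  choose V hVo hxV hVinj using h1
  obtain ⟨δ, hδ, hball⟩ := lebesgue_number_lemma_of_metric (isCompact_univ (X := M)) hVo
    (fun x _ => mem_iUnion.2 ⟨x, hxV x⟩)
  refine ⟨δ / 2, by positivity, fun ε hε => ?_⟩
  set K : Set (M × M) := {q | ε ≤ dist q.1 q.2 ∧ dist q.1 q.2 ≤ δ / 2} with hKdef
  have hK : IsCompact K := by
    apply IsClosed.isCompact
    exact (isClosed_le continuous_const (continuous_fst.dist continuous_snd)).inter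
      (isClosed_le (continuous_fst.dist continuous_snd) continuous_const)
  have hcont : Continuous fun q : M × M => dist (f q.1) (f q.2) :=
    (hf.cont.comp continuous_fst).dist (hf.cont.comp continuous_snd)
  obtain ⟨κ, hκ, hmin⟩ : ∃ κ > 0, ∀ q ∈ K, κ ≤ dist (f q.1) (f q.2) := by
    rcases K.eq_empty_or_nonempty with h | h
    · exact ⟨1, one_pos, by simp [h]⟩
    · obtain ⟨q0, hq0, hmin⟩ := hK.exists_isMinOn h hcont.continuousOn
      refine ⟨dist (f q0.1) (f q0.2), ?_, fun m hm => hmin hm⟩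
      rw [gt_iff_lt, dist_pos]
      intro he
      obtain ⟨i, hi⟩ := hball q0.1 (mem_univ _)
      have h2 : q0.1 = q0.2 := by
        refine hVinj i (hi (mem_ball_self hδ)) (hi ?_) he
        rw [mem_ball, dist_comm]
        have := hq0.2
        linarith
      have := hq0.1
      rw [h2, dist_self] at this
      linarith
  refine ⟨κ, hκ, fun m m' hd hfd => ?_⟩
  by_contra h
  exact absurd hfd (not_lt.2 (hmin (m, m') ⟨not_lt.1 h, hd⟩))

/-! ### Small embedded pieces -/

omit [CompactSpace M] [ConnectedSpace M] [Surf M] in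
theorem IsEmb.piece {K O : Set ℂ} {δ : ℂ → M} (h : IsEmb K O δ) (hK : IsCompact K)
    (hOK : O ⊆ K) (hKc : Convex ℝ K) (h0 : (0 : ℂ) ∈ O) {U : Set M} (hU : δ '' K ⊆ U) :
    ∃ D O : Set M, δ 0 ∈ O ∧ IsOpen O ∧ O ⊆ D ∧ D ⊆ U ∧ IsPreconnected D ∧
      ∀ F : M → Circle, Continuous F →
        ∃ L : M → ℝ, ContinuousOn L D ∧ ∀ m ∈ D, F m = Circle.exp (L m) := by
  refine ⟨δ '' K, δ '' O, mem_image_of_mem _ h0, h.isOpen, image_mono hOK, hU,
    hKc.isPreconnected.image _ h.cont.continuousOn, fun F hF => ?_⟩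
  obtain ⟨i, hi, hi'⟩ := h.exists_inv hK
  obtain ⟨L, hL, hL'⟩ := exists_log_comp h.cont hF
  refine ⟨L ∘ i, hL.comp_continuousOn hi, ?_⟩
  rintro m ⟨w, hw, rfl⟩
  rw [Function.comp_apply, hi' w hw, hL']

omit [CompactSpace M] [ConnectedSpace M] in
theorem exists_piece (z : M) {U : Set M} (hU : U ∈ 𝓝 z) :
    ∃ D O : Set M, z ∈ O ∧ IsOpen O ∧ O ⊆ D ∧ D ⊆ U ∧ IsPreconnected D ∧
      ∀ F : M → Circle, Continuous F →
        ∃ L : M → ℝ, ContinuousOn L D ∧ ∀ m ∈ D, F m = Circle.exp (L m) := by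
  rcases Surf.exists_emb z U hU with ⟨δ, hδ, h0, hsub⟩ | ⟨δ, hδ, h0, hsub⟩
  · rw [← h0]
    exact IsEmb.piece hδ (isCompact_closedBall _ _) ball_subset_closedBall
      (convex_closedBall _ _) (mem_ball_self one_pos) hsub
  · rw [← h0]
    exact IsEmb.piece hδ isCompact_HD HDo_subset convex_HD (by simp [HDo]) hsub

omit [ConnectedSpace M] in
/-- uniform version for logarithms -/
theorem exists_scale_log : ∃ ε > 0, ∀ x : M, ∃ D : Set M, ball x ε ⊆ D ∧
      ∀ F : M → Circle, Continuous F →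
        ∃ L : M → ℝ, ContinuousOn L D ∧ ∀ m ∈ D, F m = Circle.exp (L m) := by
  have h1 := fun x : M => exists_piece x Filter.univ_mem
  choose D O hxO hO hOD _ _ hlog using h1
  obtain ⟨δ, hδ, hball⟩ := lebesgue_number_lemma_of_metric (isCompact_univ (X := M)) hO
    (fun x _ => mem_iUnion.2 ⟨x, hxO x⟩)
  refine ⟨δ, hδ, fun x => ?_⟩
  obtain ⟨i, hi⟩ := hball x (mem_univ _)
  exact ⟨D i, hi.trans (hOD i), hlog i⟩

omit [ConnectedSpace M] in
/-- uniform local connectedness -/
theorem exists_scale_conn {ε : ℝ} (hε : 0 < ε) : ∃ ε₁ > 0, ∀ m m' : M, dist m m' < ε₁ →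
    ∃ C : Set M, IsPreconnected C ∧ m ∈ C ∧ m' ∈ C ∧ C ⊆ ball m ε := by
  have h1 := fun x : M => exists_piece x (ball_mem_nhds x (half_pos hε))
  choose D O hxO hO hOD hDU hDc _ using h1
  obtain ⟨δ, hδ, hball⟩ := lebesgue_number_lemma_of_metric (isCompact_univ (X := M)) hO
    (fun x _ => mem_iUnion.2 ⟨x, hxO x⟩)
  refine ⟨δ, hδ, fun m m' hd => ?_⟩
  obtain ⟨i, hi⟩ := hball m (mem_univ _)
  have hm : m ∈ D i := hOD i (hi (mem_ball_self hδ))
  have hm' : m' ∈ D i := hOD i (hi (by rwa [mem_ball, dist_comm]))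
  refine ⟨D i, hDc i, hm, hm', fun z hz => ?_⟩
  have h2 := mem_ball.1 (hDU i hz)
  have h3 := mem_ball.1 (hDU i hm)
  rw [mem_ball]
  calc dist z m ≤ dist z i + dist m i := dist_triangle_right _ _ _
    _ < ε := by linarith

/-! ### Gluing logarithms along a chain of open sets -/

omit [CompactSpace M] [ConnectedSpace M] [Surf M] in
theorem glue_logs {C : ℕ → Set M} {n : ℕ} (hC : ∀ k, IsOpen (C k))
    (hdisj : ∀ k l, k + 2 ≤ l → Disjoint (C k) (C l)) {F : M → Circle} {L : ℕ → M → ℝ}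
    (hL : ∀ k, ContinuousOn (L k) (C k)) (hLF : ∀ k, ∀ m ∈ C k, F m = Circle.exp (L k m))
    (hdiff : ∀ k, ∀ m ∈ C k ∩ C (k + 1), ∀ m' ∈ C k ∩ C (k + 1),
      L k m - L (k + 1) m = L k m' - L (k + 1) m') :
    ∃ L' : M → ℝ, ContinuousOn L' (⋃ k ≤ n, C k) ∧
      ∀ m ∈ ⋃ k ≤ n, C k, F m = Circle.exp (L' m) := by
  classical
  -- the constants
  have hstep : ∀ k, ∃ c : ℝ, Circle.exp c = 1 ∧ ∀ m ∈ C k ∩ C (k + 1), L (k + 1) m + c = L k m := by
    intro k
    rcases (C k ∩ C (k + 1)).eq_empty_or_nonempty with h | ⟨m0, hm0⟩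
    · exact ⟨0, Circle.exp_zero, by simp [h]⟩
    · refine ⟨L k m0 - L (k + 1) m0, ?_, fun m hm => ?_⟩
      · rw [Circle.exp_sub, ← hLF k m0 hm0.1, ← hLF (k + 1) m0 hm0.2, div_self']
      · have := hdiff k m hm m0 hm0
        linarith
  choose c hc1 hc2 using hstep
  let a : ℕ → ℝ := fun k => ∑ j ∈ Finset.range k, c j
  have ha1 : ∀ k, Circle.exp (a k) = 1 := by
    intro k
    induction k with
    | zero => simp [a]
    | succ k ih =>
      have : a (k + 1) = a k + c k := Finset.sum_range_succ _ _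
      rw [this, Circle.exp_add, ih, hc1, one_mul]
  have ha2 : ∀ k, ∀ m ∈ C k ∩ C (k + 1), L (k + 1) m + a (k + 1) = L k m + a k := by
    intro k m hm
    have : a (k + 1) = a k + c k := Finset.sum_range_succ _ _
    have h2 := hc2 k m hm
    linarith
  let L' : M → ℝ := fun m => if h : ∃ k, m ∈ C k then L (Nat.find h) m + a (Nat.find h) else 0
  have hL' : ∀ k, ∀ m ∈ C k, L' m = L k m + a k := by
    intro k m hm
    have h : ∃ k, m ∈ C k := ⟨k, hm⟩
    have e : L' m = L (Nat.find h) m + a (Nat.find h) := dif_pos h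
    rw [e]
    have h1 : m ∈ C (Nat.find h) := Nat.find_spec h
    have h2 : Nat.find h ≤ k := Nat.find_min' h hm
    have h3 : ¬ Nat.find h + 2 ≤ k := fun h4 =>
      Set.disjoint_left.1 (hdisj _ _ h4) h1 hm
    rcases (show Nat.find h = k ∨ Nat.find h + 1 = k by omega) with h5 | h5
    · rw [h5]
    · have h6 := ha2 (Nat.find h) m ⟨h1, by rw [h5]; exact hm⟩
      rw [← h6, h5]
  refine ⟨L', ?_, ?_⟩
  · intro m hm
    simp only [mem_iUnion] at hm
    obtain ⟨k, -, hmk⟩ := hm
    have h1 : ContinuousAt (fun z => L k z + a k) m :=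
      (((hL k).continuousAt ((hC k).mem_nhds hmk)).add continuousAt_const)
    refine (h1.congr ?_).continuousWithinAt
    filter_upwards [(hC k).mem_nhds hmk] with z hz
    exact (hL' k z hz).symm
  · intro m hm
    simp only [mem_iUnion] at hm
    obtain ⟨k, -, hmk⟩ := hm
    rw [hL' k m hmk, Circle.exp_add, ha1, mul_one, hLF k m hmk]

/-! ### The chain lemma -/

omit [CompactSpace M] [ConnectedSpace M] [Surf M] [MetricSpace M] [InnerProductSpace ℝ E]
  [FiniteDimensional ℝ E] in
/-- points near the segment are controlled by their distance to the first end -/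
theorem dist_le_of_near [NormedSpace ℝ E] {x y : E} (hxy : x ≠ y) {δ : ℝ} {u v : E}
    (hu : infDist u (segment ℝ x y) < δ) (hv : infDist v (segment ℝ x y) < δ) :
    dist u v ≤ 4 * δ +
      |min 1 (dist u x / dist x y) - min 1 (dist v x / dist x y)| * dist x y := by
  have hd : 0 < dist x y := dist_pos.2 hxy
  have key : ∀ w : E, infDist w (segment ℝ x y) < δ → ∃ t : ℝ, 
      dist w (x + t • (y - x)) < δ ∧ |min 1 (dist w x / dist x y) - t| * dist x y < δ := by
    intro w hw
    obtain ⟨z, hz, hwz⟩ := (infDist_lt_iff ⟨x, left_mem_segment ℝ x y⟩).1 hw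
    rw [segment_eq_image'] at hz
    obtain ⟨t, ht, rfl⟩ := hz
    refine ⟨t, hwz, ?_⟩
    have h1 : dist (x + t • (y - x)) x = t * dist x y := by
      rw [dist_eq_norm, add_sub_cancel_left, norm_smul, Real.norm_of_nonneg ht.1, dist_comm x y,
        dist_eq_norm]
    have h2 : |dist w x - t * dist x y| < δ := by
      rw [← h1]
      exact (abs_dist_sub_le _ _ _).trans_lt hwz
    have h3 : min 1 (t * dist x y / dist x y) = t := by
      rw [mul_div_cancel_right₀ _ hd.ne']
      exact min_eq_right ht.2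
    calc |min 1 (dist w x / dist x y) - t| * dist x y
        = |min 1 (dist w x / dist x y) - min 1 (t * dist x y / dist x y)| * dist x y := by rw [h3]
      _ ≤ |dist w x / dist x y - t * dist x y / dist x y| * dist x y := by
          refine mul_le_mul_of_nonneg_right ?_ hd.le
          have := abs_min_sub_min_le_max (1 : ℝ) (dist w x / dist x y) 1 (t * dist x y / dist x y)
          rwa [sub_self, abs_zero, max_eq_right (abs_nonneg _)] at this
      _ = |dist w x - t * dist x y| := by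
          rw [← sub_div, abs_div, abs_of_pos hd, div_mul_cancel₀ _ hd.ne']
      _ < δ := h2
  obtain ⟨t, ht1, ht2⟩ := key u hu
  obtain ⟨t', ht1', ht2'⟩ := key v hv
  set a := min 1 (dist u x / dist x y)
  set b := min 1 (dist v x / dist x y)
  have h4 : dist (x + t • (y - x)) (x + t' • (y - x)) = |t - t'| * dist x y := by
    rw [dist_eq_norm, add_sub_add_left_eq_sub, ← sub_smul, norm_smul, Real.norm_eq_abs,
      dist_comm x y, dist_eq_norm]
  have h5 : |t - t'| ≤ |a - t| + |a - b| + |b - t'| := by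
    have : t - t' = -(a - t) + (a - b) + (b - t') := by ring
    rw [this]
    refine (abs_add_le _ _).trans ?_
    refine add_le_add ((abs_add_le _ _).trans ?_) le_rfl
    rw [abs_neg]
  have h6 : |t - t'| * dist x y ≤ |a - t| * dist x y + |a - b| * dist x y + |b - t'| * dist x y := by
    rw [← add_mul, ← add_mul]
    exact mul_le_mul_of_nonneg_right h5 hd.le
  calc dist u v ≤ dist u (x + t • (y - x)) + dist (x + t • (y - x)) (x + t' • (y - x))
        + dist (x + t' • (y - x)) v := dist_triangle4 _ _ _ _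
    _ ≤ 4 * δ + |a - b| * dist x y := by
        rw [h4, dist_comm _ v]
        linarith

omit [ConnectedSpace M] [FiniteDimensional ℝ E] in
/-- **Chain lemma** -/
theorem Tight.chain (hf : Tight f) {x y : E} (hxy : x ≠ y) {p : M} (hp : f p = x) :
    ∃ δ > 0, ∃ N₀ : Set M, (∀ᶠ m in 𝓝 p, m ∈ N₀) ∧
      (∀ S : Set M, IsPreconnected S → (S ∩ N₀).Nonempty →
        (∀ m ∈ S, infDist (f m) (segment ℝ x y) < δ) → S ⊆ N₀) ∧
      ∀ F : M → Circle, Continuous F →
        ∃ L : M → ℝ, ContinuousOn L N₀ ∧ ∀ m ∈ N₀, F m = Circle.exp (L m) := by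
  classical
  have hd : 0 < dist x y := dist_pos.2 hxy
  -- the scales
  obtain ⟨η, hη, huli⟩ := hf.exists_uli
  obtain ⟨ε, hε, hlog⟩ := exists_scale_log (M := M)
  obtain ⟨ε₂, hε₂, hconn⟩ := exists_scale_conn (M := M) (ε := ε / 2) (by positivity)
  obtain ⟨ε₁, hε₁, hε₁η, hε₁ε, hε₁₂⟩ : ∃ ε₁ > 0, 3 * ε₁ ≤ η ∧ ε₁ ≤ ε / 2 ∧ ε₁ ≤ ε₂ := by
    refine ⟨min (η / 3) (min (ε / 2) ε₂), by positivity, ?_, ?_, ?_⟩
    · have := min_le_left (η / 3) (min (ε / 2) ε₂)
      linarith
    · exact (min_le_right _ _).trans (min_le_left _ _)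
    · exact (min_le_right _ _).trans (min_le_right _ _)
  obtain ⟨κ, hκ, huli'⟩ := huli ε₁ hε₁
  obtain ⟨n, hn⟩ := exists_nat_gt (6 * dist x y / κ)
  have hn0 : (0 : ℝ) < n := lt_of_le_of_lt (by positivity) hn
  have hn' : 3 / (n : ℝ) * dist x y < κ / 2 := by
    rw [div_mul_eq_mul_div, div_lt_iff₀ hn0]
    rw [div_lt_iff₀ hκ] at hn
    linarith
  set δ : ℝ := κ / 8 with hδ
  have hδ0 : 0 < δ := by positivity
  set s : M → ℝ := fun m => min 1 (dist (f m) x / dist x y) with hs
  have hs0 : ∀ m, 0 ≤ s m := fun m => le_min zero_le_one (by positivity)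
  have hs1 : ∀ m, s m ≤ 1 := fun m => min_le_left _ _
  have hsc : Continuous s :=
    continuous_const.min ((hf.cont.dist continuous_const).div_const _)
  have hsp : s p = 0 := by simp [hs, hp]
  set N : Set M := {m | infDist (f m) (segment ℝ x y) < δ} with hN
  have hNo : IsOpen N := isOpen_lt ((continuous_infDist_pt _).comp hf.cont) continuous_const
  have hpN : p ∈ N := by
    show infDist (f p) (segment ℝ x y) < δ
    rw [hp, infDist_zero_of_mem (left_mem_segment ℝ x y)]
    exact hδ0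
  -- the fundamental estimate
  have star : ∀ m ∈ N, ∀ m' ∈ N, |n * s m - n * s m'| ≤ 3 → dist m m' ≤ η → dist m m' < ε₁ := by
    intro m hm m' hm' h3 hdd
    refine huli' m m' hdd ?_
    have h4 := dist_le_of_near hxy (δ := δ) hm hm'
    have h5 : |s m - s m'| ≤ 3 / n := by
      rw [← mul_sub, abs_mul, abs_of_pos hn0] at h3
      rw [le_div_iff₀ hn0]
      linarith
    have h6 : |s m - s m'| * dist x y ≤ 3 / n * dist x y := by gcongr
    have h7 : dist (f m) (f m') ≤ 4 * δ + |s m - s m'| * dist x y := h4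
    have h8 : 4 * δ = κ / 2 := by rw [hδ]; ring
    linarith
  -- the bands
  set U : ℕ → Set M := fun k => {m | m ∈ N ∧ |n * s m - k| < 1} with hU
  have hUo : ∀ k, IsOpen (U k) := fun k => hNo.inter
    (isOpen_lt ((continuous_const.mul hsc).sub continuous_const).abs continuous_const)
  -- the chain
  let C : ℕ → Set M := fun k => Nat.rec (motive := fun _ => Set M) {m | m ∈ U 0 ∧ dist m p ≤ η}
    (fun k Ck => {m | m ∈ U (k + 1) ∧ ∃ m' ∈ Ck, dist m m' ≤ η}) k
  have hC0 : C 0 = {m | m ∈ U 0 ∧ dist m p ≤ η} := rfl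
  have hCs : ∀ k, C (k + 1) = {m | m ∈ U (k + 1) ∧ ∃ m' ∈ C k, dist m m' ≤ η} := fun k => rfl
  have hCU : ∀ k, C k ⊆ U k := by
    intro k m hm
    cases k with
    | zero => exact hm.1
    | succ k => exact hm.1
  have near : ∀ {m m' : M} {k l : ℕ}, m ∈ U k → m' ∈ U l → (l : ℝ) - k ≤ 1 → (k : ℝ) - l ≤ 1 →
      dist m m' ≤ η → dist m m' < ε₁ := by
    intro m m' k l hm hm' h1 h2 h3
    refine star m hm.1 m' hm'.1 ?_ h3
    have h4 := abs_lt.1 hm.2
    have h5 := abs_lt.1 hm'.2
    rw [abs_le]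
    constructor <;> linarith [h4.1, h4.2, h5.1, h5.2]
  have nearp : ∀ {m : M}, m ∈ U 0 → dist m p ≤ η → dist m p < ε₁ := by
    intro m hm h3
    refine star m hm.1 p hpN ?_ h3
    have h4 := abs_lt.1 hm.2
    rw [hsp, mul_zero, abs_le]
    push_cast at h4
    constructor <;> linarith [h4.1, h4.2]
  -- steps
  have step : ∀ k, ∀ m ∈ C (k + 1), ∃ m' ∈ C k, dist m m' < ε₁ := by
    intro k m hm
    obtain ⟨h1, m', h2, h3⟩ := hm
    refine ⟨m', h2, near h1 (hCU k h2) ?_ ?_ h3⟩ <;> push_cast <;> linarith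
  -- the pieces are small
  have diam : ∀ k, ∀ m ∈ C k, ∀ m' ∈ C k, dist m m' < ε₁ := by
    intro k
    induction k with
    | zero =>
      intro m hm m' hm'
      have h1 := nearp hm.1 hm.2
      have h2 := nearp hm'.1 hm'.2
      refine near hm.1 hm'.1 (by simp) (by simp) ?_
      have := dist_triangle_right m m' p
      linarith
    | succ k ih =>
      intro m hm m' hm'
      obtain ⟨a, ha, ha'⟩ := step k m hm
      obtain ⟨b, hb, hb'⟩ := step k m' hm'
      have h1 := ih a ha b hb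
      refine near hm.1 hm'.1 (by simp) (by simp) ?_
      have h2 := dist_triangle4 m a b m'
      rw [dist_comm b m'] at h2
      linarith
  have diam' : ∀ k, ∀ m ∈ C k, ∀ m' ∈ C (k + 1), dist m m' < ε₁ := by
    intro k m hm m' hm'
    obtain ⟨b, hb, hb'⟩ := step k m' hm'
    have h1 := diam k m hm b hb
    refine near (hCU k hm) hm'.1 ?_ ?_ ?_
    · push_cast; linarith
    · push_cast; linarith
    · have h2 := dist_triangle_right m m' b
      linarith
  -- the pieces are open
  have hCo : ∀ k, IsOpen (C k) := by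
    intro k
    cases k with
    | zero =>
      have : C 0 = U 0 ∩ ball p η := by
        ext m
        constructor
        · intro hm
          exact ⟨hm.1, mem_ball.2 (by have := nearp hm.1 hm.2; linarith)⟩
        · intro hm
          exact ⟨hm.1, (mem_ball.1 hm.2).le⟩
      rw [this]
      exact (hUo 0).inter isOpen_ball
    | succ k =>
      have : C (k + 1) = U (k + 1) ∩ ⋃ m' ∈ C k, ball m' η := by
        ext m
        simp only [mem_inter_iff, mem_iUnion, mem_ball, exists_prop]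
        constructor
        · intro hm
          obtain ⟨m', h1, h2⟩ := step k m hm
          exact ⟨hm.1, m', h1, by linarith⟩
        · rintro ⟨h1, m', h2, h3⟩
          exact ⟨h1, m', h2, h3.le⟩
      rw [this]
      exact (hUo _).inter (isOpen_biUnion fun _ _ => isOpen_ball)
  have hdisj : ∀ k l, k + 2 ≤ l → Disjoint (C k) (C l) := by
    intro k l hkl
    rw [Set.disjoint_left]
    intro m hm hm'
    have h1 := abs_lt.1 (hCU k hm).2
    have h2 := abs_lt.1 (hCU l hm').2
    have h3 : (k : ℝ) + 2 ≤ l := by exact_mod_cast hkl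
    linarith [h1.1, h1.2, h2.1, h2.2]
  -- membership propagates
  have move : ∀ k j, ∀ m ∈ C k, m ∈ U j → m ∈ C j := by
    intro k j m hm hmj
    have h1 := abs_lt.1 (hCU k hm).2
    have h2 := abs_lt.1 hmj.2
    have h3 : (k : ℝ) < j + 2 := by linarith [h1.1, h1.2, h2.1, h2.2]
    have h4 : (j : ℝ) < k + 2 := by linarith [h1.1, h1.2, h2.1, h2.2]
    have h3' : k < j + 2 := by exact_mod_cast h3
    have h4' : j < k + 2 := by exact_mod_cast h4
    rcases (show j = k ∨ j = k + 1 ∨ k = j + 1 by omega) with rfl | rfl | rfl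
    · exact hm
    · exact ⟨hmj, m, hm, by rw [dist_self]; exact hη.le⟩
    · obtain ⟨a, ha, ha'⟩ := step j m hm
      cases j with
      | zero =>
        have h5 := nearp ha.1 ha.2
        refine ⟨hmj, ?_⟩
        have := dist_triangle m a p
        linarith
      | succ i =>
        obtain ⟨b, hb, hb'⟩ := step i a ha
        refine ⟨hmj, b, hb, ?_⟩
        have := dist_triangle m a b
        linarith
  have push : ∀ k, ∀ m ∈ C k, ∀ m' ∈ U k, dist m m' ≤ η / 2 → m' ∈ C k := by
    intro k m hm m' hm' hdd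
    cases k with
    | zero =>
      have h5 := nearp hm.1 hm.2
      refine ⟨hm', ?_⟩
      have := dist_triangle_left m' p m
      linarith
    | succ i =>
      obtain ⟨b, hb, hb'⟩ := step i m hm
      refine ⟨hm', b, hb, ?_⟩
      have := dist_triangle_left m' b m
      linarith
  -- uniform continuity of `s`
  have hunif : UniformContinuous s := CompactSpace.uniformContinuous_of_continuous hsc
  obtain ⟨μ₀, hμ₀, hμ₀'⟩ := Metric.uniformContinuous_iff.1 hunif (1 / (2 * n)) (by positivity)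
  set μ : ℝ := min μ₀ (η / 2) with hμ
  have hμ0 : 0 < μ := lt_min hμ₀ (by positivity)
  have clopen : ∀ m ∈ ⋃ k ≤ n, C k, ∀ m' ∈ N, dist m m' < μ → m' ∈ ⋃ k ≤ n, C k := by
    intro m hm m' hm' hdd
    simp only [mem_iUnion] at hm
    obtain ⟨k, hk, hmk⟩ := hm
    -- nearest integer
    obtain ⟨j, hjn, hj⟩ : ∃ j : ℕ, j ≤ n ∧ |n * s m' - j| ≤ 1 / 2 := by
      have h0 : 0 ≤ n * s m' := mul_nonneg hn0.le (hs0 m')
      have h1 : n * s m' ≤ n := mul_le_of_le_one_right hn0.le (hs1 m')
      refine ⟨⌊n * s m' + 1 / 2⌋₊, ?_, ?_⟩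
      · have h2 : ⌊n * s m' + 1 / 2⌋₊ < n + 1 := by
          rw [Nat.floor_lt (by positivity)]
          push_cast
          linarith
        omega
      · have h2 := Nat.floor_le (show 0 ≤ n * s m' + 1 / 2 by positivity)
        have h3 := Nat.lt_floor_add_one (n * s m' + 1 / 2)
        rw [abs_le]
        constructor <;> linarith
    have h1 : dist m m' < μ₀ := hdd.trans_le (min_le_left _ _)
    have h2 : dist m m' < η / 2 := hdd.trans_le (min_le_right _ _)
    have h3 := hμ₀' h1
    rw [Real.dist_eq, lt_div_iff₀ (by positivity)] at h3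
    have h4 : |n * s m - n * s m'| < 1 / 2 := by
      rw [← mul_sub, abs_mul, abs_of_pos hn0]
      linarith
    have hm'j : m' ∈ U j := ⟨hm', by linarith⟩
    have hmj : m ∈ U j := by
      refine ⟨(hCU k hmk).1, ?_⟩
      calc |n * s m - j| = |(n * s m - n * s m') + (n * s m' - j)| := by ring_nf
        _ ≤ |n * s m - n * s m'| + |n * s m' - j| := abs_add_le _ _
        _ < 1 := by linarith
    have h5 := push j m (move k j m hmk hmj) m' hm'j h2.le
    simp only [mem_iUnion]
    exact ⟨j, hjn, h5⟩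
  have hpC : p ∈ ⋃ k ≤ n, C k := by
    simp only [mem_iUnion]
    refine ⟨0, Nat.zero_le _, ⟨hpN, ?_⟩, ?_⟩
    · rw [hsp]; simp
    · rw [dist_self]; exact hη.le
  refine ⟨δ, hδ0, ⋃ k ≤ n, C k, ?_, ?_, ?_⟩
  · filter_upwards [hNo.mem_nhds hpN, ball_mem_nhds p hμ0] with m hm hm'
    exact clopen p hpC m hm (by rw [dist_comm]; exact hm')
  · rintro S hS ⟨a, haS, haN⟩ hSN b hb
    by_contra hbN
    obtain ⟨z, hzS, hz1, hz2⟩ := hS (⋃ m ∈ ⋃ k ≤ n, C k, ball m μ)
      (⋃ m ∈ N \ ⋃ k ≤ n, C k, ball m μ) (isOpen_biUnion fun _ _ => isOpen_ball)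
      (isOpen_biUnion fun _ _ => isOpen_ball) (by
        intro z hz
        by_cases h : z ∈ ⋃ k ≤ n, C k
        · exact Or.inl (mem_biUnion h (mem_ball_self hμ0))
        · exact Or.inr (mem_biUnion (⟨hSN z hz, h⟩ : z ∈ N \ _) (mem_ball_self hμ0)))
      ⟨a, haS, mem_biUnion haN (mem_ball_self hμ0)⟩
      ⟨b, hb, mem_biUnion (⟨hSN b hb, hbN⟩ : b ∈ N \ _) (mem_ball_self hμ0)⟩
    obtain ⟨m1, hm1, hz1⟩ := mem_iUnion₂.1 hz1
    obtain ⟨m2, hm2, hz2⟩ := mem_iUnion₂.1 hz2
    have hz : z ∈ ⋃ k ≤ n, C k := clopen m1 hm1 z (hSN z hzS) (by rw [dist_comm]; exact hz1)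
    exact hm2.2 (clopen z hz m2 hm2.1 hz2)
  · intro F hF
    -- logarithms on the pieces
    have h1 : ∀ k, ∃ D : Set M, (∀ m ∈ C k, ball m (ε / 2) ⊆ D) ∧
        ∃ L : M → ℝ, ContinuousOn L D ∧ ∀ m ∈ D, F m = Circle.exp (L m) := by
      intro k
      rcases (C k).eq_empty_or_nonempty with h | ⟨c, hc⟩
      · exact ⟨∅, by simp [h], fun _ => 0, continuousOn_empty _, by simp⟩
      · obtain ⟨D, hD, hlogD⟩ := hlog c
        refine ⟨D, fun m hm => ?_, hlogD F hF⟩
        refine (ball_subset_ball' ?_).trans hD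
        have := diam k m hm c hc
        linarith
    choose D hD L hL hLF using h1
    have hCD : ∀ k, C k ⊆ D k := fun k m hm => hD k m hm (mem_ball_self (by positivity))
    refine glue_logs hCo hdisj (fun k => (hL k).mono (hCD k))
      (fun k m hm => hLF k m (hCD k hm)) ?_
    intro k m hm m' hm'
    obtain ⟨A, hA, hmA, hm'A, hAsub⟩ := hconn m m' ((diam k m hm.1 m' hm'.1).trans_le hε₁₂)
    have hA1 : A ⊆ D k := hAsub.trans (hD k m hm.1)
    have hA2 : A ⊆ D (k + 1) := hAsub.trans (hD (k + 1) m hm.2)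
    exact log_unique hA ((hL k).mono hA1) ((hL (k + 1)).mono hA2)
      (fun z hz => by rw [← hLF k z (hA1 hz), ← hLF (k + 1) z (hA2 hz)]) hmA hm'A

end Tight

end Pool.Agent.Kuiper
end


/-! ### file Basic -/
section
/-! # Tight maps: exposed edges, thin caps, separation -/

set_option autoImplicit false
open Set Topology Metric

namespace Pool.Agent.Kuiper

section Tight
variable {M : Type*} [MetricSpace M] [CompactSpace M] [ConnectedSpace M] [Surf M]
variable {E : Type*} [NormedAddCommGroup E] [InnerProductSpace ℝ E] [FiniteDimensional ℝ E]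
variable {f : M → E}

omit [ConnectedSpace M] [Surf M] in
theorem Tight.isCompact_hull (hf : Tight f) : IsCompact (convexHull ℝ (range f)) :=
  isCompact_convexHull (isCompact_range hf.cont)

omit [CompactSpace M] [ConnectedSpace M] [Surf M] [FiniteDimensional ℝ E] in
theorem Tight.affineSpan_hull (hf : Tight f) : affineSpan ℝ (convexHull ℝ (range f)) = ⊤ := by
  rw [affineSpan_convexHull]
  exact hf.span

omit [ConnectedSpace M] [Surf M] in
theorem Tight.extreme_bdy (hf : Tight f) {z : E}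
    (hz : z ∈ (convexHull ℝ (range f)).extremePoints ℝ) : ∃ m ∈ bdy M, f m = z := by
  have h1 : (convexHull ℝ (range f)).exposedPoints ℝ ⊆ f '' bdy M := by
    intro q hq
    obtain ⟨p, hp, hpq⟩ := hf.exposed q hq
    refine ⟨p, hp, ?_⟩
    have : p ∈ f ⁻¹' {q} := by rw [hpq]; rfl
    exact this
  have h2 : IsClosed (f '' bdy M) := (isClosed_bdy.isCompact.image hf.cont).isClosed
  have h3 := closure_minimal h1 h2
    (extremePoints_subset hf.isCompact_hull (convex_convexHull ℝ _) hz)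
  exact h3

omit [ConnectedSpace M] [Surf M] in
theorem Tight.exists_edge (hf : Tight f) {v w : E} (h : IsEdge (convexHull ℝ (range f)) v w) :
    ∃ e : Edge f, f e.p = v ∧ f e.q = w := by
  obtain ⟨p, hp, rfl⟩ := hf.extreme_bdy h.left_mem
  obtain ⟨q, hq, rfl⟩ := hf.extreme_bdy h.symm.left_mem
  obtain ⟨hne, L, c, hc, he⟩ := h
  exact ⟨⟨p, q, L, c, hp, hq, hne, fun m => hc _ (subset_convexHull ℝ _ ⟨m, rfl⟩), he⟩, rfl, rfl⟩

def Edge.swap (e : Edge f) : Edge f where
  p := e.q
  q := e.p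
  L := e.L
  top := e.top
  hp := e.hq
  hq := e.hp
  ne := e.ne.symm
  le_top := e.le_top
  eq_seg := by rw [segment_symm]; exact e.eq_seg

omit [CompactSpace M] [ConnectedSpace M] [Surf M] [FiniteDimensional ℝ E] in
theorem Edge.le_hull (e : Edge f) {y : E} (hy : y ∈ convexHull ℝ (range f)) : e.L y ≤ e.top := by
  have : convexHull ℝ (range f) ⊆ {y | e.L y ≤ e.top} :=
    convexHull_min (by rintro _ ⟨m, rfl⟩; exact e.le_top m)
      (convex_halfSpace_le e.L.toLinearMap.isLinear _)
  exact this hy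

omit [CompactSpace M] [ConnectedSpace M] [Surf M] [FiniteDimensional ℝ E] in
theorem Edge.isEdge (e : Edge f) : IsEdge (convexHull ℝ (range f)) (f e.p) (f e.q) :=
  ⟨e.ne, e.L, e.top, fun _ hy => e.le_hull hy, e.eq_seg⟩

omit [CompactSpace M] [ConnectedSpace M] [Surf M] in
theorem Edge.extreme_p (e : Edge f) : f e.p ∈ (convexHull ℝ (range f)).extremePoints ℝ :=
  e.isEdge.left_mem

omit [CompactSpace M] [ConnectedSpace M] [Surf M] in
theorem Edge.extreme_q (e : Edge f) : f e.q ∈ (convexHull ℝ (range f)).extremePoints ℝ :=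
  e.isEdge.symm.left_mem

omit [CompactSpace M] [ConnectedSpace M] [Surf M] [FiniteDimensional ℝ E] in
theorem Edge.top_iff (e : Edge f) (m : M) : e.L (f m) = e.top ↔ f m ∈ e.seg := by
  have : f m ∈ e.seg ↔ f m ∈ {y ∈ convexHull ℝ (range f) | e.L y = e.top} := by
    rw [e.eq_seg]; rfl
  rw [this]
  exact ⟨fun h => ⟨subset_convexHull ℝ _ ⟨m, rfl⟩, h⟩, fun h => h.2⟩

omit [CompactSpace M] [ConnectedSpace M] [Surf M] [FiniteDimensional ℝ E] in
theorem Edge.L_p (e : Edge f) : e.L (f e.p) = e.top :=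
  (e.top_iff _).2 (left_mem_segment ℝ _ _)

omit [CompactSpace M] [ConnectedSpace M] [Surf M] [FiniteDimensional ℝ E] in
theorem Edge.L_q (e : Edge f) : e.L (f e.q) = e.top :=
  (e.top_iff _).2 (right_mem_segment ℝ _ _)

omit [ConnectedSpace M] [Surf M] [FiniteDimensional ℝ E] in
/-- general form: the preimage of a general cap is small when the cap is thin -/
theorem Tight.halfspace_subset (hf : Tight f) {l : E →L[ℝ] ℝ} {c : ℝ} (hle : ∀ m, l (f m) ≤ c)
    {U : Set M} (hU : IsOpen U) (h : {m | l (f m) = c} ⊆ U) :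
    ∃ s > 0, {m | c - s ≤ l (f m)} ⊆ U := by
  by_cases hne : (Uᶜ).Nonempty
  · obtain ⟨m₀, hm₀, hmax⟩ := hU.isClosed_compl.isCompact.exists_isMaxOn hne
      ((l.continuous.comp hf.cont).continuousOn)
    have hlt : l (f m₀) < c := lt_of_le_of_ne (hle _) (fun he => hm₀ (h he))
    refine ⟨(c - l (f m₀)) / 2, by linarith, ?_⟩
    intro m hm
    by_contra hmU
    have h1 : l (f m) ≤ l (f m₀) := hmax hmU
    have h2 : c - (c - l (f m₀)) / 2 ≤ l (f m) := hm
    linarith
  · rw [Set.not_nonempty_iff_eq_empty, Set.compl_empty_iff] at hne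
    exact ⟨1, one_pos, by rw [hne]; exact subset_univ _⟩

omit [ConnectedSpace M] [Surf M] [FiniteDimensional ℝ E] in
/-- thin caps are close to the edge -/
theorem Tight.cap_subset (hf : Tight f) (e : Edge f) {U : Set M} (hU : IsOpen U)
    (h : {m | e.L (f m) = e.top} ⊆ U) : ∃ s > 0, ∀ s', s' ≤ s → e.cap s' ⊆ U := by
  obtain ⟨s, hs, hsU⟩ := hf.halfspace_subset e.le_top hU h
  refine ⟨s, hs, fun s' hs' m hm => hsU ?_⟩
  have : e.top - s' ≤ e.L (f m) := hm
  show e.top - s ≤ e.L (f m)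
  linarith

omit [CompactSpace M] [ConnectedSpace M] [Surf M] [FiniteDimensional ℝ E] in
theorem Tight.isClosed_cap (hf : Tight f) (e : Edge f) (s : ℝ) : IsClosed (e.cap s) :=
  isClosed_le continuous_const (e.L.continuous.comp hf.cont)

omit [CompactSpace M] [ConnectedSpace M] [Surf M] [FiniteDimensional ℝ E] in
theorem Tight.joined_cap (hf : Tight f) (e : Edge f) {s : ℝ} (hs : 0 < s) :
    JoinedIn (e.cap s) e.p e.q :=
  (hf.joined e.L (e.top - s) e.p e.q (by rw [e.L_p]; linarith)
    (by rw [e.L_q]; linarith)).mono fun m hm => by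
      have h1 : e.top - s < e.L (f m) := hm
      exact h1.le

omit [CompactSpace M] [ConnectedSpace M] [Surf M] [FiniteDimensional ℝ E] in
theorem Tight.isPreconnected_open (hf : Tight f) (l : E →L[ℝ] ℝ) (c : ℝ) :
    IsPreconnected {m | c < l (f m)} := by
  apply isPreconnected_of_forall_pair
  intro a ha b hb
  have hj := hf.joined l c a b ha hb
  obtain ⟨γ, hγ⟩ := hj
  refine ⟨range γ, ?_, ⟨0, γ.source⟩, ⟨1, γ.target⟩, ?_⟩
  · rintro _ ⟨t, rfl⟩
    exact hγ t
  · exact isPreconnected_range γ.continuous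

omit [ConnectedSpace M] [Surf M] [FiniteDimensional ℝ E] in
/-- closed half-spaces have connected preimages, because the open ones do -/
theorem Tight.isPreconnected_halfspace (hf : Tight f) (l : E →L[ℝ] ℝ) (c : ℝ) :
    IsPreconnected {m | c ≤ l (f m)} := by
  have hcl : IsClosed {m | c ≤ l (f m)} :=
    isClosed_le continuous_const (l.continuous.comp hf.cont)
  rw [isPreconnected_closed_iff]
  intro A B hA hB hcov ⟨a, haS, haA⟩ ⟨b, hbS, hbB⟩
  by_contra hne
  rw [Set.not_nonempty_iff_eq_empty] at hne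
  have hd : Disjoint ({m | c ≤ l (f m)} ∩ A) ({m | c ≤ l (f m)} ∩ B) := by
    rw [Set.disjoint_left]
    rintro x ⟨hx1, hx2⟩ ⟨_, hx3⟩
    have : x ∈ {m | c ≤ l (f m)} ∩ (A ∩ B) := ⟨hx1, hx2, hx3⟩
    rw [hne] at this
    exact this
  obtain ⟨U, V, hU, hV, hAU, hBV, hUV⟩ := NormalSpace.normal _ _ (hcl.inter hA) (hcl.inter hB) hd
  have hSUV : {m | c ≤ l (f m)} ⊆ U ∪ V := by
    intro x hx
    rcases hcov hx with h | h
    · exact Or.inl (hAU ⟨hx, h⟩)
    · exact Or.inr (hBV ⟨hx, h⟩)
  obtain ⟨c', hc', hsub⟩ : ∃ c' < c, {m | c' < l (f m)} ⊆ U ∪ V := by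
    by_cases hW : ((U ∪ V)ᶜ).Nonempty
    · obtain ⟨m₀, hm₀, hmax⟩ := (hU.union hV).isClosed_compl.isCompact.exists_isMaxOn hW
        ((l.continuous.comp hf.cont).continuousOn)
      refine ⟨l (f m₀), lt_of_not_ge (fun he => hm₀ (hSUV he)), ?_⟩
      intro m hm
      by_contra hmU
      have h1 : l (f m) ≤ l (f m₀) := hmax hmU
      have h2 : l (f m₀) < l (f m) := hm
      linarith
    · rw [Set.not_nonempty_iff_eq_empty, Set.compl_empty_iff] at hW
      exact ⟨c - 1, by linarith, by rw [hW]; exact subset_univ _⟩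
  have hpre := hf.isPreconnected_open l c'
  obtain ⟨x, _, hx1, hx2⟩ := hpre U V hU hV hsub
    ⟨a, lt_of_lt_of_le hc' haS, hAU ⟨haS, haA⟩⟩
    ⟨b, lt_of_lt_of_le hc' hbS, hBV ⟨hbS, hbB⟩⟩
  exact Set.disjoint_left.1 hUV hx1 hx2

omit [ConnectedSpace M] [Surf M] [FiniteDimensional ℝ E] in
theorem Tight.isPreconnected_cap (hf : Tight f) (e : Edge f) (s : ℝ) :
    IsPreconnected (e.cap s) :=
  hf.isPreconnected_halfspace e.L (e.top - s)

omit [ConnectedSpace M] [Surf M] [FiniteDimensional ℝ E] in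
theorem Tight.isPreconnected_max (hf : Tight f) {l : E →L[ℝ] ℝ} {c : ℝ}
    (hle : ∀ m, l (f m) ≤ c) : IsPreconnected {m | l (f m) = c} := by
  have hcl : IsClosed {m | l (f m) = c} := isClosed_eq (l.continuous.comp hf.cont) continuous_const
  rw [isPreconnected_closed_iff]
  intro A B hA hB hcov ⟨a, haS, haA⟩ ⟨b, hbS, hbB⟩
  by_contra hne
  rw [Set.not_nonempty_iff_eq_empty] at hne
  -- disjoint closed pieces are separated by disjoint open sets
  have hd : Disjoint ({m | l (f m) = c} ∩ A) ({m | l (f m) = c} ∩ B) := by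
    rw [Set.disjoint_left]
    rintro x ⟨hx1, hx2⟩ ⟨_, hx3⟩
    have : x ∈ {m | l (f m) = c} ∩ (A ∩ B) := ⟨hx1, hx2, hx3⟩
    rw [hne] at this
    exact this
  obtain ⟨U, V, hU, hV, hAU, hBV, hUV⟩ := NormalSpace.normal _ _ (hcl.inter hA) (hcl.inter hB) hd
  obtain ⟨s, hs, hsU⟩ := hf.halfspace_subset hle (hU.union hV) (by
    intro x hx
    rcases hcov hx with h | h
    · exact Or.inl (hAU ⟨hx, h⟩)
    · exact Or.inr (hBV ⟨hx, h⟩))
  have hpre := hf.isPreconnected_halfspace l (c - s)
  obtain ⟨x, _, hx1, hx2⟩ := hpre U V hU hV hsU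
    ⟨a, by show c - s ≤ l (f a); rw [haS]; linarith, hAU ⟨haS, haA⟩⟩
    ⟨b, by show c - s ≤ l (f b); rw [hbS]; linarith, hBV ⟨hbS, hbB⟩⟩
  exact Set.disjoint_left.1 hUV hx1 hx2

omit [ConnectedSpace M] [Surf M] [FiniteDimensional ℝ E] in
theorem Tight.isPreconnected_edge (hf : Tight f) (e : Edge f) :
    IsPreconnected {m | e.L (f m) = e.top} :=
  hf.isPreconnected_max e.le_top

omit [ConnectedSpace M] [Surf M] [FiniteDimensional ℝ E] in
theorem Tight.edge_surj (hf : Tight f) (e : Edge f) {y : E} (hy : y ∈ e.seg) :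
    ∃ m, f m = y := by
  let g : E → ℝ := fun z => inner ℝ (f e.q - f e.p) z
  have hg : Continuous g := by fun_prop
  have hpre : IsPreconnected ((g ∘ f) '' {m | e.L (f m) = e.top}) :=
    (hf.isPreconnected_edge e).image _ (hg.comp hf.cont).continuousOn
  have hv : f e.q - f e.p ≠ 0 := sub_ne_zero.2 e.ne.symm
  have hpos : 0 < inner ℝ (f e.q - f e.p) (f e.q - f e.p) := by
    rw [real_inner_self_eq_norm_sq]
    positivity
  have hpar : ∀ t : ℝ, g (f e.p + t • (f e.q - f e.p)) =
      g (f e.p) + t * inner ℝ (f e.q - f e.p) (f e.q - f e.p) := by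
    intro t
    simp only [g]
    rw [inner_add_right, inner_smul_right]
  rw [Edge.seg, segment_eq_image'] at hy
  obtain ⟨t, ⟨ht0, ht1⟩, rfl⟩ := hy
  have hmem : g (f e.p + t • (f e.q - f e.p)) ∈ (g ∘ f) '' {m | e.L (f m) = e.top} := by
    apply hpre.ordConnected.out (x := g (f e.p)) (y := g (f e.q)) ⟨e.p, e.L_p, rfl⟩
      ⟨e.q, e.L_q, rfl⟩
    have h1 := hpar t
    have h2 := hpar 1
    rw [one_smul, add_sub_cancel] at h2
    constructor
    · rw [h1]; nlinarith
    · rw [h1, h2]; nlinarith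
  obtain ⟨m, hm, hgm⟩ := hmem
  refine ⟨m, ?_⟩
  have hms : f m ∈ e.seg := (e.top_iff m).1 hm
  rw [Edge.seg, segment_eq_image'] at hms
  obtain ⟨t', _, ht'⟩ := hms
  simp only at ht' hgm
  rw [← ht']
  have h3 := hpar t'
  have h4 := hpar t
  simp only [Function.comp_apply] at hgm
  rw [← ht', h3, h4] at hgm
  have : t' = t := by
    have : t' * inner ℝ (f e.q - f e.p) (f e.q - f e.p) =
      t * inner ℝ (f e.q - f e.p) (f e.q - f e.p) := by linarith
    exact mul_right_cancel₀ hpos.ne' this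
  rw [this]

/-! ### Separation and spanning -/

omit [CompactSpace M] [ConnectedSpace M] [Surf M] [FiniteDimensional ℝ E] in
theorem Edge.cap_mono (e : Edge f) {s s' : ℝ} (h : s ≤ s') : e.cap s ⊆ e.cap s' := by
  intro m hm
  have : e.top - s ≤ e.L (f m) := hm
  show e.top - s' ≤ e.L (f m)
  linarith

omit [CompactSpace M] [ConnectedSpace M] [Surf M] [FiniteDimensional ℝ E] in
theorem Edge.seg_subset {ι : Type*} {e : ι → Edge f} (i : ι) :
    (e i).seg ⊆ convexHull ℝ (verts e) := by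
  apply (convex_convexHull ℝ _).segment_subset
  · exact subset_convexHull ℝ _ (mem_iUnion.2 ⟨i, by simp⟩)
  · exact subset_convexHull ℝ _ (mem_iUnion.2 ⟨i, by simp⟩)

omit [CompactSpace M] [ConnectedSpace M] [Surf M] [FiniteDimensional ℝ E] in
theorem finite_verts {ι : Type*} [Finite ι] (e : ι → Edge f) : (verts e).Finite :=
  Set.finite_iUnion fun _ => by simp

omit [ConnectedSpace M] [Surf M] [FiniteDimensional ℝ E] in
/-- thin caps avoid a half-space missing the hull of the edges -/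
theorem Tight.exists_thin (hf : Tight f) {ι : Type*} [Finite ι] {e : ι → Edge f}
    {l : E →L[ℝ] ℝ} {c : ℝ} (hl : ∀ y ∈ convexHull ℝ (verts e), l y < c) :
    ∃ s > 0, ∀ i, Disjoint {m | c ≤ l (f m)} ((e i).cap s) := by
  have h1 : ∀ i, ∃ s > 0, ∀ s', s' ≤ s → (e i).cap s' ⊆ {m | l (f m) < c} := by
    intro i
    apply hf.cap_subset (e i) (isOpen_lt (l.continuous.comp hf.cont) continuous_const)
    intro m hm
    exact hl _ (Edge.seg_subset i (((e i).top_iff m).1 hm))
  choose s hs hs' using h1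
  obtain ⟨s₀, hs₀, hle⟩ : ∃ s₀ > 0, ∀ i, s₀ ≤ s i := by
    cases nonempty_fintype ι
    rcases isEmpty_or_nonempty ι with hι | hι
    · exact ⟨1, one_pos, fun i => (hι.false i).elim⟩
    · obtain ⟨i₀, hi₀⟩ := Finite.exists_min s
      exact ⟨s i₀, hs i₀, hi₀⟩
  refine ⟨s₀, hs₀, fun i => ?_⟩
  rw [Set.disjoint_left]
  intro m hm hm'
  have h2 : l (f m) < c := hs' i s₀ (hle i) hm'
  have h3 : c ≤ l (f m) := hm
  linarith

omit [ConnectedSpace M] [Surf M] in
/-- **SL'** -/
theorem Tight.inter_of_separated (hf : Tight f) {ι : Type*} [Finite ι] {e : ι → Edge f}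
    {r r' : M} (h : Separated e r r') :
    (segment ℝ (f r) (f r') ∩ convexHull ℝ (verts e)).Nonempty := by
  by_contra hne
  obtain ⟨l, c, h1, h2, h3⟩ := exists_halfspace ((finite_verts e).isCompact_convexHull ℝ)
    (convex_convexHull ℝ _) hne
  obtain ⟨s, hs, hd⟩ := hf.exists_thin h3
  exact h s hs _ (hf.isPreconnected_halfspace l c) h1 h2 hd

omit [ConnectedSpace M] [Surf M] in
theorem Tight.cover_of_separated (hf : Tight f) {ι : Type*} [Finite ι] {e : ι → Edge f}
    {r r' : M} (h : Separated e r r') (m : M) :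
    f m ∈ convexHull ℝ (verts e) ∨ (segment ℝ (f m) (f r) ∩ convexHull ℝ (verts e)).Nonempty ∨
      (segment ℝ (f m) (f r') ∩ convexHull ℝ (verts e)).Nonempty := by
  by_contra hne
  push Not at hne
  obtain ⟨_, hne1, hne2⟩ := hne
  rw [← Set.not_nonempty_iff_eq_empty] at hne1 hne2
  have hT := (finite_verts e).isCompact_convexHull ℝ
  obtain ⟨l, c, h1, h2, h3⟩ := exists_halfspace hT (convex_convexHull ℝ _) hne1
  obtain ⟨l', c', h1', h2', h3'⟩ := exists_halfspace hT (convex_convexHull ℝ _) hne2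
  obtain ⟨s, hs, hd⟩ := hf.exists_thin h3
  obtain ⟨s', hs', hd'⟩ := hf.exists_thin h3'
  refine h (min s s') (lt_min hs hs') ({m | c ≤ l (f m)} ∪ {m | c' ≤ l' (f m)}) ?_ (Or.inl h2)
    (Or.inr h2') ?_
  · exact IsPreconnected.union m h1 h1' (hf.isPreconnected_halfspace l c)
      (hf.isPreconnected_halfspace l' c')
  · intro i
    rw [Set.disjoint_union_left]
    exact ⟨(hd i).mono_right ((e i).cap_mono (min_le_left _ _)),
      (hd' i).mono_right ((e i).cap_mono (min_le_right _ _))⟩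

omit [FiniteDimensional ℝ E] in
theorem mem_span_of_segment {W : AffineSubspace ℝ E} {a b x : E} (hx : x ∈ segment ℝ a b)
    (hxW : x ∈ W) (hbW : b ∈ W) (hne : x ≠ b) : a ∈ W := by
  rw [segment_eq_image'] at hx
  obtain ⟨t, _, rfl⟩ := hx
  simp only at hxW hne
  have ht : 1 - t ≠ 0 := by
    intro h0
    apply hne
    have : t = 1 := by linarith
    rw [this, one_smul, add_sub_cancel]
  have : a = AffineMap.lineMap b (a + t • (b - a)) ((1 - t)⁻¹) := by
    rw [AffineMap.lineMap_apply, vsub_eq_sub, vadd_eq_add]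
    have h1 : a + t • (b - a) - b = (1 - t) • (a - b) := by
      module
    rw [h1, smul_smul, inv_mul_cancel₀ ht, one_smul, sub_add_cancel]
  rw [this]
  exact AffineMap.lineMap_mem _ hbW hxW

omit [ConnectedSpace M] [Surf M] in
/-- **SL''** -/
theorem Tight.span_of_separated (hf : Tight f) {ι : Type*} [Finite ι] {e : ι → Edge f}
    {r r' : M} (h : Separated e r r') (hr : f r ∉ convexHull ℝ (verts e))
    (hr' : f r' ∉ convexHull ℝ (verts e)) :
    affineSpan ℝ (verts e ∪ {f r}) = ⊤ ∧ affineSpan ℝ (verts e ∪ {f r'}) = ⊤ := by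
  have key : ∀ z : E, (f r ∈ affineSpan ℝ (verts e ∪ {z})) →
      (f r' ∈ affineSpan ℝ (verts e ∪ {z})) → affineSpan ℝ (verts e ∪ {z}) = ⊤ := by
    intro z h1 h2
    have hT : convexHull ℝ (verts e) ⊆ affineSpan ℝ (verts e ∪ {z}) :=
      (convexHull_subset_affineSpan _).trans (affineSpan_mono ℝ subset_union_left)
    rw [eq_top_iff, ← hf.span]
    rw [affineSpan_le]
    rintro _ ⟨m, rfl⟩
    rcases hf.cover_of_separated h m with h3 | ⟨x, hx, hxT⟩ | ⟨x, hx, hxT⟩
    · exact hT h3
    · exact mem_span_of_segment hx (hT hxT) h1 (fun he => hr (he ▸ hxT))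
    · exact mem_span_of_segment hx (hT hxT) h2 (fun he => hr' (he ▸ hxT))
  obtain ⟨x, hx, hxT⟩ := hf.inter_of_separated h
  constructor
  · have hT : convexHull ℝ (verts e) ⊆ affineSpan ℝ (verts e ∪ {f r}) :=
      (convexHull_subset_affineSpan _).trans (affineSpan_mono ℝ subset_union_left)
    have h1 : f r ∈ affineSpan ℝ (verts e ∪ {f r}) :=
      subset_affineSpan ℝ _ (Or.inr rfl)
    refine key _ h1 ?_
    rw [segment_symm] at hx
    exact mem_span_of_segment hx (hT hxT) h1 (fun he => hr (he ▸ hxT))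
  · have hT : convexHull ℝ (verts e) ⊆ affineSpan ℝ (verts e ∪ {f r'}) :=
      (convexHull_subset_affineSpan _).trans (affineSpan_mono ℝ subset_union_left)
    have h1 : f r' ∈ affineSpan ℝ (verts e ∪ {f r'}) :=
      subset_affineSpan ℝ _ (Or.inr rfl)
    refine key _ ?_ h1
    exact mem_span_of_segment hx (hT hxT) h1 (fun he => hr' (he ▸ hxT))

end Tight

end Pool.Agent.Kuiper
end


/-! ### file PartB -/
section
/-! # Infinitely many exposed points give infinitely many bad edges -/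

set_option autoImplicit false
open Set Topology Metric

namespace Pool.Agent.Kuiper

section Tight
variable {M : Type*} [MetricSpace M] [CompactSpace M] [ConnectedSpace M] [Surf M]
variable {E : Type*} [NormedAddCommGroup E] [InnerProductSpace ℝ E] [FiniteDimensional ℝ E]
variable {f : M → E}

/-- order three distinct reals -/
theorem exists_order {τ : Fin 3 → ℝ} (hτ : Function.Injective τ) :
    ∃ a b c : Fin 3, τ a < τ b ∧ τ b < τ c := by
  have h01 : τ 0 ≠ τ 1 := fun h => by simpa using hτ h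
  have h02 : τ 0 ≠ τ 2 := fun h => by simpa using hτ h
  have h12 : τ 1 ≠ τ 2 := fun h => by simpa using hτ h
  rcases lt_or_gt_of_ne h01 with h | h <;> rcases lt_or_gt_of_ne h02 with h' | h' <;>
    rcases lt_or_gt_of_ne h12 with h'' | h''
  · exact ⟨0, 1, 2, h, h''⟩
  · exact ⟨0, 2, 1, h', h''⟩
  · linarith
  · exact ⟨2, 0, 1, h', h⟩
  · exact ⟨1, 0, 2, h, h'⟩
  · linarith
  · exact ⟨1, 2, 0, h'', h'⟩
  · exact ⟨2, 1, 0, h'', h⟩

omit [ConnectedSpace M] in
/-- a half-disc around a boundary point inside an open set, on which `f` is injective -/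
theorem Tight.exists_halfDisc_inj (hf : Tight f) {p : M} (hp : p ∈ bdy M) {U : Set M}
    (hU : U ∈ 𝓝 p) : ∃ Δ : ℂ → M, IsHalfDisc Δ ∧ Δ 0 = p ∧ Δ '' HD ⊆ U ∧ InjOn (f ∘ Δ) HD := by
  obtain ⟨V, hV, hinj⟩ := hf.locInj p
  obtain ⟨Δ, h1, h2, h3⟩ := exists_halfDisc hp (Filter.inter_mem hU hV)
  refine ⟨Δ, h1, h2, h3.trans inter_subset_left, ?_⟩
  intro z hz w hw he
  exact h1.inj hz hw (hinj (h3 ⟨z, hz, rfl⟩).2 (h3 ⟨w, hw, rfl⟩).2 he)

theorem zero_mem_HDo : (0 : ℂ) ∈ HDo := by simp [HDo]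

theorem Tight.not_finite_bad (hf : Tight f) (hdim : 3 ≤ Module.finrank ℝ E)
    (hinf : ((convexHull ℝ (range f)).exposedPoints ℝ).Infinite)
    (hfin : {s : Set E | ∃ e : Edge f, e.Bad ∧ e.seg = s}.Finite) : False := by
  set K := convexHull ℝ (range f) with hK
  set B := {s : Set E | ∃ e : Edge f, e.Bad ∧ e.seg = s} with hB
  have hKc : Convex ℝ K := convex_convexHull ℝ _
  have hKcomp : IsCompact K := hf.isCompact_hull
  have hmemK : ∀ m, f m ∈ K := fun m => subset_convexHull ℝ _ ⟨m, rfl⟩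
  -- an exposed point in no bad edge
  have hfinB : (⋃ s ∈ B, s ∩ K.exposedPoints ℝ).Finite := by
    apply hfin.biUnion
    rintro s ⟨e, _, rfl⟩
    apply Set.Finite.subset (s := {f e.p, f e.q}) (by simp)
    rintro y ⟨hy, hyK⟩
    have := eq_or_eq_of_mem_segment (K := K) (hmemK _) (hmemK _)
      (exposedPoints_subset_extremePoints hyK) hy
    simpa using this
  obtain ⟨x₀, hx₀, hx₀B⟩ := (hinf.diff hfinB).nonempty
  have hx₀B' : ∀ s ∈ B, x₀ ∉ s := by
    intro s hs hx
    exact hx₀B (mem_biUnion hs ⟨hx, hx₀⟩)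
  obtain ⟨x₁, hx₁, hne⟩ := (hinf.diff (Set.finite_singleton x₀)).nonempty
  have hne' : x₁ ≠ x₀ := by simpa using hne
  obtain ⟨p₀, hp₀, hp₀f⟩ := hf.exposed x₀ hx₀
  obtain ⟨p₁, hp₁, hp₁f⟩ := hf.exposed x₁ hx₁
  have hfp₀ : f p₀ = x₀ := by
    have : p₀ ∈ f ⁻¹' {x₀} := by rw [hp₀f]; rfl
    exact this
  have hfp₁ : f p₁ = x₁ := by
    have : p₁ ∈ f ⁻¹' {x₁} := by rw [hp₁f]; rfl
    exact this
  have hpne : p₀ ≠ p₁ := by
    rintro rfl
    exact hne' (hfp₁.symm.trans hfp₀)
  obtain ⟨hx₀K, l, hl⟩ := hx₀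
  have hx₁K : x₁ ∈ K := hx₁.1
  -- the half-disc
  obtain ⟨Δ, hΔ, hΔ0, hΔU, hΔinj⟩ := hf.exists_halfDisc_inj hp₀
    (isOpen_compl_singleton.mem_nhds hpne : ({p₁}ᶜ : Set M) ∈ 𝓝 p₀)
  have hp₁Δ : p₁ ∉ Δ '' HD := fun h => hΔU h rfl
  have hle : ∀ m, l (f m) ≤ l x₀ := fun m => (hl _ (hmemK m)).1
  have hsub : {m | l (f m) = l x₀} ⊆ Δ '' HDo := by
    intro m hm
    have h1 : f m = x₀ := (hl _ (hmemK m)).2 hm.ge
    have h2 : m ∈ f ⁻¹' {x₀} := h1
    rw [hp₀f, mem_singleton_iff] at h2
    exact ⟨0, zero_mem_HDo, by rw [h2, hΔ0]⟩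
  obtain ⟨s₁, hs₁, hs₁U⟩ := hf.halfspace_subset hle hΔ.isOpen hsub
  -- distance to the bad edges
  obtain ⟨s₂, hs₂, hs₂B⟩ : ∃ s₂ > 0, ∀ s ∈ B, ∀ y ∈ s, l y < l x₀ - s₂ := by
    have hZ : IsCompact (⋃ s ∈ B, s) := by
      apply hfin.isCompact_biUnion
      rintro s ⟨e, _, rfl⟩
      rw [Edge.seg, ← convexHull_pair]
      exact (Set.toFinite _).isCompact_convexHull ℝ
    by_cases hZne : (⋃ s ∈ B, s).Nonempty
    · obtain ⟨y₀, hy₀, hmax⟩ := hZ.exists_isMaxOn hZne l.continuous.continuousOn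
      rw [mem_iUnion₂] at hy₀
      obtain ⟨s, hsB, hys⟩ := hy₀
      have hy₀K : y₀ ∈ K := by
        obtain ⟨e, _, rfl⟩ := hsB
        exact hKc.segment_subset (hmemK _) (hmemK _) hys
      have hlt : l y₀ < l x₀ := by
        refine lt_of_le_of_ne (hl _ hy₀K).1 (fun he => ?_)
        have := (hl _ hy₀K).2 he.ge
        exact hx₀B' s hsB (this ▸ hys)
      refine ⟨(l x₀ - l y₀) / 2, by linarith, fun s' hs' y hy => ?_⟩
      have : l y ≤ l y₀ := hmax (mem_biUnion hs' hy)
      linarith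
    · refine ⟨1, one_pos, fun s hs y hy => ?_⟩
      exact absurd ⟨y, mem_biUnion hs hy⟩ hZne
  have hlx₁ : l x₁ < l x₀ :=
    lt_of_le_of_ne (hl _ hx₁K).1 (fun he => hne' ((hl _ hx₁K).2 he.ge))
  -- the level
  obtain ⟨τ₀, hτ₀, hτ1, hτ2, hτ3⟩ : ∃ τ₀ : ℝ, 0 < τ₀ ∧ 2 * τ₀ ≤ s₁ ∧ τ₀ ≤ s₂ ∧
      τ₀ < l x₀ - l x₁ := by
    refine ⟨min (min (s₁ / 2) s₂) ((l x₀ - l x₁) / 2), ?_, ?_, ?_, ?_⟩
    · exact lt_min (lt_min (by linarith) hs₂) (by linarith)
    · have : min (min (s₁ / 2) s₂) ((l x₀ - l x₁) / 2) ≤ s₁ / 2 :=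
        (min_le_left _ _).trans (min_le_left _ _)
      linarith
    · exact (min_le_left _ _).trans (min_le_right _ _)
    · have : min (min (s₁ / 2) s₂) ((l x₀ - l x₁) / 2) ≤ (l x₀ - l x₁) / 2 := min_le_right _ _
      linarith
  set t := l x₀ - τ₀ with ht
  have hlo : ∃ y ∈ K, l y < t := ⟨x₁, hx₁K, by linarith⟩
  have hhi : ∃ y ∈ K, t < l y := ⟨x₀, hx₀K, by linarith⟩
  obtain ⟨z, hzinj, hz⟩ := section_three hKcomp hKc hf.affineSpan_hull hdim hlo hhi
  have hreal : ∀ i, ∃ x : ℝ, |x| < 1 ∧ f (Δ x) = z i := by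
    intro i
    have hzi := (hz i).1
    have hzK : z i ∈ K := hzi.1
    have hlz : l (z i) = t := hzi.2
    obtain ⟨m, hm, hmz⟩ : ∃ m ∈ bdy M, f m = z i := by
      rcases section_exposed hKcomp hKc hlo hhi (hz i) with h | ⟨v, w, hvw, hzs⟩
      · exact hf.extreme_bdy h
      · obtain ⟨e, rfl, rfl⟩ := hf.exists_edge hvw
        obtain ⟨m, hm⟩ := hf.edge_surj e (y := z i) hzs
        refine ⟨m, ?_, hm⟩
        by_contra hmb
        have hbad : e.Bad := ⟨m, (e.top_iff m).2 (by rw [hm]; exact hzs), hmb⟩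
        have := hs₂B e.seg ⟨e, hbad, rfl⟩ (z i) hzs
        rw [hlz] at this
        linarith
    have hmΔ : m ∈ Δ '' HDo := by
      apply hs₁U
      show l x₀ - s₁ ≤ l (f m)
      rw [hmz, hlz]
      linarith
    obtain ⟨x, hx, rfl⟩ := hΔ.real_of_bdy hm hmΔ
    exact ⟨x, hx, hmz⟩
  choose τ hτabs hτz using hreal
  have hτinj : Function.Injective τ := by
    intro i j hij
    apply hzinj
    rw [← hτz i, ← hτz j, hij]
  obtain ⟨i, j, k, hij, hjk⟩ := exists_order hτinj
  obtain ⟨⟨hzjK, hzjt⟩, l₂, hl₂⟩ := hz j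
  have hlti : l₂ (z i) < l₂ (z j) := by
    have hi : z i ∈ {y ∈ K | l y = t} := (hz i).1
    refine lt_of_le_of_ne (hl₂ _ hi).1 (fun he => ?_)
    have := hzinj ((hl₂ _ hi).2 he.ge)
    rw [this] at hij
    exact lt_irrefl _ hij
  have hltk : l₂ (z k) < l₂ (z j) := by
    have hk : z k ∈ {y ∈ K | l y = t} := (hz k).1
    refine lt_of_le_of_ne (hl₂ _ hk).1 (fun he => ?_)
    have := hzinj ((hl₂ _ hk).2 he.ge)
    rw [this] at hjk
    exact lt_irrefl _ hjk
  have hzi : l (z i) = t := (hz i).1.2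
  have hzk : l (z k) = t := (hz k).1.2
  obtain ⟨m₀, hm1, hm2, hm3⟩ : ∃ m₀, l₂ (z i) < m₀ ∧ l₂ (z k) < m₀ ∧ m₀ < l₂ (z j) := by
    refine ⟨(max (l₂ (z i)) (l₂ (z k)) + l₂ (z j)) / 2, ?_, ?_, ?_⟩
    · have := le_max_left (l₂ (z i)) (l₂ (z k)); linarith
    · have := le_max_right (l₂ (z i)) (l₂ (z k)); linarith
    · have := max_lt hlti hltk; linarith
  obtain ⟨C, hC⟩ : ∃ C : ℝ, ∀ y ∈ K, |l₂ y| ≤ C := by
    obtain ⟨C, hC⟩ := (hKcomp.image l₂.continuous).isBounded.exists_norm_le
    exact ⟨C, fun y hy => by simpa using hC _ ⟨y, hy, rfl⟩⟩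
  have hC0 : 0 ≤ C := (abs_nonneg _).trans (hC _ hx₀K)
  -- the tilt
  obtain ⟨ε, hε, hε1, hε2⟩ : ∃ ε : ℝ, 0 < ε ∧ ε * (|m₀| + C) ≤ τ₀ ∧
      ε * (2 * C) ≤ t - l x₁ := by
    have ht1 : 0 < t - l x₁ := by linarith
    have hd1 : 0 < |m₀| + C + 1 := by positivity
    have hd2 : 0 < 2 * C + 1 := by positivity
    refine ⟨min (τ₀ / (|m₀| + C + 1)) ((t - l x₁) / (2 * C + 1)), by positivity, ?_, ?_⟩
    · calc min (τ₀ / (|m₀| + C + 1)) ((t - l x₁) / (2 * C + 1)) * (|m₀| + C)
          ≤ (τ₀ / (|m₀| + C + 1)) * (|m₀| + C + 1) := by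
            apply mul_le_mul (min_le_left _ _) (by linarith) (by positivity) (by positivity)
        _ = τ₀ := by field_simp
    · calc min (τ₀ / (|m₀| + C + 1)) ((t - l x₁) / (2 * C + 1)) * (2 * C)
          ≤ ((t - l x₁) / (2 * C + 1)) * (2 * C + 1) := by
            apply mul_le_mul (min_le_right _ _) (by linarith) (by positivity) (by positivity)
        _ = t - l x₁ := by field_simp
  let lε : E →L[ℝ] ℝ := l - ε • l₂
  have hlε : ∀ y, lε y = l y - ε * l₂ y := fun y => by simp [lε]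
  have hγΔ : {m | t - ε * m₀ ≤ lε (f m)} ⊆ Δ '' HDo := by
    intro m hm
    apply hs₁U
    have h1 : t - ε * m₀ ≤ lε (f m) := hm
    rw [hlε] at h1
    have h2 := abs_le.1 (hC _ (hmemK m))
    have h3 := neg_abs_le m₀
    have h3' := le_abs_self m₀
    show l x₀ - s₁ ≤ l (f m)
    have h4 : ε * (m₀ - l₂ (f m)) ≤ ε * (|m₀| + C) := by
      apply mul_le_mul_of_nonneg_left _ hε.le
      linarith
    nlinarith
  have hi' : t - ε * m₀ < lε (f (Δ (τ i))) := by
    rw [hτz, hlε, hzi]
    nlinarith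
  have hk' : t - ε * m₀ < lε (f (Δ (τ k))) := by
    rw [hτz, hlε, hzk]
    nlinarith
  have hzj' : lε (z j) < t - ε * m₀ := by
    rw [hlε, hzjt]
    nlinarith
  obtain ⟨π, hπ⟩ := hf.joined lε (t - ε * m₀) _ _ hi' hk'
  have hπe : ∀ s : ℝ, π.extend s ∈ {m | t - ε * m₀ ≤ lε (f m)} := fun s => by
    have h1 : t - ε * m₀ < lε (f (π.extend s)) := hπ _
    exact h1.le
  refine local_sep (γ := {m | t - ε * m₀ ≤ lε (f m)}) hΔ
    (isClosed_le continuous_const (lε.continuous.comp hf.cont))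
    (π := π.extend) π.continuous_extend.continuousOn
    (fun s _ => image_mono HDo_subset (hγΔ (hπe s))) (fun s _ => hπe s)
    (hτabs i) (hτabs k) π.extend_zero π.extend_one (x := τ j) (Or.inl ⟨hij, hjk⟩) ?_
    (r' := p₁) hp₁ ?_ hp₁Δ (S := {m | -lε (z j) ≤ (-lε) (f m)})
    (hf.isPreconnected_halfspace _ _) ?_ ?_ ?_
  · intro h
    have h1 : t - ε * m₀ ≤ lε (f (Δ (τ j))) := h
    rw [hτz] at h1
    linarith
  · intro h
    exact hp₁Δ (image_mono HDo_subset (hγΔ h))
  · rw [Set.disjoint_left]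
    intro m hm hm'
    have h1 : -lε (z j) ≤ -(lε (f m)) := hm
    have h2 : t - ε * m₀ ≤ lε (f m) := hm'
    linarith
  · show -lε (z j) ≤ -(lε (f (Δ (τ j))))
    rw [hτz]
  · show -lε (z j) ≤ -(lε (f p₁))
    rw [hfp₁]
    have h1 := abs_le.1 (hC _ hx₁K)
    have h2 := abs_le.1 (hC _ hzjK)
    rw [hlε, hlε, hzjt]
    have h3 : ε * (l₂ (z j) - l₂ x₁) ≤ ε * (2 * C) := by
      apply mul_le_mul_of_nonneg_left _ hε.le
      linarith
    nlinarith

theorem Tight.exists_bad (hf : Tight f) (hdim : 3 ≤ Module.finrank ℝ E)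
    (hinf : ((convexHull ℝ (range f)).exposedPoints ℝ).Infinite) :
    ∃ e : ℕ → Edge f, (∀ n, (e n).Bad) ∧ ∀ m n, m ≠ n → (e m).seg ≠ (e n).seg := by
  have hB : {s : Set E | ∃ e : Edge f, e.Bad ∧ e.seg = s}.Infinite :=
    fun h => hf.not_finite_bad hdim hinf h
  let φ := hB.natEmbedding
  choose e he1 he2 using fun n => (φ n).2
  refine ⟨e, he1, fun m n hmn h => hmn ?_⟩
  rw [he2, he2] at h
  exact φ.injective (Subtype.ext h)

end Tight

end Pool.Agent.Kuiper
end


/-! ### file PartS -/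
section
/-! # The two ends of a sequence of bad edges do not converge to points with the same image -/

set_option autoImplicit false
open Set Topology Metric Filter

namespace Pool.Agent.Kuiper

section Tight
variable {M : Type*} [MetricSpace M] [CompactSpace M] [ConnectedSpace M] [Surf M]
variable {E : Type*} [NormedAddCommGroup E] [InnerProductSpace ℝ E] [FiniteDimensional ℝ E]
variable {f : M → E}

omit [ConnectedSpace M] [Surf M] in
/-- there are at least two boundary points -/
theorem Tight.exists_bdy_ne (hf : Tight f) (hdim : 1 ≤ Module.finrank ℝ E) (p : M) :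
    ∃ r ∈ bdy M, r ≠ p := by
  by_contra hne
  push Not at hne
  have hK := straszewicz hf.isCompact_hull (convex_convexHull ℝ (range f))
  have hsub : (convexHull ℝ (range f)).exposedPoints ℝ ⊆ {f p} := by
    intro q hq
    obtain ⟨r, hr, hrq⟩ := hf.exposed q hq
    have h1 : r ∈ f ⁻¹' {q} := by rw [hrq]; rfl
    have h2 : f r = q := h1
    rw [← h2, hne r hr]
    rfl
  have h1 : convexHull ℝ (range f) ⊆ {f p} := by
    rw [hK]
    apply closure_minimal _ isClosed_singleton
    exact convexHull_min hsub (convex_singleton _)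
  have h2 : (⊤ : AffineSubspace ℝ E) ≤ affineSpan ℝ {f p} := by
    rw [← hf.affineSpan_hull]
    exact affineSpan_mono ℝ h1
  have h3 : Module.finrank ℝ (⊤ : AffineSubspace ℝ E).direction ≤
      Module.finrank ℝ (affineSpan ℝ {f p}).direction :=
    Submodule.finrank_mono (AffineSubspace.direction_le h2)
  rw [AffineSubspace.direction_top, finrank_top, direction_affineSpan, vectorSpan_singleton,
    finrank_bot] at h3
  omega

/-- three points do not span a space of dimension at least three -/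
theorem not_span_three (hdim : 3 ≤ Module.finrank ℝ E) (a b c : E) :
    affineSpan ℝ {a, b, c} ≠ ⊤ := by
  intro h
  have hr : range ![a, b, c] = {a, b, c} := by
    ext x
    simp only [Matrix.range_cons, Matrix.range_empty, mem_union, mem_singleton_iff,
      mem_insert_iff, mem_empty_iff_false, or_false]
  have hcd : Module.finrank ℝ (vectorSpan ℝ ({a, b, c} : Set E)) = Module.finrank ℝ E := by
    rw [← direction_affineSpan, h, AffineSubspace.direction_top, finrank_top]
  have := finrank_vectorSpan_range_le ℝ ![a, b, c] (n := 2) (by simp)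
  rw [hr, hcd] at this
  omega

omit [FiniteDimensional ℝ E] in
/-- a preconnected subset of a segment containing the ends is everything -/
theorem segment_subset_of_isPreconnected {S : Set E} (hS : IsPreconnected S) {a b : E}
    (hsub : S ⊆ segment ℝ a b) (ha : a ∈ S) (hb : b ∈ S) : segment ℝ a b ⊆ S := by
  rcases eq_or_ne a b with rfl | hab
  · rw [segment_same]
    exact singleton_subset_iff.2 ha
  intro y hy
  let g : E → ℝ := fun z => inner ℝ (b - a) z
  have hg : Continuous g := by fun_prop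
  have hpre : IsPreconnected (g '' S) := hS.image _ hg.continuousOn
  have hv : b - a ≠ 0 := sub_ne_zero.2 hab.symm
  have hpos : 0 < inner ℝ (b - a) (b - a) := by
    rw [real_inner_self_eq_norm_sq]
    positivity
  have hpar : ∀ t : ℝ, g (a + t • (b - a)) =
      g a + t * inner ℝ (b - a) (b - a) := by
    intro t
    simp only [g]
    rw [inner_add_right, inner_smul_right]
  rw [segment_eq_image'] at hy
  obtain ⟨t, ⟨ht0, ht1⟩, rfl⟩ := hy
  have hmem : g (a + t • (b - a)) ∈ g '' S := by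
    apply hpre.ordConnected.out (x := g a) (y := g b) ⟨a, ha, rfl⟩ ⟨b, hb, rfl⟩
    have h1 := hpar t
    have h2 := hpar 1
    rw [one_smul, add_sub_cancel] at h2
    constructor
    · rw [h1]; nlinarith
    · rw [h1, h2]; nlinarith
  obtain ⟨z, hz, hgz⟩ := hmem
  have hzs := hsub hz
  rw [segment_eq_image'] at hzs
  obtain ⟨t', _, ht'⟩ := hzs
  simp only at ht' hgz
  rw [← ht', hpar t', hpar t] at hgz
  have : t' = t := by
    have : t' * inner ℝ (b - a) (b - a) = t * inner ℝ (b - a) (b - a) := by linarith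
    exact mul_right_cancel₀ hpos.ne' this
  rw [← this]
  simp only
  rw [ht']
  exact hz

/-- the local core of (S) -/
theorem Tight.no_small_bad (hf : Tight f) (hdim : 3 ≤ Module.finrank ℝ E) (e : Edge f)
    (hbad : e.Bad) {Δ : ℂ → M} (hΔ : IsHalfDisc Δ) (hinj : InjOn (f ∘ Δ) HD)
    (hsub : {m | e.L (f m) = e.top} ⊆ Δ '' HDo) {r' : M} (hr' : r' ∈ bdy M)
    (hr'Δ : r' ∉ Δ '' HD) : False := by
  obtain ⟨a, ha, hpa⟩ := hΔ.real_of_bdy e.hp (hsub e.L_p)
  obtain ⟨b, hb, hqb⟩ := hΔ.real_of_bdy e.hq (hsub e.L_q)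
  have hcont : Continuous (fun s : ℝ => f (Δ s)) :=
    hf.cont.comp (hΔ.cont.comp Complex.continuous_ofReal)
  -- a boundary point between the ends off the segment
  obtain ⟨x, hx, hxs⟩ : ∃ x : ℝ, ((a < x ∧ x < b) ∨ (b < x ∧ x < a)) ∧ f (Δ x) ∉ e.seg := by
    by_contra hne
    push Not at hne
    have hsubseg : (fun s : ℝ => f (Δ s)) '' uIcc a b ⊆ segment ℝ (f e.p) (f e.q) := by
      rintro _ ⟨s, hs, rfl⟩
      rcases eq_or_ne s a with rfl | hsa
      · simp only
        rw [← hpa]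
        exact left_mem_segment ℝ _ _
      rcases eq_or_ne s b with rfl | hsb
      · simp only
        rw [← hqb]
        exact right_mem_segment ℝ _ _
      apply hne s
      rcases le_total a b with hab | hab
      · rw [uIcc_of_le hab] at hs
        exact Or.inl ⟨lt_of_le_of_ne hs.1 hsa.symm, lt_of_le_of_ne hs.2 hsb⟩
      · rw [uIcc_of_ge hab] at hs
        exact Or.inr ⟨lt_of_le_of_ne hs.1 hsb.symm, lt_of_le_of_ne hs.2 hsa⟩
    have hall := segment_subset_of_isPreconnected
      (isPreconnected_uIcc.image _ hcont.continuousOn) hsubseg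
      ⟨a, left_mem_uIcc, by simp only; rw [← hpa]⟩ ⟨b, right_mem_uIcc, by simp only; rw [← hqb]⟩
    obtain ⟨m₀, hm₀, hm₀b⟩ := hbad
    obtain ⟨s, hs, hsm⟩ := hall ((e.top_iff m₀).1 hm₀)
    simp only at hsm
    obtain ⟨w, hw, rfl⟩ := hsub hm₀
    have hsabs : |s| < 1 := by
      rw [abs_lt] at *
      rcases le_total a b with hab | hab
      · rw [uIcc_of_le hab] at hs
        exact ⟨by linarith [hs.1], by linarith [hs.2]⟩
      · rw [uIcc_of_ge hab] at hs
        exact ⟨by linarith [hs.1], by linarith [hs.2]⟩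
    have hsw : (s : ℂ) = w := hinj (real_mem_HD hsabs.le) (HDo_subset hw) hsm
    rw [← hsw] at hm₀b
    exact hm₀b (hΔ.mem_bdy hsabs)
  have hLx : e.L (f (Δ x)) < e.top :=
    lt_of_le_of_ne (e.le_top _) (fun h => hxs ((e.top_iff _).1 h))
  have hsep : Separated (fun _ : Unit => e) (Δ x) r' := by
    intro s hs S hS hxS hr'S hdis
    obtain ⟨s₁, hs₁, hs₁U⟩ := hf.cap_subset e hΔ.isOpen hsub
    set s' := min (min s s₁) ((e.top - e.L (f (Δ x))) / 2) with hs'
    have hs'0 : 0 < s' := lt_min (lt_min hs hs₁) (by linarith)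
    have hs's : s' ≤ s := (min_le_left _ _).trans (min_le_left _ _)
    have hs's₁ : s' ≤ s₁ := (min_le_left _ _).trans (min_le_right _ _)
    have hs'x : s' ≤ (e.top - e.L (f (Δ x))) / 2 := min_le_right _ _
    have hcapΔ : e.cap s' ⊆ Δ '' HDo := hs₁U s' hs's₁
    obtain ⟨π, hπ⟩ := hf.joined_cap e hs'0
    refine local_sep hΔ (hf.isClosed_cap e s') (π := π.extend)
      π.continuous_extend.continuousOn
      (fun t _ => image_mono HDo_subset (hcapΔ (hπ _))) (fun t _ => hπ _)
      ha hb (by rw [π.extend_zero, hpa]) (by rw [π.extend_one, hqb]) hx ?_ hr'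
      (fun h => hr'Δ (image_mono HDo_subset (hcapΔ h))) hr'Δ hS ?_ hxS hr'S
    · intro h
      have : e.top - s' ≤ e.L (f (Δ x)) := h
      linarith
    · exact (hdis ()).mono_right (e.cap_mono hs's)
  have hverts : verts (fun _ : Unit => e) = {f e.p, f e.q} := by
    rw [verts]
    exact iUnion_const _
  have h1 := (hf.span_of_separated hsep (by rw [hverts, convexHull_pair]; exact hxs) (by
    rw [hverts, convexHull_pair]
    intro h
    have : r' ∈ Δ '' HDo := hsub ((e.top_iff r').2 h)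
    exact hr'Δ (image_mono HDo_subset this))).1
  rw [hverts] at h1
  apply not_span_three hdim (f e.p) (f e.q) (f (Δ x))
  rw [← h1]
  congr 1
  ext y
  simp only [mem_union, mem_insert_iff, mem_singleton_iff]
  tauto

theorem Tight.lim_ne (hf : Tight f) (hdim : 3 ≤ Module.finrank ℝ E) {e : ℕ → Edge f}
    (hbad : ∀ n, (e n).Bad) {p q : M}
    (hp : Filter.Tendsto (fun n => (e n).p) Filter.atTop (𝓝 p))
    (hq : Filter.Tendsto (fun n => (e n).q) Filter.atTop (𝓝 q)) : f p ≠ f q := by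
  intro heq
  have hpb : p ∈ bdy M := isClosed_bdy.mem_of_tendsto hp (Eventually.of_forall fun n => (e n).hp)
  obtain ⟨r', hr', hr'p⟩ := hf.exists_bdy_ne (by omega) p
  obtain ⟨Δ, hΔ, hΔ0, hΔU, hΔinj⟩ := hf.exists_halfDisc_inj hpb
    (isOpen_compl_singleton.mem_nhds hr'p.symm : ({r'}ᶜ : Set M) ∈ 𝓝 p)
  have hr'Δ : r' ∉ Δ '' HD := fun h => hΔU h rfl
  have hnhds : Δ '' HDo ∈ 𝓝 p := hΔ.isOpen.mem_nhds ⟨0, zero_mem_HDo, hΔ0⟩
  obtain ⟨V, hV, ε, hε, hshr⟩ := hf.shrink hnhds
  have h1 : ∀ᶠ n in atTop, (e n).p ∈ V := hp.eventually hV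
  have h2 : ∀ᶠ n in atTop, f (e n).p ∈ ball (f p) ε :=
    (hf.cont.continuousAt.tendsto.comp hp).eventually (ball_mem_nhds _ hε)
  have h3 : ∀ᶠ n in atTop, f (e n).q ∈ ball (f p) ε := by
    have := hf.cont.continuousAt.tendsto.comp hq
    rw [heq]
    exact this.eventually (ball_mem_nhds _ hε)
  obtain ⟨n, hn1, hn2, hn3⟩ := (h1.and (h2.and h3)).exists
  refine hf.no_small_bad hdim (e n) (hbad n) hΔ hΔinj ?_ hr' hr'Δ
  apply hshr _ (hf.isPreconnected_edge (e n)) ⟨(e n).p, (e n).L_p, hn1⟩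
  intro m hm
  have hm' : f m ∈ (e n).seg := ((e n).top_iff m).1 hm
  exact (convex_ball (f p) ε).segment_subset hn2 hn3 hm'

end Tight

end Pool.Agent.Kuiper
end
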