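import Pool.Agent.Lib.MP_4139f5_gt.K2

/-! # MP_4139f5_gt, merged module K3: Strip, StripSep, PartC, PartD, Assembly -/


/-! ### file Strip -/
section
/-! # MP_4139f5_gt, pieces L1: strips of edges -/


set_option autoImplicit false
set_option linter.unusedSectionVars false
open Set Topology Metric

namespace Pool.Agent.Kuiper

section Tight
variable {M : Type*} [MetricSpace M] [CompactSpace M] [ConnectedSpace M] [Surf M]
variable {E : Type*} [NormedAddCommGroup E] [InnerProductSpace ℝ E] [FiniteDimensional ℝ E]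
variable {f : M → E}

/-- A strip of edges -/
structure Strip (f : M → E) where
  e : ℕ → Edge f
  N₀ : Set M
  Δp : ℂ → M
  Δq : ℂ → M
  a : ℕ → ℝ
  b : ℕ → ℝ
  hΔp : IsHalfDisc Δp
  hΔq : IsHalfDisc Δq
  disj : Disjoint (Δp '' HD) (Δq '' HD)
  injp : InjOn (f ∘ Δp) HD
  injq : InjOn (f ∘ Δq) HD
  disjf : Disjoint (f '' (Δp '' HD)) (f '' (Δq '' HD))
  ha : ∀ n, |a n| < 1
  hb : ∀ n, |b n| < 1
  hpa : ∀ n, (e n).p = Δp (a n)
  hqb : ∀ n, (e n).q = Δq (b n)
  hNp : Δp '' HD ⊆ N₀
  hNq : Δq '' HD ⊆ N₀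
  hcap : ∀ n, ∃ s > 0, (e n).cap s ⊆ N₀
  log : ∀ F : M → Circle, Continuous F →
        ∃ L : M → ℝ, ContinuousOn L N₀ ∧ ∀ m ∈ N₀, F m = Circle.exp (L m)

def Strip.swap (S : Strip f) : Strip f where
  e := fun n => (S.e n).swap
  N₀ := S.N₀
  Δp := S.Δq
  Δq := S.Δp
  a := S.b
  b := S.a
  hΔp := S.hΔq
  hΔq := S.hΔp
  disj := S.disj.symm
  injp := S.injq
  injq := S.injp
  disjf := S.disjf.symm
  ha := S.hb
  hb := S.ha
  hpa := S.hqb
  hqb := S.hpa
  hNp := S.hNq
  hNq := S.hNp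
  hcap := S.hcap
  log := S.log

/-- every real sequence has a subsequence which is strictly monotone or constant -/
theorem exists_mono_subseq (u : ℕ → ℝ) : ∃ φ : ℕ → ℕ, StrictMono φ ∧
    (StrictMono (u ∘ φ) ∨ StrictAnti (u ∘ φ) ∨ ∀ i j, u (φ i) = u (φ j)) := by
  obtain ⟨g, hg⟩ := exists_increasing_or_nonincreasing_subseq (α := ℝ) (· < ·) u
  rcases hg with hg | hg
  · exact ⟨g, g.strictMono, Or.inl (fun m n hmn => hg m n hmn)⟩
  · obtain ⟨k, hk⟩ := exists_increasing_or_nonincreasing_subseq (α := ℝ) (· > ·) (u ∘ g)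
    rcases hk with hk | hk
    · exact ⟨g ∘ k, g.strictMono.comp k.strictMono, Or.inr (Or.inl (fun m n hmn => hk m n hmn))⟩
    · refine ⟨g ∘ k, g.strictMono.comp k.strictMono, Or.inr (Or.inr ?_)⟩
      have key : ∀ i j, i < j → u (g (k i)) = u (g (k j)) := by
        intro i j hij
        have h1 := hk i j hij
        have h2 := hg (k i) (k j) (k.strictMono hij)
        simp only [Function.comp_apply, gt_iff_lt, not_lt] at h1 h2
        exact le_antisymm h1 h2
      intro i j
      rcases lt_trichotomy i j with h | h | h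
      · exact key i j h
      · rw [h]
      · exact (key j i h).symm

omit [FiniteDimensional ℝ E] in
theorem dist_segment_le {x y x' y' : E} {δ : ℝ} (hx : dist x' x < δ) (hy : dist y' y < δ)
    {z : E} (hz : z ∈ segment ℝ x' y') : infDist z (segment ℝ x y) < δ := by
  obtain ⟨a, b, ha, hb, hab, rfl⟩ := hz
  have hmem : a • x + b • y ∈ segment ℝ x y := ⟨a, b, ha, hb, hab, rfl⟩
  refine lt_of_le_of_lt (infDist_le_dist_of_mem hmem) ?_
  have h1 : (a • x' + b • y') - (a • x + b • y) = a • (x' - x) + b • (y' - y) := by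
    simp only [smul_sub]; abel
  rw [dist_eq_norm, h1]
  rw [dist_eq_norm] at hx hy
  calc ‖a • (x' - x) + b • (y' - y)‖ ≤ ‖a • (x' - x)‖ + ‖b • (y' - y)‖ := norm_add_le _ _
    _ = a * ‖x' - x‖ + b * ‖y' - y‖ := by
        rw [norm_smul, norm_smul, Real.norm_of_nonneg ha, Real.norm_of_nonneg hb]
    _ < δ := by
        have hδ : 0 < δ := lt_of_le_of_lt (norm_nonneg _) hx
        have e1 : a * ‖x' - x‖ ≤ a * δ := by gcongr
        have e2 : b * ‖y' - y‖ ≤ b * δ := by gcongr
        rcases eq_or_lt_of_le ha with h0 | h0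
        · have hb1 : b = 1 := by linarith
          rw [← h0, hb1]; simpa using hy
        · have e3 : a * ‖x' - x‖ < a * δ := by gcongr
          have : a * δ + b * δ = δ := by rw [← add_mul, hab, one_mul]
          linarith

theorem Tight.exists_strip (hf : Tight f) (hdim : 3 ≤ Module.finrank ℝ E)
    (hinf : ((convexHull ℝ (range f)).exposedPoints ℝ).Infinite) :
    ∃ S : Strip f, (StrictMono S.a ∨ StrictAnti S.a ∨ ∀ i j, S.a i = S.a j) ∧
      (StrictMono S.b ∨ StrictAnti S.b ∨ ∀ i j, S.b i = S.b j) ∧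
      ¬ ((∀ i j, S.a i = S.a j) ∧ (∀ i j, S.b i = S.b j)) := by
  obtain ⟨e₀, hbad₀, hseg₀⟩ := hf.exists_bad hdim hinf
  -- a convergent subsequence
  obtain ⟨⟨p, q⟩, φ, hφ, hlim⟩ := CompactSpace.tendsto_subseq (fun n => ((e₀ n).p, (e₀ n).q))
  set e : ℕ → Edge f := fun n => e₀ (φ n) with he
  have hbad : ∀ n, (e n).Bad := fun n => hbad₀ _
  have hseg : ∀ m n, m ≠ n → (e m).seg ≠ (e n).seg := fun m n h =>
    hseg₀ _ _ (fun h' => h (hφ.injective h'))
  have hp : Filter.Tendsto (fun n => (e n).p) Filter.atTop (𝓝 p) :=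
    (continuous_fst.tendsto (p, q)).comp hlim
  have hq : Filter.Tendsto (fun n => (e n).q) Filter.atTop (𝓝 q) :=
    (continuous_snd.tendsto (p, q)).comp hlim
  have hpb : p ∈ bdy M := isClosed_bdy.mem_of_tendsto hp (Filter.Eventually.of_forall
    fun n => (e n).hp)
  have hqb : q ∈ bdy M := isClosed_bdy.mem_of_tendsto hq (Filter.Eventually.of_forall
    fun n => (e n).hq)
  have hpq : f p ≠ f q := hf.lim_ne hdim hbad hp hq
  obtain ⟨δ, hδ, N₀, hN₀, hprop, hlog⟩ := hf.chain hpq (p := p) rfl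
  set d := dist (f p) (f q) with hd
  have hd0 : 0 < d := dist_pos.2 hpq
  -- the two half-discs
  obtain ⟨Up, hUp, hinjp⟩ := hf.locInj p
  obtain ⟨Uq, hUq, hinjq⟩ := hf.locInj q
  have hcf := hf.cont
  have hmin : 0 < min (d / 3) δ := lt_min (by linarith) hδ
  have hnp : {m | dist (f m) (f p) < min (d / 3) δ} ∈ 𝓝 p := by
    apply (isOpen_lt (hcf.dist continuous_const) continuous_const).mem_nhds
    simpa using hmin
  have hnq : {m | dist (f m) (f q) < min (d / 3) δ} ∈ 𝓝 q := by
    apply (isOpen_lt (hcf.dist continuous_const) continuous_const).mem_nhds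
    simpa using hmin
  obtain ⟨Δp, hΔp, hΔp0, hΔpU⟩ := exists_halfDisc hpb
    (Filter.inter_mem hUp (Filter.inter_mem hnp hN₀))
  obtain ⟨Δq, hΔq, hΔq0, hΔqU⟩ := exists_halfDisc hqb (Filter.inter_mem hUq hnq)
  have h0HDo : (0 : ℂ) ∈ HDo := by simp [HDo]
  have hop : ∀ᶠ n in Filter.atTop, (e n).p ∈ Δp '' HDo :=
    hp.eventually (hΔp.isOpen.mem_nhds ⟨0, h0HDo, hΔp0⟩)
  have hoq : ∀ᶠ n in Filter.atTop, (e n).q ∈ Δq '' HDo :=
    hq.eventually (hΔq.isOpen.mem_nhds ⟨0, h0HDo, hΔq0⟩)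
  have hdp : ∀ᶠ n in Filter.atTop, dist (f (e n).p) (f p) < min (d / 3) δ := hp.eventually hnp
  have hdq : ∀ᶠ n in Filter.atTop, dist (f (e n).q) (f q) < min (d / 3) δ := hq.eventually hnq
  have hNp : ∀ᶠ n in Filter.atTop, (e n).p ∈ N₀ := hp.eventually hN₀
  obtain ⟨n₀, hn₀⟩ := (hop.and (hoq.and (hdp.and (hdq.and hNp)))).exists_forall_of_atTop
  -- the preimage of an edge is in `N₀`
  have hEN : ∀ n, n₀ ≤ n → {m | (e n).L (f m) = (e n).top} ⊆ N₀ := by
    intro n hn
    obtain ⟨_, _, g3, g4, g5⟩ := hn₀ n hn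
    apply hprop _ (hf.isPreconnected_edge (e n)) ⟨(e n).p, (e n).L_p, g5⟩
    intro m hm
    exact dist_segment_le (lt_of_lt_of_le g3 (min_le_right _ _))
      (lt_of_lt_of_le g4 (min_le_right _ _)) (((e n).top_iff m).1 hm)
  have hΔqN : Δq '' HD ⊆ N₀ := by
    apply hprop _ (convex_HD.isPreconnected.image _ hΔq.cont.continuousOn)
    · obtain ⟨_, g2, _, _, _⟩ := hn₀ n₀ le_rfl
      refine ⟨(e n₀).q, image_mono HDo_subset g2, hEN n₀ le_rfl (e n₀).L_q⟩
    · intro m hm
      refine lt_of_le_of_lt (infDist_le_dist_of_mem (right_mem_segment ℝ (f p) (f q))) ?_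
      exact lt_of_lt_of_le (hΔqU hm).2 (min_le_right _ _)
  have hΔpN : Δp '' HD ⊆ N₀ := fun m hm => (hΔpU hm).2.2
  have hcap : ∀ n, n₀ ≤ n → ∃ s > 0, (e n).cap s ⊆ N₀ := by
    intro n hn
    obtain ⟨_, _, g3, g4, g5⟩ := hn₀ n hn
    have hUo : IsOpen {m | infDist (f m) (segment ℝ (f p) (f q)) < δ} :=
      isOpen_lt ((continuous_infDist_pt _).comp hcf) continuous_const
    have hEU : {m | (e n).L (f m) = (e n).top} ⊆
        {m | infDist (f m) (segment ℝ (f p) (f q)) < δ} := by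
      intro m hm
      exact dist_segment_le (lt_of_lt_of_le g3 (min_le_right _ _))
        (lt_of_lt_of_le g4 (min_le_right _ _)) (((e n).top_iff m).1 hm)
    obtain ⟨s, hs, hsub⟩ := hf.cap_subset (e n) hUo hEU
    refine ⟨s, hs, hprop _ (hf.isPreconnected_cap (e n) s) ⟨(e n).p, ?_, g5⟩ ?_⟩
    · show (e n).top - s ≤ (e n).L (f (e n).p)
      rw [(e n).L_p]; linarith
    · exact fun m hm => hsub s le_rfl hm
  -- coordinates of the ends
  have hA : ∀ n, ∃ x : ℝ, |x| < 1 ∧ (e (n₀ + n)).p = Δp x := by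
    intro n
    obtain ⟨g1, _⟩ := hn₀ (n₀ + n) (Nat.le_add_right _ _)
    exact hΔp.real_of_bdy (e (n₀ + n)).hp g1
  have hB : ∀ n, ∃ x : ℝ, |x| < 1 ∧ (e (n₀ + n)).q = Δq x := by
    intro n
    obtain ⟨_, g2, _⟩ := hn₀ (n₀ + n) (Nat.le_add_right _ _)
    exact hΔq.real_of_bdy (e (n₀ + n)).hq g2
  choose a ha hpa using hA
  choose b hb hqb' using hB
  obtain ⟨φ1, hφ1, ha1⟩ := exists_mono_subseq a
  obtain ⟨φ2, hφ2, hb2⟩ := exists_mono_subseq (b ∘ φ1)
  have hdist : ∀ m ∈ Δp '' HD, ∀ m' ∈ Δq '' HD, f m ≠ f m' := by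
    intro m hm m' hm' heq
    have g1 : dist (f m) (f p) < d / 3 := lt_of_lt_of_le (hΔpU hm).2.1 (min_le_left _ _)
    have g2 : dist (f m') (f q) < d / 3 := lt_of_lt_of_le (hΔqU hm').2 (min_le_left _ _)
    have g3 : d ≤ dist (f m) (f p) + dist (f m) (f q) := by
      rw [hd, dist_comm (f m) (f p)]; exact dist_triangle _ _ _
    rw [heq] at g3 g1
    linarith
  have hS : ∃ S : Strip f, S.a = a ∘ φ1 ∘ φ2 ∧ S.b = b ∘ φ1 ∘ φ2 ∧
      S.e = fun n => e (n₀ + φ1 (φ2 n)) := by
    refine ⟨{ e := fun n => e (n₀ + φ1 (φ2 n))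
              N₀ := N₀
              Δp := Δp
              Δq := Δq
              a := a ∘ φ1 ∘ φ2
              b := b ∘ φ1 ∘ φ2
              hΔp := hΔp
              hΔq := hΔq
              disj := ?_
              injp := ?_
              injq := ?_
              disjf := ?_
              ha := fun n => ha _
              hb := fun n => hb _
              hpa := fun n => hpa _
              hqb := fun n => hqb' _
              hNp := hΔpN
              hNq := hΔqN
              hcap := fun n => hcap _ (Nat.le_add_right _ _)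
              log := hlog }, rfl, rfl, rfl⟩
    · rw [Set.disjoint_left]
      intro m hm hm'
      exact hdist m hm m hm' rfl
    · intro w hw w' hw' hww
      exact hΔp.inj hw hw' (hinjp (hΔpU ⟨w, hw, rfl⟩).1 (hΔpU ⟨w', hw', rfl⟩).1 hww)
    · intro w hw w' hw' hww
      exact hΔq.inj hw hw' (hinjq (hΔqU ⟨w, hw, rfl⟩).1 (hΔqU ⟨w', hw', rfl⟩).1 hww)
    · rw [Set.disjoint_left]
      rintro _ ⟨m, hm, rfl⟩ ⟨m', hm', heq⟩
      exact hdist m hm m' hm' heq.symm
  obtain ⟨S, hSa, hSb, hSe⟩ := hS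
  refine ⟨S, ?_, ?_, ?_⟩
  · rw [hSa]
    rcases ha1 with h | h | h
    · exact Or.inl (h.comp hφ2)
    · exact Or.inr (Or.inl (h.comp_strictMono hφ2))
    · exact Or.inr (Or.inr (fun i j => h _ _))
  · rw [hSb]
    rcases hb2 with h | h | h
    · exact Or.inl h
    · exact Or.inr (Or.inl h)
    · exact Or.inr (Or.inr h)
  · rintro ⟨h1, h2⟩
    have h3 : (S.e 0).seg = (S.e 1).seg := by
      unfold Edge.seg
      rw [S.hpa 0, S.hpa 1, S.hqb 0, S.hqb 1, h1 0 1, h2 0 1]
    rw [hSe] at h3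
    refine hseg _ _ ?_ h3
    intro h4
    have h5 : φ1 (φ2 0) = φ1 (φ2 1) := Nat.add_left_cancel h4
    have h6 := hφ2.injective (hφ1.injective h5)
    exact absurd h6 (by norm_num)

end Tight

end Pool.Agent.Kuiper
end


/-! ### file StripSep -/
section
/-! # MP_4139f5_gt, piece L2: separation by two edges of a strip -/


set_option autoImplicit false
set_option linter.unusedSectionVars false
open Set Topology Metric

namespace Pool.Agent.Kuiper

section Tight
variable {M : Type*} [MetricSpace M] [CompactSpace M] [ConnectedSpace M] [Surf M]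
variable {E : Type*} [NormedAddCommGroup E] [InnerProductSpace ℝ E] [FiniteDimensional ℝ E]
variable {f : M → E}

theorem real_mem_HD_lt {x : ℝ} (hx : |x| < 1) : (x : ℂ) ∈ HD := by
  refine ⟨?_, by simp⟩
  simpa using hx.le

/-- a point off the edge is missed by thin caps -/
theorem Edge.exists_cap_not_mem (e : Edge f) {r : M} (hr : f r ∉ e.seg) :
    ∃ s > 0, ∀ s' ≤ s, r ∉ e.cap s' := by
  have h1 : e.L (f r) ≠ e.top := fun h => hr ((e.top_iff r).1 h)
  have h2 : e.L (f r) < e.top := lt_of_le_of_ne (e.le_top r) h1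
  refine ⟨(e.top - e.L (f r)) / 2, by linarith, fun s' hs' hm => ?_⟩
  have : e.top - s' ≤ e.L (f r) := hm
  linarith

/-- separation by two edges of a strip; `r` lies between the ends `p_i, p_j`. -/
theorem Strip.separated (hf : Tight f) (S : Strip f) {i j : ℕ} {x : ℝ}
    (hx : (S.a i < x ∧ x < S.a j) ∨ (S.a j < x ∧ x < S.a i)) {r' : M}
    (hr' : (∃ y : ℝ, |y| < 1 ∧ y ∉ uIcc (S.a i) (S.a j) ∧ r' = S.Δp y) ∨
      (∃ y : ℝ, |y| < 1 ∧ y ∉ uIcc (S.b i) (S.b j) ∧ r' = S.Δq y))
    (h1 : f (S.Δp x) ∉ (S.e i).seg) (h2 : f (S.Δp x) ∉ (S.e j).seg)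
    (h3 : f r' ∉ (S.e i).seg) (h4 : f r' ∉ (S.e j).seg) :
    Separated ![S.e i, S.e j] (S.Δp x) r' := by
  intro s hs T hT hrT hr'T hdisj
  have hai := abs_lt.1 (S.ha i)
  have haj := abs_lt.1 (S.ha j)
  have hbi := abs_lt.1 (S.hb i)
  have hbj := abs_lt.1 (S.hb j)
  have hxabs : |x| < 1 := by
    rw [abs_lt]
    rcases hx with h | h <;> constructor <;> linarith [h.1, h.2]
  -- choice of the thickness
  obtain ⟨s1, hs1, H1⟩ := (S.e i).exists_cap_not_mem h1
  obtain ⟨s2, hs2, H2⟩ := (S.e j).exists_cap_not_mem h2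
  obtain ⟨s3, hs3, H3⟩ := (S.e i).exists_cap_not_mem h3
  obtain ⟨s4, hs4, H4⟩ := (S.e j).exists_cap_not_mem h4
  obtain ⟨s5, hs5, H5⟩ := S.hcap i
  obtain ⟨s6, hs6, H6⟩ := S.hcap j
  obtain ⟨s', hs', hle⟩ : ∃ s' > 0, s' ≤ s ∧ s' ≤ s1 ∧ s' ≤ s2 ∧ s' ≤ s3 ∧ s' ≤ s4 ∧ s' ≤ s5 ∧
      s' ≤ s6 := by
    refine ⟨min s (min s1 (min s2 (min s3 (min s4 (min s5 s6))))), ?_, ?_⟩
    · simp only [gt_iff_lt, lt_min_iff]
      exact ⟨hs, hs1, hs2, hs3, hs4, hs5, hs6⟩
    · simp
  obtain ⟨l0, l1, l2, l3, l4, l5, l6⟩ := hle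
  have capmono : ∀ (e : Edge f) {u v : ℝ}, u ≤ v → e.cap u ⊆ e.cap v := by
    intro e u v huv m hm
    have : e.top - u ≤ e.L (f m) := hm
    show e.top - v ≤ e.L (f m)
    linarith
  have hNi : (S.e i).cap s' ⊆ S.N₀ := (capmono _ l5).trans H5
  have hNj : (S.e j).cap s' ⊆ S.N₀ := (capmono _ l6).trans H6
  set γ : Set M := (S.e i).cap s' ∪ (S.e j).cap s' with hγdef
  have hγ : IsClosed γ := (hf.isClosed_cap _ _).union (hf.isClosed_cap _ _)
  have hrγ : S.Δp x ∉ γ := by
    rintro (h | h)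
    · exact H1 _ l1 h
    · exact H2 _ l2 h
  have hr'γ : r' ∉ γ := by
    rintro (h | h)
    · exact H3 _ l3 h
    · exact H4 _ l4 h
  -- the small half-disc
  have hnhds : (fun w : ℂ => S.Δp ((x : ℂ) + w)) ⁻¹' γᶜ ∈ 𝓝 (0 : ℂ) := by
    have hc : Continuous (fun w : ℂ => S.Δp ((x : ℂ) + w)) :=
      S.hΔp.cont.comp (continuous_const.add continuous_id)
    apply hc.continuousAt.preimage_mem_nhds
    apply hγ.isOpen_compl.mem_nhds
    simpa using hrγ
  obtain ⟨ε, hε, hball⟩ := Metric.mem_nhds_iff.1 hnhds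
  have hd1 : 0 < |x - S.a i| := by
    rw [abs_pos]; rcases hx with h | h <;> intro h0 <;> linarith [h.1, h.2]
  have hd2 : 0 < |x - S.a j| := by
    rw [abs_pos]; rcases hx with h | h <;> intro h0 <;> linarith [h.1, h.2]
  obtain ⟨ρ, hρ, hρle⟩ : ∃ ρ > 0, ρ ≤ ε / 2 ∧ ρ ≤ |x - S.a i| ∧ ρ ≤ |x - S.a j| ∧
      ρ ≤ 1 - |x| := by
    refine ⟨min (ε / 2) (min |x - S.a i| (min |x - S.a j| (1 - |x|))), ?_, ?_⟩
    · simp only [gt_iff_lt, lt_min_iff]
      exact ⟨by linarith, hd1, hd2, by linarith⟩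
    · simp
  obtain ⟨r1, r2, r3, r4⟩ := hρle
  set δ : ℂ → M := fun w => S.Δp (x + ρ * w) with hδdef
  have hδ : IsHalfDisc δ := S.hΔp.sub hρ (by linarith)
  have hδHD : ∀ w ∈ HD, (x : ℂ) + ρ * w ∈ HD := by
    intro w hw
    refine ⟨?_, ?_⟩
    · calc ‖(x : ℂ) + ρ * w‖ ≤ ‖(x : ℂ)‖ + ‖(ρ : ℂ) * w‖ := norm_add_le _ _
        _ = |x| + ρ * ‖w‖ := by
            rw [norm_mul, Complex.norm_real, Complex.norm_real, Real.norm_eq_abs,
              Real.norm_eq_abs, abs_of_pos hρ]
        _ ≤ |x| + ρ * 1 := by gcongr; exact hw.1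
        _ ≤ 1 := by linarith
    · simp only [Complex.add_im, Complex.ofReal_im, zero_add,
        Complex.im_ofReal_mul]
      exact mul_nonneg hρ.le hw.2
  have hδp : δ '' HD ⊆ S.Δp '' HD := by
    rintro _ ⟨w, hw, rfl⟩
    exact ⟨_, hδHD w hw, rfl⟩
  have hδγ : Disjoint (δ '' HD) γ := by
    rw [Set.disjoint_left]
    rintro _ ⟨w, hw, rfl⟩ hmem
    have : (ρ : ℂ) * w ∈ ball (0 : ℂ) ε := by
      rw [mem_ball_zero_iff, norm_mul, Complex.norm_real, Real.norm_eq_abs, abs_of_pos hρ]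
      calc ρ * ‖w‖ ≤ ρ * 1 := by gcongr; exact hw.1
        _ < ε := by linarith
    exact hball this hmem
  -- the four paths
  obtain hJi := hf.joined_cap (S.e i) hs'
  obtain hJj := hf.joined_cap (S.e j) hs'
  set πi : ℝ → M := fun t => hJi.somePath.extend t with hπi
  set πj : ℝ → M := fun t => hJj.somePath.extend t with hπj
  have hπi_mem : ∀ t, πi t ∈ (S.e i).cap s' := by
    intro t
    have : πi t ∈ range hJi.somePath := by
      rw [← hJi.somePath.extend_range]; exact ⟨t, rfl⟩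
    obtain ⟨u, hu⟩ := this
    rw [← hu]; exact hJi.somePath_mem u
  have hπj_mem : ∀ t, πj t ∈ (S.e j).cap s' := by
    intro t
    have : πj t ∈ range hJj.somePath := by
      rw [← hJj.somePath.extend_range]; exact ⟨t, rfl⟩
    obtain ⟨u, hu⟩ := this
    rw [← hu]; exact hJj.somePath_mem u
  set βp : ℝ → M := fun t => S.Δp ((S.a i + t * (S.a j - S.a i) : ℝ) : ℂ) with hβp
  set βq : ℝ → M := fun t => S.Δq ((S.b i + t * (S.b j - S.b i) : ℝ) : ℂ) with hβq
  have habs : ∀ {u v t : ℝ}, |u| < 1 → |v| < 1 → t ∈ Icc (0 : ℝ) 1 → |u + t * (v - u)| < 1 := by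
    intro u v t hu hv ht
    rw [abs_lt] at *
    obtain ⟨ht0, ht1⟩ := ht
    constructor
    · nlinarith [mul_nonneg ht0 (sub_nonneg.2 hv.1.le), mul_nonneg (sub_nonneg.2 ht1) (sub_nonneg.2 hu.1.le)]
    · nlinarith [mul_nonneg ht0 (sub_nonneg.2 hv.2.le), mul_nonneg (sub_nonneg.2 ht1) (sub_nonneg.2 hu.2.le)]
  have hβp_cont : Continuous βp := by
    apply S.hΔp.cont.comp
    fun_prop
  have hβq_cont : Continuous βq := by
    apply S.hΔq.cont.comp
    fun_prop
  have hβpHD : ∀ t ∈ Icc (0 : ℝ) 1, βp t ∈ S.Δp '' HD := fun t ht =>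
    ⟨_, real_mem_HD_lt (habs (S.ha i) (S.ha j) ht), rfl⟩
  have hβqHD : ∀ t ∈ Icc (0 : ℝ) 1, βq t ∈ S.Δq '' HD := fun t ht =>
    ⟨_, real_mem_HD_lt (habs (S.hb i) (S.hb j) ht), rfl⟩
  have hdp : ∀ m, m ∈ S.Δp '' HD → m ∈ S.Δq '' HD → False := fun m h h' =>
    Set.disjoint_left.1 S.disj h h'
  -- value of the combination
  have key : ∀ y : ℝ, |y| < 1 → y ∉ uIcc (S.a i) (S.a j) → ∀ t ∈ Icc (0 : ℝ) 1,
      βp t ≠ S.Δp y := by
    intro y hy hyn t ht heq
    have := S.hΔp.inj (real_mem_HD_lt (habs (S.ha i) (S.ha j) ht)) (real_mem_HD_lt hy) heq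
    have h5 : S.a i + t * (S.a j - S.a i) = y := by exact_mod_cast this
    apply hyn
    rw [← h5, mem_uIcc]
    obtain ⟨ht0, ht1⟩ := ht
    rcases le_total (S.a i) (S.a j) with h | h
    · left; constructor <;> nlinarith
    · right; constructor <;> nlinarith
  have key' : ∀ y : ℝ, |y| < 1 → y ∉ uIcc (S.b i) (S.b j) → ∀ t ∈ Icc (0 : ℝ) 1,
      βq t ≠ S.Δq y := by
    intro y hy hyn t ht heq
    have := S.hΔq.inj (real_mem_HD_lt (habs (S.hb i) (S.hb j) ht)) (real_mem_HD_lt hy) heq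
    have h5 : S.b i + t * (S.b j - S.b i) = y := by exact_mod_cast this
    apply hyn
    rw [← h5, mem_uIcc]
    obtain ⟨ht0, ht1⟩ := ht
    rcases le_total (S.b i) (S.b j) with h | h
    · left; constructor <;> nlinarith
    · right; constructor <;> nlinarith
  have hr'bdy : r' ∈ bdy M := by
    rcases hr' with ⟨y, hy, _, rfl⟩ | ⟨y, hy, _, rfl⟩
    · exact S.hΔp.mem_bdy hy
    · exact S.hΔq.mem_bdy hy
  have hr'p : ∀ t ∈ Icc (0 : ℝ) 1, βp t ≠ r' := by
    intro t ht heq
    rcases hr' with ⟨y, hy, hyn, rfl⟩ | ⟨y, hy, hyn, rfl⟩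
    · exact key y hy hyn t ht heq
    · have h7 : βp t ∈ S.Δq '' HD := by rw [heq]; exact ⟨_, real_mem_HD_lt hy, rfl⟩
      exact hdp _ (hβpHD t ht) h7
  have hr'q : ∀ t ∈ Icc (0 : ℝ) 1, βq t ≠ r' := by
    intro t ht heq
    rcases hr' with ⟨y, hy, hyn, rfl⟩ | ⟨y, hy, hyn, rfl⟩
    · have h7 : βq t ∈ S.Δp '' HD := by rw [heq]; exact ⟨_, real_mem_HD_lt hy, rfl⟩
      exact hdp _ h7 (hβqHD t ht)
    · exact key' y hy hyn t ht heq
  have hTγ : Disjoint T γ := by
    rw [hγdef, Set.disjoint_union_right]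
    refine ⟨(hdisj 0).mono_right (capmono _ l0), (hdisj 1).mono_right (capmono _ l0)⟩
  have hδdisjq : ∀ m, m ∈ δ '' HD → m ∉ S.Δq '' HD := fun m hm hm' => hdp m (hδp hm) hm'
  -- apply the separation lemma
  refine sep (ι := Fin 4) hγ ![πi, βq, πj, βp] ?_ ![1, 1, -1, -1] ?_ ?_ hδ hδγ 3 (by simp)
    (u := fun t => (S.a i + t * (S.a j - S.a i) - x) / ρ) (by fun_prop) ?_ ?_ ?_ ?_ hr'bdy hr'γ
    ?_ hT hTγ ?_ hr'T
  · intro k
    fin_cases k
    · exact hJi.somePath.continuous_extend.continuousOn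
    · exact hβq_cont.continuousOn
    · exact hJj.somePath.continuous_extend.continuousOn
    · exact hβp_cont.continuousOn
  · intro k t ht
    fin_cases k
    · exact Or.inl (Or.inl (hπi_mem t))
    · exact Or.inr (S.hΔq.mem_bdy (habs (S.hb i) (S.hb j) ht))
    · exact Or.inl (Or.inr (hπj_mem t))
    · exact Or.inr (S.hΔp.mem_bdy (habs (S.ha i) (S.ha j) ht))
  · intro F hF
    obtain ⟨L, hL, hFL⟩ := S.log F hF
    have e1 : ang (F ∘ πi) = L (πi 1) - L (πi 0) :=
      ang_comp_log hL hFL hJi.somePath.continuous_extend.continuousOn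
        (fun t _ => hNi (hπi_mem t))
    have e2 : ang (F ∘ πj) = L (πj 1) - L (πj 0) :=
      ang_comp_log hL hFL hJj.somePath.continuous_extend.continuousOn
        (fun t _ => hNj (hπj_mem t))
    have e3 : ang (F ∘ βp) = L (βp 1) - L (βp 0) :=
      ang_comp_log hL hFL hβp_cont.continuousOn (fun t ht => S.hNp (hβpHD t ht))
    have e4 : ang (F ∘ βq) = L (βq 1) - L (βq 0) :=
      ang_comp_log hL hFL hβq_cont.continuousOn (fun t ht => S.hNq (hβqHD t ht))
    have v1 : πi 0 = βp 0 := by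
      simp [hπi, hβp, S.hpa]
    have v2 : πi 1 = βq 0 := by
      simp [hπi, hβq, S.hqb]
    have v3 : πj 0 = βp 1 := by
      simp [hπj, hβp, S.hpa]
    have v4 : πj 1 = βq 1 := by
      simp [hπj, hβq, S.hqb]
    rw [Fin.sum_univ_four]
    simp only [Matrix.cons_val_zero, Matrix.cons_val_one, Matrix.cons_val]
    rw [e1, e2, e3, e4, v1, v2, v3, v4]
    ring
  · rcases hx with h | h
    · left
      rw [abs_of_pos (by linarith)] at r2
      rw [abs_of_neg (by linarith)] at r3
      constructor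
      · rw [div_le_iff₀ hρ]; linarith
      · rw [le_div_iff₀ hρ]; linarith
    · right
      rw [abs_of_neg (by linarith)] at r2
      rw [abs_of_pos (by linarith)] at r3
      constructor
      · rw [le_div_iff₀ hρ]; linarith
      · rw [div_le_iff₀ hρ]; linarith
  · intro t ht hut
    show βp t = δ _
    simp only [hβp, hδdef]
    congr 1
    have h8 : S.a i + t * (S.a j - S.a i) =
        x + ρ * ((S.a i + t * (S.a j - S.a i) - x) / ρ) := by
      field_simp
      ring
    exact_mod_cast h8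
  · intro t ht hut
    show βp t ∉ δ '' HD
    rintro ⟨w, hw, hweq⟩
    have h5 := S.hΔp.inj (hδHD w hw) (real_mem_HD_lt (habs (S.ha i) (S.ha j) ht)) hweq
    have h6 : w = (((S.a i + t * (S.a j - S.a i) - x) / ρ : ℝ) : ℂ) := by
      have hρ0 : (ρ : ℂ) ≠ 0 := by exact_mod_cast hρ.ne'
      push_cast
      push_cast at h5
      field_simp
      linear_combination h5
    have h7 := hw.1
    rw [h6, Complex.norm_real, Real.norm_eq_abs] at h7
    linarith
  · intro k hk t ht
    fin_cases k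
    · exact fun h => Set.disjoint_left.1 hδγ h (Or.inl (hπi_mem t))
    · exact fun h => hδdisjq _ h (hβqHD t ht)
    · exact fun h => Set.disjoint_left.1 hδγ h (Or.inr (hπj_mem t))
    · exact absurd rfl hk
  · intro k t ht
    fin_cases k
    · intro h
      apply hr'γ
      rw [← h]
      exact Or.inl (hπi_mem t)
    · exact hr'q t ht
    · intro h
      apply hr'γ
      rw [← h]
      exact Or.inr (hπj_mem t)
    · exact hr'p t ht
  · show δ 0 ∈ T
    simpa [hδdef] using hrT

end Tight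

end Pool.Agent.Kuiper
end


/-! ### file PartC -/
section
/-! # MP_4139f5_gt, piece L3: part (C) -/


set_option autoImplicit false
set_option linter.unusedSectionVars false
open Set Topology Metric

namespace Pool.Agent.Kuiper

section Tight
variable {M : Type*} [MetricSpace M] [CompactSpace M] [ConnectedSpace M] [Surf M]
variable {E : Type*} [NormedAddCommGroup E] [InnerProductSpace ℝ E] [FiniteDimensional ℝ E]
variable {f : M → E}

theorem verts_pair (e e' : Edge f) :
    verts ![e, e'] = {f e.p, f e.q, f e'.p, f e'.q} := by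
  ext z
  simp only [verts, mem_iUnion, Fin.exists_fin_two, Matrix.cons_val_zero, Matrix.cons_val_one,
    mem_insert_iff, mem_singleton_iff]
  tauto

theorem Edge.p_mem (e : Edge f) : f e.p ∈ convexHull ℝ (range f) :=
  subset_convexHull ℝ _ ⟨_, rfl⟩

theorem Edge.q_mem (e : Edge f) : f e.q ∈ convexHull ℝ (range f) :=
  subset_convexHull ℝ _ ⟨_, rfl⟩

/-- an extreme point of the hull, different from the ends of two edges, is not in their hull -/
theorem not_mem_hull_pair (e e' : Edge f) {z : E}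
    (hz : z ∈ (convexHull ℝ (range f)).extremePoints ℝ) (h : z ∉ verts ![e, e']) :
    z ∉ convexHull ℝ (verts ![e, e']) := by
  intro hmem
  apply h
  have hsub : convexHull ℝ (verts ![e, e']) ⊆ convexHull ℝ (range f) := by
    apply convexHull_min _ (convex_convexHull ℝ _)
    rw [verts_pair]
    rintro x (rfl | rfl | rfl | rfl)
    · exact e.p_mem
    · exact e.q_mem
    · exact e'.p_mem
    · exact e'.q_mem
  exact extremePoints_convexHull_subset
    (inter_extremePoints_subset_extremePoints_of_subset hsub ⟨hmem, hz⟩)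

theorem seg_subset_hull_pair_left (e e' : Edge f) :
    e.seg ⊆ convexHull ℝ (verts ![e, e']) := by
  apply (convex_convexHull ℝ _).segment_subset
  · apply subset_convexHull; rw [verts_pair]; simp
  · apply subset_convexHull; rw [verts_pair]; simp

theorem seg_subset_hull_pair_right (e e' : Edge f) :
    e'.seg ⊆ convexHull ℝ (verts ![e, e']) := by
  apply (convex_convexHull ℝ _).segment_subset
  · apply subset_convexHull; rw [verts_pair]; simp
  · apply subset_convexHull; rw [verts_pair]; simp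

theorem Strip.p_ne (S : Strip f) {i k : ℕ} (h : S.a k ≠ S.a i) :
    f (S.e k).p ≠ f (S.e i).p := by
  rw [S.hpa, S.hpa]
  intro heq
  have := S.injp (real_mem_HD_lt (S.ha k)) (real_mem_HD_lt (S.ha i)) heq
  exact h (by exact_mod_cast this)

theorem Strip.q_ne (S : Strip f) {i k : ℕ} (h : S.b k ≠ S.b i) :
    f (S.e k).q ≠ f (S.e i).q := by
  rw [S.hqb, S.hqb]
  intro heq
  have := S.injq (real_mem_HD_lt (S.hb k)) (real_mem_HD_lt (S.hb i)) heq
  exact h (by exact_mod_cast this)

theorem Strip.pq_ne (S : Strip f) (i k : ℕ) : f (S.e k).p ≠ f (S.e i).q := by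
  rw [S.hpa, S.hqb]
  intro heq
  exact Set.disjoint_left.1 S.disjf ⟨_, ⟨_, real_mem_HD_lt (S.ha k), rfl⟩, rfl⟩
    (heq ▸ ⟨_, ⟨_, real_mem_HD_lt (S.hb i), rfl⟩, rfl⟩)

/-- the ends of the edges of a strip -/
def Strip.pt (S : Strip f) (c : Fin 2) (k : ℕ) : M := ![(S.e k).p, (S.e k).q] c

theorem Strip.pt_extreme (S : Strip f) (c : Fin 2) (k : ℕ) :
    f (S.pt c k) ∈ (convexHull ℝ (range f)).extremePoints ℝ := by
  fin_cases c
  · exact (S.e k).extreme_p
  · exact (S.e k).extreme_q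

theorem Strip.pt_not_mem (S : Strip f) (c : Fin 2) {i j k : ℕ} (h1 : S.a k ≠ S.a i)
    (h2 : S.a k ≠ S.a j) (h3 : S.b k ≠ S.b i) (h4 : S.b k ≠ S.b j) :
    f (S.pt c k) ∉ convexHull ℝ (verts ![S.e i, S.e j]) := by
  apply not_mem_hull_pair _ _ (S.pt_extreme c k)
  rw [verts_pair]
  fin_cases c
  · simp only [Strip.pt, Fin.zero_eta, Matrix.cons_val_zero, mem_insert_iff, mem_singleton_iff,
      not_or]
    exact ⟨S.p_ne h1, S.pq_ne _ _, S.p_ne h2, S.pq_ne _ _⟩
  · simp only [Strip.pt, Fin.mk_one, Matrix.cons_val_one, Matrix.cons_val_fin_one,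
      mem_insert_iff, mem_singleton_iff, not_or]
    exact ⟨(S.pq_ne _ _).symm, S.q_ne h3, (S.pq_ne _ _).symm, S.q_ne h4⟩

/-- strictly monotone or antitone -/
def Strict (u : ℕ → ℝ) : Prop := StrictMono u ∨ StrictAnti u

theorem Strict.ne {u : ℕ → ℝ} (hu : Strict u) {i j : ℕ} (h : i ≠ j) : u i ≠ u j := by
  rcases hu with hu | hu
  · exact fun h' => h (hu.injective h')
  · exact fun h' => h (hu.injective h')

theorem Strict.between {u : ℕ → ℝ} (hu : Strict u) {i j k : ℕ}
    (h : (i < k ∧ k < j) ∨ (j < k ∧ k < i)) : (u i < u k ∧ u k < u j) ∨ (u j < u k ∧ u k < u i) := by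
  rcases hu with hu | hu
  · rcases h with h | h
    · exact Or.inl ⟨hu h.1, hu h.2⟩
    · exact Or.inr ⟨hu h.1, hu h.2⟩
  · rcases h with h | h
    · exact Or.inr ⟨hu h.2, hu h.1⟩
    · exact Or.inl ⟨hu h.2, hu h.1⟩

theorem Strict.not_mem {u : ℕ → ℝ} (hu : Strict u) {i j l : ℕ}
    (h : (l < i ∧ l < j) ∨ (i < l ∧ j < l)) : u l ∉ uIcc (u i) (u j) := by
  rw [mem_uIcc]
  rcases hu with hu | hu
  · rcases h with h | h
    · have := hu h.1; have := hu h.2
      rintro (⟨h1, h2⟩ | ⟨h1, h2⟩) <;> linarith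
    · have := hu h.1; have := hu h.2
      rintro (⟨h1, h2⟩ | ⟨h1, h2⟩) <;> linarith
  · rcases h with h | h
    · have := hu h.1; have := hu h.2
      rintro (⟨h1, h2⟩ | ⟨h1, h2⟩) <;> linarith
    · have := hu h.1; have := hu h.2
      rintro (⟨h1, h2⟩ | ⟨h1, h2⟩) <;> linarith

theorem Strip.sepAll (hf : Tight f) (S : Strip f) (hA : Strict S.a) (hB : Strict S.b)
    {i j k l : ℕ} (hk : (i < k ∧ k < j) ∨ (j < k ∧ k < i))
    (hl : (l < i ∧ l < j) ∨ (i < l ∧ j < l)) (c d : Fin 2) :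
    Separated ![S.e i, S.e j] (S.pt c k) (S.pt d l) := by
  have hki : k ≠ i := by omega
  have hkj : k ≠ j := by omega
  have hli : l ≠ i := by omega
  have hlj : l ≠ j := by omega
  have nk : ∀ c, f (S.pt c k) ∉ convexHull ℝ (verts ![S.e i, S.e j]) := fun c =>
    S.pt_not_mem c (hA.ne hki) (hA.ne hkj) (hB.ne hki) (hB.ne hkj)
  have nl : ∀ c, f (S.pt c l) ∉ convexHull ℝ (verts ![S.e i, S.e j]) := fun c =>
    S.pt_not_mem c (hA.ne hli) (hA.ne hlj) (hB.ne hli) (hB.ne hlj)
  have hkl : ∀ c, f (S.pt c k) ∉ (S.e i).seg ∧ f (S.pt c k) ∉ (S.e j).seg := fun c =>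
    ⟨fun h => nk c (seg_subset_hull_pair_left _ _ h),
      fun h => nk c (seg_subset_hull_pair_right _ _ h)⟩
  have hll : ∀ c, f (S.pt c l) ∉ (S.e i).seg ∧ f (S.pt c l) ∉ (S.e j).seg := fun c =>
    ⟨fun h => nl c (seg_subset_hull_pair_left _ _ h),
      fun h => nl c (seg_subset_hull_pair_right _ _ h)⟩
  have hr' : (∃ y : ℝ, |y| < 1 ∧ y ∉ uIcc (S.a i) (S.a j) ∧ S.pt d l = S.Δp y) ∨
      (∃ y : ℝ, |y| < 1 ∧ y ∉ uIcc (S.b i) (S.b j) ∧ S.pt d l = S.Δq y) := by
    fin_cases d
    · exact Or.inl ⟨S.a l, S.ha l, hA.not_mem hl, S.hpa l⟩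
    · exact Or.inr ⟨S.b l, S.hb l, hB.not_mem hl, S.hqb l⟩
  fin_cases c
  · have e1 : S.pt 0 k = S.Δp (S.a k) := S.hpa k
    show Separated ![S.e i, S.e j] (S.pt 0 k) (S.pt d l)
    rw [e1]
    apply Strip.separated hf S (hA.between hk) hr'
    · rw [← e1]; exact (hkl 0).1
    · rw [← e1]; exact (hkl 0).2
    · exact (hll d).1
    · exact (hll d).2
  · have e1 : S.pt 1 k = S.Δq (S.b k) := S.hqb k
    show Separated ![S.e i, S.e j] (S.pt 1 k) (S.pt d l)
    rw [e1]
    have segswap : ∀ n, (S.swap.e n).seg = (S.e n).seg := fun n => segment_symm ℝ _ _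
    have g : S.swap.Δp (S.b k) = S.pt 1 k := e1.symm
    have h := Strip.separated hf S.swap (i := i) (j := j) (x := S.b k) (r' := S.pt d l)
      (hB.between hk) hr'.symm (by rw [segswap, g]; exact (hkl 1).1)
      (by rw [segswap, g]; exact (hkl 1).2) (by rw [segswap]; exact (hll d).1)
      (by rw [segswap]; exact (hll d).2)
    intro s hs T hT h1 h2 h3
    refine h s hs T hT h1 h2 (fun m => ?_)
    fin_cases m
    · exact h3 0
    · exact h3 1

theorem finrank_le_of_span {n : ℕ} {u : Fin (n + 1) → E}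
    (h : affineSpan ℝ (range u) = ⊤) : Module.finrank ℝ E ≤ n := by
  have h1 := finrank_vectorSpan_range_le ℝ u (n := n) (by simp)
  rw [← direction_affineSpan, h, AffineSubspace.direction_top, finrank_top] at h1
  exact h1

theorem indep_of_span {n : ℕ} {u : Fin (n + 1) → E}
    (h : affineSpan ℝ (range u) = ⊤) (hd : Module.finrank ℝ E = n) :
    AffineIndependent ℝ u := by
  rw [affineIndependent_iff_finrank_vectorSpan_eq ℝ u (n := n) (by simp)]
  rw [← direction_affineSpan, h, AffineSubspace.direction_top, finrank_top, hd]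

theorem range5 (z0 z1 z2 z3 z4 : E) :
    range ![z0, z1, z2, z3, z4] = {z0, z1, z2, z3} ∪ {z4} := by
  ext z
  simp only [mem_range, Fin.exists_fin_succ, Matrix.cons_val_zero, Matrix.cons_val_succ,
    mem_union, mem_insert_iff, mem_singleton_iff]
  simp
  tauto

theorem range4 (z0 z1 z2 z3 : E) :
    range ![z0, z1, z2, z3] = {z0, z1, z2} ∪ {z3} := by
  ext z
  simp only [mem_range, Fin.exists_fin_succ, Matrix.cons_val_zero, Matrix.cons_val_succ,
    mem_union, mem_insert_iff, mem_singleton_iff]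
  simp
  tauto

/-- one family of ends strict, the other constant: impossible in dimension four -/
theorem Strip.no_mixed (hf : Tight f) (hdim : 4 ≤ Module.finrank ℝ E) (S : Strip f)
    (hA : Strict S.a) (hB : ∀ i j, S.b i = S.b j) : False := by
  have hqq : f (S.e 2).q = f (S.e 0).q := by rw [S.hqb, S.hqb, hB 2 0]
  have hv : verts ![S.e 0, S.e 2] = {f (S.e 0).p, f (S.e 0).q, f (S.e 2).p} := by
    rw [verts_pair, hqq]
    ext z
    simp only [mem_insert_iff, mem_singleton_iff]
    tauto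
  have hn : ∀ k, k ≠ 0 → k ≠ 2 → f (S.e k).p ∉ convexHull ℝ (verts ![S.e 0, S.e 2]) := by
    intro k h0 h2
    apply not_mem_hull_pair _ _ (S.e k).extreme_p
    rw [hv]
    simp only [mem_insert_iff, mem_singleton_iff, not_or]
    exact ⟨S.p_ne (hA.ne h0), S.pq_ne _ _, S.p_ne (hA.ne h2)⟩
  have n1 := hn 1 (by norm_num) (by norm_num)
  have n3 := hn 3 (by norm_num) (by norm_num)
  have hsep : Separated ![S.e 0, S.e 2] (S.Δp (S.a 1)) (S.e 3).p := by
    have g1 : f (S.Δp (S.a 1)) ∉ convexHull ℝ (verts ![S.e 0, S.e 2]) := by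
      rw [← S.hpa]; exact n1
    apply Strip.separated hf S (hA.between (Or.inl ⟨by norm_num, by norm_num⟩))
    · exact Or.inl ⟨S.a 3, S.ha 3, hA.not_mem (Or.inr ⟨by norm_num, by norm_num⟩), S.hpa 3⟩
    · exact fun h => g1 (seg_subset_hull_pair_left _ _ h)
    · exact fun h => g1 (seg_subset_hull_pair_right _ _ h)
    · exact fun h => n3 (seg_subset_hull_pair_left _ _ h)
    · exact fun h => n3 (seg_subset_hull_pair_right _ _ h)
  have hspan := (hf.span_of_separated hsep (by rw [← S.hpa]; exact n1) n3).1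
  rw [hv, ← range4] at hspan
  have := finrank_le_of_span hspan
  omega

/-- the result of part (C) -/
theorem Tight.exists_quad (hf : Tight f) (hdim : 4 ≤ Module.finrank ℝ E)
    (hinf : ((convexHull ℝ (range f)).exposedPoints ℝ).Infinite) :
    Module.finrank ℝ E = 4 ∧ ∃ Z : Fin 4 → Fin 2 → E,
      (∀ i j k, i ≠ j → k ≠ i → k ≠ j → ∀ c,
        AffineIndependent ℝ ![Z i 0, Z i 1, Z j 0, Z j 1, Z k c]) ∧
      (∀ c d, (segment ℝ (Z 1 c) (Z 3 d) ∩
        convexHull ℝ {Z 0 0, Z 0 1, Z 2 0, Z 2 1}).Nonempty) ∧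
      (∀ c d, (segment ℝ (Z 0 c) (Z 2 d) ∩
        convexHull ℝ {Z 1 0, Z 1 1, Z 3 0, Z 3 1}).Nonempty) := by
  obtain ⟨S, hA, hB, hnc⟩ := hf.exists_strip (by omega) hinf
  -- both families are strict
  have hAB : Strict S.a ∧ Strict S.b := by
    rcases hA with hA | hA | hA
    · rcases hB with hB | hB | hB
      · exact ⟨Or.inl hA, Or.inl hB⟩
      · exact ⟨Or.inl hA, Or.inr hB⟩
      · exact (S.no_mixed hf hdim (Or.inl hA) hB).elim
    · rcases hB with hB | hB | hB
      · exact ⟨Or.inr hA, Or.inl hB⟩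
      · exact ⟨Or.inr hA, Or.inr hB⟩
      · exact (S.no_mixed hf hdim (Or.inr hA) hB).elim
    · rcases hB with hB | hB | hB
      · exact (S.swap.no_mixed hf hdim (Or.inl hB) hA).elim
      · exact (S.swap.no_mixed hf hdim (Or.inr hB) hA).elim
      · exact (hnc ⟨hA, hB⟩).elim
  obtain ⟨hA, hB⟩ := hAB
  have notmem : ∀ {i j k : ℕ} (c : Fin 2), k ≠ i → k ≠ j →
      f (S.pt c k) ∉ convexHull ℝ (verts ![S.e i, S.e j]) := fun c h1 h2 =>
    S.pt_not_mem c (hA.ne h1) (hA.ne h2) (hB.ne h1) (hB.ne h2)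
  -- spanning
  have hspan : ∀ i j k : Fin 4, i ≠ j → k ≠ i → k ≠ j → ∀ c : Fin 2,
      affineSpan ℝ (verts ![S.e (2 * i + 1), S.e (2 * j + 1)] ∪ {f (S.pt c (2 * k + 1))}) = ⊤ := by
    intro i j k hij hki hkj c
    have hij' : (i : ℕ) ≠ j := fun h => hij (Fin.ext h)
    have hki' : (k : ℕ) ≠ i := fun h => hki (Fin.ext h)
    have hkj' : (k : ℕ) ≠ j := fun h => hkj (Fin.ext h)
    by_cases hbet : ((i : ℕ) < k ∧ (k : ℕ) < j) ∨ ((j : ℕ) < k ∧ (k : ℕ) < i)
    · have hs := S.sepAll hf hA hB (i := 2 * i + 1) (j := 2 * j + 1) (k := 2 * k + 1) (l := 0)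
        (by omega) (by omega) c 0
      exact (hf.span_of_separated hs (notmem c (by omega) (by omega))
        (notmem 0 (by omega) (by omega))).1
    · have hs := S.sepAll hf hA hB (i := 2 * i + 1) (j := 2 * j + 1)
        (k := 2 * min (i : ℕ) j + 2) (l := 2 * k + 1)
        (by omega) (by omega) 0 c
      exact (hf.span_of_separated hs (notmem 0 (by omega) (by omega))
        (notmem c (by omega) (by omega))).2
  have hspan' : ∀ i j k : Fin 4, i ≠ j → k ≠ i → k ≠ j → ∀ c : Fin 2,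
      affineSpan ℝ (range ![f (S.pt 0 (2 * i + 1)), f (S.pt 1 (2 * i + 1)),
        f (S.pt 0 (2 * j + 1)), f (S.pt 1 (2 * j + 1)), f (S.pt c (2 * k + 1))]) = ⊤ := by
    intro i j k hij hki hkj c
    rw [range5, ← hspan i j k hij hki hkj c, verts_pair]
    rfl
  have h4 : Module.finrank ℝ E = 4 := by
    have := finrank_le_of_span (hspan' 0 1 2 (by decide) (by decide) (by decide) 0)
    omega
  refine ⟨h4, fun i c => f (S.pt c (2 * i + 1)), ?_, ?_, ?_⟩
  · intro i j k hij hki hkj c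
    exact indep_of_span (hspan' i j k hij hki hkj c) h4
  · intro c d
    have hs := S.sepAll hf hA hB (i := 1) (j := 5) (k := 3) (l := 7)
        (by omega) (by omega) c d
    have := hf.inter_of_separated hs
    rw [verts_pair] at this
    exact this
  · intro c d
    have hs := S.sepAll hf hA hB (i := 3) (j := 7) (k := 5) (l := 1)
        (by omega) (by omega) d c
    have := hf.inter_of_separated hs
    rw [verts_pair, segment_symm] at this
    exact this

end Tight

end Pool.Agent.Kuiper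
end


/-! ### file PartD -/
section
set_option autoImplicit false
open Set Topology Metric

namespace Pool.Agent.Kuiper

section PartD
variable {E : Type*} [NormedAddCommGroup E] [InnerProductSpace ℝ E]

/-- weights on five affinely independent points -/
theorem five_indep {P Q : Fin 2 → E} {r : E}
    (h : AffineIndependent ℝ ![P 0, P 1, Q 0, Q 1, r]) {α β : Fin 2 → ℝ} {γ : ℝ}
    (hs : ∑ k, α k + ∑ k, β k + γ = 0)
    (hv : ∑ k, α k • P k + ∑ k, β k • Q k + γ • r = 0) :
    (∀ k, α k = 0) ∧ (∀ k, β k = 0) ∧ γ = 0 := by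
  rw [affineIndependent_iff] at h
  have := h Finset.univ ![α 0, α 1, β 0, β 1, γ] (by
    simp only [Fin.sum_univ_two] at hs
    simp [Fin.sum_univ_succ]
    linarith) (by
    simp only [Fin.sum_univ_two] at hv
    simp [Fin.sum_univ_succ]
    rw [← hv]
    abel)
  refine ⟨?_, ?_, ?_⟩
  · intro k
    fin_cases k
    · simpa using this 0 (Finset.mem_univ _)
    · simpa using this 1 (Finset.mem_univ _)
  · intro k
    fin_cases k
    · simpa using this 2 (Finset.mem_univ _)
    · simpa using this 3 (Finset.mem_univ _)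
  · simpa using this 4 (Finset.mem_univ _)

/-- the relation between the two pairs of edges -/
def Rel (X A Y B : Fin 2 → E) (c d i j : Fin 2) : Prop :=
  ∃ s t : ℝ, 0 < s ∧ s < 1 ∧ 0 < t ∧ t < 1 ∧
    (1 - s) • A c + s • B d = (1 - t) • X i + t • Y j

/-- elimination of a common target point -/
theorem rel_elim {X A Y B : Fin 2 → E} {c d d' i j j' : Fin 2}
    (h : AffineIndependent ℝ ![B 0, B 1, Y 0, Y 1, A c])
    (h1 : Rel X A Y B c d i j) (h2 : Rel X A Y B c d' i j') (hd : d ≠ d') : False := by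
  obtain ⟨s, t, hs0, hs1, ht0, ht1, e⟩ := h1
  obtain ⟨s', t', hs0', hs1', ht0', ht1', e'⟩ := h2
  have key := five_indep h (α := fun k => (if k = d then (1 - t') * s else 0) -
      (if k = d' then (1 - t) * s' else 0))
    (β := fun k => (if k = j' then (1 - t) * t' else 0) - (if k = j then (1 - t') * t else 0))
    (γ := (1 - t') * (1 - s) - (1 - t) * (1 - s'))
    (by
      simp only [Finset.sum_sub_distrib, Finset.sum_ite_eq', Finset.mem_univ, if_true]
      ring)
    (by
      simp only [sub_smul, ite_smul, zero_smul, Finset.sum_sub_distrib, Finset.sum_ite_eq',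
        Finset.mem_univ, if_true]
      have e1 : s • B d = (1 - t) • X i + t • Y j - (1 - s) • A c := by rw [← e]; abel
      have e2 : s' • B d' = (1 - t') • X i + t' • Y j' - (1 - s') • A c := by rw [← e']; abel
      have e3 : ((1 - t') * s) • B d = (1 - t') • ((1 - t) • X i + t • Y j - (1 - s) • A c) := by
        rw [← e1, smul_smul]
      have e4 : ((1 - t) * s') • B d' =
          (1 - t) • ((1 - t') • X i + t' • Y j' - (1 - s') • A c) := by
        rw [← e2, smul_smul]
      rw [e3, e4]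
      module)
  have := key.1 d
  simp only [if_true, if_neg hd, sub_zero] at this
  have hpos : 0 < (1 - t') * s := mul_pos (by linarith) hs0
  linarith

/-- same target, opposite sources -/
theorem rel_elim' {X A Y B : Fin 2 → E} {c c' d d' i j : Fin 2}
    (h : AffineIndependent ℝ ![A 0, A 1, B 0, B 1, Y j])
    (h1 : Rel X A Y B c d i j) (h2 : Rel X A Y B c' d' i j) (hc : c ≠ c') : False := by
  obtain ⟨s, t, hs0, hs1, ht0, ht1, e⟩ := h1
  obtain ⟨s', t', hs0', hs1', ht0', ht1', e'⟩ := h2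
  have key := five_indep h (α := fun k => (if k = c then (1 - t') * (1 - s) else 0) -
      (if k = c' then (1 - t) * (1 - s') else 0))
    (β := fun k => (if k = d then (1 - t') * s else 0) - (if k = d' then (1 - t) * s' else 0))
    (γ := (1 - t) * t' - (1 - t') * t)
    (by
      simp only [Finset.sum_sub_distrib, Finset.sum_ite_eq', Finset.mem_univ, if_true]
      ring)
    (by
      simp only [sub_smul, ite_smul, zero_smul, Finset.sum_sub_distrib, Finset.sum_ite_eq',
        Finset.mem_univ, if_true]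
      have e3 : ((1 - t') * (1 - s)) • A c + ((1 - t') * s) • B d =
          (1 - t') • ((1 - t) • X i + t • Y j) := by
        rw [← e, smul_add, smul_smul, smul_smul]
      have e4 : ((1 - t) * (1 - s')) • A c' + ((1 - t) * s') • B d' =
          (1 - t) • ((1 - t') • X i + t' • Y j) := by
        rw [← e', smul_add, smul_smul, smul_smul]
      have e5 : ((1 - t') * (1 - s)) • A c - ((1 - t) * (1 - s')) • A c' +
          (((1 - t') * s) • B d - ((1 - t) * s') • B d') =
          (1 - t') • ((1 - t) • X i + t • Y j) - (1 - t) • ((1 - t') • X i + t' • Y j) := by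
        rw [← e3, ← e4]; abel
      rw [e5]
      module)
  have := key.1 c
  simp only [if_true, if_neg hc, sub_zero] at this
  have hpos : 0 < (1 - t') * (1 - s) := mul_pos (by linarith) (by linarith)
  linarith

theorem rel_swap {X A Y B : Fin 2 → E} {c d i j : Fin 2} (h : Rel X A Y B c d i j) :
    Rel X B Y A d c i j := by
  obtain ⟨s, t, hs0, hs1, ht0, ht1, e⟩ := h
  refine ⟨1 - s, t, by linarith, by linarith, ht0, ht1, ?_⟩
  rw [← e]
  module

theorem rel_swap' {X A Y B : Fin 2 → E} {c d i j : Fin 2} (h : Rel X A Y B c d i j) :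
    Rel Y A X B c d j i := by
  obtain ⟨s, t, hs0, hs1, ht0, ht1, e⟩ := h
  refine ⟨s, 1 - t, hs0, hs1, by linarith, by linarith, ?_⟩
  rw [e]
  module

theorem mem_hull4 {p q : Fin 2 → E} {z : E}
    (h : z ∈ convexHull ℝ {p 0, p 1, q 0, q 1}) :
    ∃ α β : Fin 2 → ℝ, (∀ k, 0 ≤ α k) ∧ (∀ k, 0 ≤ β k) ∧ ∑ k, α k + ∑ k, β k = 1 ∧
      z = ∑ k, α k • p k + ∑ k, β k • q k := by
  have hmin : convexHull ℝ {p 0, p 1, q 0, q 1} ⊆ {z | ∃ α β : Fin 2 → ℝ, (∀ k, 0 ≤ α k) ∧
      (∀ k, 0 ≤ β k) ∧ ∑ k, α k + ∑ k, β k = 1 ∧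
      z = ∑ k, α k • p k + ∑ k, β k • q k} := by
    apply convexHull_min
    · intro w hw
      simp only [mem_insert_iff, mem_singleton_iff] at hw
      rcases hw with rfl | rfl | rfl | rfl
      · exact ⟨![1, 0], ![0, 0], fun k => by fin_cases k <;> simp, fun k => by fin_cases k <;> simp,
          by simp, by simp⟩
      · exact ⟨![0, 1], ![0, 0], fun k => by fin_cases k <;> simp, fun k => by fin_cases k <;> simp,
          by simp, by simp⟩
      · exact ⟨![0, 0], ![1, 0], fun k => by fin_cases k <;> simp, fun k => by fin_cases k <;> simp,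
          by simp, by simp⟩
      · exact ⟨![0, 0], ![0, 1], fun k => by fin_cases k <;> simp, fun k => by fin_cases k <;> simp,
          by simp, by simp⟩
    · rintro x ⟨α, β, hα, hβ, hs, rfl⟩ y ⟨α', β', hα', hβ', hs', rfl⟩ a b ha hb hab
      refine ⟨fun k => a * α k + b * α' k, fun k => a * β k + b * β' k,
        fun k => add_nonneg (mul_nonneg ha (hα k)) (mul_nonneg hb (hα' k)),
        fun k => add_nonneg (mul_nonneg ha (hβ k)) (mul_nonneg hb (hβ' k)), ?_, ?_⟩
      · simp only [Fin.sum_univ_two] at hs hs' ⊢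
        have : a * α 0 + b * α' 0 + (a * α 1 + b * α' 1) +
            (a * β 0 + b * β' 0 + (a * β 1 + b * β' 1)) =
            a * (α 0 + α 1 + (β 0 + β 1)) + b * (α' 0 + α' 1 + (β' 0 + β' 1)) := by ring
        rw [this, hs, hs']
        linarith
      · simp only [Fin.sum_univ_two]
        module
  exact hmin h

theorem affine_comb (u : E →ᵃ[ℝ] ℝ) (p q : Fin 2 → E) {α β : Fin 2 → ℝ}
    (h : ∑ k, α k + ∑ k, β k = 1) :
    u (∑ k, α k • p k + ∑ k, β k • q k) = ∑ k, α k * u (p k) + ∑ k, β k * u (q k) := by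
  have hu : ∀ x, u x = u.linear x + u 0 := fun x => by
    have := congrFun (AffineMap.decomp u) x
    simpa using this
  simp only [Fin.sum_univ_two] at h ⊢
  rw [hu, hu (p 0), hu (p 1), hu (q 0), hu (q 1)]
  simp only [map_add, map_smul, smul_eq_mul]
  linear_combination (-(u 0)) * h

theorem affine_seg (u : E →ᵃ[ℝ] ℝ) (x y : E) (t : ℝ) :
    u ((1 - t) • x + t • y) = (1 - t) * u x + t * u y := by
  have hu : ∀ x, u x = u.linear x + u 0 := fun x => by
    have := congrFun (AffineMap.decomp u) x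
    simpa using this
  rw [hu, hu x, hu y]
  simp only [map_add, map_smul, smul_eq_mul]
  ring

theorem exists_rel (hdim : Module.finrank ℝ E = 4) {X A Y B : Fin 2 → E}
    (hX : ∀ i, AffineIndependent ℝ ![A 0, A 1, B 0, B 1, X i])
    (hY : ∀ j, AffineIndependent ℝ ![A 0, A 1, B 0, B 1, Y j])
    (hA : ∀ c, AffineIndependent ℝ ![X 0, X 1, Y 0, Y 1, A c])
    (hB : ∀ d, AffineIndependent ℝ ![X 0, X 1, Y 0, Y 1, B d])
    (h1 : ∀ c d, (segment ℝ (A c) (B d) ∩ convexHull ℝ {X 0, X 1, Y 0, Y 1}).Nonempty)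
    (h2 : ∀ i j, (segment ℝ (X i) (Y j) ∩ convexHull ℝ {A 0, A 1, B 0, B 1}).Nonempty)
    (c d : Fin 2) : ∃ i j, Rel X A Y B c d i j := by
  classical
  have : FiniteDimensional ℝ E := Module.finite_of_finrank_pos (by omega)
  have htop : affineSpan ℝ (range ![A 0, A 1, B 0, B 1, X 0]) = ⊤ := by
    rw [(hX 0).affineSpan_eq_top_iff_card_eq_finrank_add_one]
    simp [hdim]
  let b : AffineBasis (Fin 5) ℝ E := ⟨![A 0, A 1, B 0, B 1, X 0], hX 0, htop⟩
  have hb : ∀ k, b k = (![A 0, A 1, B 0, B 1, X 0] : Fin 5 → E) k := fun k => rfl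
  have hcoord : ∀ k m, b.coord k ((![A 0, A 1, B 0, B 1, X 0] : Fin 5 → E) m) =
      if k = m then 1 else 0 := fun k m => by
    rw [← hb]; exact b.coord_apply k m
  have hA0 : ∀ k, b.coord k (A 0) = if k = 0 then 1 else 0 := fun k => hcoord k 0
  have hA1 : ∀ k, b.coord k (A 1) = if k = 1 then 1 else 0 := fun k => hcoord k 1
  have hB0 : ∀ k, b.coord k (B 0) = if k = 2 then 1 else 0 := fun k => hcoord k 2
  have hB1 : ∀ k, b.coord k (B 1) = if k = 3 then 1 else 0 := fun k => hcoord k 3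
  have hX0 : ∀ k, b.coord k (X 0) = if k = 4 then 1 else 0 := fun k => hcoord k 4
  -- the coordinates of a point of the hull
  have hhull : ∀ α β : Fin 2 → ℝ, ∑ k, α k + ∑ k, β k = 1 →
      b.coord 0 (∑ k, α k • A k + ∑ k, β k • B k) = α 0 ∧
      b.coord 1 (∑ k, α k • A k + ∑ k, β k • B k) = α 1 ∧
      b.coord 2 (∑ k, α k • A k + ∑ k, β k • B k) = β 0 ∧
      b.coord 3 (∑ k, α k • A k + ∑ k, β k • B k) = β 1 ∧
      b.coord 4 (∑ k, α k • A k + ∑ k, β k • B k) = 0 := by
    intro α β h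
    have := fun k => affine_comb (b.coord k) A B h
    refine ⟨?_, ?_, ?_, ?_, ?_⟩ <;> rw [this] <;> simp [Fin.sum_univ_two, hA0, hA1, hB0, hB1]
  -- nonvanishing of the last coordinate
  have hne : ∀ P : E, AffineIndependent ℝ ![A 0, A 1, B 0, B 1, P] → b.coord 4 P ≠ 0 := by
    intro P hP h0
    have hsum := b.sum_coord_apply_eq_one P
    have hcomb := b.linear_combination_coord_eq_self P
    rw [Fin.sum_univ_five] at hsum hcomb
    rw [h0] at hsum hcomb
    simp only [hb, zero_smul, add_zero] at hsum hcomb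
    have := five_indep (P := A) (Q := B) hP (α := ![b.coord 0 P, b.coord 1 P])
      (β := ![b.coord 2 P, b.coord 3 P]) (γ := -1)
      (by simp [Fin.sum_univ_two]; linarith)
      (by
        simp only [Fin.sum_univ_two]
        simp only [Matrix.cons_val_zero, Matrix.cons_val_one]
        have h5 : b.coord 0 P • A 0 + b.coord 1 P • A 1 + b.coord 2 P • B 0 +
            b.coord 3 P • B 1 = P := by
          simpa using hcomb
        rw [neg_one_smul]
        nth_rewrite 5 [← h5]
        abel)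
    have h3 := this.2.2
    norm_num at h3
  -- points of the mixed segments
  have hw : ∀ i j, ∃ t : ℝ, 0 ≤ t ∧ t ≤ 1 ∧ ∃ α β : Fin 2 → ℝ, (∀ k, 0 ≤ α k) ∧ (∀ k, 0 ≤ β k) ∧
      ∑ k, α k + ∑ k, β k = 1 ∧
      (1 - t) • X i + t • Y j = ∑ k, α k • A k + ∑ k, β k • B k := by
    intro i j
    obtain ⟨w, hw1, hw2⟩ := h2 i j
    rw [segment_eq_image] at hw1
    obtain ⟨t, ⟨ht0, ht1⟩, rfl⟩ := hw1
    obtain ⟨α, β, hα, hβ, hs, he⟩ := mem_hull4 hw2
    exact ⟨t, ht0, ht1, α, β, hα, hβ, hs, he⟩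
  choose t ht0 ht1 α β hα hβ hs he using hw
  have h4 : ∀ i j, (1 - t i j) * b.coord 4 (X i) + t i j * b.coord 4 (Y j) = 0 := by
    intro i j
    rw [← affine_seg, he]
    exact (hhull _ _ (hs i j)).2.2.2.2
  have hYneg : ∀ j, b.coord 4 (Y j) < 0 := by
    intro j
    have h := h4 0 j
    rw [hX0, if_pos rfl] at h
    have hn := hne _ (hY j)
    by_contra hcon
    have hpos : 0 < b.coord 4 (Y j) := lt_of_le_of_ne (not_lt.1 hcon) hn.symm
    have h5 := ht0 0 j
    have h6 := ht1 0 j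
    have h7 : 0 ≤ t 0 j * b.coord 4 (Y j) := mul_nonneg h5 hpos.le
    have h8 : t 0 j = 1 := by linarith
    rw [h8] at h
    linarith
  have hXpos : ∀ i, 0 < b.coord 4 (X i) := by
    intro i
    have h := h4 i 0
    have hn := hne _ (hX i)
    have hy := hYneg 0
    by_contra hcon
    have hneg : b.coord 4 (X i) < 0 := lt_of_le_of_ne (not_lt.1 hcon) hn
    have h5 := ht0 i 0
    have h6 := ht1 i 0
    nlinarith [mul_nonneg (sub_nonneg.2 h6) (neg_nonneg.2 hneg.le),
      mul_nonneg h5 (neg_nonneg.2 hy.le)]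
  have ht0' : ∀ i j, 0 < t i j := by
    intro i j
    have h := h4 i j
    rcases (ht0 i j).lt_or_eq with h' | h'
    · exact h'
    · rw [← h'] at h
      have := hXpos i
      linarith
  have ht1' : ∀ i j, t i j < 1 := by
    intro i j
    have h := h4 i j
    rcases (ht1 i j).lt_or_eq with h' | h'
    · exact h'
    · rw [h'] at h
      have := hYneg j
      linarith
  -- the point of the other segment
  obtain ⟨z, hz1, hz2⟩ := h1 c d
  rw [segment_eq_image] at hz1
  obtain ⟨s, ⟨hs0, hs1⟩, rfl⟩ := hz1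
  obtain ⟨μ, ν, hμ, hν, hsum, hz⟩ := mem_hull4 hz2
  simp only at hz
  -- the functional
  obtain ⟨lam, hlam⟩ : ∃ lam : E →ᵃ[ℝ] ℝ, ∀ w, lam w = 
      (if c = 0 then b.coord 1 w else b.coord 0 w) +
      (if d = 0 then b.coord 3 w else b.coord 2 w) := by
    refine ⟨(if c = 0 then b.coord 1 else b.coord 0) + (if d = 0 then b.coord 3 else b.coord 2),
      fun w => ?_⟩
    split_ifs <;> rfl
  have hlz : lam ((1 - s) • A c + s • B d) = 0 := by
    rw [affine_seg, hlam, hlam]
    fin_cases c <;> fin_cases d <;> simp [hA0, hA1, hB0, hB1]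
  have hlw : ∀ i j, 0 ≤ lam ((1 - t i j) • X i + t i j • Y j) := by
    intro i j
    rw [he, hlam]
    obtain ⟨g0, g1, g2, g3, -⟩ := hhull _ _ (hs i j)
    rw [g0, g1, g2, g3]
    have := hα i j; have := hβ i j
    split_ifs <;> exact add_nonneg (hα i j _) (hβ i j _)
  have hex : ∃ i j, lam ((1 - t i j) • X i + t i j • Y j) = 0 := by
    by_contra hcon
    push Not at hcon
    have hpos : ∀ i j, 0 < -b.coord 4 (Y j) * lam (X i) + b.coord 4 (X i) * lam (Y j) := by
      intro i j
      have h5 : 0 < lam ((1 - t i j) • X i + t i j • Y j) :=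
        lt_of_le_of_ne (hlw i j) (hcon i j).symm
      rw [affine_seg] at h5
      have h6 := h4 i j
      have h7 := hXpos i
      have h8 := hYneg j
      have h9 := ht0' i j
      -- (1-t) p = t q
      have h10 : t i j * (-b.coord 4 (Y j) * lam (X i) + b.coord 4 (X i) * lam (Y j)) =
          b.coord 4 (X i) * ((1 - t i j) * lam (X i) + t i j * lam (Y j)) := by
        linear_combination (-(lam (X i))) * h6
      have h11 : 0 < t i j * (-b.coord 4 (Y j) * lam (X i) + b.coord 4 (X i) * lam (Y j)) := by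
        rw [h10]; exact mul_pos h7 h5
      exact (mul_pos_iff_of_pos_left h9).1 h11
    have e1 := hlz
    rw [hz, affine_comb _ _ _ hsum] at e1
    have e2 : b.coord 4 ((1 - s) • A c + s • B d) = 0 := by
      rw [affine_seg]
      fin_cases c <;> fin_cases d <;> simp [hA0, hA1, hB0, hB1]
    rw [hz, affine_comb _ _ _ hsum] at e2
    simp only [Fin.sum_univ_two] at e1 e2 hsum
    have p0 := hXpos 0
    have p1 := hXpos 1
    have q0 := hYneg 0
    have q1 := hYneg 1
    have m0 := hμ 0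
    have m1 := hμ 1
    have n0 := hν 0
    have n1 := hν 1
    -- total
    have tot : μ 0 * ν 0 * (-b.coord 4 (Y 0) * lam (X 0) + b.coord 4 (X 0) * lam (Y 0)) +
        μ 0 * ν 1 * (-b.coord 4 (Y 1) * lam (X 0) + b.coord 4 (X 0) * lam (Y 1)) +
        μ 1 * ν 0 * (-b.coord 4 (Y 0) * lam (X 1) + b.coord 4 (X 1) * lam (Y 0)) +
        μ 1 * ν 1 * (-b.coord 4 (Y 1) * lam (X 1) + b.coord 4 (X 1) * lam (Y 1)) = 0 := by
      have k1 : μ 0 * b.coord 4 (X 0) + μ 1 * b.coord 4 (X 1) =
          -(ν 0 * b.coord 4 (Y 0) + ν 1 * b.coord 4 (Y 1)) := by linarith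
      linear_combination (-(ν 0 * b.coord 4 (Y 0) + ν 1 * b.coord 4 (Y 1))) * e1 +
        (ν 0 * lam (Y 0) + ν 1 * lam (Y 1)) * e2
    have z00 : μ 0 * ν 0 = 0 := by
      by_contra hne0
      have : 0 < μ 0 * ν 0 := lt_of_le_of_ne (mul_nonneg m0 n0) (Ne.symm hne0)
      have a1 := mul_pos this (hpos 0 0)
      have a2 := mul_nonneg (mul_nonneg m0 n1) (hpos 0 1).le
      have a3 := mul_nonneg (mul_nonneg m1 n0) (hpos 1 0).le
      have a4 := mul_nonneg (mul_nonneg m1 n1) (hpos 1 1).le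
      linarith
    have z01 : μ 0 * ν 1 = 0 := by
      by_contra hne0
      have : 0 < μ 0 * ν 1 := lt_of_le_of_ne (mul_nonneg m0 n1) (Ne.symm hne0)
      have a1 := mul_pos this (hpos 0 1)
      have a2 := mul_nonneg (mul_nonneg m0 n0) (hpos 0 0).le
      have a3 := mul_nonneg (mul_nonneg m1 n0) (hpos 1 0).le
      have a4 := mul_nonneg (mul_nonneg m1 n1) (hpos 1 1).le
      linarith
    have z10 : μ 1 * ν 0 = 0 := by
      by_contra hne0
      have : 0 < μ 1 * ν 0 := lt_of_le_of_ne (mul_nonneg m1 n0) (Ne.symm hne0)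
      have a1 := mul_pos this (hpos 1 0)
      have a2 := mul_nonneg (mul_nonneg m0 n1) (hpos 0 1).le
      have a3 := mul_nonneg (mul_nonneg m0 n0) (hpos 0 0).le
      have a4 := mul_nonneg (mul_nonneg m1 n1) (hpos 1 1).le
      linarith
    have z11 : μ 1 * ν 1 = 0 := by
      by_contra hne0
      have : 0 < μ 1 * ν 1 := lt_of_le_of_ne (mul_nonneg m1 n1) (Ne.symm hne0)
      have a1 := mul_pos this (hpos 1 1)
      have a2 := mul_nonneg (mul_nonneg m0 n1) (hpos 0 1).le
      have a3 := mul_nonneg (mul_nonneg m1 n0) (hpos 1 0).le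
      have a4 := mul_nonneg (mul_nonneg m0 n0) (hpos 0 0).le
      linarith
    -- so (μ 0 + μ 1) (ν 0 + ν 1) = 0
    have zz : (μ 0 + μ 1) * (ν 0 + ν 1) = 0 := by
      linear_combination z00 + z01 + z10 + z11
    rcases mul_eq_zero.1 zz with hh | hh
    · have : μ 0 = 0 := by linarith
      have : μ 1 = 0 := by linarith
      have h6 : ν 0 * b.coord 4 (Y 0) + ν 1 * b.coord 4 (Y 1) = 0 := by
        rw [‹μ 0 = 0›, ‹μ 1 = 0›] at e2; linarith
      have h7 : ν 0 * b.coord 4 (Y 0) ≤ 0 := mul_nonpos_of_nonneg_of_nonpos n0 q0.le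
      have h8 : ν 1 * b.coord 4 (Y 1) ≤ 0 := mul_nonpos_of_nonneg_of_nonpos n1 q1.le
      have h9 : ν 0 * b.coord 4 (Y 0) = 0 := by linarith
      have h10 : ν 1 * b.coord 4 (Y 1) = 0 := by linarith
      have h11 : ν 0 = 0 := by
        rcases mul_eq_zero.1 h9 with h | h
        · exact h
        · linarith
      have h12 : ν 1 = 0 := by
        rcases mul_eq_zero.1 h10 with h | h
        · exact h
        · linarith
      linarith
    · have : ν 0 = 0 := by linarith
      have : ν 1 = 0 := by linarith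
      have h6 : μ 0 * b.coord 4 (X 0) + μ 1 * b.coord 4 (X 1) = 0 := by
        rw [‹ν 0 = 0›, ‹ν 1 = 0›] at e2; linarith
      have h7 : 0 ≤ μ 0 * b.coord 4 (X 0) := mul_nonneg m0 p0.le
      have h8 : 0 ≤ μ 1 * b.coord 4 (X 1) := mul_nonneg m1 p1.le
      have h9 : μ 0 * b.coord 4 (X 0) = 0 := by linarith
      have h10 : μ 1 * b.coord 4 (X 1) = 0 := by linarith
      have h11 : μ 0 = 0 := by
        rcases mul_eq_zero.1 h9 with h | h
        · exact h
        · linarith
      have h12 : μ 1 = 0 := by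
        rcases mul_eq_zero.1 h10 with h | h
        · exact h
        · linarith
      linarith
  obtain ⟨i, j, hij⟩ := hex
  refine ⟨i, j, ?_⟩
  rw [he, hlam] at hij
  obtain ⟨g0, g1, g2, g3, -⟩ := hhull _ _ (hs i j)
  rw [g0, g1, g2, g3] at hij
  have hsum2 := hs i j
  have he2 := he i j
  have hα' := hα i j
  have hβ' := hβ i j
  -- only `A c` and `B d` remain
  have key : α i j c + β i j d = 1 ∧
      (1 - t i j) • X i + t i j • Y j = α i j c • A c + β i j d • B d := by
    simp only [Fin.sum_univ_two] at hsum2 he2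
    rw [he2]
    have a0 := hα' 0
    have a1 := hα' 1
    have b0 := hβ' 0
    have b1 := hβ' 1
    fin_cases c <;> fin_cases d
    · simp at hij ⊢
      have x1 : α i j 1 = 0 := by linarith
      have x2 : β i j 1 = 0 := by linarith
      rw [x1, x2]; refine ⟨by linarith, by module⟩
    · simp at hij ⊢
      have x1 : α i j 1 = 0 := by linarith
      have x2 : β i j 0 = 0 := by linarith
      rw [x1, x2]; refine ⟨by linarith, by module⟩
    · simp at hij ⊢
      have x1 : α i j 0 = 0 := by linarith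
      have x2 : β i j 1 = 0 := by linarith
      rw [x1, x2]; refine ⟨by linarith, by module⟩
    · simp at hij ⊢
      have x1 : α i j 0 = 0 := by linarith
      have x2 : β i j 0 = 0 := by linarith
      rw [x1, x2]; refine ⟨by linarith, by module⟩
  obtain ⟨k1, k2⟩ := key
  have hβd : 0 < β i j d := by
    rcases (hβ' d).lt_or_eq with h | h
    · exact h
    · exfalso
      rw [← h] at k1 k2
      have k3 : α i j c = 1 := by linarith
      rw [k3] at k2
      have := (five_indep (hA c) (α := fun k => if k = i then (1 - t i j) else 0)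
        (β := fun k => if k = j then t i j else 0) (γ := -1)
        (by simp only [Finset.sum_ite_eq', Finset.mem_univ, if_true]; ring)
        (by
          simp only [ite_smul, zero_smul, Finset.sum_ite_eq', Finset.mem_univ, if_true]
          rw [k2]; module)).2.2
      norm_num at this
  have hαc : 0 < α i j c := by
    rcases (hα' c).lt_or_eq with h | h
    · exact h
    · exfalso
      rw [← h] at k1 k2
      have k3 : β i j d = 1 := by linarith
      rw [k3] at k2
      have := (five_indep (hB d) (α := fun k => if k = i then (1 - t i j) else 0)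
        (β := fun k => if k = j then t i j else 0) (γ := -1)
        (by simp only [Finset.sum_ite_eq', Finset.mem_univ, if_true]; ring)
        (by
          simp only [ite_smul, zero_smul, Finset.sum_ite_eq', Finset.mem_univ, if_true]
          rw [k2]; module)).2.2
      norm_num at this
  refine ⟨β i j d, t i j, hβd, by linarith, ht0' i j, ht1' i j, ?_⟩
  rw [k2]
  have : 1 - β i j d = α i j c := by linarith
  rw [this]

theorem no_quad (hdim : Module.finrank ℝ E = 4) (Z : Fin 4 → Fin 2 → E)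
    (hind : ∀ i j k, i ≠ j → k ≠ i → k ≠ j → ∀ c,
        AffineIndependent ℝ ![Z i 0, Z i 1, Z j 0, Z j 1, Z k c])
    (h1 : ∀ c d, (segment ℝ (Z 1 c) (Z 3 d) ∩
        convexHull ℝ {Z 0 0, Z 0 1, Z 2 0, Z 2 1}).Nonempty)
    (h2 : ∀ c d, (segment ℝ (Z 0 c) (Z 2 d) ∩
        convexHull ℝ {Z 1 0, Z 1 1, Z 3 0, Z 3 1}).Nonempty) : False := by
  have H := exists_rel hdim (X := Z 0) (A := Z 1) (Y := Z 2) (B := Z 3)
    (fun i => hind 1 3 0 (by decide) (by decide) (by decide) i)
    (fun j => hind 1 3 2 (by decide) (by decide) (by decide) j)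
    (fun c => hind 0 2 1 (by decide) (by decide) (by decide) c)
    (fun d => hind 0 2 3 (by decide) (by decide) (by decide) d) h1 h2
  -- sources sharing a point have targets sharing no point
  have S1 : ∀ {c d d' i i' j j'}, Rel (Z 0) (Z 1) (Z 2) (Z 3) c d i j →
      Rel (Z 0) (Z 1) (Z 2) (Z 3) c d' i' j' → d ≠ d' → i ≠ i' ∧ j ≠ j' := by
    intro c d d' i i' j j' r r' hd
    constructor
    · rintro rfl
      exact rel_elim (hind 3 2 1 (by decide) (by decide) (by decide) c) r r' hd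
    · rintro rfl
      exact rel_elim (hind 3 0 1 (by decide) (by decide) (by decide) c) (rel_swap' r)
        (rel_swap' r') hd
  have S2 : ∀ {c c' d i i' j j'}, Rel (Z 0) (Z 1) (Z 2) (Z 3) c d i j →
      Rel (Z 0) (Z 1) (Z 2) (Z 3) c' d i' j' → c ≠ c' → i ≠ i' ∧ j ≠ j' := by
    intro c c' d i i' j j' r r' hc
    constructor
    · rintro rfl
      exact rel_elim (hind 1 2 3 (by decide) (by decide) (by decide) d) (rel_swap r)
        (rel_swap r') hc
    · rintro rfl
      exact rel_elim (hind 1 0 3 (by decide) (by decide) (by decide) d) (rel_swap (rel_swap' r))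
        (rel_swap (rel_swap' r')) hc
  obtain ⟨i, j, r⟩ := H 0 0
  obtain ⟨i1, j1, r1⟩ := H 0 1
  obtain ⟨i2, j2, r2⟩ := H 1 0
  obtain ⟨a1, a2⟩ := S1 r r1 (by decide)
  obtain ⟨a3, a4⟩ := S2 r r2 (by decide)
  have e1 : i1 = i2 := by omega
  have e2 : j1 = j2 := by omega
  subst e1 e2
  exact rel_elim' (hind 1 3 2 (by decide) (by decide) (by decide) j1) r1 r2 (by decide)

end PartD

end Pool.Agent.Kuiper
end


/-! ### file Assembly -/
section
/-! # The hull of a tight map in dimension at least four is a polytope -/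

set_option autoImplicit false
open Set Topology Metric

namespace Pool.Agent.Kuiper

section Tight
variable {M : Type*} [MetricSpace M] [CompactSpace M] [ConnectedSpace M] [Surf M]
variable {E : Type*} [NormedAddCommGroup E] [InnerProductSpace ℝ E] [FiniteDimensional ℝ E]
variable {f : M → E}

theorem Tight.finite (hf : Tight f) (hdim : 4 ≤ Module.finrank ℝ E) :
    ((convexHull ℝ (range f)).exposedPoints ℝ).Finite := by
  by_contra hinf
  obtain ⟨h4, Z, hind, h1, h2⟩ := hf.exists_quad hdim hinf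
  exact no_quad h4 Z hind h1 h2

theorem Tight.polytope (hf : Tight f) (hdim : 4 ≤ Module.finrank ℝ E) :
    ∃ S : Finset E, convexHull ℝ (range f) = convexHull ℝ (↑S : Set E) := by
  have hfin := hf.finite hdim
  refine ⟨hfin.toFinset, ?_⟩
  rw [hfin.coe_toFinset]
  exact eq_convexHull_of_finite hf.isCompact_hull (convex_convexHull ℝ _) hfin

end Tight

end Pool.Agent.Kuiper
end
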