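import Pool.Agent.Lib.MP_4139f5_gt.K1

/-! # MP_4139f5_gt, merged module K4: Charts, Homology0, Homology1, Exposed -/


/-! ### file Charts -/
section
/-!
# Tight surfaces with boundary (MP_4139f5_gt): charts

A Hausdorff space charted on the half-plane is locally an embedded disc or half-disc.
-/

set_option autoImplicit false
open Set Topology Metric

namespace Pool.Agent.Kuiper

section Charts
open scoped Manifold

/-- The model map `ℂ → EuclideanHalfSpace 2`, centred at `x` with scale `ρ`. -/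
noncomputable def hmap (x : EuclideanHalfSpace 2) (ρ : ℝ) (w : ℂ) : EuclideanHalfSpace 2 :=
  ⟨!₂[max 0 (x.1 0 + ρ * w.im), x.1 1 + ρ * w.re], by simp⟩

/-- The inverse of the model map. -/
noncomputable def gmap (x : EuclideanHalfSpace 2) (ρ : ℝ) (y : EuclideanHalfSpace 2) : ℂ :=
  (((y.1 1 - x.1 1) / ρ : ℝ) : ℂ) + (((y.1 0 - x.1 0) / ρ : ℝ) : ℂ) * Complex.I

theorem gmap_re (x : EuclideanHalfSpace 2) (ρ : ℝ) (y : EuclideanHalfSpace 2) :
    (gmap x ρ y).re = (y.1 1 - x.1 1) / ρ := by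
  simp only [gmap, Complex.add_re, Complex.mul_re, Complex.ofReal_re, Complex.ofReal_im,
    Complex.I_re, Complex.I_im]
  ring

theorem gmap_im (x : EuclideanHalfSpace 2) (ρ : ℝ) (y : EuclideanHalfSpace 2) :
    (gmap x ρ y).im = (y.1 0 - x.1 0) / ρ := by
  simp only [gmap, Complex.add_im, Complex.mul_im, Complex.ofReal_re, Complex.ofReal_im,
    Complex.I_re, Complex.I_im]
  ring

theorem hmap_zero' (x : EuclideanHalfSpace 2) (ρ : ℝ) (w : ℂ) :
    (hmap x ρ w).1 0 = max 0 (x.1 0 + ρ * w.im) := rfl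

theorem hmap_one' (x : EuclideanHalfSpace 2) (ρ : ℝ) (w : ℂ) :
    (hmap x ρ w).1 1 = x.1 1 + ρ * w.re := rfl

theorem continuous_hmap (x : EuclideanHalfSpace 2) (ρ : ℝ) : Continuous (hmap x ρ) := by
  unfold hmap
  refine Continuous.subtype_mk ?_ _
  refine (PiLp.continuous_toLp 2 _).comp ?_
  refine continuous_pi fun i => ?_
  fin_cases i
  · exact continuous_const.max (continuous_const.add (continuous_const.mul Complex.continuous_im))
  · exact continuous_const.add (continuous_const.mul Complex.continuous_re)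

theorem continuous_gmap (x : EuclideanHalfSpace 2) (ρ : ℝ) : Continuous (gmap x ρ) := by
  unfold gmap
  have h : ∀ i : Fin 2, Continuous fun y : EuclideanHalfSpace 2 => y.1 i := fun i =>
    (PiLp.continuous_apply 2 _ i).comp continuous_subtype_val
  refine Continuous.add (Complex.continuous_ofReal.comp ?_)
    ((Complex.continuous_ofReal.comp ?_).mul continuous_const)
  · exact ((h 1).sub continuous_const).div_const _
  · exact ((h 0).sub continuous_const).div_const _

theorem gmap_hmap {x : EuclideanHalfSpace 2} {ρ : ℝ} (hρ : 0 < ρ) {w : ℂ}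
    (hw : 0 ≤ x.1 0 + ρ * w.im) : gmap x ρ (hmap x ρ w) = w := by
  apply Complex.ext
  · rw [gmap_re, hmap_one']; field_simp; ring
  · rw [gmap_im, hmap_zero', max_eq_right hw]; field_simp; ring

theorem hmap_gmap {x : EuclideanHalfSpace 2} {ρ : ℝ} (hρ : 0 < ρ) (y : EuclideanHalfSpace 2) :
    hmap x ρ (gmap x ρ y) = y := by
  apply Subtype.ext
  ext i
  have hy : (0 : ℝ) ≤ y.1 0 := y.2
  fin_cases i
  · change (hmap x ρ (gmap x ρ y)).1 0 = y.1 0
    rw [hmap_zero', gmap_im]
    have : x.1 0 + ρ * ((y.1 0 - x.1 0) / ρ) = y.1 0 := by field_simp; ring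
    rw [this, max_eq_right hy]
  · change (hmap x ρ (gmap x ρ y)).1 1 = y.1 1
    rw [hmap_one', gmap_re]
    field_simp; ring

theorem hmap_zero (x : EuclideanHalfSpace 2) (ρ : ℝ) : hmap x ρ 0 = x := by
  apply Subtype.ext
  ext i
  have hx : (0 : ℝ) ≤ x.1 0 := x.2
  fin_cases i
  · change (hmap x ρ 0).1 0 = x.1 0
    rw [hmap_zero']; simpa using hx
  · change (hmap x ρ 0).1 1 = x.1 1
    rw [hmap_one']; simp

theorem dist_hmap_le {x : EuclideanHalfSpace 2} {ρ : ℝ} (hρ : 0 ≤ ρ) (w : ℂ) :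
    dist (hmap x ρ w).1 x.1 ≤ ρ * ‖w‖ := by
  rw [EuclideanSpace.dist_eq, Fin.sum_univ_two, hmap_zero', hmap_one']
  have hx : (0 : ℝ) ≤ x.1 0 := x.2
  have h1 : ‖w‖ ^ 2 = w.re ^ 2 + w.im ^ 2 := by
    rw [← Complex.normSq_eq_norm_sq, Complex.normSq_apply]; ring
  apply Real.sqrt_le_iff.mpr
  refine ⟨by positivity, ?_⟩
  rw [mul_pow, h1, Real.dist_eq, Real.dist_eq, sq_abs, sq_abs]
  have h2 : (max 0 (x.1 0 + ρ * w.im) - x.1 0) ^ 2 ≤ (ρ * w.im) ^ 2 := by
    rcases le_total 0 (x.1 0 + ρ * w.im) with h | h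
    · rw [max_eq_right h]; apply le_of_eq; ring
    · rw [max_eq_left h]
      nlinarith
  nlinarith

/-- Radial retraction onto the closed unit disc. -/
noncomputable def rad (w : ℂ) : ℂ := ((max 1 ‖w‖)⁻¹ : ℝ) * w

theorem continuous_rad : Continuous rad := by
  unfold rad
  refine (Complex.continuous_ofReal.comp ?_).mul continuous_id
  refine Continuous.inv₀ (continuous_const.max continuous_norm) fun w => ?_
  exact ne_of_gt (lt_of_lt_of_le one_pos (le_max_left _ _))

theorem norm_rad_le (w : ℂ) : ‖rad w‖ ≤ 1 := by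
  have h1 : 0 < max 1 ‖w‖ := lt_of_lt_of_le one_pos (le_max_left _ _)
  rw [rad, norm_mul, Complex.norm_real, norm_inv, Real.norm_of_nonneg h1.le, inv_mul_le_iff₀ h1,
    mul_one]
  exact le_max_right _ _

theorem rad_of_le {w : ℂ} (h : ‖w‖ ≤ 1) : rad w = w := by
  rw [rad, max_eq_left h]; simp

theorem rad_im (w : ℂ) : (rad w).im = (max 1 ‖w‖)⁻¹ * w.im := by
  rw [rad, Complex.im_ofReal_mul]

/-- Folding onto the closed upper half-plane by projection. -/
noncomputable def fold (w : ℂ) : ℂ := ((w.re : ℝ) : ℂ) + ((max 0 w.im : ℝ) : ℂ) * Complex.I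

theorem fold_im (w : ℂ) : (fold w).im = max 0 w.im := by
  simp only [fold, Complex.add_im, Complex.mul_im, Complex.ofReal_re, Complex.ofReal_im,
    Complex.I_re, Complex.I_im]
  ring

theorem fold_re (w : ℂ) : (fold w).re = w.re := by
  simp only [fold, Complex.add_re, Complex.mul_re, Complex.ofReal_re, Complex.ofReal_im,
    Complex.I_re, Complex.I_im]
  ring

theorem continuous_fold : Continuous fold := by
  unfold fold
  exact (Complex.continuous_ofReal.comp Complex.continuous_re).add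
    ((Complex.continuous_ofReal.comp (continuous_const.max Complex.continuous_im)).mul
      continuous_const)

theorem fold_of_nonneg {w : ℂ} (h : 0 ≤ w.im) : fold w = w := by
  apply Complex.ext
  · rw [fold_re]
  · rw [fold_im, max_eq_right h]

/-- The retraction onto the half-disc. -/
noncomputable def hrad (w : ℂ) : ℂ := rad (fold w)

theorem continuous_hrad : Continuous hrad := continuous_rad.comp continuous_fold

theorem hrad_mem (w : ℂ) : hrad w ∈ HD := by
  refine ⟨norm_rad_le _, ?_⟩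
  rw [hrad, rad_im, fold_im]
  positivity

theorem hrad_of_mem {w : ℂ} (h : w ∈ HD) : hrad w = w := by
  rw [hrad, fold_of_nonneg h.2, rad_of_le h.1]

variable {M : Type*} [TopologicalSpace M]

/-- The general construction of embedded pieces from a chart. -/
theorem isEmb_of_chart (φ : OpenPartialHomeomorph M (EuclideanHalfSpace 2))
    {x : EuclideanHalfSpace 2} {ρ : ℝ} (hρ : 0 < ρ) {K O : Set ℂ} (hOK : O ⊆ K) {r : ℂ → ℂ}
    (hr : Continuous r) (hrK : ∀ w, r w ∈ K) (hrid : ∀ w ∈ K, r w = w)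
    (hK : ∀ w ∈ K, 0 ≤ x.1 0 + ρ * w.im) (hT : ∀ w ∈ K, hmap x ρ w ∈ φ.target)
    (hO : IsOpen (hmap x ρ '' O)) :
    IsEmb K O (fun w => φ.symm (hmap x ρ (r w))) := by
  refine ⟨?_, ?_, ?_⟩
  · rw [← continuousOn_univ]
    exact φ.continuousOn_symm.comp ((continuous_hmap x ρ).comp hr).continuousOn
      fun w _ => hT _ (hrK w)
  · intro a ha b hb hab
    simp only [hrid a ha, hrid b hb] at hab
    have h1 := φ.symm.injOn (hT a ha) (hT b hb) hab
    rw [← gmap_hmap hρ (hK a ha), ← gmap_hmap hρ (hK b hb), h1]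
  · have h1 : (fun w => φ.symm (hmap x ρ (r w))) '' O = φ.symm '' (hmap x ρ '' O) := by
      rw [image_image]
      exact image_congr fun w hw => by rw [hrid w (hOK hw)]
    rw [h1]
    refine φ.symm.isOpen_image_of_subset_source hO ?_
    rintro _ ⟨w, hw, rfl⟩
    exact hT w (hOK hw)

theorem exists_small (x : EuclideanHalfSpace 2) {V : Set (EuclideanHalfSpace 2)} (hV : V ∈ 𝓝 x) :
    ∃ ε > 0, ∀ ρ : ℝ, 0 ≤ ρ → ρ < ε → ∀ w : ℂ, ‖w‖ ≤ 1 → hmap x ρ w ∈ V := by
  obtain ⟨u, hu, huV⟩ := mem_nhds_subtype _ x V |>.mp hV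
  obtain ⟨ε, hε, hball⟩ := Metric.mem_nhds_iff.mp hu
  refine ⟨ε, hε, fun ρ h0 hρ w hw => huV (hball ?_)⟩
  rw [mem_ball]
  refine lt_of_le_of_lt (dist_hmap_le h0 w) (lt_of_le_of_lt ?_ hρ)
  exact mul_le_of_le_one_right h0 hw

theorem exists_disc_of_chart (φ : OpenPartialHomeomorph M (EuclideanHalfSpace 2))
    {z : M} (hz : z ∈ φ.source) (h0 : 0 < (φ z).1 0) {U : Set M} (hU : U ∈ 𝓝 z) :
    ∃ δ : ℂ → M, IsDisc δ ∧ δ 0 = z ∧ δ '' closedBall (0 : ℂ) 1 ⊆ U := by
  have hV : φ.target ∩ φ.symm ⁻¹' U ∈ 𝓝 (φ z) := by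
    refine Filter.inter_mem (φ.open_target.mem_nhds (φ.map_source hz)) ?_
    have h1 := φ.symm.continuousAt (φ.map_source hz)
    apply h1
    rw [φ.left_inv hz]
    exact hU
  obtain ⟨ε, hε, hsm⟩ := exists_small (φ z) hV
  obtain ⟨ρ, hρ, hρ2⟩ := exists_between (lt_min hε h0)
  have hρε := lt_of_lt_of_le hρ2 (min_le_left _ _)
  have hρx := lt_of_lt_of_le hρ2 (min_le_right _ _)
  have hK : ∀ w ∈ closedBall (0 : ℂ) 1, 0 ≤ (φ z).1 0 + ρ * w.im := by
    intro w hw
    rw [mem_closedBall_zero_iff] at hw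
    have h1 : |w.im| ≤ 1 := (Complex.abs_im_le_norm w).trans hw
    have h2 := (abs_le.mp h1).1
    nlinarith
  have hT : ∀ w ∈ closedBall (0 : ℂ) 1, hmap (φ z) ρ w ∈ φ.target ∩ φ.symm ⁻¹' U :=
    fun w hw => hsm ρ hρ.le hρε w (mem_closedBall_zero_iff.mp hw)
  refine ⟨fun w => φ.symm (hmap (φ z) ρ (rad w)), ?_, ?_, ?_⟩
  · refine isEmb_of_chart φ hρ ball_subset_closedBall continuous_rad
      (fun w => mem_closedBall_zero_iff.mpr (norm_rad_le w))
      (fun w hw => rad_of_le (mem_closedBall_zero_iff.mp hw)) hK (fun w hw => (hT w hw).1) ?_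
    have h1 : hmap (φ z) ρ '' ball (0 : ℂ) 1 = gmap (φ z) ρ ⁻¹' ball (0 : ℂ) 1 := by
      apply Subset.antisymm
      · rintro _ ⟨w, hw, rfl⟩
        rw [mem_preimage, gmap_hmap hρ (hK w (ball_subset_closedBall hw))]
        exact hw
      · intro y hy
        exact ⟨gmap (φ z) ρ y, hy, hmap_gmap hρ y⟩
    rw [h1]
    exact isOpen_ball.preimage (continuous_gmap _ _)
  · simp only
    rw [rad_of_le (by simp), hmap_zero, φ.left_inv hz]
  · rintro _ ⟨w, hw, rfl⟩
    simp only
    rw [rad_of_le (mem_closedBall_zero_iff.mp hw)]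
    exact (hT w hw).2

theorem exists_halfDisc_of_chart (φ : OpenPartialHomeomorph M (EuclideanHalfSpace 2))
    {z : M} (hz : z ∈ φ.source) (h0 : (φ z).1 0 = 0) {U : Set M} (hU : U ∈ 𝓝 z) :
    ∃ δ : ℂ → M, IsHalfDisc δ ∧ δ 0 = z ∧ δ '' HD ⊆ U := by
  have hV : φ.target ∩ φ.symm ⁻¹' U ∈ 𝓝 (φ z) := by
    refine Filter.inter_mem (φ.open_target.mem_nhds (φ.map_source hz)) ?_
    have h1 := φ.symm.continuousAt (φ.map_source hz)
    apply h1
    rw [φ.left_inv hz]
    exact hU
  obtain ⟨ε, hε, hsm⟩ := exists_small (φ z) hV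
  obtain ⟨ρ, hρ, hρε⟩ := exists_between hε
  have hK : ∀ w ∈ HD, 0 ≤ (φ z).1 0 + ρ * w.im := by
    intro w hw
    have h2 := hw.2
    rw [h0]
    positivity
  have hT : ∀ w ∈ HD, hmap (φ z) ρ w ∈ φ.target ∩ φ.symm ⁻¹' U :=
    fun w hw => hsm ρ hρ.le hρε w hw.1
  have hsub : HDo ⊆ HD := fun w hw => ⟨hw.1.le, hw.2⟩
  refine ⟨fun w => φ.symm (hmap (φ z) ρ (hrad w)), ?_, ?_, ?_⟩
  · refine isEmb_of_chart φ hρ hsub continuous_hrad hrad_mem (fun w hw => hrad_of_mem hw) hK
      (fun w hw => (hT w hw).1) ?_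
    have h1 : hmap (φ z) ρ '' HDo = gmap (φ z) ρ ⁻¹' ball (0 : ℂ) 1 := by
      apply Subset.antisymm
      · rintro _ ⟨w, hw, rfl⟩
        rw [mem_preimage, gmap_hmap hρ (hK w (hsub hw)), mem_ball_zero_iff]
        exact hw.1
      · intro y hy
        refine ⟨gmap (φ z) ρ y, ⟨mem_ball_zero_iff.mp hy, ?_⟩, hmap_gmap hρ y⟩
        rw [gmap_im, h0, sub_zero]
        exact div_nonneg y.2 hρ.le
    rw [h1]
    exact isOpen_ball.preimage (continuous_gmap _ _)
  · simp only
    rw [hrad_of_mem ⟨by simp, by simp⟩, hmap_zero, φ.left_inv hz]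
  · rintro _ ⟨w, hw, rfl⟩
    simp only
    rw [hrad_of_mem hw]
    exact (hT w hw).2

theorem surf_of_charted {M : Type*} [TopologicalSpace M] [T2Space M]
    [ChartedSpace (EuclideanHalfSpace 2) M] : Surf M := by
  refine ⟨fun z U hU => ?_⟩
  have hx : (0 : ℝ) ≤ (chartAt (EuclideanHalfSpace 2) z z).1 0 :=
    (chartAt (EuclideanHalfSpace 2) z z).2
  rcases hx.lt_or_eq with h | h
  · exact Or.inl (exists_disc_of_chart _ (mem_chart_source _ z) h hU)
  · exact Or.inr (exists_halfDisc_of_chart _ (mem_chart_source _ z) h.symm hU)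

theorem exists_halfDisc_of_boundary {M : Type*} [TopologicalSpace M] [T2Space M]
    [ChartedSpace (EuclideanHalfSpace 2) M] (h : ((𝓡∂ 2).boundary M).Nonempty) :
    ∃ δ : ℂ → M, IsHalfDisc δ := by
  obtain ⟨z, hz⟩ := h
  have h1 : extChartAt (𝓡∂ 2) z z ∈ frontier (range (𝓡∂ 2)) := hz
  rw [frontier_range_modelWithCornersEuclideanHalfSpace] at h1
  have h2 : (chartAt (EuclideanHalfSpace 2) z z).1 0 = 0 := h1.symm
  obtain ⟨δ, hδ, -, -⟩ := exists_halfDisc_of_chart _ (mem_chart_source _ z) h2 Filter.univ_mem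
  exact ⟨δ, hδ⟩

theorem pathConnected_of_charted {M : Type*} [TopologicalSpace M] [ConnectedSpace M]
    [ChartedSpace (EuclideanHalfSpace 2) M] : PathConnectedSpace M := by
  have := ChartedSpace.locallyPathConnectedSpace (EuclideanHalfSpace 2) M
  exact pathConnectedSpace_iff_connectedSpace.mpr inferInstance

theorem metrizable_of_charted {M : Type*} [TopologicalSpace M] [T2Space M] [CompactSpace M]
    [ChartedSpace (EuclideanHalfSpace 2) M] : TopologicalSpace.MetrizableSpace M :=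
  Manifold.metrizableSpace (𝓡∂ 2) M

end Charts

end Pool.Agent.Kuiper
end


/-! ### file Homology0 -/
section
/-! # Injectivity of singular homology in degree 0 -/

set_option autoImplicit false
open Set Topology Metric

namespace Pool.Agent.Kuiper

section Homology
open CategoryTheory AlgebraicTopology Limits Opposite Simplicial

/-- If a map of chain complexes is injective on homology in degree `k`, then every cochain which
vanishes on boundaries vanishes on every cycle that becomes a boundary in the target. -/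
theorem comp_eq_zero_of_mono_homologyMap {C : Type*} [Category C] [Preadditive C]
    [CategoryWithHomology C] {K L : ChainComplex C ℕ} (f : K ⟶ L) (k : ℕ)
    (hf : Mono (HomologicalComplex.homologyMap f k)) {A T : C} (z : A ⟶ K.X k)
    (hz : z ≫ K.d k ((ComplexShape.down ℕ).next k) = 0) (w : A ⟶ L.X (k + 1))
    (hw : z ≫ f.f k = w ≫ L.d (k + 1) k)
    (φ : K.X k ⟶ T) (hφ : K.d (k + 1) k ≫ φ = 0) : z ≫ φ = 0 := by
  have h1 : K.liftCycles z _ rfl hz ≫ K.homologyπ k = 0 := by
    rw [← cancel_mono (HomologicalComplex.homologyMap f k), Category.assoc,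
      HomologicalComplex.homologyπ_naturality,
      HomologicalComplex.liftCycles_comp_cyclesMap_assoc, zero_comp]
    exact HomologicalComplex.liftCycles_homologyπ_eq_zero_of_boundary _ _ _ _ _ hw
  have h2 : K.iCycles k ≫ φ = K.homologyπ k ≫ K.homologyι k ≫
      K.descOpcycles φ (k + 1) (by simp) hφ := by
    rw [HomologicalComplex.homology_π_ι_assoc, HomologicalComplex.p_descOpcycles]
  calc z ≫ φ = K.liftCycles z _ rfl hz ≫ K.iCycles k ≫ φ := by
        rw [HomologicalComplex.liftCycles_i_assoc]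
    _ = 0 := by rw [h2, reassoc_of% h1, zero_comp]

/-- The cochain with prescribed values on simplices. -/
noncomputable def cochain {C : Type*} [Category C] [HasCoproducts.{0} C] [Preadditive C]
    (X : SSet.{0}) (R : C) {T : C} {n : ℕ} (c : X _⦋n⦌ → (R ⟶ T)) :
    (X.chainComplex R).X n ⟶ T :=
  (X.isColimitChainComplexXCofan R n).desc (Cofan.mk T c)

theorem ι_cochain {C : Type*} [Category C] [HasCoproducts.{0} C] [Preadditive C]
    (X : SSet.{0}) (R : C) {T : C} {n : ℕ} (c : X _⦋n⦌ → (R ⟶ T)) (x : X _⦋n⦌) :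
    X.ιChainComplex x ≫ cochain X R c = c x :=
  (X.isColimitChainComplexXCofan R n).fac (Cofan.mk T c) ⟨x⟩

/-- The continuous map on the standard simplex underlying a singular simplex. -/
noncomputable def ev (X : TopCat.{0}) {n : ℕ} (σ : TopCat.toSSet.obj X _⦋n⦌) :
    C(stdSimplex ℝ (Fin (n + 1)), X) :=
  TopCat.toSSetObjEquiv X (op ⦋n⦌) σ

/-- The singular simplex given by a continuous map on the standard simplex. -/
noncomputable def mkS (X : TopCat.{0}) {n : ℕ} (g : C(stdSimplex ℝ (Fin (n + 1)), X)) :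
    TopCat.toSSet.obj X _⦋n⦌ :=
  (TopCat.toSSetObjEquiv X (op ⦋n⦌)).symm g

theorem ev_mkS (X : TopCat.{0}) {n : ℕ} (g : C(stdSimplex ℝ (Fin (n + 1)), X)) :
    ev X (mkS X g) = g := rfl

theorem ev_injective (X : TopCat.{0}) {n : ℕ} : Function.Injective (ev X (n := n)) :=
  (TopCat.toSSetObjEquiv X (op ⦋n⦌)).injective

theorem ev_δ (X : TopCat.{0}) {n : ℕ} (σ : TopCat.toSSet.obj X _⦋n + 1⦌) (i : Fin (n + 2))
    (z : stdSimplex ℝ (Fin (n + 1))) :
    ev X ((TopCat.toSSet.obj X).δ i σ) z = ev X σ (stdSimplex.map i.succAbove z) := rfl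

theorem ev_map {X Y : TopCat.{0}} (f : X ⟶ Y) {n : ℕ} (σ : TopCat.toSSet.obj X _⦋n⦌)
    (z : stdSimplex ℝ (Fin (n + 1))) :
    ev Y ((TopCat.toSSet.map f).app (op ⦋n⦌) σ) z = f (ev X σ z) := rfl

theorem ext₀ (X : TopCat.{0}) {σ τ : TopCat.toSSet.obj X _⦋0⦌}
    (h : ev X σ (stdSimplex.vertex 0) = ev X τ (stdSimplex.vertex 0)) : σ = τ := by
  apply ev_injective
  ext z
  obtain rfl := Subsingleton.elim z (stdSimplex.vertex 0)
  exact h

theorem joined_of_mono {M : Type} [TopologicalSpace M] [PathConnectedSpace M] (A : Set M)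
    (h : Mono (((singularHomologyFunctor (ModuleCat.{0} (ZMod 2)) 0).obj
          (ModuleCat.of (ZMod 2) (ZMod 2))).map
        (TopCat.ofHom ⟨Subtype.val, continuous_subtype_val⟩ :
          TopCat.of ↥A ⟶ TopCat.of M)))
    {a b : M} (ha : a ∈ A) (hb : b ∈ A) : JoinedIn A a b := by
  classical
  set R : ModuleCat.{0} (ZMod 2) := ModuleCat.of (ZMod 2) (ZMod 2) with hR
  set i : TopCat.of ↥A ⟶ TopCat.of M := TopCat.ofHom ⟨Subtype.val, continuous_subtype_val⟩
  let a' : TopCat.of ↥A := (⟨a, ha⟩ : A)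
  let b' : TopCat.of ↥A := (⟨b, hb⟩ : A)
  let SA := TopCat.toSSet.obj (TopCat.of ↥A)
  let SM := TopCat.toSSet.obj (TopCat.of M)
  let F : SA ⟶ SM := TopCat.toSSet.map i
  have hf : Mono (HomologicalComplex.homologyMap (SSet.chainComplexMap F R) 0) := h
  let pa : SA _⦋0⦌ := TopCat.toSSetObj₀Equiv.symm a'
  let pb : SA _⦋0⦌ := TopCat.toSSetObj₀Equiv.symm b'
  -- the path in `M`
  obtain ⟨γ⟩ : Joined a b := PathConnectedSpace.joined a b
  let σ : SM _⦋1⦌ := mkS (TopCat.of M)
    ⟨fun x => γ (stdSimplexHomeomorphUnitInterval x), by fun_prop⟩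
  have hσ0 : SM.δ 1 σ = F.app _ pa := by
    apply ext₀
    change γ (stdSimplexHomeomorphUnitInterval (stdSimplex.map (Fin.succAbove 1)
      (stdSimplex.vertex 0))) = a
    rw [stdSimplex.map_vertex]
    exact γ.source
  have hσ1 : SM.δ 0 σ = F.app _ pb := by
    apply ext₀
    change γ (stdSimplexHomeomorphUnitInterval (stdSimplex.map (Fin.succAbove 0)
      (stdSimplex.vertex 0))) = b
    rw [stdSimplex.map_vertex]
    exact γ.target
  let P : A → Prop := fun y => JoinedIn A a y.1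
  let φ : (SA.chainComplex R).X 0 ⟶ R := cochain SA R
    (fun x => if P (ev _ x (stdSimplex.vertex 0)) then 𝟙 R else 0)
  have hφ : (SA.chainComplex R).d 1 0 ≫ φ = 0 := by
    apply SSet.chainComplex_hom_ext
    intro x
    rw [SSet.ιChainComplex_d_assoc, Fin.sum_univ_two, comp_zero]
    simp only [Fin.coe_ofNat_eq_mod, Nat.zero_mod, pow_zero, one_smul, Preadditive.add_comp, φ,
      Preadditive.zsmul_comp, ι_cochain]
    have hj : P (ev _ (SA.δ 0 x) (stdSimplex.vertex 0)) ↔
        P (ev _ (SA.δ 1 x) (stdSimplex.vertex 0)) := by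
      have hJ : JoinedIn A (i (ev _ (SA.δ 0 x) (stdSimplex.vertex 0)))
          (i (ev _ (SA.δ 1 x) (stdSimplex.vertex 0))) := by
        rw [ev_δ, ev_δ]
        have hp : JoinedIn (univ : Set (stdSimplex ℝ (Fin 2)))
            (stdSimplex.map (Fin.succAbove 0) (stdSimplex.vertex 0))
            (stdSimplex.map (Fin.succAbove 1) (stdSimplex.vertex 0)) :=
          joinedIn_univ.2 (PathConnectedSpace.joined _ _)
        have hc : Continuous (fun z => i (ev _ x z)) := by fun_prop
        refine (hp.map hc).mono ?_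
        rintro _ ⟨z, -, rfl⟩
        exact Subtype.coe_prop (ev _ x z : A)
      exact ⟨fun h1 => h1.trans hJ, fun h1 => h1.trans hJ.symm⟩
    simp only [hj]
    split_ifs <;> simp
  have key := comp_eq_zero_of_mono_homologyMap (SSet.chainComplexMap F R) 0 hf
    (SSet.ιChainComplex SA (R := R) pb - SSet.ιChainComplex SA (R := R) pa) (by simp)
    (SSet.ιChainComplex SM (R := R) σ) (by
      rw [SSet.ιChainComplex_d, Preadditive.sub_comp, SSet.ι_chainComplexMap_f,
        SSet.ι_chainComplexMap_f, Fin.sum_univ_two, hσ0, hσ1]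
      simp [sub_eq_add_neg]) φ hφ
  rw [Preadditive.sub_comp, ι_cochain, ι_cochain] at key
  have e1 : ev _ pa (stdSimplex.vertex 0) = a' := rfl
  have e2 : ev _ pb (stdSimplex.vertex 0) = b' := rfl
  rw [e1, e2, if_pos (show P a' from JoinedIn.refl ha)] at key
  by_contra hn
  rw [if_neg (show ¬ P b' from hn), zero_sub, neg_eq_zero] at key
  have := congrArg (fun f : R ⟶ R => f.hom (1 : ZMod 2)) key
  exact one_ne_zero (α := ZMod 2) this

end Homology

end Pool.Agent.Kuiper
end


/-! ### file Homology1 -/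
section
/-! # Injectivity of singular homology in degree 1 -/

set_option autoImplicit false
open Set Topology Metric

namespace Pool.Agent.Kuiper

section Homology
open CategoryTheory AlgebraicTopology Limits Opposite Simplicial

/-- The point of the one-dimensional simplex with parameter `t`. -/
noncomputable def sg (t : ℝ) : stdSimplex ℝ (Fin 2) :=
  stdSimplexHomeomorphUnitInterval.symm (projIcc 0 1 zero_le_one t)

theorem continuous_sg : Continuous sg :=
  stdSimplexHomeomorphUnitInterval.symm.continuous.comp continuous_projIcc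

theorem sg_zero : sg 0 = stdSimplex.vertex 0 := by
  apply stdSimplexHomeomorphUnitInterval.injective
  rw [stdSimplexHomeomorphUnitInterval_zero, sg, Homeomorph.apply_symm_apply]
  exact projIcc_left zero_le_one

theorem sg_one : sg 1 = stdSimplex.vertex 1 := by
  apply stdSimplexHomeomorphUnitInterval.injective
  rw [stdSimplexHomeomorphUnitInterval_one, sg, Homeomorph.apply_symm_apply]
  exact projIcc_right zero_le_one

theorem sg_apply_one {t : ℝ} (ht : t ∈ Icc (0 : ℝ) 1) : sg t 1 = t := by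
  have h1 : stdSimplexHomeomorphUnitInterval (sg t) = ⟨t, ht⟩ := by
    rw [sg, Homeomorph.apply_symm_apply, projIcc_of_mem _ ht]
  exact congrArg Subtype.val h1

theorem sg_apply_zero {t : ℝ} (ht : t ∈ Icc (0 : ℝ) 1) : sg t 0 = 1 - t := by
  have := stdSimplex.add_eq_one (sg t)
  rw [sg_apply_one ht] at this
  linarith

theorem ang_reverse {u : ℝ → Circle} (hu : ContinuousOn u (Icc 0 1)) :
    ang (fun t => u (1 - t)) = - ang u := by
  obtain ⟨θ, hθ, h1⟩ := exists_lift hu
  have hmem : ∀ t ∈ Icc (0 : ℝ) 1, 1 - t ∈ Icc (0 : ℝ) 1 := by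
    rintro t ⟨h2, h3⟩
    constructor <;> linarith
  rw [ang_eq hθ h1, ang_eq (θ := fun t => θ (1 - t))
    (hθ.comp (by fun_prop) (fun t ht => hmem t ht)) (fun t ht => h1 _ (hmem t ht))]
  simp

theorem exists_int_ang {u : ℝ → Circle} (hu : ContinuousOn u (Icc 0 1)) {s₀ s₁ : ℝ}
    (h0 : u 0 = Circle.exp s₀) (h1 : u 1 = Circle.exp s₁) :
    ∃ n : ℤ, ang u = s₁ - s₀ + 2 * Real.pi * n := by
  obtain ⟨θ, hθ, h⟩ := exists_lift hu
  obtain ⟨m, hm⟩ := Circle.exp_eq_exp.1 ((h 0 (by simp)).symm.trans h0)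
  obtain ⟨k, hk⟩ := Circle.exp_eq_exp.1 ((h 1 (by simp)).symm.trans h1)
  refine ⟨k - m, ?_⟩
  rw [ang_eq hθ h, hm, hk]
  push_cast
  ring

/-- The integer associated to a singular one-simplex, a function to the circle and a pointwise
logarithm. -/
theorem exists_coef {B : TopCat.{0}} {g : B → Circle} (hg : Continuous g) {s : B → ℝ}
    (hs : ∀ x, g x = Circle.exp (s x)) (σ : TopCat.toSSet.obj B _⦋1⦌) :
    ∃ n : ℤ, ang (fun t => g (ev B σ (sg t))) =
      s (ev B σ (stdSimplex.vertex 1)) - s (ev B σ (stdSimplex.vertex 0)) + 2 * Real.pi * n := by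
  refine exists_int_ang ?_ ?_ ?_
  · have := continuous_sg
    fun_prop
  · rw [sg_zero, hs]
  · rw [sg_one, hs]

theorem ang_face {B : TopCat.{0}} {g : B → Circle} (hg : Continuous g)
    (ρ : TopCat.toSSet.obj B _⦋2⦌) :
    ∃ l : Fin 3 → ℝ, ∀ i : Fin 3,
      ang (fun t => g (ev B ((TopCat.toSSet.obj B).δ i ρ) (sg t))) =
        l (i.succAbove 1) - l (i.succAbove 0) := by
  classical
  let D : Set (Fin 3 → ℝ) := stdSimplex ℝ (Fin 3)
  let F : (Fin 3 → ℝ) → Circle := fun x => if h : x ∈ D then g (ev B ρ ⟨x, h⟩) else 1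
  have hF : ContinuousOn F D := by
    rw [continuousOn_iff_continuous_domRestrict]
    have : D.domRestrict F = fun a : D => g (ev B ρ a) := by
      funext a
      exact dif_pos a.2
    rw [this]
    fun_prop
  have hv : (Pi.single 0 1 : Fin 3 → ℝ) ∈ D := single_mem_stdSimplex ℝ 0
  obtain ⟨L, hL, hL'⟩ := exists_log_star ((convex_stdSimplex ℝ (Fin 3)).starConvex hv) hv hF
  refine ⟨fun j => L (Pi.single j 1), fun i => ?_⟩
  have hc : Continuous (fun t => (stdSimplex.map i.succAbove (sg t) :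
      stdSimplex ℝ (Fin 3)).1) :=
    continuous_subtype_val.comp ((stdSimplex.continuous_map _).comp continuous_sg)
  have := ang_comp_log hL hL' (c := fun t => (stdSimplex.map i.succAbove (sg t) :
      stdSimplex ℝ (Fin 3)).1) hc.continuousOn (fun t _ => Subtype.coe_prop _)
  have e1 : (fun t => g (ev B ((TopCat.toSSet.obj B).δ i ρ) (sg t))) =
      F ∘ (fun t => (stdSimplex.map i.succAbove (sg t) : stdSimplex ℝ (Fin 3)).1) := by
    funext t
    have h1 : F (stdSimplex.map i.succAbove (sg t) : stdSimplex ℝ (Fin 3)).1 =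
      g (ev B ρ (stdSimplex.map i.succAbove (sg t))) := dif_pos (Subtype.coe_prop _)
    exact h1.symm
  rw [e1, this]
  simp only [sg_zero, sg_one, stdSimplex.map_vertex]

theorem sa00 : (0 : Fin 3).succAbove (0 : Fin 2) = 1 := rfl
theorem sa01 : (0 : Fin 3).succAbove (1 : Fin 2) = 2 := rfl
theorem sa10 : (1 : Fin 3).succAbove (0 : Fin 2) = 0 := rfl
theorem sa11 : (1 : Fin 3).succAbove (1 : Fin 2) = 2 := rfl
theorem sa20 : (2 : Fin 3).succAbove (0 : Fin 2) = 0 := rfl
theorem sa21 : (2 : Fin 3).succAbove (1 : Fin 2) = 1 := rfl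

theorem alt_sum_eq_zero {a b c : ℤ} {u v w : ℝ} {l : Fin 3 → ℝ}
    (h1 : l 2 - l 1 = w - v + 2 * Real.pi * a) (h2 : l 2 - l 0 = w - u + 2 * Real.pi * b)
    (h3 : l 1 - l 0 = v - u + 2 * Real.pi * c) : a - b + c = 0 := by
  have h4 : 2 * Real.pi * ((a : ℝ) - b + c) = 0 := by linarith
  have h5 : (2 * Real.pi) ≠ 0 := by positivity
  have h6 := (mul_eq_zero.1 h4).resolve_left h5
  exact_mod_cast h6

theorem intCast_eq_zero_of_zsmul_id {m : ℤ}
    (h : m • 𝟙 (ModuleCat.of (ZMod 2) (ZMod 2)) = 0) : (m : ZMod 2) = 0 := by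
  have h1 := congrArg
    (fun f : ModuleCat.of (ZMod 2) (ZMod 2) ⟶ ModuleCat.of (ZMod 2) (ZMod 2) =>
      f.hom (1 : ZMod 2)) h
  simpa using h1

theorem ang_of_mono {M : Type} [TopologicalSpace M] (A : Set M)
    (h : Mono (((singularHomologyFunctor (ModuleCat.{0} (ZMod 2)) 1).obj
          (ModuleCat.of (ZMod 2) (ZMod 2))).map
        (TopCat.ofHom ⟨Subtype.val, continuous_subtype_val⟩ :
          TopCat.of ↥A ⟶ TopCat.of M)))
    {g : M → Circle} (hg : ContinuousOn g A) {τ : ℂ → M} (hτ : Continuous τ) (v : Fin 3 → ℂ)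
    (hA : ∀ i, ∀ t ∈ Icc (0 : ℝ) 1, τ (v i + t * (v (i + 1) - v i)) ∈ A) :
    ∃ n : ℤ, ∑ i, ang (fun t => g (τ (v i + t * (v (i + 1) - v i)))) = 4 * Real.pi * n := by
  classical
  set R : ModuleCat.{0} (ZMod 2) := ModuleCat.of (ZMod 2) (ZMod 2) with hR
  set ι : TopCat.of ↥A ⟶ TopCat.of M := TopCat.ofHom ⟨Subtype.val, continuous_subtype_val⟩
  let B : TopCat.{0} := TopCat.of ↥A
  let SA := TopCat.toSSet.obj B
  let SM := TopCat.toSSet.obj (TopCat.of M)
  let F : SA ⟶ SM := TopCat.toSSet.map ι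
  have hf : Mono (HomologicalComplex.homologyMap (SSet.chainComplexMap F R) 1) := h
  have hm : Mono ((SSet.chainComplexMap F R).f 0) := by
    have h1 : Mono ι := by
      rw [TopCat.mono_iff_injective]
      exact Subtype.val_injective
    have h2 : Mono (((singularChainComplexFunctor (ModuleCat.{0} (ZMod 2))).obj R).map ι) :=
      inferInstance
    exact inferInstanceAs (Mono ((HomologicalComplex.eval _ _ 0).map
      (((singularChainComplexFunctor (ModuleCat.{0} (ZMod 2))).obj R).map ι)))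
  -- the triangle
  let T : C(stdSimplex ℝ (Fin 3), M) := ⟨fun x => τ (∑ j, (x.1 j : ℂ) * v j), by
    refine hτ.comp (continuous_finsetSum _ fun j _ => ?_)
    exact (Complex.continuous_ofReal.comp
      ((continuous_apply j).comp continuous_subtype_val)).mul continuous_const⟩
  -- the edges
  have hTe : ∀ (i : Fin 3) (z : stdSimplex ℝ (Fin 2)), T (stdSimplex.map i.succAbove z) =
      τ (v (i.succAbove 0) + (z 1 : ℂ) * (v (i.succAbove 1) - v (i.succAbove 0))) := by
    intro i z
    change τ (∑ j, ((stdSimplex.map i.succAbove z).1 j : ℂ) * v j) = _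
    congr 1
    have h1 : ∀ j, (stdSimplex.map i.succAbove z : stdSimplex ℝ (Fin 3)).1 j =
        ∑ k with i.succAbove k = j, z k := fun j => by
      change (FunOnFinite.linearMap ℝ ℝ i.succAbove z) j = _
      rw [FunOnFinite.linearMap_apply_apply]
    have h2 : ∑ j, ((stdSimplex.map i.succAbove z : stdSimplex ℝ (Fin 3)).1 j : ℂ) * v j =
        ∑ k, (z k : ℂ) * v (i.succAbove k) := by
      rw [← Finset.sum_fiberwise Finset.univ i.succAbove]
      refine Finset.sum_congr rfl fun j _ => ?_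
      rw [h1 j, Complex.ofReal_sum, Finset.sum_mul]
      refine Finset.sum_congr rfl fun k hk => ?_
      rw [(Finset.mem_filter.1 hk).2]
    rw [h2, Fin.sum_univ_two]
    have h3 : z 0 = 1 - z 1 := by linarith [stdSimplex.add_eq_one z]
    rw [h3]
    push_cast
    ring
  have hTA : ∀ (i : Fin 3) (z : stdSimplex ℝ (Fin 2)), T (stdSimplex.map i.succAbove z) ∈ A := by
    intro i z
    rw [hTe]
    have hz1 : z 1 ∈ Icc (0 : ℝ) 1 := ⟨by simp, by simp⟩
    fin_cases i
    · exact hA 1 _ hz1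
    · have h4 : 1 - z 1 ∈ Icc (0 : ℝ) 1 := ⟨by linarith [hz1.2], by linarith [hz1.1]⟩
      have h5 := hA 2 _ h4
      convert h5 using 2
      change v 0 + (z 1 : ℂ) * (v 2 - v 0) = v 2 + ((1 - z 1 : ℝ) : ℂ) * (v 0 - v 2)
      push_cast
      ring
    · exact hA 0 _ hz1
  let e : Fin 3 → C(stdSimplex ℝ (Fin 2), B) := fun i =>
    ⟨fun z => (⟨T (stdSimplex.map i.succAbove z), hTA i z⟩ : A),
      (T.continuous.comp (stdSimplex.continuous_map _)).subtype_mk _⟩
  have hFe : ∀ i, F.app _ (mkS B (e i)) = SM.δ i (mkS (TopCat.of M) T) := fun i => rfl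
  let g' : B → Circle := fun x => g (x : A).1
  have hg' : Continuous g' := continuousOn_iff_continuous_domRestrict.1 hg
  let s : B → ℝ := fun x => Function.surjInv Circle.exp_surjective (g' x)
  have hs : ∀ x, g' x = Circle.exp (s x) := fun x =>
    (Function.surjInv_eq Circle.exp_surjective (g' x)).symm
  choose c hc using exists_coef hg' hs
  let φ : (SA.chainComplex R).X 1 ⟶ R := cochain SA R (fun x => c x • 𝟙 R)
  have hφ : (SA.chainComplex R).d 2 1 ≫ φ = 0 := by
    apply SSet.chainComplex_hom_ext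
    intro x
    rw [SSet.ιChainComplex_d_assoc, comp_zero, Preadditive.sum_comp]
    simp only [Preadditive.zsmul_comp, φ, ι_cochain, smul_smul, ← Finset.sum_smul]
    obtain ⟨l, hl⟩ := ang_face hg' x
    have h0 : ∑ i : Fin 3, (-1 : ℤ) ^ i.val * c (SA.δ i x) = 0 := by
      have h1 := hc (SA.δ 0 x)
      have h2 := hc (SA.δ 1 x)
      have h3 := hc (SA.δ 2 x)
      rw [hl, ev_δ, ev_δ, stdSimplex.map_vertex, stdSimplex.map_vertex] at h1 h2 h3
      rw [sa00, sa01] at h1
      rw [sa10, sa11] at h2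
      rw [sa20, sa21] at h3
      rw [Fin.sum_univ_three]
      have := alt_sum_eq_zero h1 h2 h3
      simp only [Fin.isValue, Fin.coe_ofNat_eq_mod]
      norm_num
      linarith
    erw [h0, zero_smul]
  let z : R ⟶ (SA.chainComplex R).X 1 :=
    ∑ i : Fin 3, (-1 : ℤ) ^ i.val • SSet.ιChainComplex SA (R := R) (mkS B (e i))
  let w : R ⟶ (SM.chainComplex R).X 2 := SSet.ιChainComplex SM (R := R) (mkS (TopCat.of M) T)
  have hw : z ≫ (SSet.chainComplexMap F R).f 1 = w ≫ (SM.chainComplex R).d 2 1 := by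
    rw [SSet.ιChainComplex_d, Preadditive.sum_comp]
    refine Finset.sum_congr rfl fun i _ => ?_
    rw [Preadditive.zsmul_comp, SSet.ι_chainComplexMap_f, hFe]
  have hz : z ≫ (SA.chainComplex R).d 1 0 = 0 := by
    rw [← cancel_mono ((SSet.chainComplexMap F R).f 0), Category.assoc, zero_comp,
      ← (SSet.chainComplexMap F R).comm, reassoc_of% hw]
    simp
  have key := comp_eq_zero_of_mono_homologyMap (SSet.chainComplexMap F R) 1 hf z
    (by rw [ChainComplex.next_nat_succ]; exact hz) w hw φ hφ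
  rw [Preadditive.sum_comp] at key
  simp only [Preadditive.zsmul_comp, φ, ι_cochain, smul_smul, ← Finset.sum_smul] at key
  have key2 := intCast_eq_zero_of_zsmul_id key
  rw [ZMod.intCast_zmod_eq_zero_iff_dvd] at key2
  obtain ⟨n, hn⟩ := key2
  let S : Fin 3 → ℝ := fun j =>
    Function.surjInv Circle.exp_surjective (g (T (stdSimplex.vertex j)))
  have hS : ∀ i k, s (e i (stdSimplex.vertex k)) = S (i.succAbove k) := by
    intro i k
    change Function.surjInv Circle.exp_surjective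
      (g (T (stdSimplex.map i.succAbove (stdSimplex.vertex k)))) = _
    rw [stdSimplex.map_vertex]
  have hce : ∀ i : Fin 3,
      ang (fun t => g (τ (v (i.succAbove 0) + t * (v (i.succAbove 1) - v (i.succAbove 0))))) =
      S (i.succAbove 1) - S (i.succAbove 0) + 2 * Real.pi * c (mkS B (e i)) := by
    intro i
    rw [← hS, ← hS]
    refine Eq.trans (ang_congr fun t ht => ?_) (hc (mkS B (e i)))
    change _ = g (T (stdSimplex.map i.succAbove (sg t)))
    rw [hTe, sg_apply_one ht]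
  have h0 := hce 0
  have h1 := hce 1
  have h2 := hce 2
  rw [sa00, sa01] at h0
  rw [sa10, sa11] at h1
  rw [sa20, sa21] at h2
  rw [Fin.sum_univ_three] at hn
  have hn' : (c (mkS B (e 0)) : ℝ) - c (mkS B (e 1)) + c (mkS B (e 2)) = 2 * n := by
    have : c (mkS B (e 0)) - c (mkS B (e 1)) + c (mkS B (e 2)) = 2 * n := by
      simp only [Fin.isValue, Fin.coe_ofNat_eq_mod] at hn
      norm_num at hn
      linarith
    exact_mod_cast this
  have hrev : ang (fun t => g (τ (v 2 + t * (v 0 - v 2)))) =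
      - ang (fun t => g (τ (v 0 + t * (v 2 - v 0)))) := by
    have hu : ContinuousOn (fun t : ℝ => g (τ (v 0 + t * (v 2 - v 0)))) (Icc 0 1) := by
      refine hg.comp (hτ.comp (by fun_prop)).continuousOn fun t ht => ?_
      have h4 : 1 - t ∈ Icc (0 : ℝ) 1 := ⟨by linarith [ht.2], by linarith [ht.1]⟩
      have h5 := hA 2 _ h4
      convert h5 using 2
      change v 0 + (t : ℂ) * (v 2 - v 0) = v 2 + ((1 - t : ℝ) : ℂ) * (v 0 - v 2)
      push_cast
      ring
    rw [← ang_reverse hu]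
    refine ang_congr fun t ht => ?_
    congr 2
    push_cast
    ring
  refine ⟨n, ?_⟩
  rw [Fin.sum_univ_three]
  change ang (fun t => g (τ (v 0 + t * (v 1 - v 0)))) +
    ang (fun t => g (τ (v 1 + t * (v 2 - v 1)))) +
    ang (fun t => g (τ (v 2 + t * (v 0 - v 2)))) = _
  rw [hrev, h0, h1, h2]
  linear_combination 2 * Real.pi * hn'

end Homology

end Pool.Agent.Kuiper
end


/-! ### file Exposed -/
section
/-! # Exposed points have exactly one preimage, on the boundary -/

set_option autoImplicit false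
open Set Topology Metric

namespace Pool.Agent.Kuiper

section Final
open CategoryTheory AlgebraicTopology
open scoped Manifold

theorem exp_coe_dir {w : ℂ} (hw : w ≠ 0) : ((dir w : Circle) : ℂ) = w / (‖w‖ : ℂ) := by
  have h3 := Complex.norm_mul_exp_arg_mul_I w
  have h4 : (‖w‖ : ℂ) ≠ 0 := by
    have := norm_ne_zero_iff.mpr hw
    exact_mod_cast this
  have h5 : ((dir w : Circle) : ℂ) = Complex.exp (Complex.arg w * Complex.I) := by
    unfold dir
    rw [Circle.coe_exp]
  rw [h5, eq_div_iff h4, mul_comm]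
  exact h3

theorem exp_dir_mul {a b : ℂ} (ha : a ≠ 0) (hb : b ≠ 0) : dir (a * b) = dir a * dir b := by
  apply Circle.ext
  rw [Circle.coe_mul, exp_coe_dir ha, exp_coe_dir hb, exp_coe_dir (mul_ne_zero ha hb), norm_mul]
  push_cast
  rw [div_mul_div_comm]

/-- the primitive third root of unity -/
noncomputable def exp_om : ℂ := (Circle.exp (2 * Real.pi / 3) : Circle)

theorem exp_om_re : exp_om.re = -1 / 2 := by
  unfold exp_om
  rw [Circle.coe_exp, Complex.exp_ofReal_mul_I_re]
  have : 2 * Real.pi / 3 = Real.pi - Real.pi / 3 := by ring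
  rw [this, Real.cos_pi_sub, Real.cos_pi_div_three]
  norm_num

theorem exp_om_im : exp_om.im = Real.sqrt 3 / 2 := by
  unfold exp_om
  rw [Circle.coe_exp, Complex.exp_ofReal_mul_I_im]
  have : 2 * Real.pi / 3 = Real.pi - Real.pi / 3 := by ring
  rw [this, Real.sin_pi_sub, Real.sin_pi_div_three]

theorem exp_om_arg : Complex.arg exp_om = 2 * Real.pi / 3 := by
  unfold exp_om
  apply Circle.arg_exp
  · have := Real.pi_pos
    linarith
  · have := Real.pi_pos
    linarith

theorem exp_om_cube : exp_om ^ 3 = 1 := by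
  unfold exp_om
  rw [← Circle.coe_pow, ← Circle.exp_nsmul]
  have : (3 : ℕ) • (2 * Real.pi / 3) = 2 * Real.pi := by
    simp
    ring
  rw [this, Circle.exp_two_pi]
  rfl

theorem exp_om_ne : exp_om ≠ 0 := by
  intro h
  have := exp_om_re
  rw [h] at this
  norm_num at this

theorem exp_norm_om : ‖exp_om‖ = 1 := Circle.norm_coe _

/-- the three vertices -/
noncomputable def exp_v : Fin 3 → ℂ := fun i => exp_om ^ (i : ℕ)

theorem exp_v_succ (i : Fin 3) : exp_v (i + 1) = exp_v i * exp_om := by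
  fin_cases i
  · simp [exp_v]
  · simp [exp_v]
    ring
  · have := exp_om_cube
    simp [exp_v]
    rw [← this]
    ring

theorem exp_v_ne (i : Fin 3) : exp_v i ≠ 0 := pow_ne_zero _ exp_om_ne

theorem exp_norm_v (i : Fin 3) : ‖exp_v i‖ = 1 := by
  unfold exp_v
  rw [norm_pow, exp_norm_om, one_pow]

theorem exp_edge (i : Fin 3) (t : ℝ) :
    exp_v i + t * (exp_v (i + 1) - exp_v i) = exp_v i * (1 + t * (exp_om - 1)) := by
  rw [exp_v_succ]
  ring

theorem exp_normSq_edge (t : ℝ) :
    ‖(1 + t * (exp_om - 1) : ℂ)‖ ^ 2 = 1 - 3 * t + 3 * t ^ 2 := by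
  rw [Complex.sq_norm, Complex.normSq_apply]
  have h1 : (1 + t * (exp_om - 1) : ℂ).re = 1 - 3 / 2 * t := by
    simp [exp_om_re]
    ring
  have h2 : (1 + t * (exp_om - 1) : ℂ).im = t * (Real.sqrt 3 / 2) := by
    simp [exp_om_im]
  rw [h1, h2]
  have h3 : Real.sqrt 3 * Real.sqrt 3 = 3 := Real.mul_self_sqrt (by norm_num)
  nlinarith [h3]

theorem exp_edge_slit {t : ℝ} (ht : 0 ≤ t) : (1 + t * (exp_om - 1) : ℂ) ∈ Complex.slitPlane := by
  rw [Complex.mem_slitPlane_iff]
  rcases ht.eq_or_lt with h | h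
  · left
    rw [← h]
    simp
  · right
    have h2 : (1 + t * (exp_om - 1) : ℂ).im = t * (Real.sqrt 3 / 2) := by
      simp [exp_om_im]
    rw [h2]
    positivity

theorem exp_norm_edge (i : Fin 3) {t : ℝ} (ht : t ∈ Icc (0 : ℝ) 1) :
    1 / 2 ≤ ‖exp_v i + t * (exp_v (i + 1) - exp_v i)‖ ∧
      ‖exp_v i + t * (exp_v (i + 1) - exp_v i)‖ ≤ 1 := by
  rw [exp_edge, norm_mul, exp_norm_v, one_mul]
  have h := exp_normSq_edge t
  have h0 := norm_nonneg (1 + t * (exp_om - 1) : ℂ)
  constructor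
  · by_contra hlt
    rw [not_le] at hlt
    nlinarith [sq_nonneg (t - 1 / 2)]
  · by_contra hlt
    rw [not_le] at hlt
    nlinarith [mul_nonneg ht.1 (sub_nonneg.mpr ht.2)]

/-- the sum of the angles along the three edges -/
theorem exp_sum_ang {g : ℂ → Circle} (hg : ContinuousOn g (closedBall 0 1 \ {0})) :
    ∑ i : Fin 3, ang (fun t => g (exp_v i + t * (exp_v (i + 1) - exp_v i))) =
      ang (g ∘ circ) := by
  obtain ⟨d, hd, L, hL, hgL⟩ := exists_mult hg
  rw [hd]
  have hmem : ∀ i : Fin 3, ∀ t ∈ Icc (0 : ℝ) 1,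
      (exp_v i + t * (exp_v (i + 1) - exp_v i) : ℂ) ∈ closedBall (0 : ℂ) 1 \ {0} := by
    intro i t ht
    have := exp_norm_edge i ht
    refine ⟨by simpa using this.2, ?_⟩
    intro h0
    rw [mem_singleton_iff] at h0
    rw [h0] at this
    norm_num at this
  have key : ∀ i : Fin 3, ang (fun t => g (exp_v i + t * (exp_v (i + 1) - exp_v i))) =
      d * (2 * Real.pi / 3) + (L (exp_v (i + 1)) - L (exp_v i)) := by
    intro i
    have := ang_eq (u := fun t => g (exp_v i + t * (exp_v (i + 1) - exp_v i)))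
      (θ := fun t => d * (Complex.arg (exp_v i) + Complex.arg (1 + t * (exp_om - 1))) +
        L (exp_v i + t * (exp_v (i + 1) - exp_v i))) ?_ ?_
    · rw [this]
      simp only [Complex.ofReal_one, one_mul, Complex.ofReal_zero, zero_mul, add_zero,
        add_sub_cancel, exp_om_arg, Complex.arg_one]
      ring
    · apply ContinuousOn.add
      · apply ContinuousOn.mul continuousOn_const
        apply ContinuousOn.add continuousOn_const
        intro t ht
        have h1 := Complex.continuousAt_arg (exp_edge_slit ht.1)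
        have h2 : ContinuousAt (fun t : ℝ => (1 + t * (exp_om - 1) : ℂ)) t := by fun_prop
        exact (ContinuousAt.comp (f := fun t : ℝ => (1 + t * (exp_om - 1) : ℂ))
          (g := Complex.arg) h1 h2).continuousWithinAt
      · apply hL.comp (t := closedBall (0 : ℂ) 1 \ {0})
        · fun_prop
        · exact hmem i
    · intro t ht
      rw [hgL _ (hmem i t ht), Circle.exp_add]
      congr 1
      rw [exp_edge, exp_dir_mul (exp_v_ne i) (Complex.slitPlane_ne_zero (exp_edge_slit ht.1))]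
      unfold dir
      rw [← Circle.exp_add, ← Circle.exp_zsmul, zsmul_eq_mul]
  simp only [key]
  rw [Finset.sum_add_distrib, Fin.sum_univ_three, Fin.sum_univ_three]
  have e0 : (0 : Fin 3) + 1 = 1 := rfl
  have e1 : (1 : Fin 3) + 1 = 2 := rfl
  have e2 : (2 : Fin 3) + 1 = 0 := rfl
  rw [e0, e1, e2]
  ring

theorem exposed_of_mono {M : Type} [MetricSpace M] [CompactSpace M] [ConnectedSpace M] [Surf M]
    [PathConnectedSpace M] (hbd : (bdy M).Nonempty)
    {E : Type*} [NormedAddCommGroup E] [InnerProductSpace ℝ E] [FiniteDimensional ℝ E]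
    {f : M → E} (hf : Continuous f) (hinj : ∀ x : M, ∃ U ∈ 𝓝 x, InjOn f U)
    (hne : (range f).Nontrivial)
    (hmono : ∀ (l : E →L[ℝ] ℝ), l ≠ 0 → ∀ c : ℝ, ∀ k : ℕ, k ≤ 1 →
      Mono (((singularHomologyFunctor (ModuleCat.{0} (ZMod 2)) k).obj
          (ModuleCat.of (ZMod 2) (ZMod 2))).map
        (TopCat.ofHom ⟨Subtype.val, continuous_subtype_val⟩ :
          TopCat.of ↥(f ⁻¹' {y | c ≤ l y}) ⟶ TopCat.of M)))
    {q : E} (hq : q ∈ (convexHull ℝ (range f)).exposedPoints ℝ) :
    ∃ p ∈ bdy M, f ⁻¹' {q} = {p} := by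
  have hqr : q ∈ range f := extremePoints_convexHull_subset (exposedPoints_subset_extremePoints hq)
  obtain ⟨p, hp⟩ := hqr
  obtain ⟨hqK, l, hl⟩ := hq
  have hlm : ∀ m, l (f m) ≤ l q := fun m => (hl _ (subset_convexHull ℝ _ ⟨m, rfl⟩)).1
  have hlm' : ∀ m, l q ≤ l (f m) → f m = q :=
    fun m => (hl _ (subset_convexHull ℝ _ ⟨m, rfl⟩)).2
  have hl0 : l ≠ 0 := by
    rintro rfl
    obtain ⟨y1, ⟨m1, rfl⟩, y2, ⟨m2, rfl⟩, h12⟩ := hne
    apply h12
    rw [hlm' m1 (by simp), hlm' m2 (by simp)]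
  -- the preimage is a single point
  have hsub : f ⁻¹' {q} = {p} := by
    apply Subset.antisymm
    · intro b hb
      have hA : f ⁻¹' {y | l q ≤ l y} = f ⁻¹' {q} := by
        ext m
        constructor
        · intro hm
          exact hlm' m hm
        · intro hm
          have : f m = q := hm
          change l q ≤ l (f m)
          rw [this]
      have hj := joined_of_mono (f ⁻¹' {y | l q ≤ l y}) (hmono l hl0 (l q) 0 (by norm_num))
        (a := p) (b := b) (by rw [hA]; exact hp) (by rw [hA]; exact hb)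
      rw [hA] at hj
      obtain ⟨γ, hγ⟩ := hj
      -- γ is locally constant
      have hlc : IsLocallyConstant (fun t => γ t) := by
        rw [IsLocallyConstant.iff_eventually_eq]
        intro t
        obtain ⟨U, hU, hUi⟩ := hinj (γ t)
        have := γ.continuous.continuousAt.preimage_mem_nhds hU
        filter_upwards [this] with s hs
        apply hUi hs (mem_of_mem_nhds hU)
        have h1 : f (γ s) = q := hγ s
        have h2 : f (γ t) = q := hγ t
        rw [h1, h2]
      have := hlc.apply_eq_of_isPreconnected isPreconnected_univ (mem_univ 0) (mem_univ 1)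
      simp only [γ.source, γ.target] at this
      exact this.symm
    · rintro _ rfl
      exact hp
  refine ⟨p, ?_, hsub⟩
  -- `p` lies on the boundary
  intro hpi
  obtain ⟨U, hU, hUi⟩ := hinj p
  obtain ⟨δ, hδ, hδ0, hδU⟩ := exists_disc hpi hU
  set R : Set ℂ := {w | 1 / 2 ≤ ‖w‖ ∧ ‖w‖ ≤ 1} with hR
  have hRc : IsCompact R := by
    have : R = closedBall (0 : ℂ) 1 ∩ {w | 1 / 2 ≤ ‖w‖} := by
      ext w
      simp [hR, and_comm]
    rw [this]
    exact (isCompact_closedBall _ _).inter_right (isClosed_le continuous_const continuous_norm)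
  have hRne : R.Nonempty := ⟨1, by simp [hR]; norm_num⟩
  obtain ⟨w₁, hw₁, hw₁max⟩ := hRc.exists_isMaxOn hRne
    (f := fun w => l (f (δ w))) ((l.continuous.comp (hf.comp hδ.cont)).continuousOn)
  set c₁ : ℝ := l (f (δ w₁)) with hc₁
  have hlt : c₁ < l q := by
    rcases (hlm (δ w₁)).lt_or_eq with h | h
    · exact h
    · exfalso
      have h1 : f (δ w₁) = q := hlm' _ h.ge
      have h2 : δ w₁ ∈ f ⁻¹' {q} := h1
      rw [hsub] at h2
      have h3 : δ w₁ = δ 0 := by rw [hδ0]; exact h2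
      have h4 : w₁ = 0 := hδ.inj (by simpa using hw₁.2) (by simp) h3
      have h5 := hw₁.1
      rw [h4] at h5
      norm_num at h5
  have hA : ∀ w ∈ R, δ w ∈ f ⁻¹' {y | -c₁ ≤ (-l) y} := by
    intro w hw
    have := hw₁max hw
    change -c₁ ≤ (-l) (f (δ w))
    simp only [_root_.neg_apply, neg_le_neg_iff]
    exact this
  obtain ⟨g, n, hg, hn, hgn⟩ := exists_odd hbd hδ
  have hpA : ∀ m ∈ f ⁻¹' {y | -c₁ ≤ (-l) y}, m ≠ δ 0 := by
    intro m hm hm0
    have h1 : -c₁ ≤ (-l) (f m) := hm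
    rw [hm0, hδ0, hp] at h1
    simp only [_root_.neg_apply, neg_le_neg_iff] at h1
    linarith
  obtain ⟨n', hn'⟩ := ang_of_mono (f ⁻¹' {y | -c₁ ≤ (-l) y})
    (hmono (-l) (neg_ne_zero.mpr hl0) (-c₁) 1 le_rfl) (g := g) (hg.mono hpA) hδ.cont exp_v
    (fun i t ht => hA _ (exp_norm_edge i ht))
  have hgδ : ContinuousOn (g ∘ δ) (closedBall 0 1 \ {0}) := by
    apply hg.comp hδ.cont.continuousOn
    intro w hw hw0
    apply hw.2
    exact hδ.inj hw.1 (by simp) hw0
  have hs := exp_sum_ang hgδ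
  simp only [Function.comp_def] at hs hgn
  rw [hn', hgn] at hs
  have hpi2 := Real.pi_pos
  have h2 : (n : ℝ) = 2 * n' := by
    have : 2 * Real.pi * (n : ℝ) = 2 * Real.pi * (2 * n') := by linarith
    exact mul_left_cancel₀ (by positivity) this
  have h3 : n = 2 * n' := by exact_mod_cast h2
  obtain ⟨k, hk⟩ := hn
  omega

/-- if the open superlevel sets are connected, so are the closed ones -/
theorem preconnected_closed_of_open {M : Type*} [TopologicalSpace M] [CompactSpace M] [T2Space M]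
    {u : M → ℝ} (hu : Continuous u) (h : ∀ c : ℝ, IsPreconnected {m | c < u m}) (c : ℝ) :
    IsPreconnected {m | c ≤ u m} := by
  have hcl : IsClosed {m | c ≤ u m} := isClosed_le continuous_const hu
  rw [isPreconnected_closed_iff]
  intro A B hA hB hcov ⟨a, haS, haA⟩ ⟨b, hbS, hbB⟩
  by_contra hne
  rw [Set.not_nonempty_iff_eq_empty] at hne
  have hd : Disjoint ({m | c ≤ u m} ∩ A) ({m | c ≤ u m} ∩ B) := by
    rw [Set.disjoint_left]
    rintro x ⟨hx1, hx2⟩ ⟨_, hx3⟩
    have : x ∈ {m | c ≤ u m} ∩ (A ∩ B) := ⟨hx1, hx2, hx3⟩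
    rw [hne] at this
    exact this
  obtain ⟨U, V, hU, hV, hAU, hBV, hUV⟩ := NormalSpace.normal _ _ (hcl.inter hA) (hcl.inter hB) hd
  have hSUV : {m | c ≤ u m} ⊆ U ∪ V := by
    intro x hx
    rcases hcov hx with h | h
    · exact Or.inl (hAU ⟨hx, h⟩)
    · exact Or.inr (hBV ⟨hx, h⟩)
  obtain ⟨c', hc', hsub⟩ : ∃ c' < c, {m | c' < u m} ⊆ U ∪ V := by
    by_cases hW : ((U ∪ V)ᶜ).Nonempty
    · obtain ⟨m₀, hm₀, hmax⟩ := (hU.union hV).isClosed_compl.isCompact.exists_isMaxOn hW
        hu.continuousOn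
      refine ⟨u m₀, lt_of_not_ge (fun he => hm₀ (hSUV he)), ?_⟩
      intro m hm
      by_contra hmU
      have h1 : u m ≤ u m₀ := hmax hmU
      have h2 : u m₀ < u m := hm
      linarith
    · rw [Set.not_nonempty_iff_eq_empty, Set.compl_empty_iff] at hW
      exact ⟨c - 1, by linarith, by rw [hW]; exact subset_univ _⟩
  obtain ⟨x, _, hx1, hx2⟩ := h c' U V hU hV hsub
    ⟨a, lt_of_lt_of_le hc' haS, hAU ⟨haS, haA⟩⟩
    ⟨b, lt_of_lt_of_le hc' hbS, hBV ⟨hbS, hbB⟩⟩
  exact Set.disjoint_left.1 hUV hx1 hx2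

/-- the same for open half-spaces -/
theorem exposed_of_open {M : Type} [MetricSpace M] [CompactSpace M] [ConnectedSpace M] [Surf M]
    [PathConnectedSpace M] (hbd : (bdy M).Nonempty)
    {E : Type*} [NormedAddCommGroup E] [InnerProductSpace ℝ E] [FiniteDimensional ℝ E]
    {f : M → E} (hf : Continuous f) (hinj : ∀ x : M, ∃ U ∈ 𝓝 x, InjOn f U)
    (hne : (range f).Nontrivial)
    (hmono : ∀ (l : E →L[ℝ] ℝ), l ≠ 0 → ∀ c : ℝ, ∀ k : ℕ, k ≤ 1 →
      Mono (((singularHomologyFunctor (ModuleCat.{0} (ZMod 2)) k).obj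
          (ModuleCat.of (ZMod 2) (ZMod 2))).map
        (TopCat.ofHom ⟨Subtype.val, continuous_subtype_val⟩ :
          TopCat.of ↥(f ⁻¹' {y | c < l y}) ⟶ TopCat.of M)))
    {q : E} (hq : q ∈ (convexHull ℝ (range f)).exposedPoints ℝ) :
    ∃ p ∈ bdy M, f ⁻¹' {q} = {p} := by
  have hqr : q ∈ range f := extremePoints_convexHull_subset (exposedPoints_subset_extremePoints hq)
  obtain ⟨p, hp⟩ := hqr
  obtain ⟨hqK, l, hl⟩ := hq
  have hlm : ∀ m, l (f m) ≤ l q := fun m => (hl _ (subset_convexHull ℝ _ ⟨m, rfl⟩)).1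
  have hlm' : ∀ m, l q ≤ l (f m) → f m = q :=
    fun m => (hl _ (subset_convexHull ℝ _ ⟨m, rfl⟩)).2
  have hl0 : l ≠ 0 := by
    rintro rfl
    obtain ⟨y1, ⟨m1, rfl⟩, y2, ⟨m2, rfl⟩, h12⟩ := hne
    apply h12
    rw [hlm' m1 (by simp), hlm' m2 (by simp)]
  -- the preimage is a single point
  have hsub : f ⁻¹' {q} = {p} := by
    apply Subset.antisymm
    · intro b hb
      have hA : f ⁻¹' {y | l q ≤ l y} = f ⁻¹' {q} := by
        ext m
        constructor
        · intro hm
          exact hlm' m hm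
        · intro hm
          have : f m = q := hm
          change l q ≤ l (f m)
          rw [this]
      have hpre : IsPreconnected (f ⁻¹' {q}) := by
        rw [← hA]
        refine preconnected_closed_of_open (u := fun m => l (f m)) (l.continuous.comp hf)
          (fun c => ?_) (l q)
        apply isPreconnected_of_forall_pair
        intro a ha b hb
        obtain ⟨γ, hγ⟩ := joined_of_mono (f ⁻¹' {y | c < l y}) (hmono l hl0 c 0 (by norm_num))
          (a := a) (b := b) ha hb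
        refine ⟨range γ, ?_, ⟨0, γ.source⟩, ⟨1, γ.target⟩, ?_⟩
        · rintro _ ⟨t, rfl⟩
          exact hγ t
        · exact isPreconnected_range γ.continuous
      obtain ⟨U, hU, hUi⟩ := hinj p
      obtain ⟨U', hU'U, hU'o, hpU'⟩ := _root_.mem_nhds_iff.1 hU
      by_contra hbp
      have hV : IsOpen ({p}ᶜ : Set M) := isOpen_compl_singleton
      obtain ⟨x, hx, hx1, hx2⟩ := hpre U' {p}ᶜ hU'o hV
        (fun x _ => by
          by_cases h : x = p
          · rw [h]; exact Or.inl hpU'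
          · exact Or.inr h) ⟨p, hp, hpU'⟩ ⟨b, hb, hbp⟩
      apply hx2
      apply hUi (hU'U hx1) (hU'U hpU')
      have h1 : f x = q := hx
      rw [h1, hp]
    · rintro _ rfl
      exact hp
  refine ⟨p, ?_, hsub⟩
  -- `p` lies on the boundary
  intro hpi
  obtain ⟨U, hU, hUi⟩ := hinj p
  obtain ⟨δ, hδ, hδ0, hδU⟩ := exists_disc hpi hU
  set R : Set ℂ := {w | 1 / 2 ≤ ‖w‖ ∧ ‖w‖ ≤ 1} with hR
  have hRc : IsCompact R := by
    have : R = closedBall (0 : ℂ) 1 ∩ {w | 1 / 2 ≤ ‖w‖} := by
      ext w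
      simp [hR, and_comm]
    rw [this]
    exact (isCompact_closedBall _ _).inter_right (isClosed_le continuous_const continuous_norm)
  have hRne : R.Nonempty := ⟨1, by simp [hR]; norm_num⟩
  obtain ⟨w₁, hw₁, hw₁max⟩ := hRc.exists_isMaxOn hRne
    (f := fun w => l (f (δ w))) ((l.continuous.comp (hf.comp hδ.cont)).continuousOn)
  set c₁ : ℝ := l (f (δ w₁)) with hc₁
  have hlt : c₁ < l q := by
    rcases (hlm (δ w₁)).lt_or_eq with h | h
    · exact h
    · exfalso
      have h1 : f (δ w₁) = q := hlm' _ h.ge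
      have h2 : δ w₁ ∈ f ⁻¹' {q} := h1
      rw [hsub] at h2
      have h3 : δ w₁ = δ 0 := by rw [hδ0]; exact h2
      have h4 : w₁ = 0 := hδ.inj (by simpa using hw₁.2) (by simp) h3
      have h5 := hw₁.1
      rw [h4] at h5
      norm_num at h5
  have hA : ∀ w ∈ R, δ w ∈ f ⁻¹' {y | -(l q) < (-l) y} := by
    intro w hw
    have h1 : l (f (δ w)) ≤ c₁ := hw₁max hw
    change -(l q) < (-l) (f (δ w))
    simp only [_root_.neg_apply, neg_lt_neg_iff]
    linarith
  obtain ⟨g, n, hg, hn, hgn⟩ := exists_odd hbd hδ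
  have hpA : ∀ m ∈ f ⁻¹' {y | -(l q) < (-l) y}, m ≠ δ 0 := by
    intro m hm hm0
    have h1 : -(l q) < (-l) (f m) := hm
    rw [hm0, hδ0, hp] at h1
    simp only [_root_.neg_apply] at h1
    exact lt_irrefl _ h1
  obtain ⟨n', hn'⟩ := ang_of_mono (f ⁻¹' {y | -(l q) < (-l) y})
    (hmono (-l) (neg_ne_zero.mpr hl0) (-(l q)) 1 le_rfl) (g := g) (hg.mono hpA) hδ.cont exp_v
    (fun i t ht => hA _ (exp_norm_edge i ht))
  have hgδ : ContinuousOn (g ∘ δ) (closedBall 0 1 \ {0}) := by
    apply hg.comp hδ.cont.continuousOn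
    intro w hw hw0
    apply hw.2
    exact hδ.inj hw.1 (by simp) hw0
  have hs := exp_sum_ang hgδ
  simp only [Function.comp_def] at hs hgn
  rw [hn', hgn] at hs
  have hpi2 := Real.pi_pos
  have h2 : (n : ℝ) = 2 * n' := by
    have : 2 * Real.pi * (n : ℝ) = 2 * Real.pi * (2 * n') := by linarith
    exact mul_left_cancel₀ (by positivity) this
  have h3 : n = 2 * n' := by exact_mod_cast h2
  obtain ⟨k, hk⟩ := hn
  omega

end Final

end Pool.Agent.Kuiper
end
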